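import Mathlib

/-!
# MP_7692e7_ag, block C: graded matrix factorizations, definitions

Convention: the variables have weight `2`, `f` has weight `6` (degree `3`), and a graded matrix
factorization is ONE matrix `Q` of weight `3` with `Q * Q = f`, over a finite free module with
basis elements of weights `w i : ℤ`. The parity is the parity of the weight.

* `Hg p e` : all monomials of `p` have weight `e` (`2 * degree = e`);
* `MF f` : graded matrix factorizations of `f`;
* `MF.Hom E F q` : matrices of weight `q`; `MF.dm E F q φ = Q_F φ - (-1)^q φ Q_E`;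
* `MF.Z`, `MF.B`, `MF.HH` : cocycles, coboundaries, cohomology in weight `q`;
* `MF.chi E F = ∑ (-1)^i dim HH E F (3 i)`;
* `MF.sh c E` : all weights shifted by `c`; `MF.star E a b` : the extension by `(a, b)`
  (for `b = 0` this is the cone of `a`);
* `VG f` : the coefficients of `f` satisfy no nonzero homogeneous polynomial over `ℤ`.
-/

open MvPolynomial

noncomputable section

namespace KuMF

variable {k : Type} [Field k] {n : ℕ}

/-- `p` is homogeneous of weight `e`, where every variable has weight `2`. -/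
def Hg (p : MvPolynomial (Fin n) k) (e : ℤ) : Prop :=
  ∀ m ∈ p.support, 2 * (m.degree : ℤ) = e

lemma Hg.zero (e : ℤ) : Hg (0 : MvPolynomial (Fin n) k) e := by
  intro m hm; simp at hm

lemma Hg.add {p q : MvPolynomial (Fin n) k} {e : ℤ} (hp : Hg p e) (hq : Hg q e) :
    Hg (p + q) e := by
  classical
  intro m hm
  rcases Finset.mem_union.1 (MvPolynomial.support_add hm) with h | h
  · exact hp m h
  · exact hq m h

lemma Hg.smul (c : k) {p : MvPolynomial (Fin n) k} {e : ℤ} (hp : Hg p e) : Hg (c • p) e :=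
  fun m hm => hp m (MvPolynomial.support_smul hm)

lemma Hg.neg {p : MvPolynomial (Fin n) k} {e : ℤ} (hp : Hg p e) : Hg (-p) e := by
  have := hp.smul (-1)
  rwa [neg_one_smul] at this

lemma Hg.sub {p q : MvPolynomial (Fin n) k} {e : ℤ} (hp : Hg p e) (hq : Hg q e) :
    Hg (p - q) e := by
  rw [sub_eq_add_neg]; exact hp.add hq.neg

lemma Hg.mul {p q : MvPolynomial (Fin n) k} {e e' : ℤ} (hp : Hg p e) (hq : Hg q e') :
    Hg (p * q) (e + e') := by
  classical
  intro m hm
  obtain ⟨a, ha, b, hb, rfl⟩ := Finset.mem_add.1 (MvPolynomial.support_mul p q hm)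
  rw [← hp a ha, ← hq b hb, map_add]
  push_cast
  ring

lemma Hg.sum {ι : Type*} (s : Finset ι) {p : ι → MvPolynomial (Fin n) k} {e : ℤ}
    (h : ∀ i ∈ s, Hg (p i) e) : Hg (∑ i ∈ s, p i) e := by
  classical
  induction s using Finset.induction_on with
  | empty => simpa using Hg.zero e
  | insert a s ha ih =>
    rw [Finset.sum_insert ha]
    exact (h a (Finset.mem_insert_self a s)).add (ih fun i hi => h i (Finset.mem_insert_of_mem hi))

lemma Hg.of_eq {p : MvPolynomial (Fin n) k} {e e' : ℤ} (hp : Hg p e) (h : e = e') : Hg p e' :=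
  h ▸ hp

lemma Hg.C (c : k) : Hg (MvPolynomial.C c : MvPolynomial (Fin n) k) 0 := by
  classical
  intro m hm
  rw [MvPolynomial.mem_support_iff, MvPolynomial.coeff_C] at hm
  have : m = 0 := by
    by_contra h
    exact hm (if_neg (Ne.symm h))
  simp [this]

lemma Hg.one : Hg (1 : MvPolynomial (Fin n) k) 0 := by
  have := Hg.C (n := n) (1 : k)
  rwa [MvPolynomial.C_1] at this

lemma Hg.X (i : Fin n) : Hg (MvPolynomial.X i : MvPolynomial (Fin n) k) 2 := by
  classical
  intro m hm
  rw [MvPolynomial.mem_support_iff, MvPolynomial.coeff_X] at hm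
  have : Finsupp.single i 1 = m := by
    by_contra h
    exact hm (if_neg h)
  rw [← this]
  simp

/-- A graded matrix factorization of `f`: a finite type of basis elements with weights, and a
matrix `Q` of weight `3` with `Q * Q = f`. -/
structure MF (f : MvPolynomial (Fin n) k) where
  /-- the basis -/
  ι : Type
  [fin : Fintype ι]
  [dec : DecidableEq ι]
  /-- the weights of the basis elements -/
  w : ι → ℤ
  /-- the matrix -/
  Q : Matrix ι ι (MvPolynomial (Fin n) k)
  hQ : ∀ i j, Hg (Q i j) (w j - w i + 3)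
  sq : Q * Q = f • (1 : Matrix ι ι (MvPolynomial (Fin n) k))

attribute [instance] MF.fin MF.dec

namespace MF

variable {f : MvPolynomial (Fin n) k}

/-- The matrices of weight `q` from `E` to `F`. -/
def Hom (E F : MF f) (q : ℤ) : Submodule k (Matrix F.ι E.ι (MvPolynomial (Fin n) k)) where
  carrier := {φ | ∀ i j, Hg (φ i j) (E.w j - F.w i + q)}
  zero_mem' := fun _ _ => Hg.zero _
  add_mem' := fun hφ hψ i j => (hφ i j).add (hψ i j)
  smul_mem' := fun c _ hφ i j => (hφ i j).smul c

lemma mem_Hom {E F : MF f} {q : ℤ} {φ : Matrix F.ι E.ι (MvPolynomial (Fin n) k)} :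
    φ ∈ Hom E F q ↔ ∀ i j, Hg (φ i j) (E.w j - F.w i + q) := Iff.rfl

lemma Q_mem (E : MF f) : E.Q ∈ Hom E E 3 := fun i j => E.hQ i j

lemma mul_mem {E F G : MF f} {p q : ℤ} {φ : Matrix F.ι E.ι (MvPolynomial (Fin n) k)}
    {ψ : Matrix G.ι F.ι (MvPolynomial (Fin n) k)} (hψ : ψ ∈ Hom F G p) (hφ : φ ∈ Hom E F q) :
    ψ * φ ∈ Hom E G (p + q) := by
  intro i j
  rw [Matrix.mul_apply]
  refine Hg.sum _ fun l _ => ((hψ i l).mul (hφ l j)).of_eq ?_
  ring

lemma one_mem (E : MF f) : (1 : Matrix E.ι E.ι (MvPolynomial (Fin n) k)) ∈ Hom E E 0 := by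
  intro i j
  rcases eq_or_ne i j with rfl | h
  · rw [Matrix.one_apply_eq]; exact Hg.one.of_eq (by ring)
  · rw [Matrix.one_apply_ne h]; exact Hg.zero _

/-- The differential `φ ↦ Q_F φ - (-1)^q φ Q_E` (on matrices of weight `q`). -/
def dm (E F : MF f) (q : ℤ) : Matrix F.ι E.ι (MvPolynomial (Fin n) k) →ₗ[k]
    Matrix F.ι E.ι (MvPolynomial (Fin n) k) where
  toFun φ := F.Q * φ - (q.negOnePow : ℤ) • (φ * E.Q)
  map_add' φ ψ := by
    rw [Matrix.mul_add, Matrix.add_mul, smul_add]; abel
  map_smul' c φ := by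
    simp only [RingHom.id_apply, Matrix.mul_smul, Matrix.smul_mul, smul_sub]
    rw [smul_comm]

lemma dm_apply (E F : MF f) (q : ℤ) (φ : Matrix F.ι E.ι (MvPolynomial (Fin n) k)) :
    dm E F q φ = F.Q * φ - (q.negOnePow : ℤ) • (φ * E.Q) := rfl

lemma dm_mem {E F : MF f} {q : ℤ} {φ : Matrix F.ι E.ι (MvPolynomial (Fin n) k)}
    (hφ : φ ∈ Hom E F q) : dm E F q φ ∈ Hom E F (q + 3) := by
  rw [dm_apply]
  refine Submodule.sub_mem _ ?_ (zsmul_mem ?_ _)
  · have := mul_mem (Q_mem F) hφ
    rwa [add_comm] at this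
  · exact mul_mem hφ (Q_mem E)

/-- The cocycles of weight `q`. -/
def Z (E F : MF f) (q : ℤ) : Submodule k (Matrix F.ι E.ι (MvPolynomial (Fin n) k)) :=
  Hom E F q ⊓ LinearMap.ker (dm E F q)

/-- The coboundaries of weight `q`. -/
def B (E F : MF f) (q : ℤ) : Submodule k (Matrix F.ι E.ι (MvPolynomial (Fin n) k)) :=
  (Hom E F (q - 3)).map (dm E F (q - 3))

/-- The cohomology of the Hom complex in weight `q`. -/
abbrev HH (E F : MF f) (q : ℤ) : Type := (Z E F q) ⧸ ((B E F q).submoduleOf (Z E F q))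

/-- The Euler form `∑ (-1)^i dim Hom(E, F[i])`, `Hom(E, F[i]) = HH E F (3 i)`. -/
def chi (E F : MF f) : ℤ :=
  ∑ᶠ i : ℤ, (Int.negOnePow i : ℤ) * (Module.finrank k (HH E F (3 * i)) : ℤ)

/-- Shift of all weights by `c`. The shift `[1]` is (up to the sign of `Q`) `sh (-3)`,
the twist `(1)` is `sh (-2)`. -/
def sh (c : ℤ) (E : MF f) : MF f where
  ι := E.ι
  w i := E.w i + c
  Q := E.Q
  hQ i j := (E.hQ i j).of_eq (by ring)
  sq := E.sq

/-- The extension of `E` by `(a, b)`, `a` of weight `e + 3`: on pairs `(v, u)` (`v` with weights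
`w i`, `u` with weights `w i + e`) the matrix `Q (v, u) = (Q v + a u, b v - Q u)`.
It is a matrix factorization of `f + a b`.
For `b = 0` it is the cone of `a : E → E` (of weight `e + 3`). -/
def star (E : MF f) (a b : MvPolynomial (Fin n) k) (e : ℤ) (ha : Hg a (e + 3))
    (hb : Hg b (3 - e)) : MF (f + a * b) where
  ι := E.ι ⊕ E.ι
  w := Sum.elim E.w fun i => E.w i + e
  Q := Matrix.fromBlocks E.Q (a • 1) (b • 1) (-E.Q)
  hQ := by
    have h1 : ∀ i j : E.ι, ∀ (p : MvPolynomial (Fin n) k) (c : ℤ), Hg p c →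
        Hg ((p • (1 : Matrix E.ι E.ι (MvPolynomial (Fin n) k))) i j) (E.w j - E.w i + c) := by
      intro i j p c hp
      rw [Matrix.smul_apply, smul_eq_mul]
      rcases eq_or_ne i j with rfl | h
      · rw [Matrix.one_apply_eq, mul_one]; exact hp.of_eq (by ring)
      · rw [Matrix.one_apply_ne h, mul_zero]; exact Hg.zero _
    rintro (i | i) (j | j)
    · rw [Matrix.fromBlocks_apply₁₁]; exact (E.hQ i j).of_eq (by simp)
    · rw [Matrix.fromBlocks_apply₁₂]
      exact (h1 i j a _ ha).of_eq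
        (by simp only [Sum.elim_inl, Sum.elim_inr]; ring)
    · rw [Matrix.fromBlocks_apply₂₁]
      exact (h1 i j b _ hb).of_eq
        (by simp only [Sum.elim_inl, Sum.elim_inr]; ring)
    · rw [Matrix.fromBlocks_apply₂₂]
      exact (E.hQ i j).neg.of_eq (by simp only [Sum.elim_inr]; ring)
  sq := by
    rw [Matrix.fromBlocks_multiply, ← Matrix.fromBlocks_one, Matrix.fromBlocks_smul]
    simp only [Matrix.smul_mul, Matrix.mul_smul, Matrix.one_mul, Matrix.mul_one, Matrix.mul_neg,
      Matrix.neg_mul, neg_neg, E.sq, smul_zero, smul_smul, add_smul]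
    congr 1
    · rw [mul_comm b a]
    · simp
    · simp
    · rw [add_comm]

end MF

/-- The exponents of the cubic monomials in six variables. -/
abbrev CMon : Type := {m : Fin 6 →₀ ℕ // m.degree = 3}

/-- very general: no nonzero homogeneous polynomial with integer coefficients vanishes at the
`56` coefficients of `f`. -/
def VG (f : MvPolynomial (Fin 6) ℂ) : Prop :=
  ∀ (P : MvPolynomial CMon ℤ) (d : ℕ), P.IsHomogeneous d → P ≠ 0 →
    aeval (fun m : CMon => f.coeff m.1) P ≠ 0

end KuMF
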