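import Pool.Agent.H91.MF.Hc

/-!
# Trace and invariant subspaces; Hopf trace formula

STATEMENTS TO PROVE (job MF-TR).

`trace_add_quot`: for an invariant subspace `p` of a finite dimensional space,
`tr f = tr (f|p) + tr (f on V/p)`.
PROOF. Choose a complement `q` (`Submodule.exists_isCompl`), a basis of `V` made of a basis of `p`
and one of `q` (`Basis.prod`, `Submodule.prodEquivOfIsCompl`), in which `f` is block triangular
(`LinearMap.toMatrix`, `Matrix.trace_fromBlocks`); or: with the projection `π` onto `p` along `q`,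
`f = π ∘ f + (1 - π) ∘ f`; `tr (π ∘ f) = tr (f|p)` by `LinearMap.trace_restrict_eq_of_forall_mem`
applied to `π ∘ f` (range in `p`, restriction to `p` is `f|p`), and
`(1 - π) ∘ f = (1-π) ∘ f ∘ (1 - π)` (since `f p ⊆ p`), conjugate through
`Submodule.quotientEquivOfIsCompl p q` to `p.mapQ`: use `LinearMap.trace_comp_comm'` for the maps
`mkQ : V → V/p` and `s : V/p → V` (section with range `q`): `mkQ ∘ (f ∘ s) = mapQ f` and
`(f ∘ s) ∘ mkQ = f ∘ (1 - π)`, `tr (f ∘ (1-π)) = tr f - tr (f ∘ π)`, `tr (f ∘ π) = tr (π ∘ f)`.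

`Hc.trace_map_eq` (Hopf): `V` finite dimensional, `D² = 0`, `D A = - A D`; then
`tr (A on Hc D) = tr A`.
PROOF. Let `K = ker D`, invariant under `A`. `tr A = tr (A|K) + tr (A on V/K)`. `V/K ≅ range D`
through `D` (`LinearMap.quotKerEquivRange`), and `D A = -A D` gives
`tr (A on V/K) = - tr (A | range D)` (`LinearMap.trace_conj'`). Inside `K`:
`tr (A|K) = tr (A | (range D).submoduleOf K) + tr (A on Hc D)`, and
`(range D).submoduleOf K ≅ range D` (`Submodule.submoduleOfEquivOfLe`). Add up.
-/

noncomputable section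

namespace KuMF

variable {k : Type*} [Field k] {V : Type*} [AddCommGroup V] [Module k V]

theorem trace_add_quot [Module.Finite k V] (p : Submodule k V) (f : V →ₗ[k] V)
    (hf : ∀ x ∈ p, f x ∈ p) :
    LinearMap.trace k V f = LinearMap.trace k p (f.restrict hf) +
      LinearMap.trace k (V ⧸ p) (p.mapQ p f (fun x hx => hf x hx)) := by
  obtain ⟨s, hs⟩ := LinearMap.exists_rightInverse_of_surjective p.mkQ
    (LinearMap.range_eq_top.2 p.mkQ_surjective)
  have hs' : ∀ w, p.mkQ (s w) = w := fun w => by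
    have := LinearMap.congr_fun hs w
    simpa using this
  have mem : ∀ x, p.mkQ x = 0 → x ∈ p := fun x hx => (Submodule.Quotient.mk_eq_zero p).1 hx
  have mem' : ∀ x ∈ p, p.mkQ x = 0 := fun x hx => (Submodule.Quotient.mk_eq_zero p).2 hx
  have hmem : ∀ v, ((LinearMap.id : V →ₗ[k] V) - s ∘ₗ p.mkQ) v ∈ p := by
    intro v
    apply mem
    rw [LinearMap.sub_apply, map_sub, LinearMap.id_apply, LinearMap.comp_apply, hs', sub_self]
  let r : V →ₗ[k] p := LinearMap.codRestrict p (LinearMap.id - s ∘ₗ p.mkQ) hmem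
  have hr : ∀ v, ((r v : p) : V) = v - s (p.mkQ v) := fun v => rfl
  have hid : f = (f ∘ₗ p.subtype) ∘ₗ r + (f ∘ₗ s) ∘ₗ p.mkQ := by
    ext v
    change f v = f (r v : V) + f (s (p.mkQ v))
    rw [hr, ← map_add, sub_add_cancel]
  have h1 : LinearMap.trace k V ((f ∘ₗ p.subtype) ∘ₗ r) =
      LinearMap.trace k p (f.restrict hf) := by
    rw [LinearMap.trace_comp_comm']
    congr 1
    ext x
    change ((r (f (x : V)) : p) : V) = f x
    have : p.mkQ (f (x : V)) = 0 := mem' _ (hf x x.2)
    rw [hr, this, map_zero, sub_zero]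
  have h2 : LinearMap.trace k V ((f ∘ₗ s) ∘ₗ p.mkQ) =
      LinearMap.trace k (V ⧸ p) (p.mapQ p f (fun x hx => hf x hx)) := by
    rw [LinearMap.trace_comp_comm']
    congr 1
    apply LinearMap.ext
    intro w
    obtain ⟨v, rfl⟩ := p.mkQ_surjective w
    change p.mkQ (f (s (p.mkQ v))) = p.mkQ (f v)
    rw [← sub_eq_zero, ← map_sub, ← map_sub]
    apply mem'
    apply hf
    have : s (p.mkQ v) - v = -((r v : p) : V) := by rw [hr]; abel
    rw [this]
    exact p.neg_mem (r v).2
  conv_lhs => rw [hid]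
  rw [map_add, h1, h2]

/-- Trace on a subspace through an isomorphism: if `e : p ≃ q` intertwines up to the scalar `c`. -/
theorem trace_eq_smul_of_equiv {V W : Type*} [AddCommGroup V] [Module k V] [AddCommGroup W]
    [Module k W] (e : V ≃ₗ[k] W) (f : V →ₗ[k] V) (g : W →ₗ[k] W) (c : k)
    (h : ∀ v, e (f v) = c • g (e v)) :
    LinearMap.trace k V f = c * LinearMap.trace k W g := by
  rw [← LinearMap.trace_conj' f e]
  have : e.conj f = c • g := by
    ext w
    rw [LinearEquiv.conj_apply_apply, h, e.apply_symm_apply]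
    rfl
  rw [this, map_smul, smul_eq_mul]

theorem Hc.trace_map_eq [Module.Finite k V] (D A : V →ₗ[k] V) (hD : ∀ v, D (D v) = 0)
    (hA : ∀ v, D (A v) = (-1 : k) • A (D v)) :
    LinearMap.trace k (Hc D) (Hc.map A (-1) neg_one_ne hA) = LinearMap.trace k V A := by
  have hK : ∀ x ∈ LinearMap.ker D, A x ∈ LinearMap.ker D := by
    intro x hx
    rw [LinearMap.mem_ker] at hx ⊢
    rw [hA, hx, map_zero, smul_zero]
  have hR : ∀ x ∈ LinearMap.range D, A x ∈ LinearMap.range D := by
    rintro _ ⟨v, rfl⟩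
    refine ⟨(-1 : k) • A v, ?_⟩
    rw [map_smul, hA, smul_smul]
    simp
  have hle : LinearMap.range D ≤ LinearMap.ker D := by
    rintro _ ⟨v, rfl⟩
    exact hD v
  have t1 := trace_add_quot (LinearMap.ker D) A hK
  have t2 : LinearMap.trace k (V ⧸ LinearMap.ker D)
      ((LinearMap.ker D).mapQ (LinearMap.ker D) A (fun x hx => hK x hx)) =
      (-1) * LinearMap.trace k (LinearMap.range D) (A.restrict hR) := by
    refine trace_eq_smul_of_equiv D.quotKerEquivRange _ _ (-1) ?_
    intro v
    obtain ⟨x, rfl⟩ := Submodule.Quotient.mk_surjective _ v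
    apply Subtype.ext
    change D (A x) = (-1 : k) • A (D x)
    exact hA x
  have hS : ∀ x ∈ (LinearMap.range D).submoduleOf (LinearMap.ker D),
      (A.restrict hK) x ∈ (LinearMap.range D).submoduleOf (LinearMap.ker D) := by
    intro x hx
    exact hR _ hx
  have t3 := trace_add_quot ((LinearMap.range D).submoduleOf (LinearMap.ker D))
    (A.restrict hK) hS
  have t4 : LinearMap.trace k ((LinearMap.range D).submoduleOf (LinearMap.ker D))
      ((A.restrict hK).restrict hS) =
      1 * LinearMap.trace k (LinearMap.range D) (A.restrict hR) := by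
    refine trace_eq_smul_of_equiv (Submodule.submoduleOfEquivOfLe hle) _ _ 1 ?_
    intro v
    rw [one_smul]
    rfl
  have t5 : LinearMap.trace k (Hc D) (Hc.map A (-1) neg_one_ne hA) =
      LinearMap.trace k (LinearMap.ker D ⧸ (LinearMap.range D).submoduleOf (LinearMap.ker D))
        (((LinearMap.range D).submoduleOf (LinearMap.ker D)).mapQ
          ((LinearMap.range D).submoduleOf (LinearMap.ker D)) (A.restrict hK)
          (fun x hx => hS x hx)) := rfl
  rw [t5]
  linear_combination (-1 : k) * t1 - t2 - t3 - t4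

end KuMF
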