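import Pool.Agent.H91.MF.Step
import Pool.Agent.H91.MF.TrAdd

/-!
# Iterated step: killing `n` null-homotopic elements

STATEMENT TO PROVE (job MF-ITER). Induction on `n` from `one_step` and `Hc.trace_map_eq`.

`n = 0`: `ker π = ⊥`, so `π` is an isomorphism intertwining `DV`, `DW` and `A`, `AW`; `Hc DV` is a
quotient of the finite dimensional `ker DV` and the trace is `Hc.trace_map_eq` for `W` (transport
`V` to `W`, or `Module.Finite k V` and `Hc.trace_map_eq` for `V` and `LinearMap.trace_conj'`).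

Step `n + 1`: `V' = V ⧸ range (y 0)`, all operators descend (they commute with `y 0`; `nb i` for
`i ≠ 0` commute with `y 0`); `A' := AW`-type operator on `V'`: `A' a' l'` where `a'` is induced by
`nb 0 DV - DV nb 0` (it commutes with all `y j`: use `nb 0 (y j) = y j (nb 0)` for `j ≠ 0`, and
`nb 0 y 0 = y 0 nb 0 + 1`) and `l'` by `l 0`. `one_step` with `W := V'`, `π := mkQ`,
`y := y 0` gives `tr (A on Hc DV) = tr (A' a' l' on Hc DV')` provided `Hc DV'` is finite
dimensional; the induction hypothesis for `V'`, the operators with index `i.succ`, `A := A' a' l'`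
and `π' : V' → W` (`Submodule.liftQ`) gives this and
`tr (A' a' l' on Hc DV') = tr (AW aW 0 lW 0 * ∏ (aW i.succ * lW i.succ))`
(`List.ofFn_succ`, `List.prod_cons`, `mul_assoc`).
The regularity hypothesis for `V'`: preimages under `mkQ` : if `y i.succ v ∈ ⨆_{j < i} range` mod
`range (y 0)` then `y i.succ v ∈ ⨆_{j < i.succ} range (y j)`.
-/

noncomputable section

namespace KuMF

universe u w

variable {k : Type*} [Field k]

/-- The sum of the ranges of the first `i + 1` operators. -/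
lemma iSup_range_succ {V : Type*} [AddCommGroup V] [Module k V] {n : ℕ}
    (y : Fin (n + 1) → V →ₗ[k] V) (i : Fin n) :
    (⨆ (j : Fin (n + 1)) (_ : j < i.succ), LinearMap.range (y j)) =
      (⨆ (j : Fin n) (_ : j < i), LinearMap.range (y j.succ)) ⊔ LinearMap.range (y 0) := by
  apply le_antisymm
  · refine iSup_le fun j => iSup_le fun hj => ?_
    rcases Fin.eq_zero_or_eq_succ j with rfl | ⟨j', rfl⟩
    · exact le_sup_right
    · refine le_trans ?_ le_sup_left
      exact le_iSup₂_of_le j' (Fin.succ_lt_succ_iff.1 hj) le_rfl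
  · refine sup_le (iSup_le fun j => iSup_le fun hj => ?_) ?_
    · exact le_iSup₂_of_le j.succ (Fin.succ_lt_succ_iff.2 hj) le_rfl
    · exact le_iSup₂_of_le 0 (Fin.succ_pos i) le_rfl

/-- The sum of the ranges of all operators. -/
lemma iSup_range_all {V : Type*} [AddCommGroup V] [Module k V] {n : ℕ}
    (y : Fin (n + 1) → V →ₗ[k] V) :
    (⨆ j : Fin (n + 1), LinearMap.range (y j)) =
      (⨆ j : Fin n, LinearMap.range (y j.succ)) ⊔ LinearMap.range (y 0) := by
  apply le_antisymm
  · refine iSup_le fun j => ?_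
    rcases Fin.eq_zero_or_eq_succ j with rfl | ⟨j', rfl⟩
    · exact le_sup_right
    · refine le_trans ?_ le_sup_left
      exact le_iSup_of_le j' le_rfl
  · refine sup_le (iSup_le fun j => ?_) ?_
    · exact le_iSup_of_le j.succ le_rfl
    · exact le_iSup_of_le 0 le_rfl

lemma range_mapQ {V : Type*} [AddCommGroup V] [Module k V] (p : Submodule k V) (f : V →ₗ[k] V)
    (h : p ≤ p.comap f) :
    LinearMap.range (p.mapQ p f h) = (LinearMap.range f).map p.mkQ := by
  ext x
  constructor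
  · rintro ⟨z, rfl⟩
    obtain ⟨v, rfl⟩ := p.mkQ_surjective z
    exact ⟨f v, ⟨v, rfl⟩, rfl⟩
  · rintro ⟨_, ⟨v, rfl⟩, rfl⟩
    exact ⟨p.mkQ v, rfl⟩

theorem iter_step (n : ℕ) : ∀ {V : Type u} {W : Type w} [AddCommGroup V] [Module k V]
    [AddCommGroup W] [Module k W] [Module.Finite k W]
    (DV A : V →ₗ[k] V) (y l nb : Fin n → V →ₗ[k] V) (DW AW : W →ₗ[k] W)
    (lW aW : Fin n → W →ₗ[k] W) (π : V →ₗ[k] W)
    (_ : ∀ v, DV (DV v) = 0) (_ : Function.Surjective π)
    (_ : LinearMap.ker π = ⨆ i, LinearMap.range (y i))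
    (_ : ∀ i j v, y i (y j v) = y j (y i v))
    (_ : ∀ i v, DV (y i v) = y i (DV v)) (_ : ∀ i v, DV (l i v) + l i (DV v) = y i v)
    (_ : ∀ i j v, l i (y j v) = y j (l i v))
    (_ : ∀ i v, nb i (y i v) - y i (nb i v) = v)
    (_ : ∀ i j, i ≠ j → ∀ v, nb i (y j v) = y j (nb i v))
    (_ : ∀ i v, y i v ∈ ⨆ (j : Fin n) (_ : j < i), LinearMap.range (y j) →
      v ∈ ⨆ (j : Fin n) (_ : j < i), LinearMap.range (y j))
    (hA : ∀ v, DV (A v) = (-1 : k) • A (DV v)) (_ : ∀ i v, A (y i v) = y i (A v))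
    (_ : ∀ v, DW (π v) = π (DV v)) (_ : ∀ v, AW (π v) = π (A v))
    (_ : ∀ i v, lW i (π v) = π (l i v))
    (_ : ∀ i v, aW i (π v) = π (nb i (DV v) - DV (nb i v))),
    Module.Finite k (Hc DV) ∧
      LinearMap.trace k (Hc DV) (Hc.map A (-1) neg_one_ne hA) =
        LinearMap.trace k W (AW * (List.ofFn fun i => aW i * lW i).prod) := by
  induction n with
  | zero =>
    intro V W _ _ _ _ _ DV A y l nb DW AW lW aW π hD hπ hker _ _ _ _ _ _ _ hA _ hDW hAW _ _
    have hk : LinearMap.ker π = ⊥ := by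
      rw [hker, iSup_of_empty]
    have hinj : Function.Injective π := LinearMap.ker_eq_bot.1 hk
    let e : V ≃ₗ[k] W := LinearEquiv.ofBijective π ⟨hinj, hπ⟩
    have hfV : Module.Finite k V := Module.Finite.equiv e.symm
    refine ⟨inferInstance, ?_⟩
    rw [Hc.trace_map_eq DV A hD hA, List.ofFn_zero, List.prod_nil, mul_one,
      ← LinearMap.trace_conj' A e]
    congr 1
    apply LinearMap.ext
    intro w
    obtain ⟨v, rfl⟩ := hπ w
    rw [hAW, LinearEquiv.conj_apply]
    simp only [LinearMap.comp_apply, LinearEquiv.coe_coe]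
    have h1 : e.symm (π v) = v := by
      rw [LinearEquiv.symm_apply_eq]
      rfl
    rw [h1]
    rfl
  | succ n ih =>
    intro V W _ _ _ _ _ DV A y l nb DW AW lW aW π hD hπ hker hyy hDy hl hly hnb hnby hreg hA hAy
      hDW hAW hlW haW
    set p : Submodule k V := LinearMap.range (y 0) with hp
    -- operators commuting with `y 0` descend
    have hdesc : ∀ f : V →ₗ[k] V, (∀ v, f (y 0 v) = y 0 (f v)) → p ≤ p.comap f := by
      rintro f hf _ ⟨v, rfl⟩
      exact ⟨f v, (hf v).symm⟩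
    have hy0 : Function.Injective (y 0) := by
      rw [injective_iff_map_eq_zero]
      intro v hv
      have h1 := hreg 0 v (by rw [hv]; exact Submodule.zero_mem _)
      have h2 : (⨆ (j : Fin (n + 1)) (_ : j < 0), LinearMap.range (y j)) = ⊥ := by
        refine le_bot_iff.1 (iSup_le fun j => iSup_le fun hj => ?_)
        exact absurd hj (Fin.not_lt_zero j)
      rw [h2] at h1
      exact (Submodule.mem_bot k).1 h1
    let a0 : V →ₗ[k] V := nb 0 ∘ₗ DV - DV ∘ₗ nb 0
    have ha0 : ∀ v, a0 v = nb 0 (DV v) - DV (nb 0 v) := fun v => rfl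
    have ha0y0 : ∀ v, a0 (y 0 v) = y 0 (a0 v) := by
      intro v
      have h1 : nb 0 (y 0 (DV v)) = DV v + y 0 (nb 0 (DV v)) := by
        rw [← sub_eq_iff_eq_add, hnb]
      have h2 : nb 0 (y 0 v) = v + y 0 (nb 0 v) := by
        rw [← sub_eq_iff_eq_add, hnb]
      rw [ha0, ha0, hDy, h1, h2, map_add, map_sub, hDy]
      abel
    have ha0y : ∀ i : Fin n, ∀ v, a0 (y i.succ v) = y i.succ (a0 v) := by
      intro i v
      rw [ha0, ha0, hDy, hnby 0 i.succ (Fin.succ_ne_zero i).symm,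
        hnby 0 i.succ (Fin.succ_ne_zero i).symm, hDy, map_sub]
    have hDVd := hdesc DV (hDy 0)
    have hAd := hdesc A (hAy 0)
    have ha0d := hdesc a0 ha0y0
    have hl0d := hdesc (l 0) (hly 0 0)
    have hyd : ∀ i : Fin n, p ≤ p.comap (y i.succ) := fun i => hdesc _ (hyy i.succ 0)
    have hld : ∀ i : Fin n, p ≤ p.comap (l i.succ) := fun i => hdesc _ (hly i.succ 0)
    have hnbd : ∀ i : Fin n, p ≤ p.comap (nb i.succ) :=
      fun i => hdesc _ (hnby i.succ 0 (Fin.succ_ne_zero i))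
    have hpk : p ≤ LinearMap.ker π := by
      rw [hker]
      exact le_iSup (fun i => LinearMap.range (y i)) 0
    let DV' : (V ⧸ p) →ₗ[k] (V ⧸ p) := p.mapQ p DV hDVd
    let AV' : (V ⧸ p) →ₗ[k] (V ⧸ p) := p.mapQ p A hAd
    let a0' : (V ⧸ p) →ₗ[k] (V ⧸ p) := p.mapQ p a0 ha0d
    let l0' : (V ⧸ p) →ₗ[k] (V ⧸ p) := p.mapQ p (l 0) hl0d
    let y' : Fin n → (V ⧸ p) →ₗ[k] (V ⧸ p) := fun i => p.mapQ p (y i.succ) (hyd i)
    let l' : Fin n → (V ⧸ p) →ₗ[k] (V ⧸ p) := fun i => p.mapQ p (l i.succ) (hld i)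
    let nb' : Fin n → (V ⧸ p) →ₗ[k] (V ⧸ p) := fun i => p.mapQ p (nb i.succ) (hnbd i)
    let π' : (V ⧸ p) →ₗ[k] W := p.liftQ π hpk
    have eD : ∀ v, DV' (p.mkQ v) = p.mkQ (DV v) := fun v => rfl
    have eA : ∀ v, AV' (p.mkQ v) = p.mkQ (A v) := fun v => rfl
    have ea : ∀ v, a0' (p.mkQ v) = p.mkQ (a0 v) := fun v => rfl
    have el0 : ∀ v, l0' (p.mkQ v) = p.mkQ (l 0 v) := fun v => rfl
    have ey : ∀ i v, y' i (p.mkQ v) = p.mkQ (y i.succ v) := fun i v => rfl
    have el : ∀ i v, l' i (p.mkQ v) = p.mkQ (l i.succ v) := fun i v => rfl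
    have en : ∀ i v, nb' i (p.mkQ v) = p.mkQ (nb i.succ v) := fun i v => rfl
    have eπ : ∀ v, π' (p.mkQ v) = π v := fun v => rfl
    have sur := p.mkQ_surjective
    have hy0z : ∀ v, p.mkQ (y 0 v) = 0 := by
      intro v
      rw [Submodule.mkQ_apply, Submodule.Quotient.mk_eq_zero]
      exact ⟨v, rfl⟩
    -- sign of `AV' a0' l0'`
    have hA' : ∀ v, DV' ((AV' ∘ₗ a0' ∘ₗ l0') v) = (-1 : k) • (AV' ∘ₗ a0' ∘ₗ l0') (DV' v) := by
      intro z
      obtain ⟨v, rfl⟩ := sur z
      have h1 : DV (l 0 v) = y 0 v - l 0 (DV v) := by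
        rw [eq_sub_iff_add_eq, hl]
      have h2 : ∀ u, DV (a0 u) = - a0 (DV u) := by
        intro u
        rw [ha0, ha0, map_sub, hD, hD, map_zero]
        abel
      simp only [LinearMap.comp_apply]
      rw [el0, ea, eA, eD, eD, el0, ea, eA, hA, h2, h1, ← map_smul]
      have h3 : a0 (y 0 v - l 0 (DV v)) = y 0 (a0 v) - a0 (l 0 (DV v)) := by
        rw [map_sub, ha0y0]
      rw [h3, neg_one_smul, neg_neg, map_sub, hAy, map_sub, hy0z, zero_sub,
        neg_one_smul]
    obtain ⟨hf', ht'⟩ := ih (V := V ⧸ p) (W := W) DV' (AV' ∘ₗ a0' ∘ₗ l0') y' l' nb' DW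
      (AW ∘ₗ aW 0 ∘ₗ lW 0) (fun i => lW i.succ) (fun i => aW i.succ) π'
      (fun z => by
        obtain ⟨v, rfl⟩ := sur z
        rw [eD, eD, hD, map_zero])
      (fun w => by
        obtain ⟨v, rfl⟩ := hπ w
        exact ⟨p.mkQ v, rfl⟩)
      (by
        have h1 : LinearMap.ker π' = (LinearMap.ker π).map p.mkQ := Submodule.ker_liftQ _ _ _
        rw [h1, hker, iSup_range_all, Submodule.map_sup, Submodule.map_iSup]
        have h2 : (LinearMap.range (y 0)).map p.mkQ = ⊥ := Submodule.mkQ_map_self _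
        rw [h2, sup_bot_eq]
        congr 1
        funext i
        exact (range_mapQ p (y i.succ) (hyd i)).symm)
      (fun i j z => by
        obtain ⟨v, rfl⟩ := sur z
        rw [ey, ey, ey, ey, hyy])
      (fun i z => by
        obtain ⟨v, rfl⟩ := sur z
        rw [ey, eD, eD, ey, hDy])
      (fun i z => by
        obtain ⟨v, rfl⟩ := sur z
        rw [el, eD, eD, el, ey, ← map_add, hl])
      (fun i j z => by
        obtain ⟨v, rfl⟩ := sur z
        rw [ey, el, el, ey, hly])
      (fun i z => by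
        obtain ⟨v, rfl⟩ := sur z
        rw [ey, en, en, ey, ← map_sub, hnb])
      (fun i j hij z => by
        obtain ⟨v, rfl⟩ := sur z
        rw [ey, en, en, ey, hnby i.succ j.succ (fun h => hij (Fin.succ_injective _ h))])
      (fun i z => by
        obtain ⟨v, rfl⟩ := sur z
        have h1 : (⨆ (j : Fin n) (_ : j < i), LinearMap.range (y' j)) =
            (⨆ (j : Fin n) (_ : j < i), LinearMap.range (y j.succ)).map p.mkQ := by
          simp only [Submodule.map_iSup]
          congr 1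
          funext j
          congr 1
          funext _
          exact range_mapQ p (y j.succ) (hyd j)
        have h2 : ∀ x, p.mkQ x ∈ (⨆ (j : Fin n) (_ : j < i), LinearMap.range (y' j)) ↔
            x ∈ ⨆ (j : Fin (n + 1)) (_ : j < i.succ), LinearMap.range (y j) := by
          intro x
          rw [h1, iSup_range_succ, ← Submodule.mem_comap, Submodule.comap_map_mkQ, sup_comm]
        rw [ey, h2, h2]
        exact hreg i.succ v)
      hA'
      (fun i z => by
        obtain ⟨v, rfl⟩ := sur z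
        simp only [LinearMap.comp_apply]
        rw [ey, el0, ea, eA, el0, ea, eA, ey, hly, ha0y, hAy])
      (fun z => by
        obtain ⟨v, rfl⟩ := sur z
        rw [eπ, eD, eπ, hDW])
      (fun z => by
        obtain ⟨v, rfl⟩ := sur z
        simp only [LinearMap.comp_apply]
        rw [el0, ea, eA, eπ, eπ, hlW, haW, hAW, ha0])
      (fun i z => by
        obtain ⟨v, rfl⟩ := sur z
        rw [eπ, el, eπ, hlW])
      (fun i z => by
        obtain ⟨v, rfl⟩ := sur z
        rw [eπ, eD, en, en, eD, ← map_sub, eπ, haW])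
    obtain ⟨h'', hf, ht⟩ := one_step DV A (y 0) (l 0) (nb 0) DV' AV' l0' a0' p.mkQ hD sur
      (by rw [Submodule.ker_mkQ]) hy0 (hDy 0) (hl 0) (hnb 0) hA eD eA el0 (fun v => by rw [ea, ha0])
    refine ⟨hf, ?_⟩
    rw [ht, ht', List.ofFn_succ, List.prod_cons]
    rfl

end KuMF
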