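import Mathlib

/-!
# The operator `nab i` on polynomials: a connection for `k[x_i^3] → k[x]`

STATEMENTS TO PROVE (job MF-NAB). `nab i` is the `k`-linear map with
`nab i (x^m) = ⌊m i / 3⌋ x^(m - 3 e_i)` (natural number division).

`nab_pow`: `nab i (X_i^3 p) = X_i^3 nab i p + p`: on monomials, `(m i + 3) / 3 = m i / 3 + 1`; if
`m i < 3` then `nab i (x^m) = 0`, otherwise `x^(m - 3 e_i) X_i^3 = x^m`.
`nab_X`: `nab i` commutes with `X_j`, `j ≠ i`: on monomials
(if `m i < 3` both sides are zero, `(m + e_j) - 3 e_i = (m - 3 e_i) + e_j` otherwise).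
`nab_hermite`: `∑_{t < 3} X_i^(2-t) nab i (X_i^t p) = pderiv i p`.
On `x^m` with `a = m i`: the `t`-th term is
`⌊(a + t)/3⌋ x_i^(2-t) x_i^(a + t - 3) = ⌊(a+t)/3⌋ x_i^(a - 1)` (zero if `a + t < 3`), and
Hermite's identity `⌊a/3⌋ + ⌊(a+1)/3⌋ + ⌊(a+2)/3⌋ = a` gives `a x^(m - e_i) = pderiv i x^m`
(`omega`; `a = 0`: all terms vanish). All statements are linear in `p`: `MvPolynomial.induction_on'`
or `MvPolynomial.basisMonomials.ext`.
-/

open MvPolynomial

noncomputable section

namespace KuMF

variable {k : Type} [Field k] {n : ℕ}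

/-- `nab i (x^m) = ⌊m i / 3⌋ x^(m - 3 e_i)`. -/
def nab (i : Fin n) : MvPolynomial (Fin n) k →ₗ[k] MvPolynomial (Fin n) k :=
  (basisMonomials (Fin n) k).constr k fun m =>
    ((m i / 3 : ℕ) : k) • monomial (m - Finsupp.single i 3) (1 : k)

lemma nab_monomial (i : Fin n) (m : Fin n →₀ ℕ) (c : k) :
    nab i (monomial m c) = ((m i / 3 : ℕ) : k) • monomial (m - Finsupp.single i 3) c := by
  have h1 : monomial m c = c • (basisMonomials (Fin n) k) m := by
    rw [coe_basisMonomials, smul_monomial, smul_eq_mul, mul_one]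
  rw [h1, map_smul]
  unfold nab
  rw [Module.Basis.constr_basis, smul_comm, smul_monomial, smul_eq_mul, mul_one]

lemma nab_aux_shift (i : Fin n) (m : Fin n →₀ ℕ) (c : k) (t : ℕ) (ht : t ≤ 2) :
    X i ^ (2 - t) * nab i (X i ^ t * monomial m c) =
      (((m i + t) / 3 : ℕ) : k) • monomial (m - Finsupp.single i 1) c := by
  rw [X_pow_eq_monomial, X_pow_eq_monomial, monomial_mul, one_mul, nab_monomial, mul_smul_comm,
    monomial_mul, one_mul]
  have h1 : (Finsupp.single i t + m : Fin n →₀ ℕ) i = m i + t := by
    simp [add_comm]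
  rw [h1]
  by_cases h : 3 ≤ m i + t
  · have he : Finsupp.single i (2 - t) + (Finsupp.single i t + m - Finsupp.single i 3) =
        m - Finsupp.single i 1 := by
      ext l
      simp only [Finsupp.add_apply, Finsupp.tsub_apply]
      by_cases hl : i = l
      · subst hl
        simp only [Finsupp.single_eq_same]
        omega
      · simp [Finsupp.single_eq_of_ne (Ne.symm hl)]
    rw [he]
  · have h2 : (m i + t) / 3 = 0 := by omega
    rw [h2, Nat.cast_zero, zero_smul, zero_smul]

theorem nab_pow (i : Fin n) (p : MvPolynomial (Fin n) k) :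
    nab i (X i ^ 3 * p) = X i ^ 3 * nab i p + p := by
  induction p using MvPolynomial.induction_on' with
  | monomial m c =>
    rw [X_pow_eq_monomial, monomial_mul, one_mul, nab_monomial, nab_monomial, mul_smul_comm,
      monomial_mul, one_mul]
    have h1 : (Finsupp.single i 3 + m : Fin n →₀ ℕ) i = m i + 3 := by
      simp [add_comm]
    have h2 : (m i + 3) / 3 = m i / 3 + 1 := by omega
    rw [h1, h2, add_tsub_cancel_left, Nat.cast_add, Nat.cast_one, add_smul, one_smul]
    congr 1
    by_cases h : 3 ≤ m i
    · have he : Finsupp.single i 3 + (m - Finsupp.single i 3) = m := by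
        ext l
        simp only [Finsupp.add_apply, Finsupp.tsub_apply]
        by_cases hl : i = l
        · subst hl
          simp only [Finsupp.single_eq_same]
          omega
        · simp [Finsupp.single_eq_of_ne (Ne.symm hl)]
      rw [he]
    · have h2 : m i / 3 = 0 := by omega
      rw [h2, Nat.cast_zero, zero_smul, zero_smul]
  | add p q hp hq =>
    rw [mul_add, map_add, hp, hq, map_add, mul_add]
    ring

theorem nab_X (i j : Fin n) (h : i ≠ j) (p : MvPolynomial (Fin n) k) :
    nab i (X j * p) = X j * nab i p := by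
  induction p using MvPolynomial.induction_on' with
  | monomial m c =>
    rw [X, monomial_mul, one_mul, nab_monomial, nab_monomial, mul_smul_comm,
      monomial_mul, one_mul]
    have h1 : (Finsupp.single j 1 + m : Fin n →₀ ℕ) i = m i := by
      simp [Finsupp.single_eq_of_ne h]
    have he : Finsupp.single j 1 + m - Finsupp.single i 3 =
        Finsupp.single j 1 + (m - Finsupp.single i 3) := by
      ext l
      simp only [Finsupp.add_apply, Finsupp.tsub_apply]
      by_cases hl : i = l
      · subst hl
        simp [Finsupp.single_eq_of_ne h]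
      · simp [Finsupp.single_eq_of_ne (Ne.symm hl)]
    rw [h1, he]
  | add p q hp hq =>
    rw [mul_add, map_add, hp, hq, map_add, mul_add]

theorem nab_hermite (i : Fin n) (p : MvPolynomial (Fin n) k) :
    ∑ t : Fin 3, X i ^ (2 - (t : ℕ)) * nab i (X i ^ (t : ℕ) * p) = pderiv i p := by
  induction p using MvPolynomial.induction_on' with
  | monomial m c =>
    rw [Finset.sum_congr rfl fun (t : Fin 3) _ =>
      nab_aux_shift i m c (t : ℕ) (by omega), ← Finset.sum_smul, pderiv_monomial, smul_monomial]
    congr 1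
    rw [← Nat.cast_sum, smul_eq_mul, mul_comm]
    congr 2
    rw [Fin.sum_univ_three]
    simp only [Fin.val_zero, Fin.val_one, Fin.val_two]
    omega
  | add p q hp hq =>
    simp only [mul_add, map_add, Finset.sum_add_distrib]
    rw [hp, hq]

end KuMF
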