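import Mathlib

/-!
# A product identity in a noncommutative ring

STATEMENT TO PROVE (job MF-NC). `x i` commute with each other, `b j` commutes with `x i` for
`i ≠ j`. Then
`∑_{α : Fin n → Fin 3} (∏ x_i^(2-α_i)) (b_0 ⋯ b_{n-1}) (∏ x_i^(α_i)) = ∏_j (∑_t x_j^(2-t) b_j x_j^t)`
(products of lists in the order `0, …, n-1`).
PROOF. Induction on `n`, `Fin.consEquiv` / `Fintype.sum_equiv`, `Fin.sum_univ_succ`,
`List.ofFn_succ`: the summand for `α = cons t β` is
`x_0^(2-t) (∏_{i>0} x_i^(2-β_i)) b_0 (b_1 ⋯) x_0^t (∏_{i>0} x_i^(β_i))`; `b_0` commutes with the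
`x_i`, `i > 0`, and `x_0` with `b_1 ⋯` and all `x_i`, so it equals
`(x_0^(2-t) b_0 x_0^t) ((∏_{i>0} x_i^(2-β_i)) (b_1 ⋯) (∏_{i>0} x_i^(β_i)))`; sum over `β`, then `t`.
(Use `Commute.list_prod_right` and similar; or first move things by `Commute`.)
The second statement is the special case used: the sum over `α` acts on `A * b_0 ⋯ b_{n-1}` with `A`
commuting with all `x i`.
-/

noncomputable section

namespace KuMF

theorem nc_prod {R : Type*} [Ring R] (n : ℕ) : ∀ (x b : Fin n → R)
    (_ : ∀ i j, Commute (x i) (x j)) (_ : ∀ i j, i ≠ j → Commute (x i) (b j)),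
    ∑ α : Fin n → Fin 3, (List.ofFn fun i => x i ^ (2 - (α i : ℕ))).prod * (List.ofFn b).prod *
        (List.ofFn fun i => x i ^ (α i : ℕ)).prod =
      (List.ofFn fun j => ∑ t : Fin 3, x j ^ (2 - (t : ℕ)) * b j * x j ^ (t : ℕ)).prod := by
  induction n with
  | zero => intro x b _ _; simp
  | succ n ih =>
    intro x b hx hb
    have hih := ih (fun i => x i.succ) (fun i => b i.succ) (fun i j => hx _ _)
      (fun i j hij => hb _ _ (fun h => hij (Fin.succ_injective _ h)))
    have e4 : (List.ofFn fun j => ∑ t : Fin 3, x j ^ (2 - (t : ℕ)) * b j * x j ^ (t : ℕ)).prod =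
        (∑ t : Fin 3, x 0 ^ (2 - (t : ℕ)) * b 0 * x 0 ^ (t : ℕ)) *
        (List.ofFn fun j : Fin n =>
          ∑ t : Fin 3, x j.succ ^ (2 - (t : ℕ)) * b j.succ * x j.succ ^ (t : ℕ)).prod := by
      rw [List.ofFn_succ, List.prod_cons]
    rw [e4, ← (Fin.consEquiv (fun _ : Fin (n + 1) => Fin 3)).sum_comp, Fintype.sum_prod_type,
      ← hih, Finset.sum_mul]
    apply Finset.sum_congr rfl
    intro t _
    rw [Finset.mul_sum]
    apply Finset.sum_congr rfl
    intro β _
    have e1 : (List.ofFn fun i : Fin (n + 1) =>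
        x i ^ (2 - (((Fin.consEquiv (fun _ : Fin (n + 1) => Fin 3)) (t, β) i : Fin 3) : ℕ))).prod =
        x 0 ^ (2 - (t : ℕ)) * (List.ofFn fun i : Fin n => x i.succ ^ (2 - (β i : ℕ))).prod := by
      rw [List.ofFn_succ, List.prod_cons]
      simp [Fin.consEquiv]
    have e2 : (List.ofFn fun i : Fin (n + 1) =>
        x i ^ ((((Fin.consEquiv (fun _ : Fin (n + 1) => Fin 3)) (t, β) i : Fin 3) : ℕ))).prod =
        x 0 ^ (t : ℕ) * (List.ofFn fun i : Fin n => x i.succ ^ (β i : ℕ)).prod := by
      rw [List.ofFn_succ, List.prod_cons]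
      simp [Fin.consEquiv]
    have e3 : (List.ofFn b).prod = b 0 * (List.ofFn fun i : Fin n => b i.succ).prod := by
      rw [List.ofFn_succ, List.prod_cons]
    rw [e1, e2, e3]
    set P := (List.ofFn fun i : Fin n => x i.succ ^ (2 - (β i : ℕ))).prod with hP
    set Q := (List.ofFn fun i : Fin n => x i.succ ^ (β i : ℕ)).prod with hQ
    set B := (List.ofFn fun i : Fin n => b i.succ).prod with hB
    have c1 : Commute (b 0) P := by
      apply Commute.list_prod_right
      intro y hy
      rw [List.mem_ofFn] at hy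
      obtain ⟨i, rfl⟩ := hy
      exact ((hb i.succ 0 (Fin.succ_ne_zero i)).pow_left _).symm
    have c2 : Commute (x 0 ^ (t : ℕ)) P := by
      apply Commute.list_prod_right
      intro y hy
      rw [List.mem_ofFn] at hy
      obtain ⟨i, rfl⟩ := hy
      exact (hx 0 i.succ).pow_pow _ _
    have c3 : Commute (x 0 ^ (t : ℕ)) B := by
      apply Commute.list_prod_right
      intro y hy
      rw [List.mem_ofFn] at hy
      obtain ⟨i, rfl⟩ := hy
      exact (hb 0 i.succ (Fin.succ_ne_zero i).symm).pow_left _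
    have c4 : Commute (x 0 ^ (t : ℕ)) (P * B) := c2.mul_right c3
    calc x 0 ^ (2 - (t : ℕ)) * P * (b 0 * B) * (x 0 ^ (t : ℕ) * Q)
        = x 0 ^ (2 - (t : ℕ)) * (P * b 0) * (B * (x 0 ^ (t : ℕ)) * Q) := by
          simp only [mul_assoc]
      _ = x 0 ^ (2 - (t : ℕ)) * (b 0 * P) * (B * (x 0 ^ (t : ℕ)) * Q) := by rw [c1.eq]
      _ = x 0 ^ (2 - (t : ℕ)) * b 0 * ((P * B) * (x 0 ^ (t : ℕ))) * Q := by
          simp only [mul_assoc]
      _ = x 0 ^ (2 - (t : ℕ)) * b 0 * ((x 0 ^ (t : ℕ)) * (P * B)) * Q := by rw [c4.eq]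
      _ = x 0 ^ (2 - (t : ℕ)) * b 0 * x 0 ^ (t : ℕ) * (P * B * Q) := by
          simp only [mul_assoc]

theorem nc_prod' {R : Type*} [Ring R] (n : ℕ) (A : R) (x b : Fin n → R)
    (hx : ∀ i j, Commute (x i) (x j)) (hb : ∀ i j, i ≠ j → Commute (x i) (b j))
    (hA : ∀ i, Commute (x i) A) :
    ∑ α : Fin n → Fin 3, (List.ofFn fun i => x i ^ (2 - (α i : ℕ))).prod *
        (A * (List.ofFn b).prod) * (List.ofFn fun i => x i ^ (α i : ℕ)).prod =
      A * (List.ofFn fun j => ∑ t : Fin 3, x j ^ (2 - (t : ℕ)) * b j * x j ^ (t : ℕ)).prod := by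
  rw [← nc_prod n x b hx hb, Finset.mul_sum]
  apply Finset.sum_congr rfl
  intro α _
  have c : Commute A (List.ofFn fun i => x i ^ (2 - (α i : ℕ))).prod := by
    apply Commute.list_prod_right
    intro y hy
    rw [List.mem_ofFn] at hy
    obtain ⟨i, rfl⟩ := hy
    exact ((hA i).pow_left _).symm
  rw [← mul_assoc _ A, ← c.eq]
  simp only [mul_assoc]

theorem list_prod_add_bool {R : Type*} [Ring R] (n : ℕ) : ∀ (u v : Fin n → R),
    (List.ofFn fun i => u i + v i).prod =
      ∑ α : Fin n → Bool, (List.ofFn fun i => if α i = true then v i else u i).prod := by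
  induction n with
  | zero => intro u v; simp
  | succ n ih =>
    intro u v
    rw [← (Fin.consEquiv (fun _ : Fin (n + 1) => Bool)).sum_comp, Fintype.sum_prod_type,
      List.ofFn_succ, List.prod_cons, ih (fun i => u i.succ) (fun i => v i.succ)]
    have e : ∀ (t : Bool) (β : Fin n → Bool), (List.ofFn fun i : Fin (n + 1) =>
        if (Fin.consEquiv (fun _ : Fin (n + 1) => Bool)) (t, β) i = true then v i else u i).prod =
        (if t = true then v 0 else u 0) *
          (List.ofFn fun i : Fin n => if β i = true then v i.succ else u i.succ).prod := by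
      intro t β
      rw [List.ofFn_succ, List.prod_cons]
      simp [Fin.consEquiv]
    simp only [e, Fintype.sum_bool]
    rw [add_comm (u 0), add_mul, Finset.mul_sum, Finset.mul_sum]
    simp

/-- Expansion of a product of sums. -/
theorem list_prod_add {R : Type*} [Ring R] (n : ℕ) : ∀ (u v : Fin n → R),
    (List.ofFn fun i => u i + v i).prod =
      ∑ A : Finset (Fin n), (List.ofFn fun i => if i ∈ A then v i else u i).prod := by
  intro u v
  rw [list_prod_add_bool]
  let e : (Fin n → Bool) ≃ Finset (Fin n) :=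
    { toFun := fun α => Finset.univ.filter (fun i => α i = true)
      invFun := fun A i => decide (i ∈ A)
      left_inv := fun α => by ext i; simp
      right_inv := fun A => by ext i; simp }
  rw [← e.sum_comp]
  apply Finset.sum_congr rfl
  intro α _
  congr 2
  ext i
  simp [e]

end KuMF
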