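import Pool.Agent.H91.MF.MonId
import Pool.Agent.H91.MF.Iter
import Pool.Agent.H91.MF.Nab
import Pool.Agent.H91.MF.NcProd

/-!
# The trace formula

STATEMENT TO PROVE (job MF-TF). `D : κ × κ` matrix over `S = k[x_1..x_n]` with `D² = 0`,
`D L_i + L_i D = X_i^3`, `σ` a diagonal sign anticommuting with `D`. Then `Hc (opM D)` is finite
dimensional and `tr(σ) = coeff_{x_1^2⋯x_n^2} ∑_a σ_a (∏_i (∂_i D) L_i)_{aa}`.

PROOF. Apply `iter_step` with `V = κ → S`, `W = κ → (Fin n → Fin 3) → k`, `DV = opM D`,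
`A = diagOp n σ`, `y i = yOp κ k 3 i`, `l i = opM (L i)`, `nb i v = fun a => nab i (v a)`,
`π = coef3`, and for `T` one of `opM D`, `A`, `l i`, `a_i = nb i ∘ opM D - opM D ∘ nb i`:
`TW = π ∘ T ∘ sec3`. Since `T` commutes with all `y j` (for `a_i`: `nab_pow` for `j = i`,
`nab_X` three times for `j ≠ i`), it preserves `ker π = ⨆ range (y j)` (`ker_coef3`), and
`v - sec3 (π v) ∈ ker π`, so `TW (π v) = π (T v)`. The regularity is `yOp_regular`.

So `tr = tr (AW * ∏ (aW_i * lW_i))`, and `AW * ∏ (aW_i * lW_i) = π ∘ T ∘ sec3` with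
`T = A * ∏ (a_i * l_i)` in `Module.End k V` (all `TW` satisfy `TW ∘ π = π ∘ T`; induction on the
list, or: `∏ (TW_i) ∘ π = π ∘ ∏ T_i`, then compose with `sec3`, `coef3_sec3`). By `trace_pi`
`tr = ∑_a ∑_α coeff (mon3 α) ((T (x^α e_a)) a)`, and
`coeff (mon3 α) p = coeff (topM n) (x^(2-α) p)` (`coeff_monomial_mul`), so
`tr = coeff (topM n) ∑_a ((∑_α x^(2-α) T x^α) e_a) a`, where `x^α` is the product (list) of the
powers of the operators `x i = yOp κ k 1 i` of `Module.End k V`. By `nc_prod'` with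
`b_j = a_j * l_j` (`b_j` commutes with `x i`, `i ≠ j`; `A` commutes with all `x i`)
`∑_α x^(2-α) T x^α = A * ∏_j (∑_t x_j^(2-t) a_j l_j x_j^t)`, and as operators
`∑_t x_j^(2-t) a_j l_j x_j^t = (∑_t x_j^(2-t) a_j x_j^t) l_j`, and
`∑_t x_j^(2-t) (nb_j D - D nb_j) x_j^t = P_j D - D P_j` with `P_j = ∑_t x_j^(2-t) nb_j x_j^t`
`= pderiv j` coordinatewise (`nab_hermite`), `P_j D - D P_j = opM (D.map (pderiv j))` (Leibniz
rule). Hence the operator is `A * opM (∏ (D.map (pderiv j)) * L j)`; evaluate at `e_a`, coordinate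
`a`.
-/

open MvPolynomial

noncomputable section

namespace KuMF

variable {k : Type} [Field k] {n : ℕ} {κ : Type} [Fintype κ] [DecidableEq κ]

/-- the operator `nab i` on `κ → S` -/
def nbOp (κ : Type) (k : Type) [Field k] (i : Fin n) :
    (κ → MvPolynomial (Fin n) k) →ₗ[k] (κ → MvPolynomial (Fin n) k) where
  toFun v a := nab i (v a)
  map_add' v w := by ext1 a; simp
  map_smul' c v := by ext1 a; simp

omit [Fintype κ] [DecidableEq κ] in
lemma nbOp_apply (i : Fin n) (v : κ → MvPolynomial (Fin n) k) (a : κ) :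
    nbOp κ k i v a = nab i (v a) := rfl

/-- multiplication by a polynomial -/
def mulP (κ : Type) (k : Type) [Field k] (n : ℕ) :
    MvPolynomial (Fin n) k →ₐ[k] Module.End k (κ → MvPolynomial (Fin n) k) :=
  Algebra.lsmul k k (κ → MvPolynomial (Fin n) k)

omit [Fintype κ] [DecidableEq κ] in
lemma mulP_apply (p : MvPolynomial (Fin n) k) (v : κ → MvPolynomial (Fin n) k) (a : κ) :
    mulP κ k n p v a = p * v a := rfl

omit [Fintype κ] [DecidableEq κ] in
lemma yOp_eq_mulP (e : ℕ) (i : Fin n) :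
    (yOp κ k e i : Module.End k (κ → MvPolynomial (Fin n) k)) = mulP κ k n (X i ^ e) := rfl

/-- the operator on the quotient -/
def TW (T : (κ → MvPolynomial (Fin n) k) →ₗ[k] (κ → MvPolynomial (Fin n) k)) :
    (κ → (Fin n → Fin 3) → k) →ₗ[k] (κ → (Fin n → Fin 3) → k) :=
  (coef3 κ k n).comp (T.comp (sec3 κ k n))

lemma TW_pi (T : (κ → MvPolynomial (Fin n) k) →ₗ[k] (κ → MvPolynomial (Fin n) k))
    (hT : ∀ j v, T (yOp κ k 3 j v) = yOp κ k 3 j (T v)) (v : κ → MvPolynomial (Fin n) k) :
    TW T (coef3 κ k n v) = coef3 κ k n (T v) := by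
  have h1 : sec3 κ k n (coef3 κ k n v) - v ∈ LinearMap.ker (coef3 κ k n) := by
    rw [LinearMap.mem_ker, map_sub, coef3_sec3, sub_self]
  have h2 : Submodule.map T (LinearMap.ker (coef3 κ k n)) ≤ LinearMap.ker (coef3 κ k n) := by
    rw [ker_coef3, Submodule.map_iSup]
    apply iSup_mono
    intro j
    rintro _ ⟨_, ⟨u, rfl⟩, rfl⟩
    exact ⟨T u, (hT j u).symm⟩
  have h3 := h2 (Submodule.mem_map_of_mem h1)
  rw [LinearMap.mem_ker, map_sub, map_sub, sub_eq_zero] at h3
  exact h3

lemma prod_inter {V W : Type} [AddCommGroup V] [Module k V] [AddCommGroup W] [Module k W]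
    (π : V →ₗ[k] W) : ∀ (m : ℕ) (X : Fin m → Module.End k W) (T : Fin m → Module.End k V),
    (∀ i v, X i (π v) = π (T i v)) → ∀ v, (List.ofFn X).prod (π v) = π ((List.ofFn T).prod v) := by
  intro m
  induction m with
  | zero => intro X T _ v; simp
  | succ m ih =>
    intro X T h v
    rw [List.ofFn_succ, List.ofFn_succ, List.prod_cons, List.prod_cons, Module.End.mul_apply,
      Module.End.mul_apply, ih _ _ (fun i v => h i.succ v), h]

lemma opM_mul (M N : Matrix κ κ (MvPolynomial (Fin n) k)) :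
    (opM (M * N) : Module.End k (κ → MvPolynomial (Fin n) k)) = opM M * opM N := by
  refine LinearMap.ext fun v => ?_
  rw [Module.End.mul_apply, opM_apply, opM_apply, opM_apply, Matrix.mulVec_mulVec]

lemma opM_list (m : ℕ) (M : Fin m → Matrix κ κ (MvPolynomial (Fin n) k)) :
    (List.ofFn fun j => (opM (M j) : Module.End k (κ → MvPolynomial (Fin n) k))).prod =
      opM (List.ofFn M).prod := by
  induction m with
  | zero =>
    refine LinearMap.ext fun v => ?_
    simp [opM_apply]
  | succ m ih =>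
    rw [List.ofFn_succ, List.ofFn_succ, List.prod_cons, List.prod_cons, opM_mul, ih]

lemma mulP_comm_opM (p : MvPolynomial (Fin n) k) (M : Matrix κ κ (MvPolynomial (Fin n) k)) :
    Commute (mulP κ k n p) (opM M : Module.End k (κ → MvPolynomial (Fin n) k)) := by
  show _ * _ = _ * _
  refine LinearMap.ext fun v => ?_
  rw [Module.End.mul_apply, Module.End.mul_apply]
  funext a
  rw [mulP_apply, opM_apply, opM_apply, Matrix.mulVec, Matrix.mulVec, dotProduct, dotProduct,
    Finset.mul_sum]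
  refine Finset.sum_congr rfl fun b _ => ?_
  rw [mulP_apply]
  ring

lemma mulP_comm_diag (p : MvPolynomial (Fin n) k) (σ : κ → k) :
    Commute (mulP κ k n p) (diagOp n σ : Module.End k (κ → MvPolynomial (Fin n) k)) := by
  show _ * _ = _ * _
  refine LinearMap.ext fun v => ?_
  rw [Module.End.mul_apply, Module.End.mul_apply]
  funext a
  rw [mulP_apply, diagOp_apply, diagOp_apply, mulP_apply, mul_smul_comm]

omit [Fintype κ] [DecidableEq κ] in
lemma mulP_comm_nb {i j : Fin n} (h : j ≠ i) :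
    Commute (mulP κ k n (X j)) (nbOp κ k i : Module.End k (κ → MvPolynomial (Fin n) k)) := by
  show _ * _ = _ * _
  refine LinearMap.ext fun v => ?_
  rw [Module.End.mul_apply, Module.End.mul_apply]
  funext a
  rw [mulP_apply, nbOp_apply, nbOp_apply, mulP_apply, nab_X i j h.symm]

omit [Fintype κ] [DecidableEq κ] in
lemma list_mulP (e : Fin n → ℕ) :
    (List.ofFn fun i => (mulP κ k n (X i)) ^ e i).prod =
      mulP κ k n (monomial (Finsupp.equivFunOnFinite.symm e) 1) := by
  have h1 : (List.ofFn fun i => (mulP κ k n (X i)) ^ e i) =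
      (List.ofFn fun i => (X i ^ e i : MvPolynomial (Fin n) k)).map (mulP κ k n) := by
    rw [List.map_ofFn]
    congr 1
    funext i
    simp only [Function.comp, map_pow]
  rw [h1, ← map_list_prod, List.prod_ofFn]
  congr 1
  rw [MvPolynomial.monomial_eq, C_1, one_mul, Finsupp.prod_fintype _ _ (fun i => pow_zero _)]
  rfl

/-- `∑_t x_j^(2-t) a_j l_j x_j^t = (∂_j D) L_j` as operators -/
lemma hermite_op (D L : Matrix κ κ (MvPolynomial (Fin n) k)) (j : Fin n) :
    ∑ t : Fin 3, (mulP κ k n (X j)) ^ (2 - (t : ℕ)) *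
        (((nbOp κ k j : Module.End k (κ → MvPolynomial (Fin n) k)) * opM D - opM D * nbOp κ k j) * opM L) *
        (mulP κ k n (X j)) ^ (t : ℕ) =
      (opM (D.map (pderiv j) * L) : Module.End k (κ → MvPolynomial (Fin n) k)) := by
  set x := mulP κ k n (X j) with hx
  set nb : Module.End k (κ → MvPolynomial (Fin n) k) := nbOp κ k j with hnb
  set Dop : Module.End k (κ → MvPolynomial (Fin n) k) := opM D with hDop
  set Lop : Module.End k (κ → MvPolynomial (Fin n) k) := opM L with hLop
  have hxD : ∀ t : ℕ, x ^ t * Dop = Dop * x ^ t := fun t =>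
    ((mulP_comm_opM (X j) D).pow_left t).eq
  have hxL : ∀ t : ℕ, x ^ t * Lop = Lop * x ^ t := fun t =>
    ((mulP_comm_opM (X j) L).pow_left t).eq
  have h1 : ∀ t : Fin 3, x ^ (2 - (t : ℕ)) * ((nb * Dop - Dop * nb) * Lop) * x ^ (t : ℕ) =
      ((x ^ (2 - (t : ℕ)) * nb * x ^ (t : ℕ)) * Dop - Dop * (x ^ (2 - (t : ℕ)) * nb * x ^ (t : ℕ))) *
        Lop := by
    intro t
    have e1 : x ^ (2 - (t : ℕ)) * ((nb * Dop - Dop * nb) * Lop) * x ^ (t : ℕ) =
        x ^ (2 - (t : ℕ)) * ((nb * Dop - Dop * nb)) * (Lop * x ^ (t : ℕ)) := by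
      simp only [mul_assoc]
    rw [e1, ← hxL, mul_sub, sub_mul, sub_mul]
    congr 1
    · calc x ^ (2 - (t : ℕ)) * (nb * Dop) * (x ^ (t : ℕ) * Lop) =
          x ^ (2 - (t : ℕ)) * nb * (Dop * x ^ (t : ℕ)) * Lop := by simp only [mul_assoc]
        _ = _ := by rw [← hxD]; simp only [mul_assoc]
    · calc x ^ (2 - (t : ℕ)) * (Dop * nb) * (x ^ (t : ℕ) * Lop) =
          (x ^ (2 - (t : ℕ)) * Dop) * nb * x ^ (t : ℕ) * Lop := by simp only [mul_assoc]
        _ = _ := by rw [hxD]; simp only [mul_assoc]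
  rw [Finset.sum_congr rfl (fun t _ => h1 t), ← Finset.sum_mul, Finset.sum_sub_distrib,
    ← Finset.sum_mul, ← Finset.mul_sum]
  set Pj := ∑ t : Fin 3, x ^ (2 - (t : ℕ)) * nb * x ^ (t : ℕ) with hPj
  have hP : ∀ (v : κ → MvPolynomial (Fin n) k) (a : κ), Pj v a = pderiv j (v a) := by
    intro v a
    rw [hPj, LinearMap.sum_apply, Finset.sum_apply, ← nab_hermite j (v a)]
    refine Finset.sum_congr rfl fun t _ => ?_
    rw [Module.End.mul_apply, Module.End.mul_apply, hx, ← map_pow, ← map_pow, mulP_apply, hnb,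
      nbOp_apply, mulP_apply]
  have h2 : Pj * Dop - Dop * Pj = opM (D.map (pderiv j)) := by
    refine LinearMap.ext fun v => ?_
    rw [LinearMap.sub_apply, Module.End.mul_apply, Module.End.mul_apply]
    funext a
    rw [Pi.sub_apply, hP, hDop, opM_apply, opM_apply, opM_apply, Matrix.mulVec, Matrix.mulVec,
      Matrix.mulVec, dotProduct, dotProduct, dotProduct, map_sum, ← Finset.sum_sub_distrib]
    refine Finset.sum_congr rfl fun b _ => ?_
    rw [hP, Matrix.map_apply, Derivation.leibniz, smul_eq_mul, smul_eq_mul]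
    ring
  rw [h2, opM_mul]

theorem trace_form (D : Matrix κ κ (MvPolynomial (Fin n) k))
    (L : Fin n → Matrix κ κ (MvPolynomial (Fin n) k)) (σ : κ → k) (hD : D * D = 0)
    (hL : ∀ i, D * L i + L i * D =
      (X i ^ 3 : MvPolynomial (Fin n) k) • (1 : Matrix κ κ (MvPolynomial (Fin n) k)))
    (hσ : ∀ a b, D a b ≠ 0 → σ a = -σ b) :
    Module.Finite k (Hc (opM D)) ∧
      LinearMap.trace k (Hc (opM D))
          (Hc.map (diagOp n σ) (-1) neg_one_ne (diagOp_anti hσ)) =
        coeff (topM n) (∑ a, C (σ a) *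
          (List.ofFn fun i => D.map (pderiv i) * L i).prod a a) := by
  -- commutation with `y j`
  have cO : ∀ (M : Matrix κ κ (MvPolynomial (Fin n) k)) (j : Fin n) (v : κ → MvPolynomial (Fin n) k),
      opM M (yOp κ k 3 j v) = yOp κ k 3 j (opM M v) := by
    intro M j v
    have := (mulP_comm_opM (κ := κ) (k := k) (X j ^ 3) M).eq
    exact (LinearMap.congr_fun this v).symm
  have cA : ∀ (j : Fin n) (v : κ → MvPolynomial (Fin n) k),
      diagOp n σ (yOp κ k 3 j v) = yOp κ k 3 j (diagOp n σ v) := by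
    intro j v
    have := (mulP_comm_diag (κ := κ) (k := k) (X j ^ 3) σ).eq
    exact (LinearMap.congr_fun this v).symm
  have cN1 : ∀ (i : Fin n) (v : κ → MvPolynomial (Fin n) k),
      nbOp κ k i (yOp κ k 3 i v) - yOp κ k 3 i (nbOp κ k i v) = v := by
    intro i v
    funext a
    rw [Pi.sub_apply, nbOp_apply, yOp_apply, yOp_apply, nbOp_apply, nab_pow]
    ring
  have cN2 : ∀ (i j : Fin n), i ≠ j → ∀ (v : κ → MvPolynomial (Fin n) k),
      nbOp κ k i (yOp κ k 3 j v) = yOp κ k 3 j (nbOp κ k i v) := by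
    intro i j hij v
    have := ((mulP_comm_nb (κ := κ) (k := k) hij.symm).pow_left 3).eq
    rw [← map_pow] at this
    exact (LinearMap.congr_fun this v).symm
  set ai : Fin n → Module.End k (κ → MvPolynomial (Fin n) k) := fun i =>
    (nbOp κ k i : Module.End k (κ → MvPolynomial (Fin n) k)) * opM D - opM D * nbOp κ k i with hai
  have hai_apply : ∀ i v, ai i v = nbOp κ k i (opM D v) - opM D (nbOp κ k i v) := fun i v => rfl
  have cI : ∀ (i j : Fin n) (v : κ → MvPolynomial (Fin n) k), ai i (yOp κ k 3 j v) = yOp κ k 3 j (ai i v) := by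
    intro i j v
    rw [hai_apply, hai_apply, cO, map_sub]
    by_cases hij : i = j
    · subst hij
      have h1 := cN1 i (opM D v)
      have h2 := congrArg (opM D) (cN1 i v)
      rw [map_sub, cO] at h2
      have h3 : nbOp κ k i (yOp κ k 3 i (opM D v)) =
          opM D v + yOp κ k 3 i (nbOp κ k i (opM D v)) := by
        rw [sub_eq_iff_eq_add] at h1; exact h1
      have h4 : opM D (nbOp κ k i (yOp κ k 3 i v)) =
          opM D v + yOp κ k 3 i (opM D (nbOp κ k i v)) := by
        rw [sub_eq_iff_eq_add] at h2; exact h2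
      rw [h3, h4]; abel
    · rw [cN2 i j hij, cN2 i j hij, cO]
  have hsurj : Function.Surjective (coef3 κ k n) := fun w => ⟨sec3 κ k n w, coef3_sec3 w⟩
  have hanti := diagOp_anti (n := n) hσ
  obtain ⟨hfin, htr⟩ := iter_step n (opM D) (diagOp n σ) (fun i => yOp κ k 3 i) (fun i => opM (L i))
    (fun i => nbOp κ k i) (TW (opM D)) (TW (diagOp n σ)) (fun i => TW (opM (L i))) (fun i => TW (ai i))
    (coef3 κ k n) (opM_sq hD) hsurj ker_coef3
    (fun i j v => by funext a; simp only [yOp_apply]; ring)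
    (fun i v => cO D i v)
    (fun i v => by
      have h1 : (D * L i + L i * D).mulVec v =
          ((X i ^ 3 : MvPolynomial (Fin n) k) • (1 : Matrix κ κ (MvPolynomial (Fin n) k))).mulVec v := by
        rw [hL i]
      rw [Matrix.add_mulVec, Matrix.smul_mulVec, Matrix.one_mulVec, ← Matrix.mulVec_mulVec,
        ← Matrix.mulVec_mulVec] at h1
      exact h1)
    (fun i j v => cO (L i) j v) cN1 cN2 (fun i v h => yOp_regular 3 i v h) hanti
    (fun i v => cA i v)
    (TW_pi (opM D) (fun j v => cO D j v)) (TW_pi (diagOp n σ) cA)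
    (fun i => TW_pi (opM (L i)) (fun j v => cO (L i) j v))
    (fun i v => TW_pi (ai i) (fun j v => cI i j v) v)
  refine ⟨hfin, ?_⟩
  rw [htr]
  set b : Fin n → Module.End k (κ → MvPolynomial (Fin n) k) := fun j => ai j * opM (L j) with hb
  set Ttot : Module.End k (κ → MvPolynomial (Fin n) k) :=
    (diagOp n σ : Module.End k (κ → MvPolynomial (Fin n) k)) * (List.ofFn b).prod with hTtot
  have hint : ∀ v, (TW (diagOp n σ) * (List.ofFn fun i => TW (ai i) * TW (opM (L i))).prod :
      Module.End k (κ → (Fin n → Fin 3) → k)) (coef3 κ k n v) = coef3 κ k n (Ttot v) := by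
    intro v
    rw [Module.End.mul_apply, prod_inter (coef3 κ k n) n _ b]
    · rw [TW_pi (diagOp n σ) cA]; rfl
    · intro i v
      rw [Module.End.mul_apply, TW_pi (opM (L i)) (fun j v => cO (L i) j v),
        TW_pi (ai i) (fun j v => cI i j v)]
      rfl
  rw [trace_pi]
  -- each diagonal entry
  have hx : ∀ i j : Fin n, Commute (mulP κ k n (X i)) (mulP κ k n (X j)) := by
    intro i j
    show _ * _ = _ * _
    rw [← map_mul, ← map_mul, mul_comm]
  have hxb : ∀ i j : Fin n, i ≠ j → Commute (mulP κ k n (X i)) (b j) := by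
    intro i j hij
    have h1 := mulP_comm_opM (κ := κ) (k := k) (X i) D
    have h2 := mulP_comm_nb (κ := κ) (k := k) (i := j) (j := i) hij
    have h3 := mulP_comm_opM (κ := κ) (k := k) (X i) (L j)
    exact ((h2.mul_right h1).sub_right (h1.mul_right h2)).mul_right h3
  have hnc := nc_prod' n (diagOp n σ : Module.End k (κ → MvPolynomial (Fin n) k))
    (fun i => mulP κ k n (X i)) b hx hxb (fun i => mulP_comm_diag (X i) σ)
  have hher : (fun j => ∑ t : Fin 3, mulP κ k n (X j) ^ (2 - (t : ℕ)) * b j *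
      mulP κ k n (X j) ^ (t : ℕ)) = fun j => opM (D.map (pderiv j) * L j) := by
    funext j
    exact hermite_op D (L j) j
  rw [hher, opM_list] at hnc
  have hentry : ∀ (a : κ) (α : Fin n → Fin 3),
      (TW (diagOp n σ) * (List.ofFn fun i => TW (ai i) * TW (opM (L i))).prod :
        Module.End k (κ → (Fin n → Fin 3) → k)) (Pi.single a (Pi.single α 1)) a α =
      coeff (topM n) (((List.ofFn fun i => mulP κ k n (X i) ^ (2 - (α i : ℕ))).prod * Ttot *
        (List.ofFn fun i => mulP κ k n (X i) ^ (α i : ℕ)).prod) (Pi.single a 1) a) := by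
    intro a α
    have e1 : (Pi.single a (Pi.single α 1) : κ → (Fin n → Fin 3) → k) =
        coef3 κ k n (sec3 κ k n (Pi.single a (Pi.single α 1))) := (coef3_sec3 _).symm
    have e2 : sec3 κ k n (Pi.single a (Pi.single α 1)) =
        mulP κ k n (monomial (mon3 α) 1) (Pi.single a 1) := by
      funext c
      rw [mulP_apply]
      show ∑ β, monomial (mon3 β) ((Pi.single a (Pi.single α 1) : κ → (Fin n → Fin 3) → k) c β) = _
      by_cases hc : c = a
      · subst hc
        rw [Pi.single_eq_same, Pi.single_eq_same, mul_one, Finset.sum_eq_single α]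
        · rw [Pi.single_eq_same]
        · intro β _ hβ
          rw [Pi.single_eq_of_ne hβ, monomial_zero]
        · intro h; exact absurd (Finset.mem_univ _) h
      · rw [Pi.single_eq_of_ne hc, Pi.single_eq_of_ne hc, mul_zero]
        apply Finset.sum_eq_zero
        intro β _
        rw [Pi.zero_apply, monomial_zero]
    rw [e1, hint, e2]
    rw [list_mulP, list_mulP]
    have e4 : ((mulP κ k n (monomial (Finsupp.equivFunOnFinite.symm fun i => 2 - (α i : ℕ)) 1) * Ttot *
        mulP κ k n (monomial (Finsupp.equivFunOnFinite.symm fun i => (α i : ℕ)) 1)) (Pi.single a 1)) a =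
      monomial (Finsupp.equivFunOnFinite.symm fun i => 2 - (α i : ℕ)) 1 *
        (Ttot (mulP κ k n (monomial (mon3 α) 1) (Pi.single a 1)) a) := rfl
    rw [e4]
    have e3 : topM n = Finsupp.equivFunOnFinite.symm (fun i => 2 - (α i : ℕ)) + mon3 α := by
      ext i
      rw [topM_apply, Finsupp.add_apply]
      show 2 = (2 - (α i : ℕ)) + (α i : ℕ)
      have := (α i).isLt
      omega
    rw [e3, coeff_monomial_mul, one_mul]
    rfl
  rw [Finset.sum_congr rfl (fun a _ => Finset.sum_congr rfl (fun α _ => hentry a α)), coeff_sum]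
  refine Finset.sum_congr rfl fun a _ => ?_
  rw [← coeff_sum]
  congr 1
  have h5 : ∑ α : Fin n → Fin 3, ((List.ofFn fun i => mulP κ k n (X i) ^ (2 - (α i : ℕ))).prod * Ttot *
        (List.ofFn fun i => mulP κ k n (X i) ^ (α i : ℕ)).prod) (Pi.single a 1) a =
      (∑ α : Fin n → Fin 3, (List.ofFn fun i => mulP κ k n (X i) ^ (2 - (α i : ℕ))).prod * Ttot *
        (List.ofFn fun i => mulP κ k n (X i) ^ (α i : ℕ)).prod) (Pi.single a 1) a := by
    rw [LinearMap.sum_apply, Finset.sum_apply]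
  rw [h5, hnc, Module.End.mul_apply, diagOp_apply, opM_apply, Matrix.mulVec_single_one, C_mul']
  rfl

end KuMF
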