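import Pool.Agent.H91.MF.Van2
import Pool.Agent.H91.MF.TrForm

/-!
# The Euler form of very general cubics

`chi E F = -(2/81) Re (...)`, so the isotropic vectors are in the radical.
-/

open MvPolynomial
open scoped Kronecker

noncomputable section

namespace KuMF

namespace MF

variable {f : MvPolynomial (Fin 6) ℂ}

lemma isHomogeneous_X_pow (j : Fin 6) : (X j ^ 3 : MvPolynomial (Fin 6) ℂ).IsHomogeneous 3 := by
  have := (isHomogeneous_X ℂ j).pow 3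
  simpa using this

lemma exists_lam (hf : VG f) (hf3 : f.IsHomogeneous 3) (F : MF f) :
    ∃ Λ : Fin 6 → Matrix F.ι F.ι (MvPolynomial (Fin 6) ℂ), (∀ j, Λ j ∈ Hom F F 3) ∧
      ∀ j, F.Q * Λ j + Λ j * F.Q =
        (X j ^ 3 : MvPolynomial (Fin 6) ℂ) • (1 : Matrix F.ι F.ι (MvPolynomial (Fin 6) ℂ)) := by
  choose Λ h1 h2 using fun j => exists_homotopy hf hf3 F (X j ^ 3) (isHomogeneous_X_pow j)
  exact ⟨Λ, h1, h2⟩

lemma sn_eq_zpow (w : ℤ) : sn ℂ w = (-1 : ℂ) ^ w := by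
  rw [sn, Int.negOnePow_def]
  rcases Int.even_or_odd w with h | h
  · rw [h.neg_one_zpow, h.neg_one_zpow]; simp
  · rw [h.neg_one_zpow, h.neg_one_zpow]; simp

lemma finite_and_trace (hf : VG f) (hf3 : f.IsHomogeneous 3) (E F : MF f) :
    Module.Finite ℂ (Hc (opM (hD E F))) ∧
      LinearMap.trace ℂ (Hc (opM (hD E F)))
          (Hc.map (diagOp 6 (hsg E F)) (-1) neg_one_ne (diagOp_anti (hsg_anti E F))) = 0 := by
  obtain ⟨Λ, h1, h2⟩ := exists_lam hf hf3 F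
  obtain ⟨hfin, htr⟩ := trace_form (hD E F)
    (fun i => Λ i ⊗ₖ (1 : Matrix E.ι E.ι (MvPolynomial (Fin 6) ℂ))) (hsg E F) (hD_sq E F)
    (fun i => hD_homotopy (h1 i) (h2 i)) (hsg_anti E F)
  refine ⟨hfin, ?_⟩
  rw [htr, van_expand, vanishing hf hf3 E F Λ h1 h2]

/-- The graded dimensions. -/
lemma graded (hf : VG f) (hf3 : f.IsHomogeneous 3) (E F : MF f) :
    (∀ q, Module.Finite ℂ (HH E F q)) ∧
    ∃ s : Finset ℤ, (∀ q, q ∉ s → Subsingleton (HH E F q)) ∧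
      (∑ q ∈ s, (-1 : ℂ) ^ q * (Module.finrank ℂ (HH E F q) : ℂ) = 0) ∧
      ∀ ζ : ℂ, ζ ^ 3 = -1 →
        ∑ a : F.ι × E.ι, ζ ^ hwt E F a = (1 - ζ ^ 2) ^ 6 *
          ∑ q ∈ s, ζ ^ q * (Module.finrank ℂ (HH E F q) : ℂ) := by
  obtain ⟨hfin, htr⟩ := finite_and_trace hf hf3 E F
  obtain ⟨h1, s, h2, h3⟩ := gr_trace (hD E F) (hwt E F) (hD_sq E F) (hD_wt E F)
  have hr : ∀ q, Module.finrank ℂ (Hq (hD E F) (hwt E F) q) = Module.finrank ℂ (HH E F q) := by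
    intro q
    obtain ⟨e⟩ := HH_equiv E F q
    exact e.finrank_eq.symm
  refine ⟨fun q => ?_, s, fun q hq => ?_, ?_, fun ζ hζ => ?_⟩
  · obtain ⟨e⟩ := HH_equiv E F q
    haveI := h1 q
    exact Module.Finite.equiv e.symm
  · obtain ⟨e⟩ := HH_equiv E F q
    haveI := h2 q hq
    exact e.toEquiv.subsingleton
  · have h4 := h3 (-1) (by norm_num)
    have h5 : wtOp 6 (-1 : ℂ) (hwt E F) = diagOp 6 (hsg E F) := by
      refine LinearMap.ext fun v => funext fun a => ?_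
      rw [wtOp_apply, diagOp_apply, hsg, sn_eq_zpow]
      congr 1
      have : (fun i : Fin 6 => C ((-1 : ℂ) ^ 2) * X i) = (X : Fin 6 → MvPolynomial (Fin 6) ℂ) := by
        funext i
        norm_num
      rw [this]
      exact aeval_X_left_apply _
    have h6 : Hc.map (wtOp 6 (-1 : ℂ) (hwt E F)) (-1) neg_one_ne (wtOp_anti (hD_wt E F) (by norm_num))
        = Hc.map (diagOp 6 (hsg E F)) (-1) neg_one_ne (diagOp_anti (hsg_anti E F)) := by
      simp only [h5]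
    rw [h6, htr] at h4
    rw [h4]
    exact Finset.sum_congr rfl fun q _ => by rw [hr]
  · rw [wt_trace (hD E F) (hwt E F) ζ (hD_sq E F) (hD_wt E F) hζ, h3 ζ hζ]
    congr 1
    exact Finset.sum_congr rfl fun q _ => by rw [hr]

theorem HH_finite (hf : VG f) (hf3 : f.IsHomogeneous 3) (E F : MF f) (q : ℤ) :
    Module.Finite ℂ (HH E F q) := (graded hf hf3 E F).1 q

theorem HH_bounded (hf : VG f) (hf3 : f.IsHomogeneous 3) (E F : MF f) :
    ∃ N : ℕ, ∀ q : ℤ, (N : ℤ) ≤ |q| → Subsingleton (HH E F q) := by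
  obtain ⟨-, s, hs, -⟩ := graded hf hf3 E F
  refine ⟨s.sup (fun q => q.natAbs) + 1, fun q hq => hs q fun hqs => ?_⟩
  have h1 : q.natAbs ≤ s.sup (fun q => q.natAbs) := Finset.le_sup (f := fun q => q.natAbs) hqs
  have h2 : |q| = (q.natAbs : ℤ) := Int.abs_eq_natAbs q
  omega

/-- the power sum of the weights -/
def rk (E : MF f) (ζ : ℂ) : ℂ := ∑ i, ζ ^ E.w i

lemma sum_hwt (E F : MF f) {ζ : ℂ} (hζ : ζ ≠ 0) :
    ∑ a : F.ι × E.ι, ζ ^ hwt E F a = rk F ζ * rk E ζ⁻¹ := by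
  rw [Fintype.sum_prod_type, rk, rk, Finset.sum_mul_sum]
  refine Finset.sum_congr rfl fun i _ => Finset.sum_congr rfl fun j _ => ?_
  rw [hwt, zpow_sub₀ hζ, inv_zpow, div_eq_mul_inv]

lemma root_ne {ζ : ℂ} (h : ζ ^ 2 - ζ + 1 = 0) : ζ ≠ 0 := by
  rintro rfl
  norm_num at h

lemma root_inv {ζ : ℂ} (h : ζ ^ 2 - ζ + 1 = 0) : ζ⁻¹ = 1 - ζ := by
  refine inv_eq_of_mul_eq_one_right ?_
  linear_combination -h

lemma root_cube {ζ : ℂ} (h : ζ ^ 2 - ζ + 1 = 0) : ζ ^ 3 = -1 := by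
  linear_combination (ζ + 1) * h

lemma root_inv' {ζ : ℂ} (h : ζ ^ 2 - ζ + 1 = 0) : (ζ⁻¹) ^ 2 - ζ⁻¹ + 1 = 0 := by
  rw [root_inv h]
  linear_combination h

lemma root_27 {ζ : ℂ} (h : ζ ^ 2 - ζ + 1 = 0) : (1 - ζ ^ 2) ^ 6 = -27 := by
  have h1 : ζ ^ 2 = ζ - 1 := by linear_combination h
  have h2 : (1 - ζ ^ 2) ^ 2 = 3 * (1 - ζ) := by
    rw [h1]; linear_combination h
  have h3 : (1 - ζ) ^ 3 = -1 := by
    have := root_cube (root_inv' h)
    rwa [root_inv h] at this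
  calc (1 - ζ ^ 2) ^ 6 = ((1 - ζ ^ 2) ^ 2) ^ 3 := by ring
    _ = 27 * (1 - ζ) ^ 3 := by rw [h2]; ring
    _ = -27 := by rw [h3]; norm_num

lemma root_sum {ζ : ℂ} (h : ζ ^ 2 - ζ + 1 = 0) (q : ℤ) :
    ζ ^ q + ζ⁻¹ ^ q + (-1) ^ q = if (3 : ℤ) ∣ q then 3 * (-1) ^ (q / 3) else 0 := by
  have h0 := root_ne h
  have h3 := root_cube h
  have h3' := root_cube (root_inv' h)
  have hi := root_inv h
  obtain ⟨i, r, hr, rfl⟩ : ∃ i r : ℤ, (r = 0 ∨ r = 1 ∨ r = 2) ∧ q = 3 * i + r :=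
    ⟨q / 3, q % 3, by omega, by omega⟩
  have e1 : ζ ^ (3 * i + r) = (-1) ^ i * ζ ^ r := by
    rw [zpow_add₀ h0, zpow_mul]
    congr 2
  have e2 : ζ⁻¹ ^ (3 * i + r) = (-1) ^ i * ζ⁻¹ ^ r := by
    rw [zpow_add₀ (inv_ne_zero h0), zpow_mul]
    congr 2
  have e3 : (-1 : ℂ) ^ (3 * i + r) = (-1) ^ i * (-1) ^ r := by
    rw [zpow_add₀ (by norm_num), zpow_mul]
    norm_num
  rw [e1, e2, e3]
  rcases hr with rfl | rfl | rfl
  · rw [if_pos (by omega), show (3 * i + 0) / 3 = i by omega]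
    simp only [zpow_zero]
    ring
  · rw [if_neg (by omega), zpow_one, zpow_one, zpow_one, hi]
    ring
  · rw [if_neg (by omega)]
    rw [show (2 : ℤ) = ((2 : ℕ) : ℤ) from rfl]
    rw [zpow_natCast, zpow_natCast, zpow_natCast, hi]
    linear_combination (2 * (-1) ^ i) * h

lemma chi_eq_sum (E F : MF f) (s : Finset ℤ) (hs : ∀ q, q ∉ s → Subsingleton (HH E F q)) :
    (chi E F : ℂ) = ∑ q ∈ s, (if (3 : ℤ) ∣ q then (-1 : ℂ) ^ (q / 3) else 0) *
      (Module.finrank ℂ (HH E F q) : ℂ) := by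
  have hz : ∀ q, q ∉ s → Module.finrank ℂ (HH E F q) = 0 := by
    intro q hq
    haveI := hs q hq
    exact Module.finrank_zero_of_subsingleton
  have h1 : chi E F = ∑ i ∈ s.image (fun q => q / 3),
      (Int.negOnePow i : ℤ) * (Module.finrank ℂ (HH E F (3 * i)) : ℤ) := by
    unfold chi
    refine finsum_eq_sum_of_support_subset _ fun i hi => ?_
    rw [Function.mem_support] at hi
    have : 3 * i ∈ s := by
      by_contra h
      exact hi (by rw [hz _ h]; simp)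
    rw [Finset.coe_image]
    exact ⟨3 * i, this, by simp⟩
  rw [h1]
  push_cast
  have h2 : ∀ i : ℤ, (((Int.negOnePow i : ℤˣ) : ℤ) : ℂ) = (-1 : ℂ) ^ i := fun i => sn_eq_zpow i
  simp only [h2]
  have h3 : ∑ i ∈ s.image (fun q => q / 3), (-1 : ℂ) ^ i * (Module.finrank ℂ (HH E F (3 * i)) : ℂ)
      = ∑ i ∈ (s.image (fun q => q / 3)).filter (fun i => 3 * i ∈ s),
        (-1 : ℂ) ^ i * (Module.finrank ℂ (HH E F (3 * i)) : ℂ) := by
    rw [Finset.sum_filter]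
    refine Finset.sum_congr rfl fun i _ => ?_
    split_ifs with h
    · rfl
    · rw [hz _ h]; simp
  have h4 : ∑ q ∈ s, (if (3 : ℤ) ∣ q then (-1 : ℂ) ^ (q / 3) else 0) *
      (Module.finrank ℂ (HH E F q) : ℂ) = ∑ q ∈ s.filter (fun q => (3 : ℤ) ∣ q),
        (-1 : ℂ) ^ (q / 3) * (Module.finrank ℂ (HH E F q) : ℂ) := by
    rw [Finset.sum_filter]
    refine Finset.sum_congr rfl fun q _ => ?_
    split_ifs with h
    · rfl
    · simp
  rw [h3, h4]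
  refine Finset.sum_nbij' (fun i => 3 * i) (fun q => q / 3) ?_ ?_ ?_ ?_ ?_
  · intro i hi
    rw [Finset.mem_filter] at hi ⊢
    exact ⟨hi.2, ⟨i, rfl⟩⟩
  · intro q hq
    rw [Finset.mem_filter] at hq
    have h5 : 3 * (q / 3) = q := by
      obtain ⟨c, hc⟩ := hq.2
      omega
    rw [Finset.mem_filter, h5]
    exact ⟨Finset.mem_image_of_mem _ hq.1, hq.1⟩
  · intro i _
    simp
  · intro q hq
    rw [Finset.mem_filter] at hq
    obtain ⟨c, hc⟩ := hq.2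
    omega
  · intro i _
    have : 3 * i / 3 = i := by omega
    rw [this]

/-- The Riemann-Roch formula. -/
theorem chi_formula (hf : VG f) (hf3 : f.IsHomogeneous 3) (E F : MF f) {ζ : ℂ}
    (h : ζ ^ 2 - ζ + 1 = 0) :
    (chi E F : ℂ) = -(rk F ζ * rk E ζ⁻¹ + rk F ζ⁻¹ * rk E ζ) / 81 := by
  obtain ⟨-, s, hs, h0, h1⟩ := graded hf hf3 E F
  have ha := h1 ζ (root_cube h)
  have hb := h1 ζ⁻¹ (root_cube (root_inv' h))
  rw [root_27 h, sum_hwt E F (root_ne h)] at ha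
  rw [root_27 (root_inv' h), sum_hwt E F (inv_ne_zero (root_ne h)), inv_inv] at hb
  have h2 : 3 * (chi E F : ℂ) = ∑ q ∈ s, ζ ^ q * (Module.finrank ℂ (HH E F q) : ℂ) +
      ∑ q ∈ s, ζ⁻¹ ^ q * (Module.finrank ℂ (HH E F q) : ℂ) +
      ∑ q ∈ s, (-1 : ℂ) ^ q * (Module.finrank ℂ (HH E F q) : ℂ) := by
    rw [chi_eq_sum E F s hs, Finset.mul_sum, ← Finset.sum_add_distrib, ← Finset.sum_add_distrib]
    refine Finset.sum_congr rfl fun q _ => ?_
    rw [← add_mul, ← add_mul, root_sum h]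
    split_ifs <;> ring
  rw [h0, add_zero] at h2
  linear_combination (1 / 3) * h2 + (1 / 81) * ha + (1 / 81) * hb

lemma rk_conj (E : MF f) (ζ : ℂ) : rk E (starRingEnd ℂ ζ) = starRingEnd ℂ (rk E ζ) := by
  rw [rk, rk, map_sum]
  exact Finset.sum_congr rfl fun i _ => by rw [map_zpow₀]

theorem chi_rad (hf : VG f) (hf3 : f.IsHomogeneous 3) (E F : MF f) (h : chi E E = 0) :
    chi E F = 0 := by
  obtain ⟨ζ, hζ⟩ : ∃ ζ : ℂ, ζ ^ 2 - ζ + 1 = 0 := by
    obtain ⟨ζ, h⟩ := IsAlgClosed.exists_root (Polynomial.X ^ 2 - Polynomial.X + 1 : Polynomial ℂ)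
      (by
        have : (Polynomial.X ^ 2 - Polynomial.X + 1 : Polynomial ℂ).degree = 2 := by compute_degree!
        rw [this]; norm_num)
    refine ⟨ζ, ?_⟩
    rw [Polynomial.IsRoot.def] at h
    simpa using h
  have hcc : (starRingEnd ℂ ζ) ^ 2 - starRingEnd ℂ ζ + 1 = 0 := by
    have := congrArg (starRingEnd ℂ) hζ
    simpa using this
  -- `|ζ|² = 1`, so `conj ζ = ζ⁻¹`
  have hconj : starRingEnd ℂ ζ = ζ⁻¹ := by
    have hn : ‖ζ‖ = 1 := by
      have h3 : ‖ζ‖ ^ 3 = 1 := by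
        rw [← norm_pow, root_cube hζ]; simp
      nlinarith [norm_nonneg ζ, sq_nonneg (‖ζ‖ - 1), sq_nonneg (‖ζ‖ + 1)]
    rw [eq_comm, inv_eq_of_mul_eq_one_right]
    rw [Complex.mul_conj, Complex.normSq_eq_norm_sq, hn]
    norm_num
  have h1 := chi_formula hf hf3 E E hζ
  rw [h] at h1
  have h2 : rk E ζ * rk E ζ⁻¹ = 0 := by
    push_cast at h1
    linear_combination (81 / 2) * h1
  have h3 : rk E ζ = 0 := by
    rcases mul_eq_zero.1 h2 with h4 | h4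
    · exact h4
    · rw [← hconj, rk_conj] at h4
      simpa using h4
  have h4 : rk E ζ⁻¹ = 0 := by
    rw [← hconj, rk_conj, h3, map_zero]
  have h5 := chi_formula hf hf3 E F hζ
  rw [h3, h4] at h5
  have : (chi E F : ℂ) = 0 := by rw [h5]; ring
  exact_mod_cast this

end MF

end KuMF
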