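import Pool.Agent.H91.MF.KDefs

/-!
# Polynomial lemmas for the substitutions `zr i`, `tru m` and the quotients `dq i`

STATEMENTS TO PROVE (job MF-KBASE). Everything is checked on monomials
(`MvPolynomial.induction_on'` / linearity) or on coefficients: `zr i` keeps exactly the monomials
with `m i = 0`, `tru m` those supported in `{j | j < m}` (`coeff_zr`, `coeff_tru`),
`coeff m (dq i p) = coeff (m + e_i) p` (`MvPolynomial.coeff_divMonomial`).
`zr_add_dq`: `MvPolynomial.divMonomial_add_modMonomial`-style, or by coefficients: the coefficient of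
`X_i * q` at `m` is `0` if `m i = 0`, else `coeff (m - e_i) q` (`coeff_X_mul'`).
`psum_tru`: induction on `m`: `tru (m+1) f = zr m (tru (m+1) f) + x_m * dq m (tru (m+1) f)
= tru m f + x_m * gN f m`.
-/

open MvPolynomial

noncomputable section

namespace KuMF

variable {k : Type} [Field k] {n : ℕ}

theorem kb_mono (S : Fin n → Prop) (f : Fin n → MvPolynomial (Fin n) k)
    (hf1 : ∀ j, S j → f j = X j) (hf0 : ∀ j, ¬ S j → f j = 0) (s : Fin n →₀ ℕ) (a : k)
    [Decidable (∀ j, ¬ S j → s j = 0)] :
    aeval f (monomial s a) = if ∀ j, ¬ S j → s j = 0 then monomial s a else 0 := by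
  rw [aeval_monomial]
  split_ifs with h
  · rw [monomial_eq, MvPolynomial.algebraMap_eq]
    congr 1
    refine Finsupp.prod_congr fun j hj => ?_
    have h1 : S j := by
      by_contra h2
      exact (Finsupp.mem_support_iff.1 hj) (h j h2)
    rw [hf1 j h1]
  · push Not at h
    obtain ⟨j, h1, h2⟩ := h
    have h3 : (s.prod fun i e => f i ^ e) = 0 := by
      refine Finset.prod_eq_zero (Finsupp.mem_support_iff.2 h2) ?_
      change f j ^ s j = 0
      rw [hf0 j h1, zero_pow h2]
    rw [h3, mul_zero]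

theorem kb_coeff (S : Fin n → Prop) (f : Fin n → MvPolynomial (Fin n) k)
    (hf1 : ∀ j, S j → f j = X j) (hf0 : ∀ j, ¬ S j → f j = 0) (p : MvPolynomial (Fin n) k)
    (m : Fin n →₀ ℕ) [Decidable (∀ j, ¬ S j → m j = 0)] :
    coeff m (aeval f p) = if ∀ j, ¬ S j → m j = 0 then coeff m p else 0 := by
  classical
  induction p using MvPolynomial.induction_on' with
  | monomial s a =>
    rw [kb_mono S f hf1 hf0, coeff_monomial]
    by_cases hs : s = m
    · subst hs
      by_cases h : ∀ j, ¬ S j → s j = 0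
      · rw [if_pos h, if_pos h, coeff_monomial]
      · rw [if_neg h, if_neg h, coeff_zero]
    · rw [if_neg hs]
      have h1 : coeff m (if ∀ j, ¬ S j → s j = 0 then monomial s a else 0) = 0 := by
        split_ifs
        · rw [coeff_monomial, if_neg hs]
        · rw [coeff_zero]
      rw [h1, ite_self]
  | add p q hp hq =>
    rw [map_add, coeff_add, coeff_add, hp, hq]
    split_ifs
    · rfl
    · rw [add_zero]

theorem coeff_zr (i : Fin n) (p : MvPolynomial (Fin n) k) (m : Fin n →₀ ℕ) :
    coeff m (zr i p) = if m i = 0 then coeff m p else 0 := by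
  classical
  have h := kb_coeff (fun j => j ≠ i) (fun j => if j = i then (0 : MvPolynomial (Fin n) k) else X j)
    (fun j hj => if_neg hj) (fun j hj => if_pos (not_not.1 hj)) p m
  unfold zr
  rw [h]
  refine if_congr ?_ rfl rfl
  constructor
  · intro h1
    exact h1 i (fun h2 => h2 rfl)
  · intro h1 j hj
    rw [not_not.1 hj]
    exact h1

theorem coeff_tru (l : ℕ) (p : MvPolynomial (Fin n) k) (m : Fin n →₀ ℕ) :
    coeff m (tru l p) = if ∀ j : Fin n, l ≤ (j : ℕ) → m j = 0 then coeff m p else 0 := by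
  classical
  have h := kb_coeff (fun j : Fin n => (j : ℕ) < l)
    (fun j => if (j : ℕ) < l then X j else (0 : MvPolynomial (Fin n) k))
    (fun j hj => if_pos hj) (fun j hj => if_neg hj) p m
  unfold tru
  rw [h]
  refine if_congr ?_ rfl rfl
  simp only [not_lt]

theorem coeff_dq (i : Fin n) (p : MvPolynomial (Fin n) k) (m : Fin n →₀ ℕ) :
    coeff m (dq i p) = coeff (Finsupp.single i 1 + m) p := by
  unfold dq
  rw [coeff_divMonomial]

theorem zr_add_dq (i : Fin n) (p : MvPolynomial (Fin n) k) :
    zr i p + X i * dq i p = p := by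
  classical
  ext m
  rw [coeff_add, coeff_zr, coeff_X_mul', coeff_dq]
  by_cases h : m i = 0
  · rw [if_pos h, if_neg (fun h1 => (Finsupp.mem_support_iff.1 h1) h), add_zero]
  · rw [if_neg h, if_pos (Finsupp.mem_support_iff.2 h), zero_add,
      add_tsub_cancel_of_le]
    rw [Finsupp.single_le_iff]
    omega

theorem Hg_zr (i : Fin n) {p : MvPolynomial (Fin n) k} {e : ℤ} (hp : Hg p e) :
    Hg (zr i p) e := by
  intro m hm
  rw [mem_support_iff, coeff_zr] at hm
  refine hp m (mem_support_iff.2 ?_)
  intro h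
  rw [h, ite_self] at hm
  exact hm rfl

theorem Hg_tru (l : ℕ) {p : MvPolynomial (Fin n) k} {e : ℤ} (hp : Hg p e) :
    Hg (tru l p) e := by
  intro m hm
  rw [mem_support_iff, coeff_tru] at hm
  refine hp m (mem_support_iff.2 ?_)
  intro h
  rw [h, ite_self] at hm
  exact hm rfl

theorem Hg_dq (i : Fin n) {p : MvPolynomial (Fin n) k} {e e' : ℤ} (hp : Hg p e)
    (h : e' + 2 = e) : Hg (dq i p) e' := by
  intro m hm
  rw [mem_support_iff, coeff_dq] at hm
  have h1 := hp _ (mem_support_iff.2 hm)
  rw [map_add, Finsupp.degree_single] at h1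
  push_cast at h1
  linarith

theorem zr_tru (i : Fin n) (f : MvPolynomial (Fin n) k) :
    zr i (tru ((i : ℕ) + 1) f) = tru i f := by
  classical
  ext m
  rw [coeff_zr, coeff_tru, coeff_tru]
  by_cases h : ∀ j : Fin n, (i : ℕ) ≤ (j : ℕ) → m j = 0
  · rw [if_pos h, if_pos (h i le_rfl), if_pos (fun j hj => h j (by omega))]
  · rw [if_neg h]
    by_cases h1 : m i = 0
    · rw [if_pos h1, if_neg]
      intro h2
      apply h
      intro j hj
      rcases Nat.eq_or_lt_of_le hj with h3 | h3
      · rw [← Fin.ext h3]; exact h1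
      · exact h2 j h3
    · rw [if_neg h1]

theorem tru_tru (l l' : ℕ) (h : l ≤ l') (f : MvPolynomial (Fin n) k) :
    tru l (tru l' f) = tru l f := by
  classical
  ext m
  rw [coeff_tru, coeff_tru, coeff_tru]
  by_cases h1 : ∀ j : Fin n, l ≤ (j : ℕ) → m j = 0
  · rw [if_pos h1, if_pos h1, if_pos (fun j hj => h1 j (h.trans hj))]
  · rw [if_neg h1, if_neg h1]

theorem tru_self (f : MvPolynomial (Fin n) k) : tru n f = f := by
  classical
  ext m
  rw [coeff_tru, if_pos]
  intro j hj
  have := j.2
  omega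

theorem tru_zero (f : MvPolynomial (Fin n) k) : tru 0 f = C (coeff 0 f) := by
  classical
  ext m
  rw [coeff_tru, coeff_C]
  by_cases h : (0 : Fin n →₀ ℕ) = m
  · subst h
    rw [if_pos rfl, if_pos]
    intro j _
    rfl
  · rw [if_neg h, if_neg]
    intro h1
    apply h
    ext j
    exact (h1 j (Nat.zero_le _)).symm

theorem gN_tru (f : MvPolynomial (Fin n) k) (m m' : ℕ) (h : m < m') :
    gN (tru m' f) m = gN f m := by
  unfold gN
  split_ifs with h1
  · rw [tru_tru (m + 1) m' h]
  · rfl

theorem psum_tru (f : MvPolynomial (Fin n) k) (h0 : coeff 0 f = 0) (m : ℕ) (hm : m ≤ n) :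
    psum (xN k n) (gN f) m = tru m f := by
  induction m with
  | zero => rw [tru_zero, h0, C_0]; rfl
  | succ m ih =>
    have h : m < n := hm
    have h1 := zr_add_dq (⟨m, h⟩ : Fin n) (tru (m + 1) f)
    have h2 := zr_tru (⟨m, h⟩ : Fin n) f
    simp only at h2
    rw [h2] at h1
    rw [psum, ih (by omega), xN, dif_pos h, gN, dif_pos h]
    exact h1

theorem Hg_of_isHomogeneous {f : MvPolynomial (Fin n) k} {d : ℕ} (hf : f.IsHomogeneous d) :
    Hg f (2 * d) := by
  intro m hm
  have h1 : m.degree = d := by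
    rw [Finsupp.degree_eq_weight_one]
    exact hf (mem_support_iff.1 hm)
  rw [h1]

theorem gN_Hg {f : MvPolynomial (Fin n) k} (hf : f.IsHomogeneous 3) (m : ℕ) :
    Hg (gN f m) (3 - -1) := by
  unfold gN
  split_ifs with h
  · exact Hg_dq _ (Hg_tru _ (Hg_of_isHomogeneous hf)) (by norm_num)
  · exact Hg.zero _

end KuMF
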