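import Pool.Agent.H91.MF.KapL
import Pool.Agent.H91.MF.KBase

/-!
# The object `kst` and the nonvanishing of the trace functional

STATEMENTS TO PROVE (job MF-KST). `hat M = fromBlocks M 0 0 (-M)`. On `KM (m+1) = KM m ⋆ (x_m, g_m)`:
`epsM (m+1) m = fromBlocks 0 0 1 0` ((v,u) ↦ (0,v)), `iotM (m+1) m = fromBlocks 0 1 0 0`
((v,u) ↦ (u,0)), and `hat` of the old operators for `i < m` (operators with index `≥ m` are zero).
`eps_Q`: `Q ε_i + ε_i Q = x_i`, `iot_Q`: `Q ι_i + ι_i Q = g_i` (`i < m`): induction on `m`; for the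
new operator by block computation, for the old ones
`Q⋆ hat(M) + hat(M) Q⋆ = fromBlocks (Q M + M Q) 0 0 (Q M + M Q)`.
`eps_mem`, `iot_mem`: weights `-1`, `1`.
`tr_top`: `T_m = tr (Σ ∏_{j<m} ι_j ∏_{j<m} ε_j) = ± 1`. Induction: `Σ⋆ = fromBlocks Σ 0 0 (-Σ)`,
`∏_{j<m} hat(M_j) = fromBlocks (∏ M_j) 0 0 ((-1)^m ∏ M_j)`, and the new `ι` anticommutes with the
`hat ε_j`, so `∏_{j ≤ m} ι_j ∏_{j ≤ m} ε_j = (-1)^m (∏ hat ι_j ∏ hat ε_j) (ι ε)`
`= (-1)^m fromBlocks (∏ ι_j ∏ ε_j) 0 0 0`; so `T_{m+1} = (-1)^m T_m`, `T_0 = 1`. (Alternatively avoid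
the anticommutation: multiply the blocks directly: `(∏ hat ι_j) ι (∏ hat ε_j) ε =
fromBlocks A 0 0 (±A) * fromBlocks 0 1 0 0 * fromBlocks B 0 0 ((-1)^m B) * fromBlocks 0 0 1 0
= (-1)^m fromBlocks (A B) 0 0 0`.)
`exists_kap_ne`: `E = kst f`, `Λ_j = X_j^2 • ε_j`, `φ = ∏ θ_j`,
`θ_j = ι_j - ∑_i a_ij • ε_i`, `a_ij = (1/2) ∂_i g_j` (weight `2`; Euler: `∑_i a_ij x_i = g_j` for `g_j`
homogeneous of degree `2`); `Q θ_j + θ_j Q = g_j - ∑ a_ij x_i = 0`, so `θ_j ∈ Z E E 1`, `φ ∈ Z E E 6`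
(`mul_mem_Z`). `kapL E Λ φ = coeff (topM 6) (∏ X_j^2 * tr (Σ φ ∏ ε_j)) = coeff 0 (tr (Σ φ ∏ ε_j))`,
and applying `constantCoeff` entrywise kills the `a_ij` (homogeneous of degree `1`), so it equals
`constantCoeff (tr (Σ ∏ ι_j ∏ ε_j)) = ± 1`.
-/

open MvPolynomial

noncomputable section

namespace KuMF

namespace MF

variable {k : Type} [Field k]

section star_lemmas

variable {n : ℕ} {f : MvPolynomial (Fin n) k}

theorem KSt_hat_mem (E : MF f) (a b : MvPolynomial (Fin n) k) (ha : Hg a (-1 + 3))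
    (hb : Hg b (3 - -1)) {M : Matrix E.ι E.ι (MvPolynomial (Fin n) k)} {q : ℤ}
    (hM : M ∈ Hom E E q) :
    (Matrix.fromBlocks M 0 0 (-M) : Matrix (E.ι ⊕ E.ι) (E.ι ⊕ E.ι) (MvPolynomial (Fin n) k)) ∈
      Hom (E.star a b (-1) ha hb) (E.star a b (-1) ha hb) q := by
  rintro (i | i) (j | j)
  · exact hM i j
  · exact Hg.zero _
  · exact Hg.zero _
  · exact ((hM i j).neg).of_eq (by
      change E.w j - E.w i + q = (E.w j + -1) - (E.w i + -1) + q
      ring)

theorem KSt_one_Hg (E : MF f) (i j : E.ι) {c : ℤ} (hc : c = E.w j - E.w i) :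
    Hg ((1 : Matrix E.ι E.ι (MvPolynomial (Fin n) k)) i j) c := by
  rcases eq_or_ne i j with rfl | h
  · rw [Matrix.one_apply_eq]
    exact Hg.one.of_eq (by rw [hc]; ring)
  · rw [Matrix.one_apply_ne h]
    exact Hg.zero _

theorem KSt_eps_mem (E : MF f) (a b : MvPolynomial (Fin n) k) (ha : Hg a (-1 + 3))
    (hb : Hg b (3 - -1)) :
    (Matrix.fromBlocks 0 0 1 0 : Matrix (E.ι ⊕ E.ι) (E.ι ⊕ E.ι) (MvPolynomial (Fin n) k)) ∈
      Hom (E.star a b (-1) ha hb) (E.star a b (-1) ha hb) (-1) := by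
  rintro (i | i) (j | j)
  · exact Hg.zero _
  · exact Hg.zero _
  · refine KSt_one_Hg E i j ?_
    change E.w j - (E.w i + -1) + -1 = _
    ring
  · exact Hg.zero _

theorem KSt_iot_mem (E : MF f) (a b : MvPolynomial (Fin n) k) (ha : Hg a (-1 + 3))
    (hb : Hg b (3 - -1)) :
    (Matrix.fromBlocks 0 1 0 0 : Matrix (E.ι ⊕ E.ι) (E.ι ⊕ E.ι) (MvPolynomial (Fin n) k)) ∈
      Hom (E.star a b (-1) ha hb) (E.star a b (-1) ha hb) 1 := by
  rintro (i | i) (j | j)
  · exact Hg.zero _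
  · refine KSt_one_Hg E i j ?_
    change (E.w j + -1) - E.w i + 1 = _
    ring
  · exact Hg.zero _
  · exact Hg.zero _

variable {ι : Type} [Fintype ι] [DecidableEq ι] {S : Type} [CommRing S]

theorem KSt_hat_Q (Q M : Matrix ι ι S) (a b c : S) (h : Q * M + M * Q = c • (1 : Matrix ι ι S)) :
    (Matrix.fromBlocks Q (a • 1) (b • 1) (-Q) : Matrix (ι ⊕ ι) (ι ⊕ ι) S) *
      Matrix.fromBlocks M 0 0 (-M) + Matrix.fromBlocks M 0 0 (-M) *
      Matrix.fromBlocks Q (a • 1) (b • 1) (-Q) = c • (1 : Matrix (ι ⊕ ι) (ι ⊕ ι) S) := by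
  rw [Matrix.fromBlocks_multiply, Matrix.fromBlocks_multiply, Matrix.fromBlocks_add,
    ← Matrix.fromBlocks_one, Matrix.fromBlocks_smul, ← h]
  congr 1
  · simp
  · simp
  · simp
  · simp

theorem KSt_eps_Q (Q : Matrix ι ι S) (a b : S) :
    (Matrix.fromBlocks Q (a • 1) (b • 1) (-Q) : Matrix (ι ⊕ ι) (ι ⊕ ι) S) *
      Matrix.fromBlocks 0 0 1 0 + Matrix.fromBlocks 0 0 1 0 *
      Matrix.fromBlocks Q (a • 1) (b • 1) (-Q) = a • (1 : Matrix (ι ⊕ ι) (ι ⊕ ι) S) := by
  rw [Matrix.fromBlocks_multiply, Matrix.fromBlocks_multiply, Matrix.fromBlocks_add,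
    ← Matrix.fromBlocks_one, Matrix.fromBlocks_smul]
  congr 1
  · simp
  · simp
  · simp
  · simp

theorem KSt_iot_Q (Q : Matrix ι ι S) (a b : S) :
    (Matrix.fromBlocks Q (a • 1) (b • 1) (-Q) : Matrix (ι ⊕ ι) (ι ⊕ ι) S) *
      Matrix.fromBlocks 0 1 0 0 + Matrix.fromBlocks 0 1 0 0 *
      Matrix.fromBlocks Q (a • 1) (b • 1) (-Q) = b • (1 : Matrix (ι ⊕ ι) (ι ⊕ ι) S) := by
  rw [Matrix.fromBlocks_multiply, Matrix.fromBlocks_multiply, Matrix.fromBlocks_add,
    ← Matrix.fromBlocks_one, Matrix.fromBlocks_smul]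
  congr 1
  · simp
  · simp
  · simp
  · simp

theorem KSt_hat_prod (L : List (Matrix ι ι S)) :
    (L.map fun M => (Matrix.fromBlocks M 0 0 (-M) : Matrix (ι ⊕ ι) (ι ⊕ ι) S)).prod =
      Matrix.fromBlocks L.prod 0 0 ((-1 : S) ^ L.length • L.prod) := by
  induction L with
  | nil => simp
  | cons M L ih =>
    rw [List.map_cons, List.prod_cons, ih, Matrix.fromBlocks_multiply]
    simp only [List.prod_cons, List.length_cons, Matrix.zero_mul, Matrix.mul_zero, add_zero,
      zero_add, pow_succ]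
    congr 1
    rw [mul_neg_one, neg_smul, Matrix.neg_mul, Matrix.mul_smul]

theorem KSt_block_trace (G A B : Matrix ι ι S) (s : S) :
    ((Matrix.fromBlocks G 0 0 (-G) : Matrix (ι ⊕ ι) (ι ⊕ ι) S) *
      ((Matrix.fromBlocks A 0 0 (s • A) * Matrix.fromBlocks 0 1 0 0) *
        (Matrix.fromBlocks B 0 0 (s • B) * Matrix.fromBlocks 0 0 1 0))).trace =
      s * (G * (A * B)).trace := by
  simp only [Matrix.fromBlocks_multiply, Matrix.mul_zero, Matrix.zero_mul, add_zero, zero_add,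
    Matrix.mul_one]
  rw [Matrix.mul_smul, Matrix.mul_smul]
  simp only [Matrix.trace, Matrix.diag_apply, Fintype.sum_sum_type, Matrix.fromBlocks_apply₁₁,
    Matrix.fromBlocks_apply₂₂, Matrix.zero_apply, Finset.sum_const_zero, add_zero,
    Matrix.smul_apply, smul_eq_mul, Finset.mul_sum]

theorem KSt_sg (E : MF f) (a b : MvPolynomial (Fin n) k) (ha : Hg a (-1 + 3))
    (hb : Hg b (3 - -1)) :
    sg (E.star a b (-1) ha hb) =
      (Matrix.fromBlocks (sg E) 0 0 (-sg E) :
        Matrix (E.ι ⊕ E.ι) (E.ι ⊕ E.ι) (MvPolynomial (Fin n) k)) := by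
  have h1 : sn k (-1) = -1 := by
    rw [sn, Int.negOnePow_neg, Int.negOnePow_one]
    simp
  ext1 i j
  change (Matrix.diagonal (fun i => C (sn k ((E.star a b (-1) ha hb).w i))) :
    Matrix (E.ι ⊕ E.ι) (E.ι ⊕ E.ι) (MvPolynomial (Fin n) k)) i j = _
  rcases i with i | i <;> rcases j with j | j
  · rw [Matrix.fromBlocks_apply₁₁, sg]
    simp only [Matrix.diagonal_apply, Sum.inl.injEq]
    rfl
  · rw [Matrix.fromBlocks_apply₁₂, Matrix.diagonal_apply, if_neg (by simp)]
    rfl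
  · rw [Matrix.fromBlocks_apply₂₁, Matrix.diagonal_apply, if_neg (by simp)]
    rfl
  · rw [Matrix.fromBlocks_apply₂₂, sg, Matrix.neg_apply]
    simp only [Matrix.diagonal_apply, Sum.inr.injEq]
    split_ifs with h
    · change C (sn k (E.w i + -1)) = _
      rw [sn_add, h1, mul_neg_one, map_neg]
    · rw [neg_zero]

end star_lemmas

section
variable {n : ℕ} (x g : ℕ → MvPolynomial (Fin n) k) (hx : ∀ m, Hg (x m) (-1 + 3))
    (hg : ∀ m, Hg (g m) (3 - -1))

/-- The operators `ε_i` on `KM m`. -/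
def epsM : (m : ℕ) → ℕ → Matrix (KM x g hx hg m).ι (KM x g hx hg m).ι (MvPolynomial (Fin n) k)
  | 0, _ => 0
  | m + 1, i => if i = m then
      (Matrix.fromBlocks 0 0 1 0 : Matrix ((KM x g hx hg m).ι ⊕ (KM x g hx hg m).ι)
        ((KM x g hx hg m).ι ⊕ (KM x g hx hg m).ι) (MvPolynomial (Fin n) k))
      else Matrix.fromBlocks (epsM m i) 0 0 (-epsM m i)

/-- The operators `ι_i` on `KM m`. -/
def iotM : (m : ℕ) → ℕ → Matrix (KM x g hx hg m).ι (KM x g hx hg m).ι (MvPolynomial (Fin n) k)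
  | 0, _ => 0
  | m + 1, i => if i = m then
      (Matrix.fromBlocks 0 1 0 0 : Matrix ((KM x g hx hg m).ι ⊕ (KM x g hx hg m).ι)
        ((KM x g hx hg m).ι ⊕ (KM x g hx hg m).ι) (MvPolynomial (Fin n) k))
      else Matrix.fromBlocks (iotM m i) 0 0 (-iotM m i)

theorem eps_mem (m i : ℕ) : epsM x g hx hg m i ∈ Hom (KM x g hx hg m) (KM x g hx hg m) (-1) := by
  induction m with
  | zero => exact Submodule.zero_mem _
  | succ m ih =>
    by_cases h : i = m
    · have h1 : epsM x g hx hg (m + 1) i = (Matrix.fromBlocks 0 0 1 0 :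
          Matrix ((KM x g hx hg m).ι ⊕ (KM x g hx hg m).ι)
            ((KM x g hx hg m).ι ⊕ (KM x g hx hg m).ι) (MvPolynomial (Fin n) k)) := if_pos h
      rw [h1]
      exact KSt_eps_mem _ _ _ _ _
    · have h1 : epsM x g hx hg (m + 1) i =
          Matrix.fromBlocks (epsM x g hx hg m i) 0 0 (-epsM x g hx hg m i) := if_neg h
      rw [h1]
      exact KSt_hat_mem _ _ _ _ _ ih

theorem iot_mem (m i : ℕ) : iotM x g hx hg m i ∈ Hom (KM x g hx hg m) (KM x g hx hg m) 1 := by
  induction m with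
  | zero => exact Submodule.zero_mem _
  | succ m ih =>
    by_cases h : i = m
    · have h1 : iotM x g hx hg (m + 1) i = (Matrix.fromBlocks 0 1 0 0 :
          Matrix ((KM x g hx hg m).ι ⊕ (KM x g hx hg m).ι)
            ((KM x g hx hg m).ι ⊕ (KM x g hx hg m).ι) (MvPolynomial (Fin n) k)) := if_pos h
      rw [h1]
      exact KSt_iot_mem _ _ _ _ _
    · have h1 : iotM x g hx hg (m + 1) i =
          Matrix.fromBlocks (iotM x g hx hg m i) 0 0 (-iotM x g hx hg m i) := if_neg h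
      rw [h1]
      exact KSt_hat_mem _ _ _ _ _ ih

theorem eps_Q (m i : ℕ) (h : i < m) :
    (KM x g hx hg m).Q * epsM x g hx hg m i + epsM x g hx hg m i * (KM x g hx hg m).Q =
      x i • (1 : Matrix (KM x g hx hg m).ι (KM x g hx hg m).ι (MvPolynomial (Fin n) k)) := by
  induction m with
  | zero => omega
  | succ m ih =>
    by_cases h' : i = m
    · have h1 : epsM x g hx hg (m + 1) i = (Matrix.fromBlocks 0 0 1 0 :
          Matrix ((KM x g hx hg m).ι ⊕ (KM x g hx hg m).ι)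
            ((KM x g hx hg m).ι ⊕ (KM x g hx hg m).ι) (MvPolynomial (Fin n) k)) := if_pos h'
      rw [h1, h']
      exact KSt_eps_Q _ _ _
    · have h1 : epsM x g hx hg (m + 1) i =
          Matrix.fromBlocks (epsM x g hx hg m i) 0 0 (-epsM x g hx hg m i) := if_neg h'
      rw [h1]
      exact KSt_hat_Q _ _ _ _ _ (ih (by omega))

theorem iot_Q (m i : ℕ) (h : i < m) :
    (KM x g hx hg m).Q * iotM x g hx hg m i + iotM x g hx hg m i * (KM x g hx hg m).Q =
      g i • (1 : Matrix (KM x g hx hg m).ι (KM x g hx hg m).ι (MvPolynomial (Fin n) k)) := by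
  induction m with
  | zero => omega
  | succ m ih =>
    by_cases h' : i = m
    · have h1 : iotM x g hx hg (m + 1) i = (Matrix.fromBlocks 0 1 0 0 :
          Matrix ((KM x g hx hg m).ι ⊕ (KM x g hx hg m).ι)
            ((KM x g hx hg m).ι ⊕ (KM x g hx hg m).ι) (MvPolynomial (Fin n) k)) := if_pos h'
      rw [h1, h']
      exact KSt_iot_Q _ _ _
    · have h1 : iotM x g hx hg (m + 1) i =
          Matrix.fromBlocks (iotM x g hx hg m i) 0 0 (-iotM x g hx hg m i) := if_neg h'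
      rw [h1]
      exact KSt_hat_Q _ _ _ _ _ (ih (by omega))

theorem KSt_tr_succ (m : ℕ) :
    (sg (KM x g hx hg (m + 1)) *
      ((List.ofFn fun j : Fin (m + 1) => iotM x g hx hg (m + 1) j).prod *
      (List.ofFn fun j : Fin (m + 1) => epsM x g hx hg (m + 1) j).prod)).trace =
    (-1) ^ m * (sg (KM x g hx hg m) * ((List.ofFn fun j : Fin m => iotM x g hx hg m j).prod *
      (List.ofFn fun j : Fin m => epsM x g hx hg m j).prod)).trace := by
  have hI : (List.ofFn fun j : Fin (m + 1) => iotM x g hx hg (m + 1) j).prod =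
      (Matrix.fromBlocks (List.ofFn fun j : Fin m => iotM x g hx hg m j).prod 0 0
        ((-1 : MvPolynomial (Fin n) k) ^ m • (List.ofFn fun j : Fin m => iotM x g hx hg m j).prod) :
        Matrix ((KM x g hx hg m).ι ⊕ (KM x g hx hg m).ι)
          ((KM x g hx hg m).ι ⊕ (KM x g hx hg m).ι) (MvPolynomial (Fin n) k)) *
        Matrix.fromBlocks 0 1 0 0 := by
    have h1 := KSt_hat_prod (List.ofFn fun j : Fin m => iotM x g hx hg m j)
    rw [List.length_ofFn] at h1
    rw [← h1, List.map_ofFn, List.ofFn_succ', List.concat_eq_append, List.prod_append,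
      List.prod_singleton]
    have h2 : iotM x g hx hg (m + 1) (Fin.last m : ℕ) = (Matrix.fromBlocks 0 1 0 0 :
        Matrix ((KM x g hx hg m).ι ⊕ (KM x g hx hg m).ι)
          ((KM x g hx hg m).ι ⊕ (KM x g hx hg m).ι) (MvPolynomial (Fin n) k)) :=
      if_pos rfl
    have h3 : (fun i : Fin m => iotM x g hx hg (m + 1) (Fin.castSucc i : ℕ)) =
        ((fun M : Matrix (KM x g hx hg m).ι (KM x g hx hg m).ι (MvPolynomial (Fin n) k) =>
          (Matrix.fromBlocks M 0 0 (-M) : Matrix ((KM x g hx hg m).ι ⊕ (KM x g hx hg m).ι)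
          ((KM x g hx hg m).ι ⊕ (KM x g hx hg m).ι) (MvPolynomial (Fin n) k))) ∘
          fun j : Fin m => iotM x g hx hg m j) := by
      funext i
      exact if_neg (by have := i.2; simp only [Fin.val_castSucc]; omega)
    rw [h2, h3]
    rfl
  have hE : (List.ofFn fun j : Fin (m + 1) => epsM x g hx hg (m + 1) j).prod =
      (Matrix.fromBlocks (List.ofFn fun j : Fin m => epsM x g hx hg m j).prod 0 0
        ((-1 : MvPolynomial (Fin n) k) ^ m • (List.ofFn fun j : Fin m => epsM x g hx hg m j).prod) :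
        Matrix ((KM x g hx hg m).ι ⊕ (KM x g hx hg m).ι)
          ((KM x g hx hg m).ι ⊕ (KM x g hx hg m).ι) (MvPolynomial (Fin n) k)) *
        Matrix.fromBlocks 0 0 1 0 := by
    have h1 := KSt_hat_prod (List.ofFn fun j : Fin m => epsM x g hx hg m j)
    rw [List.length_ofFn] at h1
    rw [← h1, List.map_ofFn, List.ofFn_succ', List.concat_eq_append, List.prod_append,
      List.prod_singleton]
    have h2 : epsM x g hx hg (m + 1) (Fin.last m : ℕ) = (Matrix.fromBlocks 0 0 1 0 :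
        Matrix ((KM x g hx hg m).ι ⊕ (KM x g hx hg m).ι)
          ((KM x g hx hg m).ι ⊕ (KM x g hx hg m).ι) (MvPolynomial (Fin n) k)) :=
      if_pos rfl
    have h3 : (fun i : Fin m => epsM x g hx hg (m + 1) (Fin.castSucc i : ℕ)) =
        ((fun M : Matrix (KM x g hx hg m).ι (KM x g hx hg m).ι (MvPolynomial (Fin n) k) =>
          (Matrix.fromBlocks M 0 0 (-M) : Matrix ((KM x g hx hg m).ι ⊕ (KM x g hx hg m).ι)
          ((KM x g hx hg m).ι ⊕ (KM x g hx hg m).ι) (MvPolynomial (Fin n) k))) ∘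
          fun j : Fin m => epsM x g hx hg m j) := by
      funext i
      exact if_neg (by have := i.2; simp only [Fin.val_castSucc]; omega)
    rw [h2, h3]
    rfl
  rw [hI, hE]
  have hG := KSt_sg (KM x g hx hg m) (x m) (g m) (hx m) (hg m)
  have h5 := KSt_block_trace (sg (KM x g hx hg m))
    (List.ofFn fun j : Fin m => iotM x g hx hg m j).prod
    (List.ofFn fun j : Fin m => epsM x g hx hg m j).prod ((-1 : MvPolynomial (Fin n) k) ^ m)
  rw [← h5, ← hG]
  rfl

theorem tr_top (m : ℕ) :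
    (sg (KM x g hx hg m) * ((List.ofFn fun j : Fin m => iotM x g hx hg m j).prod *
      (List.ofFn fun j : Fin m => epsM x g hx hg m j).prod)).trace = 1 ∨
    (sg (KM x g hx hg m) * ((List.ofFn fun j : Fin m => iotM x g hx hg m j).prod *
      (List.ofFn fun j : Fin m => epsM x g hx hg m j).prod)).trace = -1 := by
  induction m with
  | zero =>
    left
    have h1 : sg (KM x g hx hg 0) = 1 := by
      change Matrix.diagonal (fun _ : Unit => C (sn k 0)) = 1
      have h2 : sn k 0 = 1 := by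
        rw [sn, Int.negOnePow_zero]
        simp
      rw [h2, C_1]
      exact Matrix.diagonal_one
    rw [h1, List.ofFn_zero, List.ofFn_zero]
    change Matrix.trace ((1 : Matrix Unit Unit (MvPolynomial (Fin n) k)) *
      ((1 : Matrix Unit Unit (MvPolynomial (Fin n) k)) *
        (1 : Matrix Unit Unit (MvPolynomial (Fin n) k)))) = 1
    simp
  | succ m ih =>
    rw [KSt_tr_succ]
    rcases neg_one_pow_eq_or (MvPolynomial (Fin n) k) m with h | h <;>
      rcases ih with h' | h' <;> rw [h, h'] <;> simp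

end

theorem psum_gN {f : MvPolynomial (Fin 6) k} (hf : f.IsHomogeneous 3) :
    psum (xN k 6) (gN f) 6 = f := by
  have h0 : coeff 0 f = 0 := by
    by_contra h
    have := hf h
    simp at this
  rw [psum_tru f h0 6 le_rfl, tru_self]

/-- The factorization `pt ⋆ (x_0, g_0) ⋆ ⋯ ⋆ (x_5, g_5)` of `f`. -/
def kst (f : MvPolynomial (Fin 6) k) (hf : f.IsHomogeneous 3) : MF f :=
  (KM (xN k 6) (gN f) xN_Hg (gN_Hg hf) 6).congr (psum_gN hf)

theorem KSt_gN_hom {f : MvPolynomial (Fin 6) k} (hf : f.IsHomogeneous 3) (j : ℕ) :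
    (gN f j).IsHomogeneous 2 := by
  intro m hm
  have h1 := gN_Hg hf j m (by rwa [MvPolynomial.mem_support_iff])
  have h2 : m.degree = 2 := by
    have : (2 : ℤ) * (m.degree : ℤ) = 4 := by
      rw [h1]
      norm_num
    omega
  rw [← h2, Finsupp.degree_eq_weight_one]
  rfl

/-- the coefficients `a_ij = (1/2) ∂_i g_j` -/
def KSt_a (f : MvPolynomial (Fin 6) k) (i : Fin 6) (j : ℕ) : MvPolynomial (Fin 6) k :=
  (2 : k)⁻¹ • pderiv i (gN f j)

theorem KSt_a_sum [CharZero k] {f : MvPolynomial (Fin 6) k} (hf : f.IsHomogeneous 3) (j : ℕ) :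
    ∑ i : Fin 6, KSt_a f i j * X i = gN f j := by
  have h1 := (KSt_gN_hom hf j).sum_X_mul_pderiv
  have h2 : ∑ i : Fin 6, KSt_a f i j * X i = (2 : k)⁻¹ • ∑ i : Fin 6, X i * pderiv i (gN f j) := by
    rw [Finset.smul_sum]
    refine Finset.sum_congr rfl fun i _ => ?_
    unfold KSt_a
    rw [smul_mul_assoc, mul_comm]
  rw [h2, h1, ← Nat.cast_smul_eq_nsmul k, smul_smul]
  norm_num

theorem KSt_a_Hg {f : MvPolynomial (Fin 6) k} (hf : f.IsHomogeneous 3) (i : Fin 6) (j : ℕ) :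
    Hg (KSt_a f i j) 2 := by
  have h1 : (pderiv i (gN f j)).IsHomogeneous (2 - 1) := (KSt_gN_hom hf j).pderiv
  exact ((Hg_of_isHomogeneous h1).smul _).of_eq (by norm_num)

theorem KSt_a_const {f : MvPolynomial (Fin 6) k} (hf : f.IsHomogeneous 3) (i : Fin 6) (j : ℕ) :
    constantCoeff (KSt_a f i j) = 0 := by
  rw [constantCoeff_eq]
  by_contra h
  have h1 := KSt_a_Hg hf i j 0 (by rwa [MvPolynomial.mem_support_iff])
  simp at h1

theorem KSt_smul_mem {n : ℕ} {f : MvPolynomial (Fin n) k} {E F : MF f}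
    {M : Matrix F.ι E.ι (MvPolynomial (Fin n) k)} {q c : ℤ} (hM : M ∈ Hom E F q)
    {p : MvPolynomial (Fin n) k} (hp : Hg p c) : p • M ∈ Hom E F (c + q) := by
  intro i j
  rw [Matrix.smul_apply, smul_eq_mul]
  exact (hp.mul (hM i j)).of_eq (by ring)

theorem KSt_prod_mem {n : ℕ} {f : MvPolynomial (Fin n) k} {E : MF f}
    (L : List (Matrix E.ι E.ι (MvPolynomial (Fin n) k))) (hL : ∀ M ∈ L, M ∈ Z E E 1) :
    L.prod ∈ Z E E L.length := by
  induction L with
  | nil => exact one_mem_Z E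
  | cons M L ih =>
    rw [List.prod_cons]
    have h1 := mul_mem_Z (hL M List.mem_cons_self) (ih fun N hN => hL N (List.mem_cons_of_mem _ hN))
    have h2 : (((M :: L).length : ℕ) : ℤ) = 1 + (L.length : ℤ) := by
      rw [List.length_cons]
      push_cast
      ring
    rw [h2]
    exact h1

theorem KSt_prod_smul {ι : Type} [Fintype ι] [DecidableEq ι] {S : Type} [CommRing S] {N : ℕ}
    (p : Fin N → S) (M : Fin N → Matrix ι ι S) :
    (List.ofFn fun j => p j • M j).prod = (∏ j, p j) • (List.ofFn M).prod := by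
  induction N with
  | zero => simp
  | succ N ih =>
    rw [List.ofFn_succ, List.ofFn_succ, List.prod_cons, List.prod_cons, ih, Fin.prod_univ_succ,
      Matrix.smul_mul, Matrix.mul_smul, smul_smul]

theorem exists_kap_ne [CharZero k] (f : MvPolynomial (Fin 6) k) (hf : f.IsHomogeneous 3) :
    ∃ Λ, IsHtpy (kst f hf) Λ ∧ ∃ φ ∈ Z (kst f hf) (kst f hf) 6, kapL (kst f hf) Λ φ ≠ 0 := by
  classical
  set E := kst f hf with hE
  set ep : Fin 6 → Matrix E.ι E.ι (MvPolynomial (Fin 6) k) :=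
    fun j => epsM (xN k 6) (gN f) xN_Hg (gN_Hg hf) 6 j with hep
  set io : Fin 6 → Matrix E.ι E.ι (MvPolynomial (Fin 6) k) :=
    fun j => iotM (xN k 6) (gN f) xN_Hg (gN_Hg hf) 6 j with hio
  have hepm : ∀ j, ep j ∈ Hom E E (-1) := fun j =>
    eps_mem (xN k 6) (gN f) xN_Hg (gN_Hg hf) 6 j
  have hiom : ∀ j, io j ∈ Hom E E 1 := fun j =>
    iot_mem (xN k 6) (gN f) xN_Hg (gN_Hg hf) 6 j
  have hX : ∀ j : Fin 6, xN k 6 j = X j := fun j => by
    unfold xN
    rw [dif_pos j.2]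
  have hepQ : ∀ j, E.Q * ep j + ep j * E.Q =
      (X j : MvPolynomial (Fin 6) k) • (1 : Matrix E.ι E.ι (MvPolynomial (Fin 6) k)) := fun j => by
    rw [← hX]
    exact eps_Q (xN k 6) (gN f) xN_Hg (gN_Hg hf) 6 j j.2
  have hioQ : ∀ j : Fin 6, E.Q * io j + io j * E.Q =
      gN f j • (1 : Matrix E.ι E.ι (MvPolynomial (Fin 6) k)) := fun j =>
    iot_Q (xN k 6) (gN f) xN_Hg (gN_Hg hf) 6 j j.2
  set Λ : Fin 6 → Matrix E.ι E.ι (MvPolynomial (Fin 6) k) := fun j => (X j ^ 2 : MvPolynomial (Fin 6) k) • ep j with hΛ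
  have hX2 : ∀ j : Fin 6, Hg (X j ^ 2 : MvPolynomial (Fin 6) k) 4 := fun j => by
    rw [pow_two]
    exact ((Hg.X j).mul (Hg.X j)).of_eq (by norm_num)
  refine ⟨Λ, ⟨fun j => ?_, fun j => ?_⟩, ?_⟩
  · have := KSt_smul_mem (hepm j) (hX2 j)
    simpa using this
  · have h1 : E.Q * Λ j + Λ j * E.Q = (X j ^ 2 : MvPolynomial (Fin 6) k) •
        (E.Q * ep j + ep j * E.Q) := by
      rw [smul_add, hΛ]
      simp only [Matrix.mul_smul, Matrix.smul_mul]
    rw [h1, hepQ, smul_smul]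
    congr 1
  set th : Fin 6 → Matrix E.ι E.ι (MvPolynomial (Fin 6) k) :=
    fun j => io j - ∑ i : Fin 6, KSt_a f i j • ep i with hth
  have hthZ : ∀ j, th j ∈ Z E E 1 := by
    intro j
    refine ⟨Submodule.sub_mem _ (hiom j) (Submodule.sum_mem _ fun i _ => ?_), ?_⟩
    · have := KSt_smul_mem (hepm i) (KSt_a_Hg hf i j)
      simpa using this
    · change dm E E 1 (th j) = 0
      rw [dm_apply]
      have h1 : ((Int.negOnePow 1 : ℤˣ) : ℤ) = -1 := by simp
      rw [h1, neg_one_smul, sub_neg_eq_add]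
      have h2 : E.Q * th j + th j * E.Q = (E.Q * io j + io j * E.Q) -
          ∑ i : Fin 6, KSt_a f i j • (E.Q * ep i + ep i * E.Q) := by
        simp only [hth, Matrix.mul_sub, Matrix.sub_mul, Finset.mul_sum, Finset.sum_mul, smul_add,
          Finset.sum_add_distrib, Matrix.mul_smul, Matrix.smul_mul]
        abel
      rw [h2, hioQ]
      have h3 : ∑ i : Fin 6, KSt_a f i j • (E.Q * ep i + ep i * E.Q) =
          (∑ i : Fin 6, KSt_a f i j * X i) •
            (1 : Matrix E.ι E.ι (MvPolynomial (Fin 6) k)) := by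
        rw [Finset.sum_smul]
        refine Finset.sum_congr rfl fun i _ => ?_
        rw [hepQ, smul_smul]
      rw [h3, KSt_a_sum hf, sub_self]
  refine ⟨(List.ofFn th).prod, ?_, ?_⟩
  · have h1 := KSt_prod_mem (List.ofFn th) (by
      intro M hM
      obtain ⟨j, rfl⟩ := (List.mem_ofFn' _ _).1 hM
      exact hthZ j)
    rw [List.length_ofFn] at h1
    exact h1
  · have h1 : kapL E Λ (List.ofFn th).prod = constantCoeff
        ((sg E * ((List.ofFn th).prod * (List.ofFn ep).prod)).trace) := by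
      change coeff (topM 6) ((sg E * ((List.ofFn th).prod * (List.ofFn Λ).prod)).trace) = _
      rw [hΛ, KSt_prod_smul, Matrix.mul_smul, Matrix.mul_smul, Matrix.trace_smul, smul_eq_mul]
      have h2 : (∏ j : Fin 6, (X j ^ 2 : MvPolynomial (Fin 6) k)) = monomial (topM 6) 1 := by
        rw [MvPolynomial.monomial_eq, C_1, one_mul, Finsupp.prod_fintype _ _ (by simp)]
        rfl
      rw [h2, constantCoeff_eq]
      have h3 := coeff_monomial_mul (0 : Fin 6 →₀ ℕ) (topM 6) (1 : k)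
        ((sg E * ((List.ofFn th).prod * (List.ofFn ep).prod)).trace)
      rw [add_zero, one_mul] at h3
      exact h3
    have h4 : constantCoeff ((sg E * ((List.ofFn th).prod * (List.ofFn ep).prod)).trace) =
        constantCoeff ((sg E * ((List.ofFn io).prod * (List.ofFn ep).prod)).trace) := by
      have h5 : ∀ M : Matrix E.ι E.ι (MvPolynomial (Fin 6) k), constantCoeff M.trace =
          ((constantCoeff (σ := Fin 6) (R := k)).mapMatrix M).trace := by
        intro M
        rw [Matrix.trace, map_sum]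
        rfl
      have h6 : (constantCoeff (σ := Fin 6) (R := k)).mapMatrix (List.ofFn th).prod =
          (constantCoeff (σ := Fin 6) (R := k)).mapMatrix (List.ofFn io).prod := by
        rw [map_list_prod, map_list_prod, List.map_ofFn, List.map_ofFn]
        congr 2
        funext j
        change (constantCoeff (σ := Fin 6) (R := k)).mapMatrix (th j) =
          (constantCoeff (σ := Fin 6) (R := k)).mapMatrix (io j)
        rw [hth]
        simp only [map_sub, map_sum]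
        rw [Finset.sum_eq_zero, sub_zero]
        intro i _
        ext1 a b
        change constantCoeff ((KSt_a f i j • ep i) a b) = 0
        rw [Matrix.smul_apply, smul_eq_mul, map_mul, KSt_a_const hf, zero_mul]
      rw [h5, h5, map_mul, map_mul, map_mul, map_mul, h6]
    rw [h1, h4]
    have h7 := tr_top (xN k 6) (gN f) xN_Hg (gN_Hg hf) 6
    have h8 : (sg E * ((List.ofFn io).prod * (List.ofFn ep).prod)).trace =
        (sg (KM (xN k 6) (gN f) xN_Hg (gN_Hg hf) 6) *
          ((List.ofFn fun j : Fin 6 => iotM (xN k 6) (gN f) xN_Hg (gN_Hg hf) 6 j).prod *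
      (List.ofFn fun j : Fin 6 => epsM (xN k 6) (gN f) xN_Hg (gN_Hg hf) 6 j).prod)).trace := rfl
    rw [h8]
    rcases h7 with h | h
    · rw [h]
      simp
    · rw [h]
      simp

end MF

end KuMF
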