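import Pool.Agent.H91.MF.HEqL

/-!
# Direct sums of shifts of one factorization

`tsum T wt K = ⊕_{t ∈ T} sh (wt t) K`.
`Dec E K`: in the homotopy category `E` is a finite direct sum of shifts `sh (wt t) K`
(given by inclusions `i t` and projections `p t`).

STATEMENTS TO PROVE (job MF-TSUM). `tsum_star`: `HEq.of_equiv` with
`(T × K.ι) ⊕ (T × K.ι) ≃ T × (K.ι ⊕ K.ι)` (`(Equiv.prodSumDistrib ..).symm`).
`tsum_of_zero`: if `V.Q = 0` then `V = ⊕_{t ∈ V.ι} sh (V.w t) pt` (`Equiv.prodPUnit`).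
`dec_tsum`: `i t` = inclusion of the `t`-th summand, `(i t) (s, a) b = if s = t ∧ a = b then 1 else 0`,
`p t` its transpose: `p t * i t = 1`, `p s * i t = 0`, `∑ i t * p t = 1` (so the differences are
zero, which are coboundaries).
`dec_of_heq`: compose with `U`, `U'` (`mul_mem_Z`, `mul_mem_B_left`, `mul_mem_B_right`;
note `p' t = p t * U`, `i' t = U' * i t`, `p s U U' i t - p s i t = p s (U U' - 1) i t`,
`∑ U' i p U - 1 = U' (∑ i p - 1) U + (U' U - 1)`).
-/

open MvPolynomial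

noncomputable section

namespace KuMF

namespace MF

variable {k : Type} [Field k] {n : ℕ} {f : MvPolynomial (Fin n) k}

/-- The direct sum of the shifts `sh (wt t) K`. -/
def tsum (T : Type) [Fintype T] [DecidableEq T] (wt : T → ℤ) (K : MF f) : MF f where
  ι := T × K.ι
  w x := wt x.1 + K.w x.2
  Q := fun x y => if x.1 = y.1 then K.Q x.2 y.2 else 0
  hQ := by
    rintro ⟨s, i⟩ ⟨t, j⟩
    dsimp only
    split_ifs with h
    · subst h
      exact (K.hQ i j).of_eq (by ring)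
    · exact Hg.zero _
  sq := by
    ext1 ⟨s, i⟩ ⟨t, j⟩
    rw [Matrix.mul_apply, Fintype.sum_prod_type]
    have h1 := congrFun (congrFun K.sq i) j
    rw [Matrix.mul_apply] at h1
    by_cases hst : s = t
    · subst hst
      rw [Finset.sum_eq_single s]
      · simp only [if_true]
        rw [h1, Matrix.smul_apply, Matrix.smul_apply, Matrix.one_apply, Matrix.one_apply]
        simp
      · intro b _ hb
        simp [Ne.symm hb]
      · simp
    · rw [Matrix.smul_apply, Matrix.one_apply_ne (by simp [hst]), smul_zero]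
      refine Finset.sum_eq_zero fun b _ => Finset.sum_eq_zero fun c _ => ?_
      by_cases h2 : s = b
      · rw [if_neg (fun h3 => hst (h2.trans h3)), mul_zero]
      · rw [if_neg h2, zero_mul]

/-- `E` is, up to homotopy, a finite direct sum of shifts of `K`. -/
def Dec (E K : MF f) : Prop :=
  ∃ (T : Type) (_ : Fintype T) (wt : T → ℤ)
    (i : T → Matrix E.ι K.ι (MvPolynomial (Fin n) k))
    (p : T → Matrix K.ι E.ι (MvPolynomial (Fin n) k)),
    (∀ t, i t ∈ Z (sh (wt t) K) E 0) ∧ (∀ t, p t ∈ Z E (sh (wt t) K) 0) ∧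
    (∀ t, p t * i t - 1 ∈ B (sh (wt t) K) (sh (wt t) K) 0) ∧
    (∀ s t, s ≠ t → p s * i t ∈ B (sh (wt t) K) (sh (wt s) K) 0) ∧
    ∑ t, i t * p t - 1 ∈ B E E 0

theorem tsum_star (T : Type) [Fintype T] [DecidableEq T] (wt : T → ℤ) (K : MF f)
    (a b : MvPolynomial (Fin n) k) (e : ℤ) (ha : Hg a (e + 3)) (hb : Hg b (3 - e)) :
    HEq ((tsum T wt K).star a b e ha hb) (tsum T wt (K.star a b e ha hb)) := by
  refine HEq.of_equiv (Equiv.prodSumDistrib T K.ι K.ι).symm ?_ ?_
  · rintro (⟨t, i⟩ | ⟨t, i⟩)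
    · rfl
    · change wt t + (K.w i + e) = wt t + K.w i + e
      ring
  · rintro (⟨t, i⟩ | ⟨t, i⟩) (⟨s, j⟩ | ⟨s, j⟩)
    · rfl
    · change (if t = s then (a • (1 : Matrix K.ι K.ι (MvPolynomial (Fin n) k))) i j else 0) =
        (a • (1 : Matrix (T × K.ι) (T × K.ι) (MvPolynomial (Fin n) k))) (t, i) (s, j)
      by_cases h : t = s
      · subst h
        simp [Matrix.one_apply]
      · rw [if_neg h, Matrix.smul_apply, Matrix.one_apply_ne (by simp [h]), smul_zero]
    · change (if t = s then (b • (1 : Matrix K.ι K.ι (MvPolynomial (Fin n) k))) i j else 0) =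
        (b • (1 : Matrix (T × K.ι) (T × K.ι) (MvPolynomial (Fin n) k))) (t, i) (s, j)
      by_cases h : t = s
      · subst h
        simp [Matrix.one_apply]
      · rw [if_neg h, Matrix.smul_apply, Matrix.one_apply_ne (by simp [h]), smul_zero]
    · change (if t = s then -(K.Q i j) else 0) = -(if t = s then K.Q i j else 0)
      split_ifs
      · rfl
      · rw [neg_zero]

theorem tsum_congr (T : Type) [Fintype T] [DecidableEq T] (wt : T → ℤ) (K : MF f)
    {f' : MvPolynomial (Fin n) k} (h : f = f') :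
    HEq ((tsum T wt K).congr h) (tsum T wt (K.congr h)) :=
  HEq.of_equiv (Equiv.refl _) (fun _ => rfl) (fun _ _ => rfl)

theorem tsum_of_zero (V : MF (0 : MvPolynomial (Fin n) k)) (h : V.Q = 0) :
    HEq V (tsum V.ι V.w pt) := by
  refine HEq.of_equiv (Equiv.prodPUnit V.ι).symm (fun i => ?_) (fun i j => ?_)
  · change V.w i + 0 = V.w i
    ring
  · rw [h]
    change (if i = j then (0 : MvPolynomial (Fin n) k) else 0) = 0
    rw [ite_self]

/-- The inclusion of the summand `t`. -/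
def tinj (T : Type) [DecidableEq T] (K : MF f) (t : T) :
    Matrix (T × K.ι) K.ι (MvPolynomial (Fin n) k) := fun x b => if x = (t, b) then 1 else 0

/-- The projection to the summand `t`. -/
def tprj (T : Type) [DecidableEq T] (K : MF f) (t : T) :
    Matrix K.ι (T × K.ι) (MvPolynomial (Fin n) k) := fun b x => if x = (t, b) then 1 else 0

section
variable (T : Type) [Fintype T] [DecidableEq T] (K : MF f) (t : T) {κ : Type}

lemma mul_tinj (M : Matrix κ (T × K.ι) (MvPolynomial (Fin n) k)) (y : κ) (b : K.ι) :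
    (M * tinj T K t) y b = M y (t, b) := by
  rw [Matrix.mul_apply, Finset.sum_eq_single (t, b)]
  · simp [tinj]
  · intro x _ hx
    simp [tinj, hx]
  · simp

lemma tprj_mul (M : Matrix (T × K.ι) κ (MvPolynomial (Fin n) k)) (y : κ) (b : K.ι) :
    (tprj T K t * M) b y = M (t, b) y := by
  rw [Matrix.mul_apply, Finset.sum_eq_single (t, b)]
  · simp [tprj]
  · intro x _ hx
    simp [tprj, hx]
  · simp

omit [Fintype T] in
lemma tinj_mul (M : Matrix K.ι κ (MvPolynomial (Fin n) k)) (y : κ) (s : T) (a : K.ι) :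
    (tinj T K t * M) (s, a) y = if s = t then M a y else 0 := by
  rw [Matrix.mul_apply, Finset.sum_eq_single a]
  · by_cases h : s = t
    · simp [tinj, h]
    · simp [tinj, h]
  · intro x _ hx
    simp [tinj, Ne.symm hx]
  · simp

omit [Fintype T] in
lemma mul_tprj (M : Matrix κ K.ι (MvPolynomial (Fin n) k)) (y : κ) (s : T) (a : K.ι) :
    (M * tprj T K t) y (s, a) = if s = t then M y a else 0 := by
  rw [Matrix.mul_apply, Finset.sum_eq_single a]
  · by_cases h : s = t
    · simp [tprj, h]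
    · simp [tprj, h]
  · intro x _ hx
    simp [tprj, Ne.symm hx]
  · simp

end

lemma mem_B0 {E F : MF f} {q : ℤ} {φ : Matrix F.ι E.ι (MvPolynomial (Fin n) k)} (h : φ = 0) :
    φ ∈ B E F q := h ▸ Submodule.zero_mem _

lemma mem_Z0 {E F : MF f} {φ : Matrix F.ι E.ι (MvPolynomial (Fin n) k)} (h1 : φ ∈ Hom E F 0)
    (h2 : F.Q * φ = φ * E.Q) : φ ∈ Z E F 0 := by
  refine ⟨h1, ?_⟩
  change dm E F 0 φ = 0
  rw [dm_apply, Int.negOnePow_zero, h2]
  simp

theorem dec_tsum (T : Type) [Fintype T] [DecidableEq T] (wt : T → ℤ) (K : MF f) :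
    Dec (tsum T wt K) K := by
  have h1 : ∀ t, tprj T K t * tinj T K t = 1 := by
    intro t
    ext1 a b
    rw [mul_tinj]
    simp only [tprj, Prod.mk.injEq, true_and, Matrix.one_apply, eq_comm]
  have h2 : ∀ s t, s ≠ t → tprj T K s * tinj T K t = 0 := by
    intro s t h
    ext1 a b
    rw [mul_tinj]
    simp [tprj, Ne.symm h]
  have h3 : ∑ t, tinj T K t * tprj T K t = 1 := by
    ext1 ⟨s, a⟩ ⟨t, b⟩
    rw [Matrix.sum_apply, Finset.sum_eq_single t]
    · rw [mul_tprj, if_pos rfl]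
      simp only [tinj, Prod.mk.injEq, Matrix.one_apply]
    · intro u _ hu
      rw [mul_tprj, if_neg (Ne.symm hu)]
    · simp
  refine ⟨T, inferInstance, wt, tinj T K, tprj T K,
    fun t => mem_Z0 (E := sh (wt t) K) (F := tsum T wt K) ?_ ?_,
    fun t => mem_Z0 (E := tsum T wt K) (F := sh (wt t) K) ?_ ?_,
    fun t => mem_B0 (E := sh (wt t) K) (F := sh (wt t) K) (sub_eq_zero.2 (h1 t)),
    fun s t h => mem_B0 (E := sh (wt t) K) (F := sh (wt s) K) (h2 s t h),
    mem_B0 (E := tsum T wt K) (F := tsum T wt K) (sub_eq_zero.2 h3)⟩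
  · rintro ⟨s, a⟩ b
    change Hg (if (s, a) = (t, b) then (1 : MvPolynomial (Fin n) k) else 0)
      (K.w b + wt t - (wt s + K.w a) + 0)
    split_ifs with h
    · obtain ⟨rfl, rfl⟩ := Prod.mk.inj h
      exact Hg.one.of_eq (by ring)
    · exact Hg.zero _
  · let Q : Matrix (T × K.ι) (T × K.ι) (MvPolynomial (Fin n) k) := (tsum T wt K).Q
    change Q * tinj T K t = tinj T K t * K.Q
    ext1 ⟨s, a⟩ b
    exact (mul_tinj T K t _ _ _).trans (tinj_mul T K t _ _ _ _).symm
  · rintro b ⟨s, a⟩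
    change Hg (if (s, a) = (t, b) then (1 : MvPolynomial (Fin n) k) else 0)
      (wt s + K.w a - (K.w b + wt t) + 0)
    split_ifs with h
    · obtain ⟨rfl, rfl⟩ := Prod.mk.inj h
      exact Hg.one.of_eq (by ring)
    · exact Hg.zero _
  · let Q : Matrix (T × K.ι) (T × K.ι) (MvPolynomial (Fin n) k) := (tsum T wt K).Q
    change K.Q * tprj T K t = tprj T K t * Q
    ext1 b ⟨s, a⟩
    refine (mul_tprj T K t _ _ _ _).trans (Eq.trans ?_ (tprj_mul T K t _ _ _).symm)
    change (if s = t then K.Q b a else 0) = if t = s then K.Q b a else 0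
    simp only [eq_comm]

lemma comp_sub_mem_B {E E' A A' : MF f} {U : Matrix E'.ι E.ι (MvPolynomial (Fin n) k)}
    {U' : Matrix E.ι E'.ι (MvPolynomial (Fin n) k)} (h2 : U * U' - 1 ∈ B E' E' 0)
    {i : Matrix E'.ι A.ι (MvPolynomial (Fin n) k)} (hi : i ∈ Z A E' 0)
    {p : Matrix A'.ι E'.ι (MvPolynomial (Fin n) k)} (hp : p ∈ Z E' A' 0) :
    p * U * (U' * i) - p * i ∈ B A A' 0 := by
  have h6 : p * U * (U' * i) - p * i = p * ((U * U' - 1) * i) := by
    simp only [Matrix.sub_mul, Matrix.mul_sub, Matrix.one_mul, Matrix.mul_assoc]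
  rw [h6]
  simpa using mul_mem_B_left hp (mul_mem_B_right h2 hi)

lemma comp_mem_B {E E' A A' : MF f} {U : Matrix E'.ι E.ι (MvPolynomial (Fin n) k)}
    {U' : Matrix E.ι E'.ι (MvPolynomial (Fin n) k)} (h2 : U * U' - 1 ∈ B E' E' 0)
    {i : Matrix E'.ι A.ι (MvPolynomial (Fin n) k)} (hi : i ∈ Z A E' 0)
    {p : Matrix A'.ι E'.ι (MvPolynomial (Fin n) k)} (hp : p ∈ Z E' A' 0)
    (h : p * i ∈ B A A' 0) : p * U * (U' * i) ∈ B A A' 0 := by
  have := Submodule.add_mem _ (comp_sub_mem_B h2 hi hp) h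
  rwa [sub_add_cancel] at this

lemma tsum_comp_sub_one_mem_B {E E' A : MF f} {U : Matrix E'.ι E.ι (MvPolynomial (Fin n) k)}
    {U' : Matrix E.ι E'.ι (MvPolynomial (Fin n) k)} (h2 : U * U' - 1 ∈ B E' E' 0)
    {i : Matrix E'.ι A.ι (MvPolynomial (Fin n) k)} (hi : i ∈ Z A E' 0)
    {p : Matrix A.ι E'.ι (MvPolynomial (Fin n) k)} (hp : p ∈ Z E' A 0)
    (h : p * i - 1 ∈ B A A 0) : p * U * (U' * i) - 1 ∈ B A A 0 := by
  have := Submodule.add_mem _ (comp_sub_mem_B h2 hi hp) h
  rwa [sub_add_sub_cancel] at this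

lemma mul_mem_Z0 {E F G : MF f} {ψ : Matrix G.ι F.ι (MvPolynomial (Fin n) k)}
    {φ : Matrix F.ι E.ι (MvPolynomial (Fin n) k)} (hψ : ψ ∈ Z F G 0) (hφ : φ ∈ Z E F 0) :
    ψ * φ ∈ Z E G 0 := by
  simpa using mul_mem_Z hψ hφ

theorem dec_of_heq {E E' K : MF f} (h : HEq E E') (hd : Dec E' K) : Dec E K := by
  obtain ⟨U, hU, U', hU', h1, h2⟩ := h
  obtain ⟨T, hT, wt, i, p, hi, hp, h3, h4, h5⟩ := hd
  refine ⟨T, hT, wt, fun t => U' * i t, fun t => p t * U,
    fun t => mul_mem_Z0 (E := sh (wt t) K) hU' (hi t),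
    fun t => mul_mem_Z0 (G := sh (wt t) K) (hp t) hU,
    fun t => tsum_comp_sub_one_mem_B (A := sh (wt t) K) h2 (hi t) (hp t) (h3 t),
    fun s t hst => comp_mem_B (A := sh (wt t) K) (A' := sh (wt s) K) h2 (hi t) (hp s)
      (h4 s t hst), ?_⟩
  have h6 : ∑ t, U' * i t * (p t * U) - 1 =
      U' * ((∑ t, i t * p t - 1) * U) + (U' * U - 1) := by
    simp only [Matrix.sub_mul, Matrix.mul_sub, Matrix.one_mul, Matrix.sum_mul, Matrix.mul_sum,
      Matrix.mul_assoc]
    abel
  change ∑ t, U' * i t * (p t * U) - 1 ∈ B E E 0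
  rw [h6]
  have h7 := mul_mem_B_left hU' (mul_mem_B_right h5 hU)
  exact Submodule.add_mem _ (by simpa using h7) h1

end MF

end KuMF
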