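import Pool.Agent.H91.MF.Gauss
import Pool.Agent.H91.MF.TSum
import Pool.Agent.H91.MF.KSt

/-!
# The cone over all variables is a direct sum of shifts of `kst`
-/

open MvPolynomial

noncomputable section

namespace KuMF

namespace MF

variable {k : Type} [Field k] {n : ℕ} {f : MvPolynomial (Fin n) k}

/-- The iterated cone `E / (x_0, …, x_{m-1})`. -/
def conesN (E : MF f) : ℕ → MF f
  | 0 => E
  | m + 1 => (conesN E m).cone (xN k n m) (-1) (xN_Hg m)

/-- Same data (up to a bijection of the bases); the potentials may differ. -/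
def SD {f f' : MvPolynomial (Fin n) k} (E : MF f) (E' : MF f') : Prop :=
  ∃ e : E.ι ≃ E'.ι, (∀ i, E'.w (e i) = E.w i) ∧ ∀ i j, E'.Q (e i) (e j) = E.Q i j

lemma SD.refl (E : MF f) : SD E E := ⟨Equiv.refl _, fun _ => rfl, fun _ _ => rfl⟩

lemma SD.symm {f f' : MvPolynomial (Fin n) k} {E : MF f} {E' : MF f'} (h : SD E E') : SD E' E := by
  obtain ⟨e, hw, hQ⟩ := h
  refine ⟨e.symm, fun i => ?_, fun i j => ?_⟩
  · rw [← hw, Equiv.apply_symm_apply]
  · rw [← hQ, Equiv.apply_symm_apply, Equiv.apply_symm_apply]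

lemma SD.trans {f f' f'' : MvPolynomial (Fin n) k} {E : MF f} {E' : MF f'} {E'' : MF f''}
    (h : SD E E') (h' : SD E' E'') : SD E E'' := by
  obtain ⟨e, hw, hQ⟩ := h
  obtain ⟨e', hw', hQ'⟩ := h'
  refine ⟨e.trans e', fun i => ?_, fun i j => ?_⟩
  · rw [Equiv.trans_apply, hw', hw]
  · rw [Equiv.trans_apply, Equiv.trans_apply, hQ', hQ]

lemma SD.congr {f f' : MvPolynomial (Fin n) k} (E : MF f) (h : f = f') : SD E (E.congr h) :=
  ⟨Equiv.refl _, fun _ => rfl, fun _ _ => rfl⟩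

lemma SD.heq {E E' : MF f} (h : SD E E') : HEq E E' := by
  obtain ⟨e, hw, hQ⟩ := h
  exact HEq.of_equiv e hw hQ

lemma SD.star {f f' : MvPolynomial (Fin n) k} {E : MF f} {E' : MF f'} (h : SD E E')
    (a b : MvPolynomial (Fin n) k) (e : ℤ) (ha : Hg a (e + 3)) (hb : Hg b (3 - e)) :
    SD (E.star a b e ha hb) (E'.star a b e ha hb) := by
  obtain ⟨ε, hw, hQ⟩ := h
  refine ⟨Equiv.sumCongr ε ε, ?_, ?_⟩
  · rintro (i | i)
    · exact hw i
    · exact congrArg (· + e) (hw i)
  · have h1 : ∀ (c : MvPolynomial (Fin n) k) (i j : E.ι),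
        (c • (1 : Matrix E'.ι E'.ι (MvPolynomial (Fin n) k))) (ε i) (ε j) =
        (c • (1 : Matrix E.ι E.ι (MvPolynomial (Fin n) k))) i j := by
      intro c i j
      rw [Matrix.smul_apply, Matrix.smul_apply, Matrix.one_apply, Matrix.one_apply]
      simp only [EmbeddingLike.apply_eq_iff_eq]
    rintro (i | i) (j | j)
    · exact hQ i j
    · exact h1 a i j
    · exact h1 b i j
    · exact congrArg Neg.neg (hQ i j)

lemma SD.cone {f f' : MvPolynomial (Fin n) k} {E : MF f} {E' : MF f'} (h : SD E E')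
    (a : MvPolynomial (Fin n) k) (e : ℤ) (ha : Hg a (e + 3)) :
    SD (E.cone a e ha) (E'.cone a e ha) :=
  ((SD.congr _ _).symm.trans (h.star a 0 e ha (Hg.zero _))).trans (SD.congr _ _)

lemma SD.tsum {f f' : MvPolynomial (Fin n) k} {K : MF f} {K' : MF f'} (h : SD K K') (T : Type)
    [Fintype T] [DecidableEq T] (wt : T → ℤ) : SD (MF.tsum T wt K) (MF.tsum T wt K') := by
  obtain ⟨ε, hw, hQ⟩ := h
  refine ⟨Equiv.prodCongr (Equiv.refl _) ε, ?_, ?_⟩
  · rintro ⟨t, i⟩
    exact congrArg (wt t + ·) (hw i)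
  · rintro ⟨t, i⟩ ⟨s, j⟩
    change (if t = s then K'.Q (ε i) (ε j) else 0) = if t = s then K.Q i j else 0
    rw [hQ]

/-- `mapHom` and cones over variables which are fixed. -/
lemma SD_mapHom_cone (φ : MvPolynomial (Fin n) k →ₐ[k] MvPolynomial (Fin n) k)
    (hφ : ∀ (p : MvPolynomial (Fin n) k) (e : ℤ), Hg p e → Hg (φ p) e) (E : MF f)
    (a : MvPolynomial (Fin n) k) (e : ℤ) (ha : Hg a (e + 3)) (h : φ a = a) :
    SD ((E.cone a e ha).mapHom φ hφ) ((E.mapHom φ hφ).cone a e ha) := by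
  refine ⟨Equiv.refl _, fun _ => rfl, ?_⟩
  have h1 : ∀ (i j : E.ι),
      φ ((a • (1 : Matrix E.ι E.ι (MvPolynomial (Fin n) k))) i j) =
        (a • (1 : Matrix E.ι E.ι (MvPolynomial (Fin n) k))) i j := by
    intro i j
    rw [Matrix.smul_apply, smul_eq_mul, map_mul, h, Matrix.one_apply]
    split_ifs <;> simp
  rintro (i | i) (j | j)
  · rfl
  · exact (h1 i j).symm
  · change ((0 : MvPolynomial (Fin n) k) • (1 : Matrix E.ι E.ι (MvPolynomial (Fin n) k))) i j =
      φ (((0 : MvPolynomial (Fin n) k) • (1 : Matrix E.ι E.ι (MvPolynomial (Fin n) k))) i j)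
    simp
  · change -(φ (E.Q i j)) = φ (-(E.Q i j))
    rw [map_neg]

lemma SD.mapHom {f f' : MvPolynomial (Fin n) k} {E : MF f} {E' : MF f'} (h : SD E E')
    (φ : MvPolynomial (Fin n) k →ₐ[k] MvPolynomial (Fin n) k)
    (hφ : ∀ (p : MvPolynomial (Fin n) k) (e : ℤ), Hg p e → Hg (φ p) e) :
    SD (E.mapHom φ hφ) (E'.mapHom φ hφ) := by
  obtain ⟨ε, hw, hQ⟩ := h
  exact ⟨ε, hw, fun i j => congrArg φ (hQ i j)⟩

lemma zr_xN {i : Fin n} {m : ℕ} (h : m < i) : zr i (xN k n m) = xN k n m := by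
  unfold xN
  split_ifs with h1
  · rw [zr, aeval_X, if_neg]
    rintro rfl
    exact absurd h (lt_irrefl _)
  · rw [map_zero]

lemma SD_mapHom_conesN (E : MF f) (i : Fin n) : ∀ m : ℕ, m ≤ (i : ℕ) →
    SD ((conesN E m).mapHom (zr i) (fun _ _ h => Hg_zr i h))
      (conesN (E.mapHom (zr i) (fun _ _ h => Hg_zr i h)) m) := by
  intro m
  induction m with
  | zero => intro _; exact SD.refl _
  | succ m ih =>
    intro hm
    exact (SD_mapHom_cone _ _ _ _ _ _ (zr_xN hm)).trans ((ih (by omega)).cone _ _ _)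

lemma cone_iso' (E : MF f) (i : Fin n) (a b : MvPolynomial (Fin n) k) (ha' : a = X i)
    (hb' : b = dq i f) (ha : Hg a (-1 + 3)) (hb : Hg b (3 - -1))
    (hf : zr i f + a * b = f) :
    HEq (E.cone a (-1) ha)
      (((E.mapHom (zr i) (fun _ _ h => Hg_zr i h)).star a b (-1) ha hb).congr hf) := by
  subst ha'
  subst hb'
  exact cone_iso E i ha hb

lemma SD_tsum_star (T : Type) [Fintype T] [DecidableEq T] (wt : T → ℤ) (K : MF f)
    (a b : MvPolynomial (Fin n) k) (e : ℤ) (ha : Hg a (e + 3)) (hb : Hg b (3 - e)) :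
    HEq ((MF.tsum T wt K).star a b e ha hb) (MF.tsum T wt (K.star a b e ha hb)) :=
  tsum_star T wt K a b e ha hb

/-- The main induction. -/
theorem conesN_heq (g : ℕ → MvPolynomial (Fin n) k) (hg : ∀ m, Hg (g m) (3 - -1)) :
    ∀ (m : ℕ), m ≤ n → ∀ (f : MvPolynomial (Fin n) k) (E : MF f), coeff 0 f = 0 →
      tru m f = f → (∀ i j, tru m (E.Q i j) = E.Q i j) → Reduced E →
      (∀ i < m, g i = gN f i) → ∃ h : psum (xN k n) g m = f,
      HEq (conesN E m) ((MF.tsum E.ι E.w (KM (xN k n) g xN_Hg hg m)).congr h) := by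
  intro m
  induction m with
  | zero =>
    intro _ f E h0 hf hE hr _
    have hf0 : f = 0 := by rw [← hf, tru_zero, h0, map_zero]
    subst hf0
    have hQ : E.Q = 0 := by
      ext1 i j
      rw [← hE, tru_zero, hr i j, map_zero]
      rfl
    exact ⟨rfl, (tsum_of_zero E hQ).trans (SD.congr _ _).heq⟩
  | succ m ih =>
    intro hm f E h0 hf hE hr hgf
    have hmn : m < n := hm
    let i : Fin n := ⟨m, hmn⟩
    have hzr : zr i f = tru m f := by
      conv_lhs => rw [← hf]
      exact zr_tru i f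
    have hz0 : coeff 0 (zr i f) = 0 := by rw [coeff_zr]; simp [h0]
    have hgm : g m = dq i f := by
      rw [hgf m (Nat.lt_succ_self m), gN, dif_pos hmn, hf]
    have hxm : xN k n m = X i := by rw [xN, dif_pos hmn]
    have hsum : zr i f + xN k n m * g m = f := by rw [hxm, hgm]; exact zr_add_dq i f
    obtain ⟨h1, h2⟩ := ih (by omega) (zr i f) (E.mapHom (zr i) (fun _ _ h => Hg_zr i h)) hz0
      (by rw [hzr, tru_tru m m le_rfl])
      (by
        intro a b
        change tru m (zr i (E.Q a b)) = zr i (E.Q a b)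
        have h3 : zr i (E.Q a b) = tru m (E.Q a b) := by
          conv_lhs => rw [← hE a b]
          exact zr_tru i _
        rw [h3, tru_tru m m le_rfl])
      (by
        intro a b
        change coeff 0 (zr i (E.Q a b)) = 0
        rw [coeff_zr]
        simp [hr a b])
      (by
        intro j hj
        rw [hgf j (by omega), hzr, gN_tru f j m hj])
    have hpsum : psum (xN k n) g (m + 1) = f := by
      change psum (xN k n) g m + xN k n m * g m = f
      rw [h1, hsum]
    refine ⟨hpsum, ?_⟩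
    -- step 1
    have s1 := cone_iso' (conesN E m) i (xN k n m) (g m) hxm hgm (xN_Hg m) (hg m) hsum
    -- step 2
    have s2 : HEq ((conesN E m).mapHom (zr i) (fun _ _ h => Hg_zr i h))
        ((MF.tsum E.ι E.w (KM (xN k n) g xN_Hg hg m)).congr h1) :=
      (SD_mapHom_conesN E i m le_rfl).heq.trans h2
    have s3 := (s2.star (xN k n m) (g m) (-1) (xN_Hg m) (hg m)).congr hsum
    have s4 : SD ((((MF.tsum E.ι E.w (KM (xN k n) g xN_Hg hg m)).congr h1).star
        (xN k n m) (g m) (-1) (xN_Hg m) (hg m)).congr hsum)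
        (((MF.tsum E.ι E.w (KM (xN k n) g xN_Hg hg m)).star
        (xN k n m) (g m) (-1) (xN_Hg m) (hg m)).congr hpsum) :=
      ((SD.congr _ _).symm.trans ((SD.congr _ _).symm.star _ _ _ _ _)).trans (SD.congr _ _)
    have s5 : HEq (((MF.tsum E.ι E.w (KM (xN k n) g xN_Hg hg m)).star
        (xN k n m) (g m) (-1) (xN_Hg m) (hg m)).congr hpsum)
        ((MF.tsum E.ι E.w (KM (xN k n) g xN_Hg hg (m + 1))).congr hpsum) :=
      (tsum_star E.ι E.w (KM (xN k n) g xN_Hg hg m) _ _ _ _ _).congr hpsum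
    exact ((s1.trans s3).trans s4.heq).trans s5

lemma HEq.conesN {E E' : MF f} (h : HEq E E') : ∀ m : ℕ, HEq (MF.conesN E m) (MF.conesN E' m) := by
  intro m
  induction m with
  | zero => exact h
  | succ m ih => exact ih.cone _ _ _

/-- `E / (x_0, …, x_5)` is a finite direct sum of shifts of `kst`. -/
theorem cones_dec {f : MvPolynomial (Fin 6) k} (hf : f.IsHomogeneous 3) (E : MF f) :
    Dec (conesN E 6) (kst f hf) := by
  obtain ⟨E', hr, hE'⟩ := exists_reduced E
  have h0 : coeff 0 f = 0 := by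
    by_contra h
    have := hf h
    simp at this
  obtain ⟨h1, h2⟩ := conesN_heq (gN f) (gN_Hg hf) 6 le_rfl f E' h0 (tru_self f)
    (fun i j => tru_self _) hr (fun _ _ => rfl)
  exact dec_of_heq ((hE'.conesN 6).trans (h2.trans (tsum_congr _ _ _ _))) (dec_tsum _ _ _)

end MF

end KuMF
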