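import Pool.Agent.H91.MF.ChiRad
import Pool.Agent.H91.MF.ConesDec

/-!
# The trace functional (R2) and the strict retract (R4a)
-/

open MvPolynomial

noncomputable section

namespace KuMF

namespace MF

variable {f : MvPolynomial (Fin 6) ℂ}

/-- The chosen homotopies of the `x_j^3`. -/
def lam (hf : VG f) (hf3 : f.IsHomogeneous 3) (E : MF f) :
    Fin 6 → Matrix E.ι E.ι (MvPolynomial (Fin 6) ℂ) :=
  (exists_lam hf hf3 E).choose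

lemma lam_spec (hf : VG f) (hf3 : f.IsHomogeneous 3) (E : MF f) :
    IsHtpy E (lam hf hf3 E) := (exists_lam hf hf3 E).choose_spec

/-- The trace functional. -/
def kap (hf : VG f) (hf3 : f.IsHomogeneous 3) (E : MF f) :
    Matrix E.ι E.ι (MvPolynomial (Fin 6) ℂ) →ₗ[ℂ] ℂ :=
  kapL E (lam hf hf3 E)

theorem kap_dm (hf : VG f) (hf3 : f.IsHomogeneous 3) (E : MF f)
    {ψ : Matrix E.ι E.ι (MvPolynomial (Fin 6) ℂ)} (hψ : ψ ∈ Hom E E 3) :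
    kap hf hf3 E (dm E E 3 ψ) = 0 :=
  kapL_dm (lam_spec hf hf3 E) hψ

theorem kap_B (hf : VG f) (hf3 : f.IsHomogeneous 3) (E : MF f)
    {φ : Matrix E.ι E.ι (MvPolynomial (Fin 6) ℂ)} (hφ : φ ∈ B E E 6) :
    kap hf hf3 E φ = 0 := by
  obtain ⟨ψ, hψ, rfl⟩ := hφ
  exact kap_dm hf hf3 E hψ

theorem kap_swap (hf : VG f) (hf3 : f.IsHomogeneous 3) {E F : MF f} {a b : ℤ}
    {φ : Matrix F.ι E.ι (MvPolynomial (Fin 6) ℂ)} {ψ : Matrix E.ι F.ι (MvPolynomial (Fin 6) ℂ)}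
    (hφ : φ ∈ Z E F a) (hψ : ψ ∈ Z F E b) (hab : a + b = 6) :
    kap hf hf3 E (ψ * φ) = (a.negOnePow : ℤ) • kap hf hf3 F (φ * ψ) :=
  kapL_swap (lam_spec hf hf3 E) (lam_spec hf hf3 F) hφ hψ hab

theorem kap_ne (hf : VG f) (hf3 : f.IsHomogeneous 3) :
    ∃ φ ∈ Z (kst f hf3) (kst f hf3) 6, kap hf hf3 (kst f hf3) φ ≠ 0 := by
  obtain ⟨Λ, hΛ, φ, hφ, hne⟩ := exists_kap_ne f hf3
  refine ⟨φ, hφ, fun h => hne ?_⟩
  have h1 := kapL_swap hΛ (lam_spec hf hf3 (kst f hf3)) hφ (one_mem_Z (kst f hf3))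
    (by norm_num : (6 : ℤ) + 0 = 6)
  rw [Matrix.one_mul, Matrix.mul_one] at h1
  rw [h1]
  change ((6 : ℤ).negOnePow : ℤ) • kap hf hf3 (kst f hf3) φ = 0
  rw [h, smul_zero]

/-- Every `E` is a strict retract of the cone of `X_i ^ 3`. -/
theorem retract_cube (hf : VG f) (hf3 : f.IsHomogeneous 3) (E : MF f) (i : Fin 6)
    (ha : Hg (X i ^ 3 : MvPolynomial (Fin 6) ℂ) (3 + 3)) :
    ∃ j ∈ Z E (E.cone (X i ^ 3) 3 ha) 0, ∃ p ∈ Z (E.cone (X i ^ 3) 3 ha) E 0, p * j = 1 :=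
  retract_cone E (X i ^ 3) 3 ha ((lam_spec hf hf3 E).1 i) ((lam_spec hf hf3 E).2 i)

end MF

end KuMF
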