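import Pool.Agent.H91.MF.Idem1

/-!
# Splitting idempotents

STATEMENTS TO PROVE (job MF-IDEM2).
`factor_idem`: `e` an idempotent matrix over `k` with `e i j ≠ 0 → w i = w j`. The columns
`e_j = e δ_j` span the range of `e`; choose a subset `J` of `ι` such that `(e_j)_{j ∈ J}` is a basis of
the span (`exists_linearIndependent'`, `Module.Basis.extend`,
`exists_linearIndependent_extension`, or take a maximal linearly independent subset).
`b i j = e i j` (`j ∈ J`), `a` = coordinates: `e_i = ∑_{j ∈ J} a j i e_j`.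
`a j i ≠ 0 → w j = w i`: the part of the relation with `w j ≠ w i` sums to a vector supported in
both `{w = w i}ᶜ` ... more precisely `e_j` is supported in `{l | w l = w j}`, so replacing `a j i` by
`0` when `w j ≠ w i` gives another relation for `e_i`; uniqueness. `b a = e` by definition;
`a b = 1`: `e (e_j') = e_j'` (`e² = e`) so `∑_i a j i e i j'` is the `j`-coordinate of
`e (e_j') = e_j'`, uniqueness.
`split_strict`: `e² = e`, `e` closed of weight `0`. `e_0 = e.map constantCoeff` (as a matrix over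
polynomials via `C`), idempotent of weight `0` (`coeff 0 (e i j) ≠ 0 → w i = w j`). Let
`g = e e_0 + (1 - e)(1 - e_0)`: weight `0`, `g - 1` has no constant terms
(`e_0 e_0 + (1 - e_0)(1 - e_0) = 1`), so `g - 1` is nilpotent (`isNilpotent_of_coeff_zero`) and `g` is
invertible with inverse `g' = ∑ (1 - g)^i` of weight `0`. `e g = e e_0 = g e_0`. `factor_idem` for
`e_0`: `e_0 = b_0 a_0`, `a_0 b_0 = 1`. `F = (J, w_J, a_0 g' Q g b_0)`, `b = g b_0`, `a = a_0 g'`:
`Q' = g' Q g` commutes with `e_0` (`Q` commutes with `e`), `Q' Q' = f`,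
`(a_0 Q' b_0)² = a_0 Q' e_0 Q' b_0 = a_0 Q' Q' e_0 b_0 = f`, `a b = 1`, `b a = g e_0 g' = e`,
`Q b = g Q' e_0 b_0 = g e_0 Q' b_0 = b F.Q`, `a Q = F.Q a` similarly.
`split_idem`: `lift_idem` and `split_strict`.
-/

open MvPolynomial

noncomputable section

namespace KuMF

theorem factor_idem {k : Type} [Field k] {ι : Type} [Fintype ι] [DecidableEq ι] (w : ι → ℤ)
    (e : Matrix ι ι k) (he : e * e = e) (hw : ∀ i j, e i j ≠ 0 → w i = w j) :
    ∃ (J : Type) (_ : Fintype J) (_ : DecidableEq J) (wJ : J → ℤ) (b : Matrix ι J k)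
      (a : Matrix J ι k), (∀ i j, b i j ≠ 0 → w i = wJ j) ∧ (∀ j i, a j i ≠ 0 → wJ j = w i) ∧
      a * b = 1 ∧ b * a = e := by
  classical
  obtain ⟨κ, s, hs, hspan, hli⟩ := exists_linearIndependent' k (fun j : ι => fun i : ι => e i j)
  have : Fintype κ := Fintype.ofInjective s hs
  have hli' := Fintype.linearIndependent_iff.1 hli
  have hmem : ∀ i : ι, (fun l => e l i) ∈
      Submodule.span k (Set.range ((fun j : ι => fun i : ι => e i j) ∘ s)) := by
    intro i
    rw [hspan]
    exact Submodule.subset_span ⟨i, rfl⟩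
  have hco : ∀ i : ι, ∃ c : κ → k, ∀ l, ∑ j, c j * e l (s j) = e l i := by
    intro i
    obtain ⟨c, hc⟩ := (Submodule.mem_span_range_iff_exists_fun k).1 (hmem i)
    refine ⟨c, fun l => ?_⟩
    have h1 := congrFun hc l
    simpa [Finset.sum_apply] using h1
  choose a ha using hco
  have hgr : ∀ j i, a i j ≠ 0 → w (s j) = w i := by
    intro j i hji
    by_contra hne
    apply hji
    have h1 := hli' (fun j => if w (s j) = w i then 0 else a i j) (by
      funext l
      rw [Finset.sum_apply, Pi.zero_apply]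
      by_cases hl : w l = w i
      · apply Finset.sum_eq_zero
        intro j' _
        simp only [Function.comp, Pi.smul_apply, smul_eq_mul]
        by_cases hj' : w (s j') = w i
        · rw [if_pos hj', zero_mul]
        · have : e l (s j') = 0 := by
            by_contra h
            exact hj' ((hw _ _ h).symm.trans hl)
          rw [this, mul_zero]
      · have h2 : e l i = 0 := by
          by_contra h
          exact hl (hw _ _ h)
        rw [← h2, ← ha i l]
        apply Finset.sum_congr rfl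
        intro j' _
        simp only [Function.comp, Pi.smul_apply, smul_eq_mul]
        by_cases hj' : w (s j') = w i
        · have : e l (s j') = 0 := by
            by_contra h
            exact hl ((hw _ _ h).trans hj')
          rw [this, mul_zero, mul_zero]
        · rw [if_neg hj']) j
    simpa [hne] using h1
  refine ⟨κ, inferInstance, Classical.decEq κ, fun j => w (s j), Matrix.of fun i j => e i (s j),
    Matrix.of fun j i => a i j, ?_, ?_, ?_, ?_⟩
  · intro i j h
    exact hw _ _ h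
  · intro j i h
    exact hgr j i h
  · refine Matrix.ext fun j j' => ?_
    have h1 := hli' (fun j => (∑ i, a i j * e i (s j')) - (if j = j' then 1 else 0)) (by
      funext l
      rw [Finset.sum_apply, Pi.zero_apply]
      simp only [Function.comp, Pi.smul_apply, smul_eq_mul, sub_mul, ite_mul, one_mul, zero_mul,
        Finset.sum_sub_distrib, Finset.sum_ite_eq', Finset.mem_univ, if_true]
      rw [sub_eq_zero]
      have h2 : ∑ j, (∑ i, a i j * e i (s j')) * e l (s j) = ∑ i, e l i * e i (s j') := by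
        simp only [Finset.sum_mul]
        rw [Finset.sum_comm]
        apply Finset.sum_congr rfl
        intro i _
        rw [← ha i l, Finset.sum_mul]
        apply Finset.sum_congr rfl
        intro j _
        ring
      rw [h2, ← Matrix.mul_apply, he]) j
    rw [Matrix.mul_apply, Matrix.one_apply]
    simp only [Matrix.of_apply]
    convert sub_eq_zero.1 h1
  · refine Matrix.ext fun l i => ?_
    rw [Matrix.mul_apply]
    simp only [Matrix.of_apply]
    rw [← ha i l]
    apply Finset.sum_congr rfl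
    intro j _
    ring

namespace MF

variable {k : Type} [Field k] {n : ℕ} {f : MvPolynomial (Fin n) k}

lemma idem2_mul {ι κ τ : Type} [Fintype κ] {w : ι → ℤ} {w' : κ → ℤ} {w'' : τ → ℤ} {p q : ℤ}
    {M : Matrix τ κ (MvPolynomial (Fin n) k)} {N : Matrix κ ι (MvPolynomial (Fin n) k)}
    (hM : ∀ i j, Hg (M i j) (w' j - w'' i + p)) (hN : ∀ i j, Hg (N i j) (w j - w' i + q))
    (i : τ) (j : ι) : Hg ((M * N) i j) (w j - w'' i + (p + q)) := by
  rw [Matrix.mul_apply]
  refine Hg.sum _ fun l _ => ((hM i l).mul (hN l j)).of_eq ?_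
  ring

lemma idem2_C {ι κ : Type} {w : ι → ℤ} {w' : κ → ℤ} {M : Matrix κ ι k}
    (hM : ∀ i j, M i j ≠ 0 → w' i = w j) (i : κ) (j : ι) :
    Hg ((M.map (C : k →+* MvPolynomial (Fin n) k)) i j) (w j - w' i + 0) := by
  rw [Matrix.map_apply]
  by_cases h : M i j = 0
  · rw [h, map_zero]; exact Hg.zero _
  · exact (Hg.C _).of_eq (by rw [hM i j h]; ring)

lemma idem2_pow {E : MF f} {y : Matrix E.ι E.ι (MvPolynomial (Fin n) k)} (hy : y ∈ Hom E E 0)
    (i : ℕ) : y ^ i ∈ Hom E E 0 := by
  induction i with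
  | zero => rw [pow_zero]; exact one_mem E
  | succ i ih =>
    rw [pow_succ]
    have := mul_mem ih hy
    rwa [add_zero] at this

lemma idem2_comm {E F : MF f} {α : Matrix F.ι E.ι (MvPolynomial (Fin n) k)} (hα : α ∈ Z E F 0) :
    F.Q * α = α * E.Q := by
  have := LinearMap.mem_ker.1 hα.2
  rw [MF.dm_apply, sub_eq_zero] at this
  simpa using this

lemma idem2_mem {E F : MF f} {α : Matrix F.ι E.ι (MvPolynomial (Fin n) k)}
    (h1 : ∀ i j, Hg (α i j) (E.w j - F.w i + 0)) (h2 : F.Q * α = α * E.Q) : α ∈ Z E F 0 := by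
  refine ⟨h1, LinearMap.mem_ker.2 ?_⟩
  rw [MF.dm_apply, h2]
  simp

/-- factorization of a closed idempotent through graded matrices -/
lemma idem2_factor {E : MF f} {e : Matrix E.ι E.ι (MvPolynomial (Fin n) k)}
    (he : e ∈ Z E E 0) (h : e * e = e) :
    ∃ (J : Type) (_ : Fintype J) (_ : DecidableEq J) (wJ : J → ℤ)
      (b : Matrix E.ι J (MvPolynomial (Fin n) k)) (a : Matrix J E.ι (MvPolynomial (Fin n) k)),
      (∀ i j, Hg (b i j) (wJ j - E.w i + 0)) ∧ (∀ i j, Hg (a i j) (E.w j - wJ i + 0)) ∧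
      a * b = 1 ∧ b * a = e := by
  classical
  let ev : MvPolynomial (Fin n) k →+* k := constantCoeff
  let ic : k →+* MvPolynomial (Fin n) k := C
  have hev : ∀ c : k, ev (ic c) = c := fun c => constantCoeff_C _ c
  set e0c : Matrix E.ι E.ι k := e.map ev with he0c
  have h0 : e0c * e0c = e0c := by
    rw [he0c, ← Matrix.map_mul, h]
  have hw0 : ∀ i j, e0c i j ≠ 0 → E.w i = E.w j := by
    intro i j hij
    have h1 := he.1 i j 0 (by
      rw [mem_support_iff]
      exact hij)
    simp at h1
    omega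
  obtain ⟨J, hJ1, hJ2, wJ, b0c, a0c, hb0, ha0, hab, hba⟩ := factor_idem E.w e0c h0 hw0
  set e0 : Matrix E.ι E.ι (MvPolynomial (Fin n) k) := e0c.map ic with he0
  set b0 : Matrix E.ι J (MvPolynomial (Fin n) k) := b0c.map ic with hb0'
  set a0 : Matrix J E.ι (MvPolynomial (Fin n) k) := a0c.map ic with ha0'
  have hab' : a0 * b0 = 1 := by
    rw [ha0', hb0', ← Matrix.map_mul, hab, Matrix.map_one _ (map_zero _) (map_one _)]
  have hba' : b0 * a0 = e0 := by
    rw [ha0', hb0', ← Matrix.map_mul, hba]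
  have h00 : e0 * e0 = e0 := by
    rw [he0, ← Matrix.map_mul, h0]
  have he0m : e0 ∈ Hom E E 0 := fun i j => idem2_C hw0 i j
  have hem : e ∈ Hom E E 0 := he.1
  set g : Matrix E.ι E.ι (MvPolynomial (Fin n) k) := e * e0 + (1 - e) * (1 - e0) with hg
  have hgm : g ∈ Hom E E 0 := by
    have h1 := mul_mem hem he0m
    have h2 := mul_mem (Submodule.sub_mem _ (one_mem E) hem) (Submodule.sub_mem _ (one_mem E) he0m)
    rw [add_zero] at h1 h2
    exact Submodule.add_mem _ h1 h2
  have hegg : e * g = g * e0 := by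
    have e1 : e * g = e * e0 := by
      rw [hg, Matrix.mul_add, ← Matrix.mul_assoc, ← Matrix.mul_assoc, h, Matrix.mul_sub e 1 e, h,
        Matrix.mul_one, sub_self, Matrix.zero_mul, add_zero]
    have e2 : g * e0 = e * e0 := by
      rw [hg, Matrix.add_mul, Matrix.mul_assoc, Matrix.mul_assoc, h00, Matrix.sub_mul 1 e0 e0, h00,
        Matrix.one_mul, sub_self, Matrix.mul_zero, add_zero]
    rw [e1, e2]
  set y : Matrix E.ι E.ι (MvPolynomial (Fin n) k) := 1 - g with hy
  have hym : y ∈ Hom E E 0 := Submodule.sub_mem _ (one_mem E) hgm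
  have hy0 : ∀ i j, coeff 0 (y i j) = 0 := by
    have h1 : y.map ev = 0 := by
      have e1 : e0.map ev = e0c := by
        refine Matrix.ext fun i j => ?_
        exact hev _
      have e2 : (1 : Matrix E.ι E.ι (MvPolynomial (Fin n) k)).map ev = 1 :=
        Matrix.map_one _ (map_zero _) (map_one _)
      have e3 : g.map ev = 1 := by
        rw [hg, Matrix.map_add _ (map_add ev), Matrix.map_mul, Matrix.map_mul,
          Matrix.map_sub _ (map_sub ev), Matrix.map_sub _ (map_sub ev), e1, e2, ← he0c]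
        rw [sub_mul, mul_sub, mul_sub, h0]
        simp
      rw [hy, Matrix.map_sub _ (map_sub ev), e2, e3, sub_self]
    intro i j
    exact congrFun (congrFun h1 i) j
  obtain ⟨N, hN⟩ := isNilpotent_of_coeff_zero hym hy0
  set g' : Matrix E.ι E.ι (MvPolynomial (Fin n) k) := ∑ i ∈ Finset.range N, y ^ i with hg'
  have hg'm : g' ∈ Hom E E 0 := Submodule.sum_mem _ fun i _ => idem2_pow hym i
  have hgy : g = 1 - y := by rw [hy]; abel
  have hgg' : g * g' = 1 := by
    rw [hgy, hg', mul_neg_geom_sum, hN, sub_zero]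
  have hg'g : g' * g = 1 := by
    rw [hgy, hg', geom_sum_mul_neg, hN, sub_zero]
  refine ⟨J, hJ1, hJ2, wJ, g * b0, a0 * g', ?_, ?_, ?_, ?_⟩
  · intro i j
    have := idem2_mul (w := wJ) (w' := E.w) (w'' := E.w) (p := 0) (q := 0) hgm
      (fun i j => idem2_C (w := wJ) (w' := E.w) hb0 i j) i j
    rwa [add_zero] at this
  · intro i j
    have := idem2_mul (w := E.w) (w' := E.w) (w'' := wJ) (p := 0) (q := 0)
      (fun i j => idem2_C (w := E.w) (w' := wJ) ha0 i j) hg'm i j
    rwa [add_zero] at this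
  · rw [Matrix.mul_assoc, ← Matrix.mul_assoc g', hg'g, Matrix.one_mul, hab']
  · rw [Matrix.mul_assoc, ← Matrix.mul_assoc b0, hba', ← Matrix.mul_assoc, ← hegg,
      Matrix.mul_assoc, hgg', Matrix.mul_one]

theorem split_strict {E : MF f} {e : Matrix E.ι E.ι (MvPolynomial (Fin n) k)}
    (he : e ∈ Z E E 0) (h : e * e = e) :
    ∃ F : MF f, ∃ a ∈ Z E F 0, ∃ b ∈ Z F E 0, a * b = 1 ∧ b * a = e := by
  obtain ⟨J, hJ1, hJ2, wJ, b, a, hb, ha, hab, hba⟩ := idem2_factor he h
  have hQe : E.Q * e = e * E.Q := idem2_comm he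
  have hae : a * e = a := by rw [← hba, ← Matrix.mul_assoc, hab, Matrix.one_mul]
  have heb : e * b = b := by rw [← hba, Matrix.mul_assoc, hab, Matrix.mul_one]
  have hQw : ∀ i j, Hg ((a * E.Q * b) i j) (wJ j - wJ i + 3) := by
    intro i j
    have h1 := idem2_mul (w := E.w) (w' := E.w) (w'' := wJ) (p := 0) (q := 3) ha E.hQ
    have h2 := idem2_mul (w := wJ) (w' := E.w) (w'' := wJ) (p := 0 + 3) (q := 0) h1 hb i j
    exact h2.of_eq (by ring)
  have hsq : (a * E.Q * b) * (a * E.Q * b) =
      f • (1 : Matrix J J (MvPolynomial (Fin n) k)) := by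
    have e1 : (a * E.Q * b) * (a * E.Q * b) = a * (E.Q * (b * a)) * (E.Q * b) := by
      simp only [Matrix.mul_assoc]
    rw [e1, hba, hQe, ← Matrix.mul_assoc a, hae, Matrix.mul_assoc, ← Matrix.mul_assoc E.Q, E.sq,
      Matrix.smul_mul, Matrix.one_mul, Matrix.mul_smul, hab]
  let F : MF f :=
    { ι := J
      fin := hJ1
      dec := hJ2
      w := wJ
      Q := a * E.Q * b
      hQ := hQw
      sq := hsq }
  refine ⟨F, a, idem2_mem (F := F) ha ?_, b, idem2_mem (E := F) hb ?_, hab, hba⟩
  · show (a * E.Q * b) * a = a * E.Q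
    rw [Matrix.mul_assoc, hba, Matrix.mul_assoc, hQe, ← Matrix.mul_assoc, hae]
  · show E.Q * b = b * (a * E.Q * b)
    rw [← Matrix.mul_assoc, ← Matrix.mul_assoc, hba, ← hQe, Matrix.mul_assoc, heb]

theorem split_idem {E : MF f} {e : Matrix E.ι E.ι (MvPolynomial (Fin n) k)}
    (he : e ∈ Z E E 0) (h : e * e - e ∈ B E E 0) :
    ∃ F : MF f, ∃ a ∈ Z E F 0, ∃ b ∈ Z F E 0, a * b = 1 ∧ b * a - e ∈ B E E 0 := by
  obtain ⟨e', he', hee, hB⟩ := lift_idem he h
  obtain ⟨F, a, ha, b, hb, hab, hba⟩ := split_strict he' hee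
  exact ⟨F, a, ha, b, hb, hab, by rw [hba]; exact hB⟩

end MF

end KuMF
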