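import Pool.Agent.H91.MF.Defs

/-!
# Basic facts about graded matrix factorizations
-/

open MvPolynomial

noncomputable section

namespace KuMF

namespace MF

variable {k : Type} [Field k] {n : ℕ} {f : MvPolynomial (Fin n) k}

lemma negOnePow_add_three (q : ℤ) : ((q + 3).negOnePow : ℤ) = -(q.negOnePow : ℤ) := by
  rw [show q + 3 = (q + 1) + 2 * 1 by ring, Int.negOnePow_add, Int.negOnePow_two_mul, mul_one,
    Int.negOnePow_succ]
  simp

lemma negOnePow_sq (q : ℤ) : (q.negOnePow : ℤ) * (q.negOnePow : ℤ) = 1 := by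
  rw [← Units.val_mul, ← Int.negOnePow_add, ← two_mul, Int.negOnePow_two_mul]
  simp

lemma sq_mul {E F : MF f} (φ : Matrix F.ι E.ι (MvPolynomial (Fin n) k)) :
    F.Q * (F.Q * φ) = φ * E.Q * E.Q := by
  rw [← Matrix.mul_assoc, F.sq, Matrix.mul_assoc φ, E.sq, Matrix.smul_mul, Matrix.mul_smul,
    Matrix.one_mul, Matrix.mul_one]

/-- The differential squares to zero. -/
lemma dm_dm (E F : MF f) (q : ℤ) (φ : Matrix F.ι E.ι (MvPolynomial (Fin n) k)) :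
    dm E F (q + 3) (dm E F q φ) = 0 := by
  rw [dm_apply, dm_apply, negOnePow_add_three, Matrix.mul_sub, Matrix.sub_mul, sq_mul]
  rw [Matrix.mul_smul, Matrix.smul_mul, neg_smul, smul_sub, smul_smul, negOnePow_sq, one_smul,
    Matrix.mul_assoc F.Q]
  abel

/-- The graded Leibniz rule. -/
lemma dm_mul (E F G : MF f) (p q : ℤ) (ψ : Matrix G.ι F.ι (MvPolynomial (Fin n) k))
    (φ : Matrix F.ι E.ι (MvPolynomial (Fin n) k)) :
    dm E G (p + q) (ψ * φ) = dm F G p ψ * φ + (p.negOnePow : ℤ) • (ψ * dm E F q φ) := by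
  rw [dm_apply, dm_apply, dm_apply, Int.negOnePow_add, Units.val_mul]
  rw [Matrix.sub_mul, Matrix.mul_sub, Matrix.smul_mul, Matrix.mul_smul, smul_sub, smul_smul,
    Matrix.mul_assoc, Matrix.mul_assoc, Matrix.mul_assoc]
  abel

lemma B_le_Z (E F : MF f) (q : ℤ) : B E F q ≤ Z E F q := by
  rintro _ ⟨φ, hφ, rfl⟩
  refine ⟨?_, ?_⟩
  · have := dm_mem hφ
    rwa [sub_add_cancel] at this
  · have := dm_dm E F (q - 3) φ
    rw [sub_add_cancel] at this
    exact this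

lemma mul_mem_Z {E F G : MF f} {p q : ℤ} {ψ : Matrix G.ι F.ι (MvPolynomial (Fin n) k)}
    {φ : Matrix F.ι E.ι (MvPolynomial (Fin n) k)} (hψ : ψ ∈ Z F G p) (hφ : φ ∈ Z E F q) :
    ψ * φ ∈ Z E G (p + q) := by
  refine ⟨mul_mem hψ.1 hφ.1, ?_⟩
  change dm E G (p + q) (ψ * φ) = 0
  rw [dm_mul, LinearMap.mem_ker.1 hψ.2, LinearMap.mem_ker.1 hφ.2]
  simp

lemma one_mem_Z (E : MF f) : (1 : Matrix E.ι E.ι (MvPolynomial (Fin n) k)) ∈ Z E E 0 := by
  refine ⟨one_mem E, ?_⟩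
  change dm E E 0 1 = 0
  rw [dm_apply]
  simp

/-- closed `∘` exact is exact -/
lemma mul_mem_B_left {E F G : MF f} {p q : ℤ} {ψ : Matrix G.ι F.ι (MvPolynomial (Fin n) k)}
    {φ : Matrix F.ι E.ι (MvPolynomial (Fin n) k)} (hψ : ψ ∈ Z F G p) (hφ : φ ∈ B E F q) :
    ψ * φ ∈ B E G (p + q) := by
  obtain ⟨χ, hχ, rfl⟩ := hφ
  refine ⟨(p.negOnePow : ℤ) • (ψ * χ), ?_, ?_⟩
  · have := mul_mem hψ.1 hχ
    rw [show p + (q - 3) = p + q - 3 by ring] at this
    exact zsmul_mem this _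
  · rw [map_zsmul, show p + q - 3 = p + (q - 3) by ring, dm_mul, LinearMap.mem_ker.1 hψ.2,
      Matrix.zero_mul, zero_add, smul_smul, negOnePow_sq, one_smul]

/-- exact `∘` closed is exact -/
lemma mul_mem_B_right {E F G : MF f} {p q : ℤ} {ψ : Matrix G.ι F.ι (MvPolynomial (Fin n) k)}
    {φ : Matrix F.ι E.ι (MvPolynomial (Fin n) k)} (hψ : ψ ∈ B F G p) (hφ : φ ∈ Z E F q) :
    ψ * φ ∈ B E G (p + q) := by
  obtain ⟨χ, hχ, rfl⟩ := hψ
  refine ⟨χ * φ, ?_, ?_⟩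
  · have := mul_mem hχ hφ.1
    rwa [show p - 3 + q = p + q - 3 by ring] at this
  · rw [show p + q - 3 = (p - 3) + q by ring, dm_mul, LinearMap.mem_ker.1 hφ.2,
      Matrix.mul_zero, smul_zero, add_zero]

end MF

end KuMF
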