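import Mathlib

/-!
# Commutator with an ordered product

STATEMENT TO PROVE (job MF-COMM). `a_i s = ε_i s a_i` and `[Q, a_j] = c_j s b_j` (`c_j` scalars).
Then `[Q, a_0 ⋯ a_{n-1}] = ∑_j (∏_{i<j} ε_i) c_j s (a_0 ⋯ a_{j-1} b_j a_{j+1} ⋯ a_{n-1})`.
PROOF. Induction on `n` with `List.ofFn_succ`, `Fin.sum_univ_succ`:
`[Q, a_0 P] = [Q, a_0] P + a_0 [Q, P]`, and in `a_0 [Q, P]` move `s` over `a_0`.
(`Function.update` at `0` and at `j.succ`; `∏_{i < j.succ} ε_i = ε_0 ∏_{i < j} ε_{i.succ}`,
`Fin.prod_univ_succ` after writing the filtered product as `∏ i, if i < j then ε i else 1`.)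
-/

noncomputable section

namespace KuMF

theorem prod_lt_succ {n : ℕ} (ε : Fin (n + 1) → ℤ) (j : Fin n) :
    ∏ i ∈ Finset.univ.filter (· < j.succ), ε i =
      ε 0 * ∏ i ∈ Finset.univ.filter (· < j), ε i.succ := by
  rw [Finset.prod_filter, Finset.prod_filter, Fin.prod_univ_succ]
  simp [Fin.succ_pos]

theorem ofFn_update_zero {n : ℕ} {R : Type*} [Ring R] (a : Fin (n + 1) → R) (x : R) :
    (List.ofFn (Function.update a 0 x)).prod = x * (List.ofFn fun i : Fin n => a i.succ).prod := by
  rw [List.ofFn_succ, List.prod_cons, Function.update_self]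
  congr 3

theorem ofFn_update_succ {n : ℕ} {R : Type*} [Ring R] (a : Fin (n + 1) → R) (j : Fin n) (x : R) :
    (List.ofFn (Function.update a j.succ x)).prod =
      a 0 * (List.ofFn (Function.update (fun i : Fin n => a i.succ) j x)).prod := by
  rw [List.ofFn_succ, List.prod_cons, Function.update_of_ne (Fin.succ_ne_zero j).symm]
  congr 3
  funext i
  by_cases h : i = j
  · subst h
    rw [Function.update_self, Function.update_self]
  · rw [Function.update_of_ne h, Function.update_of_ne fun h' => h (Fin.succ_injective _ h')]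

theorem comm_ofFn {S R : Type*} [CommRing S] [Ring R] [Algebra S R] (n : ℕ) :
    ∀ (Q s : R) (a b : Fin n → R) (ε : Fin n → ℤ) (c : Fin n → S)
    (_ : ∀ i, a i * s = ε i • (s * a i)) (_ : ∀ j, Q * a j - a j * Q = c j • (s * b j)),
    Q * (List.ofFn a).prod - (List.ofFn a).prod * Q =
      ∑ j, (∏ i ∈ Finset.univ.filter (· < j), ε i) • c j •
        (s * (List.ofFn (Function.update a j (b j))).prod) := by
  induction n with
  | zero =>
    intro Q s a b ε c _ _
    simp
  | succ n ih =>
    intro Q s a b ε c h1 h2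
    have ih' := ih Q s (fun i => a i.succ) (fun i => b i.succ) (fun i => ε i.succ)
      (fun i => c i.succ) (fun i => h1 i.succ) (fun j => h2 j.succ)
    have e1 : (List.ofFn a).prod = a 0 * (List.ofFn fun i : Fin n => a i.succ).prod := by
      rw [List.ofFn_succ, List.prod_cons]
    have e2 : Q * (a 0 * (List.ofFn fun i : Fin n => a i.succ).prod) -
        a 0 * (List.ofFn fun i : Fin n => a i.succ).prod * Q =
        (Q * a 0 - a 0 * Q) * (List.ofFn fun i : Fin n => a i.succ).prod +
        a 0 * (Q * (List.ofFn fun i : Fin n => a i.succ).prod -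
          (List.ofFn fun i : Fin n => a i.succ).prod * Q) := by
      noncomm_ring
    rw [e1, e2, ih', h2 0, Fin.sum_univ_succ, Finset.mul_sum]
    congr 1
    · rw [ofFn_update_zero, smul_mul_assoc, mul_assoc]
      simp
    · refine Finset.sum_congr rfl fun j _ => ?_
      rw [prod_lt_succ, ofFn_update_succ, mul_smul, mul_smul_comm, mul_smul_comm, ← mul_assoc,
        h1 0, smul_mul_assoc, mul_assoc, smul_comm (c j.succ) (ε 0), smul_comm _ (ε 0)]

end KuMF
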