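import Pool.Agent.H91.MF.Defs

/-!
# Derivations of `ℂ` with prescribed values

STATEMENTS TO PROVE (job MF-DER1).

`exists_derivation_of_algebraicIndependent`. PROOF. Let `K = IntermediateField.adjoin ℚ (range b)`.
`Algebra.FormallySmooth K ℂ`: `exists_isTranscendenceBasis K ℂ` gives a transcendence basis, `ℂ` is
algebraic, hence separable (characteristic zero) over the field generated by it; use
`Algebra.FormallySmooth.of_algebraicIndependent_of_isSeparable`
(Mathlib/RingTheory/Smooth/Field.lean). Let `R = TrivSqZeroExt ℂ ℂ` (or `DualNumber ℂ`). The ring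
homomorphism `MvPolynomial ι ℚ → R`, `X_i ↦ b_i + t_i ε`, composed with the isomorphism
`hb.aevalEquiv : MvPolynomial ι ℚ ≃ Algebra.adjoin ℚ (range b)`, sends nonzero elements to units
(the first component is the element itself), so extends to `φ : K → R`
(`IsLocalization.lift`/`IsFractionRing`; see `IntermediateField.algebraAdjoinAdjoin`) with
`fst (φ x) = x`. With the `K`-algebra structure on `R` given by `φ`, `fst : R → ℂ` is a surjective
`K`-algebra homomorphism with kernel of square zero; formal smoothness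
(`Algebra.FormallySmooth.liftOfSurjective` or `exists_lift`) gives a section `ψ : ℂ →ₐ[K] R` of
`fst`. `D = snd ∘ ψ` is a derivation over `ℤ` and `D (b i) = snd (φ (b i)) = t i`.
(Alternative to formal smoothness: transcendence basis `s ⊇ range b` of `ℂ` over `ℚ`, formally
étale over `adjoin`.)

`algebraicIndependent_of_VG`: the quotients `a_m / a_{m0}`, `m ≠ m0`, are algebraically independent
over `ℚ`. PROOF. `a_{m0} ≠ 0` by `VG` for `P = X m0`. If not, clearing denominators
(`algebraicIndependent_iff`, or independence over `ℤ`: `AlgebraicIndependent.extendScalars`, or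
multiply `P` by a common denominator by `IsLocalization.exist_integer_multiples` /
`MvPolynomial` over `ℚ`) there is `P ≠ 0` in `MvPolynomial {m // m ≠ m0} ℤ` with
`P(a_m / a_{m0}) = 0`. Homogenize: `d = totalDegree P`,
`P' = ∑_{s ∈ support P} monomial (s + (d - |s|) e_{m0}) (coeff s P)` is nonzero homogeneous of degree
`d` with `P'(a) = a_{m0}^d P(a_m / a_{m0}) = 0`, contradiction.

`exists_der`: for all `q` there are `D`, `c` with `q_m = D a_m + c a_m`. PROOF. Let
`t_m = (q_m - b_m q_{m0}) / a_{m0}`, `b_m = a_m / a_{m0}`, `D` with `D b_m = t_m` (`m ≠ m0`),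
`c = (q_{m0} - D a_{m0}) / a_{m0}`. Then
`D a_m + c a_m = D (b_m a_{m0}) + c b_m a_{m0} = t_m a_{m0} + b_m (D a_{m0} + c a_{m0}) = q_m`.
-/

open MvPolynomial

noncomputable section

namespace KuMF

section

open scoped TensorProduct KaehlerDifferential

/-- extension of derivations along formally etale maps -/
lemma der1_extend {A : Type} [CommRing A] [Algebra ℚ A] [Algebra A ℂ] [IsScalarTower ℚ A ℂ]
    [Algebra.FormallyEtale A ℂ] (D0 : Derivation ℚ A ℂ) :
    ∃ D : Derivation ℤ ℂ ℂ, ∀ a : A, D (algebraMap A ℂ a) = D0 a := by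
  let L : Ω[ℂ⁄ℚ] →ₗ[ℂ] ℂ := (LinearMap.liftBaseChange ℂ D0.liftKaehlerDifferential) ∘ₗ
    (KaehlerDifferential.tensorKaehlerEquivOfFormallyEtale ℚ A ℂ).symm.toLinearMap
  refine ⟨(L.compDer (KaehlerDifferential.D ℚ ℂ)).restrictScalars ℤ, fun a => ?_⟩
  show L (KaehlerDifferential.D ℚ ℂ (algebraMap A ℂ a)) = D0 a
  have h1 := KaehlerDifferential.tensorKaehlerEquivOfFormallyEtale_symm_D_algebraMap ℚ A ℂ a
  show (LinearMap.liftBaseChange ℂ D0.liftKaehlerDifferential)
    ((KaehlerDifferential.tensorKaehlerEquivOfFormallyEtale ℚ A ℂ).symm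
      (KaehlerDifferential.D ℚ ℂ (algebraMap A ℂ a))) = D0 a
  rw [h1, LinearMap.liftBaseChange_tmul, one_smul, Derivation.liftKaehlerDifferential_comp_D]

open scoped IntermediateField.algebraAdjoinAdjoin in
lemma der1_etale (s : Set ℂ) (hs : IsTranscendenceBasis ℚ ((↑) : s → ℂ)) :
    Algebra.FormallyEtale (Algebra.adjoin ℚ (Set.range ((↑) : s → ℂ))) ℂ := by
  have h1 : Algebra.FormallyEtale (Algebra.adjoin ℚ (Set.range ((↑) : s → ℂ)))
      (IntermediateField.adjoin ℚ (Set.range ((↑) : s → ℂ))) :=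
    .of_isLocalization (nonZeroDivisors _)
  have h0 : Algebra.IsAlgebraic (IntermediateField.adjoin ℚ (Set.range ((↑) : s → ℂ))) ℂ :=
    hs.isAlgebraic_field
  have h2 : Algebra.FormallyEtale (IntermediateField.adjoin ℚ (Set.range ((↑) : s → ℂ))) ℂ :=
    Algebra.FormallyEtale.of_isSeparable _ ℂ
  exact .comp _ (IntermediateField.adjoin ℚ (Set.range ((↑) : s → ℂ))) _

/-- the derivation on the polynomial algebra -/
lemma der1_D0 (s : Set ℂ) (hs : AlgebraicIndependent ℚ ((↑) : s → ℂ)) (t : s → ℂ) :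
    ∃ D0 : Derivation ℚ (Algebra.adjoin ℚ (Set.range ((↑) : s → ℂ))) ℂ,
      ∀ (x : s) (y : Algebra.adjoin ℚ (Set.range ((↑) : s → ℂ))), (y : ℂ) = x → D0 y = t x := by
  let φ : Algebra.adjoin ℚ (Set.range ((↑) : s → ℂ)) →ₐ[ℚ] TrivSqZeroExt ℂ ℂ :=
    (aeval (fun x : s => (TrivSqZeroExt.inl (x : ℂ) + TrivSqZeroExt.inr (t x) : TrivSqZeroExt ℂ ℂ))).comp
      hs.repr
  have hfst : ∀ a, (φ a).fst = a := by
    intro a
    have h1 : ((TrivSqZeroExt.fstHom ℚ ℂ ℂ).comp φ) = Subalgebra.val _ := by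
      rw [← hs.aeval_comp_repr]
      show (TrivSqZeroExt.fstHom ℚ ℂ ℂ).comp ((aeval _).comp hs.repr) = _
      rw [← AlgHom.comp_assoc]
      congr 1
      ext x
      simp
    exact congrArg (fun f => f a) h1
  refine ⟨Derivation.mk' { toFun := fun a => (φ a).snd, map_add' := ?_, map_smul' := ?_ } ?_, ?_⟩
  · intro a b; simp
  · intro q a; simp
  · intro a b
    show (φ (a * b)).snd = a • (φ b).snd + b • (φ a).snd
    rw [map_mul, TrivSqZeroExt.snd_mul, hfst, hfst, op_smul_eq_smul]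
    rfl
  · intro x y hxy
    show (φ y).snd = t x
    have h1 : hs.repr y = X x := by
      have : y = hs.aevalEquiv (X x) := by
        apply Subtype.ext
        rw [hxy]
        have := hs.algebraMap_aevalEquiv (X x)
        rw [aeval_X] at this
        exact this.symm
      rw [this]
      exact hs.aevalEquiv.symm_apply_apply _
    show (aeval (fun x : s => (TrivSqZeroExt.inl (x : ℂ) + TrivSqZeroExt.inr (t x) : TrivSqZeroExt ℂ ℂ))
      (hs.repr y)).snd = t x
    rw [h1, aeval_X]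
    simp

end

theorem exists_derivation_of_algebraicIndependent {ι : Type} (b : ι → ℂ)
    (hb : AlgebraicIndependent ℚ b) (t : ι → ℂ) :
    ∃ D : Derivation ℤ ℂ ℂ, ∀ i, D (b i) = t i := by
  classical
  obtain ⟨s, hs1, hs2⟩ := exists_isTranscendenceBasis_superset (R := ℚ) (A := ℂ)
    (s := Set.range b) hb.coe_range
  have hinj : Function.Injective b := hb.injective
  let t' : s → ℂ := fun x => if h : ∃ i, b i = x then t h.choose else 0
  have ht' : ∀ i (h : b i ∈ s), t' ⟨b i, h⟩ = t i := by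
    intro i h
    have h1 : ∃ j, b j = b i := ⟨i, rfl⟩
    have h2 : h1.choose = i := hinj h1.choose_spec
    show (if h : ∃ j, b j = b i then t h.choose else 0) = t i
    rw [dif_pos h1, h2]
  obtain ⟨D0, hD0⟩ := der1_D0 s hs2.1 t'
  have := der1_etale s hs2
  obtain ⟨D, hD⟩ := der1_extend D0
  refine ⟨D, fun i => ?_⟩
  have hi : b i ∈ s := hs1 ⟨i, rfl⟩
  have hy : b i ∈ Algebra.adjoin ℚ (Set.range ((↑) : s → ℂ)) :=
    Algebra.subset_adjoin ⟨⟨b i, hi⟩, rfl⟩
  have h1 := hD ⟨b i, hy⟩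
  have h2 := hD0 ⟨b i, hi⟩ ⟨b i, hy⟩ rfl
  rw [ht'] at h2
  rw [← h2, ← h1]
  rfl

lemma der1_ne {f : MvPolynomial (Fin 6) ℂ} (hf : VG f) (m0 : CMon) : f.coeff m0.1 ≠ 0 := by
  have h := hf (X m0) 1 (isHomogeneous_X ℤ m0) (X_ne_zero m0)
  rwa [aeval_X] at h

/-- homogenization -/
def der1_hom (m0 : CMon) (P : MvPolynomial {m : CMon // m ≠ m0} ℤ) : MvPolynomial CMon ℤ :=
  ∑ s ∈ P.support, C (P.coeff s) * (∏ m ∈ s.support, X m.1 ^ s m) *
    X m0 ^ (P.totalDegree - s.degree)

lemma der1_deg {m0 : CMon} {P : MvPolynomial {m : CMon // m ≠ m0} ℤ}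
    {s : {m : CMon // m ≠ m0} →₀ ℕ} (hs : s ∈ P.support) : s.degree ≤ P.totalDegree := by
  have h := le_totalDegree hs
  rw [Finsupp.degree_apply]
  exact h

lemma der1_hom_homog (m0 : CMon) (P : MvPolynomial {m : CMon // m ≠ m0} ℤ) :
    (der1_hom m0 P).IsHomogeneous P.totalDegree := by
  unfold der1_hom
  apply IsHomogeneous.sum
  intro s hs
  have h1 : IsHomogeneous (∏ m ∈ s.support, (X m.1 : MvPolynomial CMon ℤ) ^ s m) s.degree := by
    rw [Finsupp.degree_apply]
    apply IsHomogeneous.prod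
    intro m _
    exact isHomogeneous_X_pow _ _
  have h2 := ((isHomogeneous_C CMon (P.coeff s)).mul h1).mul
    (isHomogeneous_X_pow (R := ℤ) m0 (P.totalDegree - s.degree))
  have h3 : 0 + s.degree + (P.totalDegree - s.degree) = P.totalDegree := by
    have := der1_deg hs
    omega
  rwa [h3] at h2

lemma der1_hom_ne (m0 : CMon) (P : MvPolynomial {m : CMon // m ≠ m0} ℤ) (hP : P ≠ 0) :
    der1_hom m0 P ≠ 0 := by
  classical
  intro h
  apply hP
  let Φ : MvPolynomial CMon ℤ →ₐ[ℤ] MvPolynomial {m : CMon // m ≠ m0} ℤ :=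
    aeval (fun m => if h : m ≠ m0 then X ⟨m, h⟩ else 1)
  have h1 : Φ (der1_hom m0 P) = P := by
    unfold der1_hom
    rw [map_sum]
    conv_rhs => rw [P.as_sum]
    apply Finset.sum_congr rfl
    intro s _
    rw [map_mul, map_mul, map_pow, map_prod]
    have e1 : Φ (C (P.coeff s)) = C (P.coeff s) := Φ.commutes _
    have e2 : Φ (X m0) = 1 := by
      show aeval _ (X m0) = 1
      rw [aeval_X, dif_neg (by simp)]
    have e3 : ∀ m ∈ s.support, Φ (X m.1 ^ s m) = X m ^ s m := by
      intro m _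
      rw [map_pow]
      congr 1
      show aeval _ (X m.1) = X m
      rw [aeval_X, dif_pos m.2]
    rw [e1, e2, one_pow, mul_one, Finset.prod_congr rfl e3, monomial_eq]
    rfl
  rw [← h1, h, map_zero]

lemma der1_hom_eval (m0 : CMon) (P : MvPolynomial {m : CMon // m ≠ m0} ℤ) (a : CMon → ℂ)
    (ha : a m0 ≠ 0) :
    aeval a (der1_hom m0 P) = a m0 ^ P.totalDegree *
      aeval (fun m : {m : CMon // m ≠ m0} => a m.1 / a m0) P := by
  rw [aeval_def (p := P), eval₂_eq, Finset.mul_sum]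
  unfold der1_hom
  rw [map_sum]
  apply Finset.sum_congr rfl
  intro s hs
  rw [map_mul, map_mul, map_pow, map_prod, aeval_X]
  have e1 : (aeval a) (C (P.coeff s)) = algebraMap ℤ ℂ (P.coeff s) := (aeval a).commutes _
  have e3 : ∀ m ∈ s.support, (aeval a) ((X m.1 : MvPolynomial CMon ℤ) ^ s m) =
      (a m.1 / a m0) ^ s m * a m0 ^ s m := by
    intro m _
    rw [map_pow, aeval_X, ← mul_pow, div_mul_cancel₀ _ ha]
  rw [e1, Finset.prod_congr rfl e3, Finset.prod_mul_distrib, Finset.prod_pow_eq_pow_sum]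
  have e4 : a m0 ^ P.totalDegree = a m0 ^ (∑ m ∈ s.support, s m) *
      a m0 ^ (P.totalDegree - s.degree) := by
    rw [← pow_add]
    congr 1
    have h1 := der1_deg hs
    have h2 := Finsupp.degree_apply s
    omega
  rw [e4]
  ring

theorem algebraicIndependent_of_VG {f : MvPolynomial (Fin 6) ℂ} (hf : VG f) (m0 : CMon) :
    AlgebraicIndependent ℚ fun m : {m : CMon // m ≠ m0} => f.coeff m.1.1 / f.coeff m0.1 := by
  have h1 : AlgebraicIndependent ℤ
      fun m : {m : CMon // m ≠ m0} => f.coeff m.1.1 / f.coeff m0.1 := by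
    rw [algebraicIndependent_iff]
    intro P hP
    by_contra hP0
    apply hf (der1_hom m0 P) P.totalDegree (der1_hom_homog m0 P) (der1_hom_ne m0 P hP0)
    rw [der1_hom_eval m0 P (fun m : CMon => f.coeff m.1) (der1_ne hf m0)]
    rw [hP, mul_zero]
  have : Algebra.IsAlgebraic ℤ ℚ := IsLocalization.isAlgebraic _ (nonZeroDivisors ℤ)
  exact h1.extendScalars ℚ

theorem exists_der {f : MvPolynomial (Fin 6) ℂ} (hf : VG f) (q : CMon → ℂ) :
    ∃ (D : Derivation ℤ ℂ ℂ) (c : ℂ), ∀ m : CMon, q m = D (f.coeff m.1) + c * f.coeff m.1 := by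
  let m0 : CMon := ⟨Finsupp.single 0 3, by simp⟩
  set a : CMon → ℂ := fun m => f.coeff m.1 with ha
  have ha0 : a m0 ≠ 0 := der1_ne hf m0
  obtain ⟨D, hD⟩ := exists_derivation_of_algebraicIndependent _ (algebraicIndependent_of_VG hf m0)
    (fun m => (q m.1 - a m.1 / a m0 * q m0) / a m0)
  refine ⟨D, (q m0 - D (a m0)) / a m0, fun m => ?_⟩
  show q m = D (a m) + (q m0 - D (a m0)) / a m0 * a m
  by_cases hm : m = m0
  · subst hm
    field_simp
    ring
  · have h1 : D (a m / a m0) = (q m - a m / a m0 * q m0) / a m0 := hD ⟨m, hm⟩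
    have h2 : D (a m) = a m / a m0 * D (a m0) + a m0 * D (a m / a m0) := by
      conv_lhs => rw [← div_mul_cancel₀ (a m) ha0, D.leibniz]
      simp only [smul_eq_mul]
    rw [h2, h1]
    field_simp
    ring

end KuMF
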