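import Pool.Agent.H91.MF.Basic
import Pool.Agent.H91.MF.Der1

/-!
# Homotopies: every cubic acts by zero on cohomology

STATEMENTS TO PROVE (job MF-DER2), from the statement `exists_der`.

`dhat D p` = apply the derivation `D` of `ℂ` to all coefficients of `p`.
`dhat_mul` (Leibniz): by `coeff_mul` (sum over the antidiagonal), or by induction on `p`
(`MvPolynomial.induction_on'`) and monomials.
`exists_homotopy`: `f` homogeneous of degree `3` with `VG f`, `q` homogeneous of degree `3`. Take
`D`, `c` with `q_m = D a_m + c a_m` for all `m` of degree `3`, so `q = dhat D f + c f` (all other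
coefficients vanish, `D 0 = 0`). Let `M = (dhat D) Q + (c / 2) Q` (entrywise). Applying `dhat D` to
`Q * Q = f • 1` entrywise: `dhat D (Q) * Q + Q * dhat D (Q) = (dhat D f) • 1`
(`Matrix.mul_apply`, `dhat_mul`, `dhat D 1 = 0`); hence `Q M + M Q = (dhat D f + c f) • 1 = q • 1`.
`M` has weight `3`: the support of `dhat D p` is contained in the support of `p`.
-/

open MvPolynomial

noncomputable section

namespace KuMF

theorem coeff_dhat_aux {n : ℕ} (D : Derivation ℤ ℂ ℂ) (p : MvPolynomial (Fin n) ℂ)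
    (m : Fin n →₀ ℕ) :
    coeff m (∑ s ∈ p.support, monomial s (D (p.coeff s))) = D (coeff m p) := by
  classical
  rw [coeff_sum]
  simp only [coeff_monomial]
  rw [Finset.sum_ite_eq']
  split_ifs with h
  · rfl
  · rw [notMem_support_iff.mp h, map_zero]

/-- Apply a derivation to the coefficients. -/
def dhat {n : ℕ} (D : Derivation ℤ ℂ ℂ) :
    MvPolynomial (Fin n) ℂ →+ MvPolynomial (Fin n) ℂ where
  toFun p := ∑ m ∈ p.support, monomial m (D (p.coeff m))
  map_zero' := by simp
  map_add' := by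
    intro p q
    ext m
    rw [coeff_add, coeff_dhat_aux, coeff_dhat_aux, coeff_dhat_aux, coeff_add, map_add]

theorem coeff_dhat {n : ℕ} (D : Derivation ℤ ℂ ℂ) (p : MvPolynomial (Fin n) ℂ)
    (m : Fin n →₀ ℕ) : coeff m (dhat D p) = D (coeff m p) :=
  coeff_dhat_aux D p m

theorem dhat_mul {n : ℕ} (D : Derivation ℤ ℂ ℂ) (p q : MvPolynomial (Fin n) ℂ) :
    dhat D (p * q) = dhat D p * q + p * dhat D q := by
  classical
  ext m
  rw [coeff_dhat, coeff_add, coeff_mul, coeff_mul, coeff_mul, map_sum, ← Finset.sum_add_distrib]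
  refine Finset.sum_congr rfl fun x _ => ?_
  rw [coeff_dhat, coeff_dhat, Derivation.leibniz, smul_eq_mul, smul_eq_mul]
  ring

theorem dhat_Hg {n : ℕ} (D : Derivation ℤ ℂ ℂ) {p : MvPolynomial (Fin n) ℂ} {e : ℤ}
    (hp : Hg p e) : Hg (dhat D p) e := by
  intro m hm
  refine hp m ?_
  rw [mem_support_iff] at hm ⊢
  rw [coeff_dhat] at hm
  intro h0
  rw [h0, map_zero] at hm
  exact hm rfl

theorem exists_homotopy {f : MvPolynomial (Fin 6) ℂ} (hf : VG f) (hf3 : f.IsHomogeneous 3)
    (E : MF f) (q : MvPolynomial (Fin 6) ℂ) (hq : q.IsHomogeneous 3) :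
    ∃ M ∈ MF.Hom E E 3, E.Q * M + M * E.Q =
      q • (1 : Matrix E.ι E.ι (MvPolynomial (Fin 6) ℂ)) := by
  classical
  obtain ⟨D, c, hD⟩ := exists_der hf fun m => coeff m.1 q
  have hfq : dhat D f + c • f = q := by
    ext m
    rw [coeff_add, coeff_dhat, coeff_smul, smul_eq_mul]
    by_cases hm : m.degree = 3
    · exact (hD ⟨m, hm⟩).symm
    · have h1 : coeff m f = 0 := by
        by_contra h
        exact hm (by rw [Finsupp.degree_eq_weight_one]; exact hf3 h)
      have h2 : coeff m q = 0 := by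
        by_contra h
        exact hm (by rw [Finsupp.degree_eq_weight_one]; exact hq h)
      rw [h1, h2, map_zero, mul_zero, add_zero]
  set P : Matrix E.ι E.ι (MvPolynomial (Fin 6) ℂ) := E.Q.map (dhat D) with hP
  have hsq : P * E.Q + E.Q * P = (dhat D f) • (1 : Matrix E.ι E.ι (MvPolynomial (Fin 6) ℂ)) := by
    have h1 : (E.Q * E.Q).map (dhat D) = P * E.Q + E.Q * P := by
      ext1 i j
      rw [Matrix.map_apply, Matrix.add_apply, Matrix.mul_apply, Matrix.mul_apply, Matrix.mul_apply,
        map_sum, ← Finset.sum_add_distrib]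
      refine Finset.sum_congr rfl fun l _ => ?_
      rw [dhat_mul, hP, Matrix.map_apply, Matrix.map_apply]
    rw [← h1, E.sq]
    ext1 i j
    rw [Matrix.map_apply, Matrix.smul_apply, Matrix.smul_apply, smul_eq_mul, smul_eq_mul]
    rcases eq_or_ne i j with rfl | h
    · rw [Matrix.one_apply_eq, mul_one, mul_one]
    · rw [Matrix.one_apply_ne h, mul_zero, mul_zero, map_zero]
  refine ⟨P + (c / 2) • E.Q, ?_, ?_⟩
  · refine Submodule.add_mem _ ?_ (Submodule.smul_mem _ _ (MF.Q_mem E))
    intro i j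
    exact dhat_Hg D (E.hQ i j)
  · rw [Matrix.mul_add, Matrix.add_mul, Matrix.mul_smul, Matrix.smul_mul]
    have h2 : E.Q * P + (c / 2) • (E.Q * E.Q) + (P * E.Q + (c / 2) • (E.Q * E.Q)) =
        (P * E.Q + E.Q * P) + c • (E.Q * E.Q) := by
      have h3 : c • (E.Q * E.Q) = (c / 2) • (E.Q * E.Q) + (c / 2) • (E.Q * E.Q) := by
        rw [← add_smul, add_halves]
      rw [h3]
      abel
    rw [h2, hsq, E.sq, ← hfq, add_smul, smul_assoc]

end KuMF
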