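import Pool.Agent.H91.MF.Defs

/-!
# Transfer of injectivity from a rational point to very general points

`gl`: `M` a family of linear forms with integer coefficients (rows `r` arbitrary, columns `c`
finite), such that at a rational point `z` the linear system `∑_j M_ij(z) v_j = 0` has only the
trivial solution. Then the same holds over `ℂ` at every point `a` at which no nonzero homogeneous
integer polynomial vanishes. PROOF. The rows `R_i = (M_ij(z))_j ∈ ℚ^c` span `ℚ^c` (otherwise a
nonzero vector is orthogonal to all of them: `Submodule.exists_le_ker_of_lt_top`), so `card c` of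
them form a basis (`exists_linearIndependent'`); the determinant `P` of the corresponding square
submatrix of `M` is homogeneous of degree `card c` (`glDet`) and `P(z) ≠ 0`, so `P ≠ 0` and
`P(a) ≠ 0`; hence the submatrix is invertible at `a` and kills `v`
(`Matrix.eq_zero_of_mulVec_eq_zero`).

`transfer`: the form used for syzygies. Unknowns: forms `c_x` of degree `e` (`x ∈ C` finite);
equations: coefficients at the `(r, m) ∈ rows` of `∑_x ∑_j s_{rxj} ∂_j f c_x`, and the coefficients
at `(x, m) ∈ zc` of `c_x`. If for the Fermat cubic over `ℚ` the only solution is zero, then also for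
`f` with `VG f`. PROOF. Universal cubic
`fU = ∑_{m : CMon} monomial m (X m) : MvPolynomial (Fin 6) (MvPolynomial CMon ℤ)` (`CMon` is finite:
`Finsupp.finite_of_degree_le`), `fU.map (aeval a) = f` for `a m = coeff m f`. Columns of the
matrix: `C × {m // m.degree = e}` (finite), rows: `rows ⊕ zc`; entries
`coeff m (∑_j s_{rxj} ∂_j fU * monomial m' 1)`, respectively
`if x = x' ∧ m = m' then X (x_0^3) else 0` (`X (x_0^3)` is `1` at the Fermat point and nonzero at
`a`). All entries are homogeneous of degree `1` in the `X m`. `c_x = ∑ v_{x,m'} x^m'`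
(`IsHomogeneous`). Apply `gl` with `z` = the coefficients of the Fermat cubic.
-/

open MvPolynomial

noncomputable section

namespace KuMF

/-- the determinant of a matrix of linear forms is homogeneous -/
lemma glDet {c : Type*} [Fintype c] [DecidableEq c] {τ : Type*}
    (A : Matrix c c (MvPolynomial τ ℤ)) (hA : ∀ i j, (A i j).IsHomogeneous 1) :
    A.det.IsHomogeneous (Fintype.card c) := by
  rw [Matrix.det_apply]
  refine IsHomogeneous.sum _ _ _ fun σ _ => ?_
  have h : (∏ i, A (σ i) i).IsHomogeneous (Fintype.card c) := by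
    have := IsHomogeneous.prod Finset.univ (fun i => A (σ i) i) (fun _ => 1)
      (fun i _ => hA _ _)
    simpa using this
  rcases Int.units_eq_one_or (Equiv.Perm.sign σ) with h1 | h1
  · rw [h1, one_smul]; exact h
  · rw [h1, Units.neg_smul, one_smul]; exact h.neg

theorem gl {r c : Type*} [Fintype c] [DecidableEq c] {τ : Type*} (M : r → c → MvPolynomial τ ℤ)
    (hM : ∀ i j, (M i j).IsHomogeneous 1) (z : τ → ℚ)
    (hz : ∀ v : c → ℚ, (∀ i, ∑ j, aeval z (M i j) * v j = 0) → v = 0) (a : τ → ℂ)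
    (ha : ∀ (P : MvPolynomial τ ℤ) (d : ℕ), P.IsHomogeneous d → P ≠ 0 → aeval a P ≠ 0)
    (v : c → ℂ) (hv : ∀ i, ∑ j, aeval a (M i j) * v j = 0) : v = 0 := by
  classical
  set R : r → (c → ℚ) := fun i j => aeval z (M i j) with hR
  have hspan : Submodule.span ℚ (Set.range R) = ⊤ := by
    by_contra hne
    obtain ⟨f, hf0, hf⟩ := Submodule.exists_le_ker_of_lt_top _ (lt_top_iff_ne_top.2 hne)
    have hfv : ∀ w : c → ℚ, f w = ∑ j, w j * f (Pi.single j 1) := by
      intro w
      conv_lhs => rw [pi_eq_sum_univ' w]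
      rw [map_sum]
      refine Finset.sum_congr rfl fun j _ => ?_
      rw [map_smul, smul_eq_mul]
    have h0 : (fun j => f (Pi.single j 1)) = (0 : c → ℚ) := by
      apply hz
      intro i
      have h1 : f (R i) = 0 := hf (Submodule.subset_span ⟨i, rfl⟩)
      rw [hfv] at h1
      exact h1
    apply hf0
    ext w
    have := congrFun h0 w
    simpa using this
  obtain ⟨κ, b, -, hsp, hli⟩ := exists_linearIndependent' ℚ R
  have hB : ⊤ ≤ Submodule.span ℚ (Set.range (R ∘ b)) := by rw [hsp, hspan]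
  let B : Module.Basis κ ℚ (c → ℚ) := Module.Basis.mk hli hB
  let e : c ≃ κ := (Pi.basisFun ℚ c).indexEquiv B
  let A : Matrix c c (MvPolynomial τ ℤ) := Matrix.of fun i j => M (b (e i)) j
  have hA : IsUnit (A.map (aeval z : MvPolynomial τ ℤ →ₐ[ℤ] ℚ)) := by
    rw [← Matrix.linearIndependent_rows_iff_isUnit]
    exact hli.comp e e.injective
  have hd : (aeval z : MvPolynomial τ ℤ →ₐ[ℤ] ℚ) A.det ≠ 0 := by
    have h1 := (Matrix.isUnit_iff_isUnit_det _).1 hA
    have h2 : (aeval z : MvPolynomial τ ℤ →ₐ[ℤ] ℚ) A.det =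
        (A.map (aeval z : MvPolynomial τ ℤ →ₐ[ℤ] ℚ)).det :=
      AlgHom.map_det _ _
    rw [h2]
    exact h1.ne_zero
  have hP0 : A.det ≠ 0 := fun h => hd (by rw [h, map_zero])
  have hPa := ha A.det _ (glDet A fun i j => hM _ _) hP0
  have h2 : (aeval a : MvPolynomial τ ℤ →ₐ[ℤ] ℂ) A.det =
      (A.map (aeval a : MvPolynomial τ ℤ →ₐ[ℤ] ℂ)).det :=
    AlgHom.map_det _ _
  rw [h2] at hPa
  refine Matrix.eq_zero_of_mulVec_eq_zero hPa ?_
  ext i
  exact hv (b (e i))

/-- The Fermat cubic over `ℚ`. -/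
def fermat : MvPolynomial (Fin 6) ℚ := ∑ i, X i ^ 3

lemma glFin (e : ℕ) : Finite {m : Fin 6 →₀ ℕ // m.degree = e} :=
  Set.Finite.subset (Finsupp.finite_of_degree_le (σ := Fin 6) e) (fun _ h => le_of_eq h)

/-- a homogeneous form is the sum of its terms -/
lemma glSum {R : Type*} [CommSemiring R] {e : ℕ} [Fintype {m : Fin 6 →₀ ℕ // m.degree = e}]
    {p : MvPolynomial (Fin 6) R} (hp : p.IsHomogeneous e) :
    ∑ m : {m : Fin 6 →₀ ℕ // m.degree = e}, monomial m.1 (coeff m.1 p) = p := by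
  classical
  ext n
  rw [coeff_sum]
  simp only [coeff_monomial]
  by_cases hn : n.degree = e
  · rw [Finset.sum_eq_single ⟨n, hn⟩]
    · simp
    · intro b _ hb
      rw [if_neg]
      intro h
      exact hb (Subtype.ext h)
    · simp
  · rw [hp.coeff_eq_zero hn]
    refine Finset.sum_eq_zero fun m _ => if_neg ?_
    intro h
    exact hn (h ▸ m.2)

lemma glCoeff {R : Type*} [CommSemiring R] {e : ℕ} [Fintype {m : Fin 6 →₀ ℕ // m.degree = e}]
    (v : {m : Fin 6 →₀ ℕ // m.degree = e} → R) (n : Fin 6 →₀ ℕ) :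
    coeff n (∑ m : {m : Fin 6 →₀ ℕ // m.degree = e}, monomial m.1 (v m)) =
      if h : n.degree = e then v ⟨n, h⟩ else 0 := by
  classical
  rw [coeff_sum]
  simp only [coeff_monomial]
  split_ifs with hn
  · rw [Finset.sum_eq_single ⟨n, hn⟩]
    · simp
    · intro b _ hb
      rw [if_neg]
      intro h
      exact hb (Subtype.ext h)
    · simp
  · refine Finset.sum_eq_zero fun m _ => if_neg ?_
    intro h
    exact hn (h ▸ m.2)

lemma glHom {R : Type*} [CommSemiring R] {e : ℕ} [Fintype {m : Fin 6 →₀ ℕ // m.degree = e}]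
    (v : {m : Fin 6 →₀ ℕ // m.degree = e} → R) :
    (∑ m : {m : Fin 6 →₀ ℕ // m.degree = e}, monomial m.1 (v m)).IsHomogeneous e :=
  IsHomogeneous.sum _ _ _ fun m _ => isHomogeneous_monomial _ m.2

/-- the universal cubic form -/
def glU [Fintype CMon] : MvPolynomial (Fin 6) (MvPolynomial CMon ℤ) :=
  ∑ m : CMon, monomial m.1 (X m)

lemma glU_map [Fintype CMon] {K : Type*} [CommRing K] {g : MvPolynomial (Fin 6) K}
    (hg : g.IsHomogeneous 3) :
    glU.map ((aeval fun m : CMon => coeff m.1 g : MvPolynomial CMon ℤ →ₐ[ℤ] K) :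
      MvPolynomial CMon ℤ →+* K) = g := by
  conv_rhs => rw [← glSum hg]
  rw [glU, map_sum]
  refine Finset.sum_congr rfl fun m _ => ?_
  rw [map_monomial]
  congr 1
  simp

lemma glU_coeff [Fintype CMon] (n : Fin 6 →₀ ℕ) : (coeff n glU).IsHomogeneous 1 := by
  rw [glU, glCoeff]
  split_ifs with h
  · exact isHomogeneous_X _ _
  · exact isHomogeneous_zero _ _ _

/-- the entries of the matrix -/
def glM [Fintype CMon] {ρ C : Type} [DecidableEq C] (s : ρ → C → Fin 6 → ℤ) (e : ℕ)
    (rows : Set (ρ × (Fin 6 →₀ ℕ))) (zc : Set (C × (Fin 6 →₀ ℕ))) :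
    rows ⊕ zc → C × {m : Fin 6 →₀ ℕ // m.degree = e} → MvPolynomial CMon ℤ
  | Sum.inl i, j => coeff i.1.2 (∑ l, s i.1.1 j.1 l • (pderiv l glU * monomial j.2.1 1))
  | Sum.inr i, j => if j.1 = i.1.1 ∧ j.2.1 = i.1.2 then
      X ⟨Finsupp.single 0 3, by simp⟩ else 0

lemma glM_hom [Fintype CMon] {ρ C : Type} [DecidableEq C] (s : ρ → C → Fin 6 → ℤ) (e : ℕ)
    (rows : Set (ρ × (Fin 6 →₀ ℕ))) (zc : Set (C × (Fin 6 →₀ ℕ))) (i : rows ⊕ zc)
    (j : C × {m : Fin 6 →₀ ℕ // m.degree = e}) : (glM s e rows zc i j).IsHomogeneous 1 := by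
  classical
  rcases i with i | i
  · rw [glM, coeff_sum]
    refine IsHomogeneous.sum _ _ _ fun l _ => ?_
    rw [coeff_smul, coeff_mul_monomial']
    split_ifs with h
    · rw [mul_one, coeff_pderiv]
      have h1 : (coeff (i.1.2 - j.2.1 + Finsupp.single l 1) glU).IsHomogeneous 1 := glU_coeff _
      have h2 : ((((i.1.2 - j.2.1) l : ℕ) : MvPolynomial CMon ℤ) + 1).IsHomogeneous 0 := by
        have : ((((i.1.2 - j.2.1) l : ℕ) : MvPolynomial CMon ℤ) + 1) =
            MvPolynomial.C ((((i.1.2 - j.2.1) l : ℕ) : ℤ) + 1) := by simp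
        rw [this]
        exact isHomogeneous_C _ _
      have h3 := h1.mul h2
      rw [add_zero] at h3
      rw [← mem_homogeneousSubmodule] at h3 ⊢
      exact Submodule.smul_mem _ _ h3
    · rw [smul_zero]
      exact isHomogeneous_zero _ _ _
  · rw [glM]
    split_ifs with h
    · exact isHomogeneous_X _ _
    · exact isHomogeneous_zero _ _ _

lemma glM_inl [Fintype CMon] {ρ C : Type} [Fintype C] [DecidableEq C] (s : ρ → C → Fin 6 → ℤ)
    (e : ℕ) [Fintype {m : Fin 6 →₀ ℕ // m.degree = e}]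
    (rows : Set (ρ × (Fin 6 →₀ ℕ))) (zc : Set (C × (Fin 6 →₀ ℕ)))
    {K : Type*} [CommRing K] {g : MvPolynomial (Fin 6) K} (hg : g.IsHomogeneous 3)
    (v : C × {m : Fin 6 →₀ ℕ // m.degree = e} → K) (i : rows) :
    ∑ j, aeval (fun m : CMon => coeff m.1 g) (glM s e rows zc (Sum.inl i) j) * v j =
      coeff i.1.2 (∑ x, ∑ l, s i.1.1 x l •
        (pderiv l g * ∑ m : {m : Fin 6 →₀ ℕ // m.degree = e}, monomial m.1 (v (x, m)))) := by
  classical
  rw [Fintype.sum_prod_type, coeff_sum]
  refine Finset.sum_congr rfl fun x _ => ?_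
  set φ : MvPolynomial CMon ℤ →+* K :=
    ((aeval fun m : CMon => coeff m.1 g : MvPolynomial CMon ℤ →ₐ[ℤ] K) :
      MvPolynomial CMon ℤ →+* K) with hφ
  have h1 : ∀ m : {m : Fin 6 →₀ ℕ // m.degree = e},
      aeval (fun m : CMon => coeff m.1 g) (glM s e rows zc (Sum.inl i) (x, m)) * v (x, m) =
      coeff i.1.2 (∑ l, s i.1.1 x l • (pderiv l g * monomial m.1 (v (x, m)))) := by
    intro m
    have h2 : aeval (fun m : CMon => coeff m.1 g) (glM s e rows zc (Sum.inl i) (x, m)) =
        coeff i.1.2 ((∑ l, s i.1.1 x l • (pderiv l glU * monomial m.1 1)).map φ) := by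
      rw [coeff_map]
      rfl
    rw [h2, map_sum]
    simp only [map_zsmul, map_mul, ← pderiv_map, glU_map hg, hφ, map_monomial, map_one]
    rw [mul_comm, ← coeff_C_mul]
    congr 1
    rw [Finset.mul_sum]
    refine Finset.sum_congr rfl fun l _ => ?_
    rw [mul_smul_comm]
    congr 1
    rw [← mul_assoc, mul_comm (MvPolynomial.C _), mul_assoc, C_mul_monomial, mul_one]
  rw [Finset.sum_congr rfl fun m _ => h1 m, ← coeff_sum, Finset.sum_comm]
  congr 1
  refine Finset.sum_congr rfl fun l _ => ?_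
  rw [Finset.mul_sum, Finset.smul_sum]

lemma glM_inr [Fintype CMon] {ρ C : Type} [Fintype C] [DecidableEq C] (s : ρ → C → Fin 6 → ℤ)
    (e : ℕ) [Fintype {m : Fin 6 →₀ ℕ // m.degree = e}]
    (rows : Set (ρ × (Fin 6 →₀ ℕ))) (zc : Set (C × (Fin 6 →₀ ℕ)))
    {K : Type*} [CommRing K] {g : MvPolynomial (Fin 6) K}
    (v : C × {m : Fin 6 →₀ ℕ // m.degree = e} → K) (i : zc) :
    ∑ j, aeval (fun m : CMon => coeff m.1 g) (glM s e rows zc (Sum.inr i) j) * v j =
      coeff (Finsupp.single 0 3) g *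
      coeff i.1.2 (∑ m : {m : Fin 6 →₀ ℕ // m.degree = e}, monomial m.1 (v (i.1.1, m))) := by
  classical
  rw [glCoeff, Fintype.sum_prod_type, Finset.sum_eq_single i.1.1]
  · split_ifs with h
    · rw [Finset.sum_eq_single ⟨i.1.2, h⟩]
      · simp [glM]
      · intro b _ hb
        have : ¬ (b.1 = i.1.2) := fun h => hb (Subtype.ext h)
        simp [glM, this]
      · simp
    · rw [mul_zero]
      refine Finset.sum_eq_zero fun m _ => ?_
      have : ¬ (m.1 = i.1.2) := fun h' => h (h' ▸ m.2)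
      simp [glM, this]
  · intro b _ hb
    refine Finset.sum_eq_zero fun m _ => ?_
    simp [glM, hb]
  · simp

lemma fermat_hom : fermat.IsHomogeneous 3 := by
  refine IsHomogeneous.sum _ _ _ fun i _ => ?_
  have := (isHomogeneous_X ℚ i).pow 3
  rwa [one_mul] at this

lemma fermat_coeff : coeff (Finsupp.single 0 3) fermat = 1 := by
  classical
  rw [fermat, coeff_sum, Finset.sum_eq_single 0]
  · rw [coeff_X_pow]; simp
  · intro b _ hb
    rw [coeff_X_pow, if_neg]
    intro h
    rw [Finsupp.single_left_inj (by norm_num)] at h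
    exact hb h
  · simp

theorem transfer {ρ C : Type} [Fintype C] [DecidableEq C] (s : ρ → C → Fin 6 → ℤ) (e : ℕ)
    (rows : Set (ρ × (Fin 6 →₀ ℕ))) (zc : Set (C × (Fin 6 →₀ ℕ)))
    (hF : ∀ c : C → MvPolynomial (Fin 6) ℚ, (∀ x, (c x).IsHomogeneous e) →
      (∀ r m, (r, m) ∈ rows → coeff m (∑ x, ∑ j, s r x j • (pderiv j fermat * c x)) = 0) →
      (∀ x m, (x, m) ∈ zc → coeff m (c x) = 0) → c = 0)
    {f : MvPolynomial (Fin 6) ℂ} (hf : VG f) (hf3 : f.IsHomogeneous 3)
    (c : C → MvPolynomial (Fin 6) ℂ) (hc : ∀ x, (c x).IsHomogeneous e)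
    (hr : ∀ r m, (r, m) ∈ rows → coeff m (∑ x, ∑ j, s r x j • (pderiv j f * c x)) = 0)
    (hz : ∀ x m, (x, m) ∈ zc → coeff m (c x) = 0) : c = 0 := by
  classical
  have : Finite CMon := glFin 3
  have : Fintype CMon := Fintype.ofFinite _
  have : Finite {m : Fin 6 →₀ ℕ // m.degree = e} := glFin e
  have : Fintype {m : Fin 6 →₀ ℕ // m.degree = e} := Fintype.ofFinite _
  have key := gl (glM s e rows zc) (glM_hom s e rows zc) (fun m : CMon => coeff m.1 fermat)
    ?_ (fun m : CMon => coeff m.1 f) hf (fun j => coeff j.2.1 (c j.1)) ?_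
  · funext x
    rw [← glSum (hc x)]
    refine Finset.sum_eq_zero fun m _ => ?_
    have h1 := congrFun key (x, m)
    simp only [Pi.zero_apply] at h1
    rw [h1, map_zero]
  · intro v hv
    have h0 := hF (fun x => ∑ m : {m : Fin 6 →₀ ℕ // m.degree = e}, monomial m.1 (v (x, m)))
      (fun x => glHom _) ?_ ?_
    · funext j
      have h1 := congrFun h0 j.1
      have h2 := congrArg (coeff j.2.1) h1
      simp only [glCoeff, Pi.zero_apply, coeff_zero, j.2.2, dite_true] at h2
      exact h2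
    · intro r m hm
      have h1 := hv (Sum.inl ⟨(r, m), hm⟩)
      rw [glM_inl s e rows zc fermat_hom] at h1
      exact h1
    · intro x m hm
      have h1 := hv (Sum.inr ⟨(x, m), hm⟩)
      rw [glM_inr, fermat_coeff, one_mul] at h1
      exact h1
  · rintro (⟨⟨r, m⟩, hm⟩ | ⟨⟨x, m⟩, hm⟩)
    · rw [glM_inl s e rows zc hf3]
      simp only [glSum (hc _)]
      exact hr r m hm
    · rw [glM_inr]
      simp only [glSum (hc _)]
      rw [hz x m hm, mul_zero]

end KuMF
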