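import Pool.Agent.H91.MF.HEqL

/-!
# Gaussian elimination: every matrix factorization is homotopy equivalent to a reduced one

STATEMENTS TO PROVE (job MF-GAUSS).

`gauss_block`: pure matrix algebra. `Q = fromBlocks A B C' D`, `Q² = f`, `h` with `A h + h A = 1`,
`h² = 0`. Then `Q' = D - C' h B` satisfies `Q'² = f`, and with `p = (-C' h, 1)`, `i = (-h B, 1)ᵗ`,
`H = fromBlocks h 0 0 0`: `p Q = Q' p`, `Q i = i Q'`, `p i = 1`, `i p = 1 - (Q H + H Q)`.
PROOF. The blocks of `Q² = f`: `A A + B C' = f`, `A B + B D = 0`, `C' A + D C' = 0`,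
`C' B + D D = f`. `h A h = h (1 - h A) = h`, `h (B C') h = h (f - A A) h = f h h - (h A) (A h)
= - (h A)(1 - h A) = - (h A - h A h A) = 0`. So
`Q'² = D D - D C' h B - C' h B D + C' h B C' h B = D D + C' A h B + C' h A B + 0 = D D + C' B = f`.
`p Q = (-C' h A + C', -C' h B + D)`, `Q' p = (-D C' h + C' h B C' h, Q') = (C' A h, Q')` and
`C' - C' h A = C' A h`. `Q i = i Q'` similarly. `p i = C' h h B + 1 = 1`.
`i p = fromBlocks (h B C' h) (-h B) (-C' h) 1 = fromBlocks 0 (-h B) (-C' h) 1`,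
`Q H + H Q = fromBlocks (A h + h A) (h B) (C' h) 0`.

`gauss`: if `E.Q i0 j0` has nonzero constant term `c` then `w j0 - w i0 + 3 = 0`
(so `E.Q i0 j0 = C c`, `i0 ≠ j0`), `E` is homotopy equivalent to a smaller factorization:
reindex `E.ι ≃ {x // x = i0 ∨ x = j0} ⊕ {x // ¬ (x = i0 ∨ x = j0)}` (`Equiv.sumCompl`,
`HEq.of_equiv` or work with `Matrix.toBlocks`), `h (j0, i0) = c⁻¹`, all other entries `0`
(weight `-3`). `A (i0,i0) = 0`, `A (j0,j0) = 0` (their weight is `3`, odd), so `A h + h A = 1` and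
`h h = 0` entrywise.
`exists_reduced`: strong induction on `Fintype.card E.ι`.
-/

open MvPolynomial

noncomputable section

namespace KuMF

theorem gauss_block {S : Type*} [CommRing S] {α β : Type*} [Fintype α] [DecidableEq α]
    [Fintype β] [DecidableEq β] (f : S) (A : Matrix α α S) (B : Matrix α β S) (C' : Matrix β α S)
    (D : Matrix β β S) (h : Matrix α α S)
    (hQ : Matrix.fromBlocks A B C' D * Matrix.fromBlocks A B C' D =
      f • (1 : Matrix (α ⊕ β) (α ⊕ β) S))
    (h1 : A * h + h * A = 1) (h2 : h * h = 0) :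
    (D - C' * h * B) * (D - C' * h * B) = f • (1 : Matrix β β S) ∧
    Matrix.fromCols (-(C' * h)) (1 : Matrix β β S) * Matrix.fromBlocks A B C' D =
      (D - C' * h * B) * Matrix.fromCols (-(C' * h)) (1 : Matrix β β S) ∧
    Matrix.fromBlocks A B C' D * Matrix.fromRows (-(h * B)) (1 : Matrix β β S) =
      Matrix.fromRows (-(h * B)) (1 : Matrix β β S) * (D - C' * h * B) ∧
    Matrix.fromCols (-(C' * h)) (1 : Matrix β β S) *
      Matrix.fromRows (-(h * B)) (1 : Matrix β β S) = (1 : Matrix β β S) ∧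
    Matrix.fromRows (-(h * B)) (1 : Matrix β β S) *
      Matrix.fromCols (-(C' * h)) (1 : Matrix β β S) - (1 : Matrix (α ⊕ β) (α ⊕ β) S) =
      -(Matrix.fromBlocks A B C' D * Matrix.fromBlocks h 0 0 (0 : Matrix β β S) +
        Matrix.fromBlocks h 0 0 (0 : Matrix β β S) * Matrix.fromBlocks A B C' D) := by
  rw [Matrix.fromBlocks_multiply, ← Matrix.fromBlocks_one, Matrix.fromBlocks_smul, smul_zero,
    smul_zero, Matrix.fromBlocks_inj] at hQ
  obtain ⟨a1, a2, a3, a4⟩ := hQ
  have hAh : A * h = 1 - h * A := by rw [← h1]; abel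
  have hhAh : h * (A * h) = h := by
    rw [hAh, Matrix.mul_sub, Matrix.mul_one, ← Matrix.mul_assoc, h2, Matrix.zero_mul, sub_zero]
  have hBD : B * D = -(A * B) := by
    rw [eq_neg_iff_add_eq_zero, add_comm]; exact a2
  have hDC : D * C' = -(C' * A) := by
    rw [eq_neg_iff_add_eq_zero, add_comm]; exact a3
  have hBC : B * C' = f • (1 : Matrix α α S) - A * A := by rw [← a1]; abel
  have hz : h * (B * (C' * h)) = 0 := by
    rw [← Matrix.mul_assoc B, hBC, Matrix.sub_mul, Matrix.smul_mul, Matrix.one_mul,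
      Matrix.mul_sub, Matrix.mul_smul, h2, smul_zero, zero_sub, Matrix.mul_assoc A A h, hAh,
      Matrix.mul_sub, Matrix.mul_one, Matrix.mul_sub, ← Matrix.mul_assoc A h A,
      ← Matrix.mul_assoc h (A * h) A, hhAh, sub_self, neg_zero]
  have key : C' * (A * (h * B)) + C' * (h * (A * B)) = C' * B := by
    rw [← Matrix.mul_add, ← Matrix.mul_assoc A, ← Matrix.mul_assoc h, ← Matrix.add_mul, h1,
      Matrix.one_mul]
  have t1 : D * (C' * (h * B)) = -(C' * (A * (h * B))) := by
    rw [← Matrix.mul_assoc D, hDC, Matrix.neg_mul, Matrix.mul_assoc]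
  have t2 : C' * (h * (B * D)) = -(C' * (h * (A * B))) := by
    rw [hBD, Matrix.mul_neg, Matrix.mul_neg]
  have t3 : C' * (h * (B * (C' * (h * B)))) = 0 := by
    rw [← Matrix.mul_assoc C' h B, ← Matrix.mul_assoc B, ← Matrix.mul_assoc h, hz,
      Matrix.zero_mul, Matrix.mul_zero]
  refine ⟨?_, ?_, ?_, ?_, ?_⟩
  · simp only [Matrix.sub_mul, Matrix.mul_sub, Matrix.mul_assoc]
    rw [t1, t2, t3, ← a4, ← key]
    abel
  · rw [Matrix.fromCols_mul_fromBlocks, Matrix.mul_fromCols]
    congr 1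
    · rw [Matrix.one_mul, Matrix.mul_neg, Matrix.sub_mul, ← Matrix.mul_assoc D, hDC]
      have e1 : C' * h * B * (C' * h) = 0 := by
        rw [Matrix.mul_assoc, Matrix.mul_assoc C' h, hz, Matrix.mul_zero]
      rw [e1, sub_zero]
      simp only [Matrix.neg_mul, neg_neg]
      rw [Matrix.mul_assoc C' A h, hAh, Matrix.mul_sub, Matrix.mul_one, Matrix.mul_assoc]
      abel
    · rw [Matrix.one_mul, Matrix.mul_one, Matrix.neg_mul]
      abel
  · rw [Matrix.fromBlocks_mul_fromRows, Matrix.fromRows_mul]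
    congr 1
    · rw [Matrix.mul_one, Matrix.neg_mul, Matrix.mul_sub, Matrix.mul_assoc h B D, hBD]
      have e1 : h * B * (C' * h * B) = 0 := by
        rw [Matrix.mul_assoc, ← Matrix.mul_assoc B, ← Matrix.mul_assoc h, hz, Matrix.zero_mul]
      have e2 : A * (h * B) = B - h * (A * B) := by
        rw [← Matrix.mul_assoc, hAh, Matrix.sub_mul, Matrix.one_mul, Matrix.mul_assoc]
      rw [e1, sub_zero]
      simp only [Matrix.mul_neg, neg_neg]
      rw [e2]
      abel
    · rw [Matrix.one_mul, Matrix.mul_one, Matrix.mul_neg, Matrix.mul_assoc]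
      abel
  · rw [Matrix.fromCols_mul_fromRows, Matrix.neg_mul, Matrix.mul_neg, neg_neg,
      Matrix.mul_assoc, ← Matrix.mul_assoc h h B, h2, Matrix.zero_mul, Matrix.mul_zero,
      Matrix.one_mul, zero_add]
  · rw [Matrix.fromRows_mul_fromCols, Matrix.fromBlocks_multiply, Matrix.fromBlocks_multiply,
      Matrix.fromBlocks_add, Matrix.fromBlocks_neg, ← Matrix.fromBlocks_one, sub_eq_add_neg,
      Matrix.fromBlocks_neg, Matrix.fromBlocks_add]
    congr 1
    · rw [Matrix.neg_mul, Matrix.mul_neg, neg_neg, Matrix.mul_assoc, hz, Matrix.mul_zero,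
        Matrix.zero_mul, add_zero, add_zero, h1, zero_add]
    · simp
    · simp
    · simp

namespace MF

variable {k : Type} [Field k] {n : ℕ} {f : MvPolynomial (Fin n) k}

/-- The two factorizations of the Gaussian elimination, in block form. -/
theorem gauss_aux {α β : Type} [Fintype α] [DecidableEq α] [Fintype β] [DecidableEq β]
    (wa : α → ℤ) (wb : β → ℤ) (E : MF f) (e : E.ι ≃ α ⊕ β)
    (hw : ∀ i, Sum.elim wa wb (e i) = E.w i)
    (h : Matrix α α (MvPolynomial (Fin n) k)) (hh : ∀ i j, Hg (h i j) (wa j - wa i - 3))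
    (h1 : (E.Q.submatrix e.symm e.symm).toBlocks₁₁ * h +
      h * (E.Q.submatrix e.symm e.symm).toBlocks₁₁ = 1) (h2 : h * h = 0) :
    ∃ E' : MF f, Fintype.card E'.ι = Fintype.card β ∧ HEq E E' := by
  have hw' : ∀ a, E.w (e.symm a) = Sum.elim wa wb a := by
    intro a
    rw [← hw, Equiv.apply_symm_apply]
  set Q1 : Matrix (α ⊕ β) (α ⊕ β) (MvPolynomial (Fin n) k) := E.Q.submatrix e.symm e.symm with hQ1
  have hsq : Q1 * Q1 = f • (1 : Matrix (α ⊕ β) (α ⊕ β) (MvPolynomial (Fin n) k)) := by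
    rw [hQ1, Matrix.submatrix_mul_equiv, E.sq]
    ext1 a b
    rw [Matrix.submatrix_apply, Matrix.smul_apply, Matrix.smul_apply, Matrix.one_apply,
      Matrix.one_apply]
    simp only [e.symm.injective.eq_iff]
  have hQ1w : ∀ a b, Hg (Q1 a b) (Sum.elim wa wb b - Sum.elim wa wb a + 3) := by
    intro a b
    exact (E.hQ (e.symm a) (e.symm b)).of_eq (by rw [hw', hw'])
  obtain ⟨E1, hE1⟩ : ∃ E1 : MF f, E1 = ⟨α ⊕ β, Sum.elim wa wb, Q1, hQ1w, hsq⟩ := ⟨_, rfl⟩
  have hfb : Matrix.fromBlocks Q1.toBlocks₁₁ Q1.toBlocks₁₂ Q1.toBlocks₂₁ Q1.toBlocks₂₂ = Q1 :=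
    Matrix.fromBlocks_toBlocks Q1
  obtain ⟨b1, b2, b3, b4, b5⟩ := gauss_block f Q1.toBlocks₁₁ Q1.toBlocks₁₂ Q1.toBlocks₂₁
    Q1.toBlocks₂₂ h (by rw [hfb, hsq]) h1 h2
  rw [hfb] at b2 b3 b5
  have hCh : ∀ (i : β) (j : α), Hg ((Q1.toBlocks₂₁ * h) i j) (wa j - wb i) := by
    intro i j
    rw [Matrix.mul_apply]
    exact Hg.sum _ fun l _ => ((hQ1w (Sum.inr i) (Sum.inl l)).mul (hh l j)).of_eq
      (by simp only [Sum.elim_inl, Sum.elim_inr]; ring)
  have hhB : ∀ (i : α) (j : β), Hg ((h * Q1.toBlocks₁₂) i j) (wb j - wa i) := by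
    intro i j
    rw [Matrix.mul_apply]
    exact Hg.sum _ fun l _ => ((hh i l).mul (hQ1w (Sum.inl l) (Sum.inr j))).of_eq
      (by simp only [Sum.elim_inl, Sum.elim_inr]; ring)
  have hQ' : ∀ (i j : β), Hg ((Q1.toBlocks₂₂ - Q1.toBlocks₂₁ * h * Q1.toBlocks₁₂) i j)
      (wb j - wb i + 3) := by
    intro i j
    rw [Matrix.sub_apply]
    refine Hg.sub (hQ1w (Sum.inr i) (Sum.inr j)) ?_
    rw [Matrix.mul_apply]
    exact Hg.sum _ fun l _ => ((hCh i l).mul (hQ1w (Sum.inl l) (Sum.inr j))).of_eq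
      (by simp only [Sum.elim_inl, Sum.elim_inr]; ring)
  obtain ⟨E', hE'⟩ : ∃ E' : MF f, E' = ⟨β, wb, Q1.toBlocks₂₂ - Q1.toBlocks₂₁ * h * Q1.toBlocks₁₂,
    hQ', b1⟩ := ⟨_, rfl⟩
  have hone : ∀ i j : β, Hg ((1 : Matrix β β (MvPolynomial (Fin n) k)) i j) (wb j - wb i + 0) := by
    intro i j
    rcases eq_or_ne i j with rfl | h
    · rw [Matrix.one_apply_eq]; exact Hg.one.of_eq (by ring)
    · rw [Matrix.one_apply_ne h]; exact Hg.zero _
  have g1 : HEq E E1 := by
    subst hE1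
    refine HEq.of_equiv (E' := ⟨α ⊕ β, Sum.elim wa wb, Q1, hQ1w, hsq⟩) e hw ?_
    intro i j
    change E.Q (e.symm (e i)) (e.symm (e j)) = E.Q i j
    rw [Equiv.symm_apply_apply, Equiv.symm_apply_apply]
  have g2 : HEq E1 E' := by
    subst hE1
    subst hE'
    refine ⟨Matrix.fromCols (-(Q1.toBlocks₂₁ * h)) (1 : Matrix β β (MvPolynomial (Fin n) k)),
      mem_Z_zero.2 ⟨?_, b2⟩,
      Matrix.fromRows (-(h * Q1.toBlocks₁₂)) (1 : Matrix β β (MvPolynomial (Fin n) k)),
      mem_Z_zero.2 ⟨?_, b3.symm⟩, ?_, ?_⟩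
    · rintro i (j | j)
      · exact (hCh i j).neg.of_eq (by simp)
      · exact hone i j
    · rintro (i | i) j
      · exact (hhB i j).neg.of_eq (by simp)
      · exact hone i j
    · refine mem_B_zero.2 ⟨-(Matrix.fromBlocks h 0 0 (0 : Matrix β β (MvPolynomial (Fin n) k))),
        ?_, ?_⟩
      · rintro (i | i) (j | j)
        · exact (hh i j).neg.of_eq (by simp only [Sum.elim_inl]; ring)
        · exact (Hg.zero _).neg
        · exact (Hg.zero _).neg
        · exact (Hg.zero _).neg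
      · refine Eq.trans ?_ b5.symm
        change Q1 * -(Matrix.fromBlocks h 0 0 (0 : Matrix β β (MvPolynomial (Fin n) k))) +
          -(Matrix.fromBlocks h 0 0 (0 : Matrix β β (MvPolynomial (Fin n) k))) * Q1 = _
        rw [Matrix.mul_neg, Matrix.neg_mul, neg_add]
    · have e1 : Matrix.fromCols (-(Q1.toBlocks₂₁ * h)) (1 : Matrix β β (MvPolynomial (Fin n) k)) *
          Matrix.fromRows (-(h * Q1.toBlocks₁₂)) (1 : Matrix β β (MvPolynomial (Fin n) k)) - 1 =
          0 := by rw [b4, sub_self]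
      refine mem_B_zero.2 ⟨0, Submodule.zero_mem _, ?_⟩
      refine Eq.trans ?_ e1.symm
      rw [Matrix.mul_zero, Matrix.zero_mul, add_zero]
  exact ⟨E', by subst hE'; rfl, g1.trans g2⟩

theorem gauss (E : MF f) (i0 j0 : E.ι) (h : coeff 0 (E.Q i0 j0) ≠ 0) :
    ∃ E' : MF f, Fintype.card E'.ι < Fintype.card E.ι ∧ HEq E E' := by
  classical
  set c := coeff 0 (E.Q i0 j0) with hc
  have hw : E.w j0 - E.w i0 + 3 = 0 := by
    have := E.hQ i0 j0 0 (mem_support_iff.2 h)
    rw [← this]; simp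
  have hodd : ∀ i, E.Q i i = 0 := by
    intro i
    ext m
    rw [coeff_zero]
    by_contra hm
    have := E.hQ i i m (mem_support_iff.2 hm)
    omega
  have hC : E.Q i0 j0 = C c := by
    ext m
    rw [coeff_C]
    split_ifs with h0
    · rw [← h0]
    · by_contra hm
      have := E.hQ i0 j0 m (mem_support_iff.2 hm)
      rw [hw] at this
      have h3 : m.degree = 0 := by omega
      exact h0 ((Finsupp.degree_eq_zero_iff m).1 h3).symm
  have hne : i0 ≠ j0 := by
    rintro rfl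
    omega
  have hcc : (C c⁻¹ : MvPolynomial (Fin n) k) * C c = 1 := by
    rw [← C_mul, inv_mul_cancel₀ h, C_1]
  set p : E.ι → Prop := fun x => x = i0 ∨ x = j0 with hp
  set e : E.ι ≃ {x // p x} ⊕ {x // ¬ p x} := (Equiv.sumCompl p).symm with he
  obtain ⟨E', h1, h2⟩ := gauss_aux (fun x : {x // p x} => E.w x.1)
    (fun x : {x // ¬ p x} => E.w x.1) E e
    (by
      intro i
      by_cases hi : p i
      · rw [he, Equiv.sumCompl_symm_apply_of_pos hi]; rfl
      · rw [he, Equiv.sumCompl_symm_apply_of_neg hi]; rfl)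
    (Matrix.of fun x y => if x.1 = j0 ∧ y.1 = i0 then C c⁻¹ else 0)
    (by
      intro i j
      rw [Matrix.of_apply]
      split_ifs with hij
      · refine (Hg.C _).of_eq ?_
        rw [hij.1, hij.2]; omega
      · exact Hg.zero _)
    (by
      have hA : ∀ x y : {x // p x}, (E.Q.submatrix e.symm e.symm).toBlocks₁₁ x y = E.Q x.1 y.1 := by
        intro x y
        rfl
      ext1 x z
      rw [Matrix.add_apply, Matrix.mul_apply, Matrix.mul_apply]
      have s1 : ∑ y, (E.Q.submatrix e.symm e.symm).toBlocks₁₁ x y *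
          (Matrix.of fun x y : {x // p x} => if x.1 = j0 ∧ y.1 = i0 then
            (C c⁻¹ : MvPolynomial (Fin n) k) else 0) y z =
          if z.1 = i0 then E.Q x.1 j0 * C c⁻¹ else 0 := by
        rw [Finset.sum_eq_single (⟨j0, Or.inr rfl⟩ : {x // p x})]
        · rw [hA, Matrix.of_apply]
          simp
        · intro b _ hb
          rw [Matrix.of_apply, if_neg, mul_zero]
          rintro ⟨h3, _⟩
          exact hb (Subtype.ext h3)
        · intro h3
          exact absurd (Finset.mem_univ _) h3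
      have s2 : ∑ y, (Matrix.of fun x y : {x // p x} => if x.1 = j0 ∧ y.1 = i0 then
            (C c⁻¹ : MvPolynomial (Fin n) k) else 0) x y *
          (E.Q.submatrix e.symm e.symm).toBlocks₁₁ y z =
          if x.1 = j0 then C c⁻¹ * E.Q i0 z.1 else 0 := by
        rw [Finset.sum_eq_single (⟨i0, Or.inl rfl⟩ : {x // p x})]
        · rw [hA, Matrix.of_apply]
          simp
        · intro b _ hb
          rw [Matrix.of_apply, if_neg, zero_mul]
          rintro ⟨_, h3⟩
          exact hb (Subtype.ext h3)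
        · intro h3
          exact absurd (Finset.mem_univ _) h3
      rw [s1, s2]
      obtain ⟨x, hx⟩ := x
      obtain ⟨z, hz⟩ := z
      rw [Matrix.one_apply]
      simp only [Subtype.mk.injEq]
      rcases hx with rfl | rfl <;> rcases hz with rfl | rfl
      · rw [if_pos rfl, if_neg hne, if_pos rfl, hC, add_zero, mul_comm, hcc]
      · rw [if_neg (Ne.symm hne), if_neg hne, if_neg hne, add_zero]
      · rw [if_pos rfl, if_pos rfl, if_neg (Ne.symm hne), hodd, hodd, zero_mul, mul_zero, add_zero]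
      · rw [if_neg (Ne.symm hne), if_pos rfl, if_pos rfl, hC, zero_add, hcc])
    (by
      ext1 x z
      rw [Matrix.mul_apply, Matrix.zero_apply]
      refine Finset.sum_eq_zero fun y _ => ?_
      rw [Matrix.of_apply, Matrix.of_apply]
      by_cases h3 : y.1 = i0
      · rw [if_neg (fun h4 : y.1 = j0 ∧ z.1 = i0 => hne (h3.symm.trans h4.1)), mul_zero]
      · rw [if_neg (fun h4 : x.1 = j0 ∧ y.1 = i0 => h3 h4.2), zero_mul])
  refine ⟨E', ?_, h2⟩
  rw [h1]
  exact Fintype.card_subtype_lt (x := i0) (fun h3 => h3 (Or.inl rfl))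

theorem exists_reduced (E : MF f) : ∃ E' : MF f, Reduced E' ∧ HEq E E' := by
  suffices H : ∀ (N : ℕ) (E : MF f), Fintype.card E.ι ≤ N → ∃ E' : MF f, Reduced E' ∧ HEq E E' from
    H _ E le_rfl
  intro N
  induction N with
  | zero =>
    intro E hE
    refine ⟨E, ?_, HEq.refl E⟩
    intro i j
    exact absurd (Fintype.card_pos_iff.2 ⟨i⟩) (by omega)
  | succ N ih =>
    intro E hE
    by_cases hr : Reduced E
    · exact ⟨E, hr, HEq.refl E⟩
    · have h1 : ∃ i j, coeff 0 (E.Q i j) ≠ 0 := by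
        by_contra h2
        push Not at h2
        exact hr h2
      obtain ⟨i, j, hij⟩ := h1
      obtain ⟨E', h3, h4⟩ := gauss E i j hij
      obtain ⟨E'', h5, h6⟩ := ih E' (by omega)
      exact ⟨E'', h5, h4.trans h6⟩

end MF

end KuMF
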