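import Pool.Agent.H91.MF.WtTr

/-!
# Graded pieces of the cohomology

STATEMENT TO PROVE (job MF-GR). `D` of weight `3` for `wt : κ → ℤ`, `D² = 0`, `Hc (opM D)` finite
dimensional. `Hq D wt q` = weight `q` part of the cohomology. Then all `Hq` are finite dimensional,
zero outside a finite set `s`, and `tr (wtOp ζ | Hc) = ∑_{q ∈ s} ζ^q dim Hq`.

PROOF. (1) Projection `pq q : V → V`, `V = κ → S`:
`(pq q v) a = ∑_{m ∈ support (v a), 2 |m| = q - wt a} monomial m (coeff m (v a))` (linear: define it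
by a coefficient formula, for example with `Finsupp.filterLinearMap`, or as
`homogeneousComponent` when `q - wt a = 2 d`, `d : ℕ`, and `0` otherwise). `range (pq q) = grP wt q`,
`pq q v = v` on `grP wt q`, `pq r (pq q v) = 0` for `r ≠ q`, `v = ∑_{q ∈ s} pq q v` for a finite `s`
depending on `v`, and `opM D (pq q v) = pq (q + 3) (opM D v)` (because `D` maps `grP q` into
`grP (q + 3)`; decompose `v`).
(2) `pq q` maps `ker D` to `ker D` and `range D` to `range D`, so induces `P q` on `Hc (opM D)`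
(`Submodule.mapQ`); `P q P q = P q`, `P r P q = 0`, every `x : Hc` is a finite sum of `P q x`; `Hc`
finite dimensional: a finite `s` works for a basis, so `P q = 0` for `q ∉ s` and `∑_{q ∈ s} P q = 1`.
(3) `range (P q) ≃ Hq D wt q`: the map `Hq → Hc` induced by the inclusion is injective
(if `v ∈ grP q` and `v = D u` then `v = pq q v = D (pq (q-3) u)`) with range `range (P q)`.
(4) `wtOp ζ` acts on `grP q` as `ζ^q` (`aeval_scale_of_Hg`, `ζ^(wt a) ζ^(q - wt a) = ζ^q`), so the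
induced operator `T` satisfies `T ∘ P q = ζ^q • P q`, `T = ∑_{q ∈ s} ζ^q • P q`, and
`tr (P q) = finrank (range (P q))` (`LinearMap.IsProj.trace`, or `LinearMap.IsIdempotentElem.trace`).
-/

open MvPolynomial

noncomputable section

namespace KuMF

/-! ### Abstract gradings by projections -/

section Abs

variable {k : Type*} [Field k] {V : Type*} [AddCommGroup V] [Module k V]

/-- Projections `p q`, `q : ℤ`, with `D (p q) = p (q + 3) D`, and `G q` the range of `p q`. -/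
structure GrData (D : V →ₗ[k] V) (p : ℤ → V →ₗ[k] V) (G : ℤ → Submodule k V) : Prop where
  mem : ∀ q v, v ∈ G q ↔ p q v = v
  idem : ∀ q v, p q (p q v) = p q v
  orth : ∀ r q v, r ≠ q → p r (p q v) = 0
  fin : ∀ v, ∃ s : Finset ℤ, (∀ q ∉ s, p q v = 0) ∧ v = ∑ q ∈ s, p q v
  comm : ∀ q v, D (p q v) = p (q + 3) (D v)

variable {D : V →ₗ[k] V} {p : ℤ → V →ₗ[k] V} {G : ℤ → Submodule k V}

/-- The weight `q` part of the cohomology. -/
abbrev GrH (D : V →ₗ[k] V) (G : ℤ → Submodule k V) (q : ℤ) : Type _ :=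
  (G q ⊓ LinearMap.ker D : Submodule k V) ⧸
    (((G (q - 3)).map D).submoduleOf (G q ⊓ LinearMap.ker D))

lemma GrData.comm' (h : GrData D p G) (q : ℤ) (u : V) : p q (D u) = D (p (q - 3) u) := by
  rw [h.comm, sub_add_cancel]

/-- The projection on cohomology. -/
def GrData.P (h : GrData D p G) (q : ℤ) : Hc D →ₗ[k] Hc D :=
  Submodule.mapQ _ _
    ((p q).restrict (p := LinearMap.ker D) (q := LinearMap.ker D) (fun v hv => by
      rw [LinearMap.mem_ker] at hv ⊢
      rw [h.comm, hv, map_zero]))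
    (by
      rintro ⟨v, hv⟩ ⟨u, hu⟩
      rw [Submodule.mem_comap]
      change p q v ∈ LinearMap.range D
      refine ⟨p (q - 3) u, ?_⟩
      rw [← h.comm' q u]
      exact congrArg (p q) hu)

lemma GrData.ker (h : GrData D p G) (q : ℤ) {v : V} (hv : D v = 0) : D (p q v) = 0 := by
  rw [h.comm, hv, map_zero]

lemma GrData.P_mk (h : GrData D p G) (q : ℤ) (v : V) (hv : D v = 0) :
    h.P q (Hc.mk D v hv) = Hc.mk D (p q v) (h.ker q hv) := rfl

lemma Hc.mk_congr {v v' : V} {hv : D v = 0} {hv' : D v' = 0} (e : v = v') :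
    Hc.mk D v hv = Hc.mk D v' hv' := by
  subst e; rfl

lemma Hc.mk_zero' {hv : D (0 : V) = 0} : Hc.mk D 0 hv = 0 :=
  Hc.mk_eq_zero.2 ⟨0, map_zero _⟩

lemma GrData.P_idem (h : GrData D p G) (q : ℤ) (x : Hc D) : h.P q (h.P q x) = h.P q x := by
  obtain ⟨v, hv, rfl⟩ := Hc.exists_rep x
  rw [h.P_mk, h.P_mk]
  exact Hc.mk_congr (h.idem q v)

lemma Hc.mk_sum {ι : Type*} (s : Finset ι) (f : ι → V) (hf : ∀ i, D (f i) = 0)
    (hs : D (∑ i ∈ s, f i) = 0) :
    Hc.mk D (∑ i ∈ s, f i) hs = ∑ i ∈ s, Hc.mk D (f i) (hf i) := by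
  classical
  induction s using Finset.induction_on with
  | empty =>
    rw [Finset.sum_empty (f := fun i => Hc.mk D (f i) (hf i))]
    exact (Hc.mk_congr Finset.sum_empty).trans (Hc.mk_zero' (hv := map_zero _))
  | insert a s ha ih =>
    have h1 : D (∑ i ∈ s, f i) = 0 := by
      rw [map_sum]
      exact Finset.sum_eq_zero fun i _ => hf i
    rw [Finset.sum_insert (f := fun i => Hc.mk D (f i) (hf i)) ha, ← ih h1, Hc.mk_add]
    exact Hc.mk_congr (Finset.sum_insert ha)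

lemma GrData.P_fin (h : GrData D p G) (x : Hc D) :
    ∃ s : Finset ℤ, (∀ q ∉ s, h.P q x = 0) ∧ x = ∑ q ∈ s, h.P q x := by
  obtain ⟨v, hv, rfl⟩ := Hc.exists_rep x
  obtain ⟨s, hs1, hs2⟩ := h.fin v
  refine ⟨s, fun q hq => ?_, ?_⟩
  · rw [h.P_mk]
    exact (Hc.mk_congr (hs1 q hq)).trans (Hc.mk_zero' (hv := map_zero _))
  · have h1 : ∑ q ∈ s, h.P q (Hc.mk D v hv) = ∑ q ∈ s, Hc.mk D (p q v) (h.ker q hv) := rfl
    rw [h1, ← Hc.mk_sum s (fun q => p q v) (fun q => h.ker q hv) (by rw [← hs2]; exact hv)]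
    exact Hc.mk_congr hs2

lemma GrData.P_fin_all (h : GrData D p G) [Module.Finite k (Hc D)] :
    ∃ s : Finset ℤ, (∀ q ∉ s, h.P q = 0) ∧ ∀ x, x = ∑ q ∈ s, h.P q x := by
  classical
  obtain ⟨S, hS⟩ := (Module.Finite.fg_top : (⊤ : Submodule k (Hc D)).FG)
  choose t ht1 ht2 using h.P_fin
  have h0 : ∀ q ∉ S.biUnion t, h.P q = 0 := by
    intro q hq
    refine LinearMap.ext_on hS fun x hx => ?_
    rw [LinearMap.zero_apply]
    refine ht1 x q fun hqx => hq ?_
    exact Finset.mem_biUnion.2 ⟨x, hx, hqx⟩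
  refine ⟨S.biUnion t, h0, fun x => ?_⟩
  have h1 : ∑ q ∈ t x, h.P q x = ∑ q ∈ t x ∪ S.biUnion t, h.P q x :=
    Finset.sum_subset Finset.subset_union_left fun q _ hq => ht1 x q hq
  have h2 : ∑ q ∈ S.biUnion t, h.P q x = ∑ q ∈ t x ∪ S.biUnion t, h.P q x :=
    Finset.sum_subset Finset.subset_union_right fun q _ hq => by rw [h0 q hq, LinearMap.zero_apply]
  rw [h2, ← h1]
  exact ht2 x

/-- The map from the weight `q` part to the cohomology. -/
def GrData.inc (_ : GrData D p G) (q : ℤ) : GrH D G q →ₗ[k] Hc D :=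
  Submodule.mapQ _ _ (Submodule.inclusion inf_le_right) (by
    rintro ⟨v, hv⟩ ⟨u, _, hu⟩
    exact ⟨u, hu⟩)

lemma GrData.inc_injective (h : GrData D p G) (q : ℤ) : Function.Injective (h.inc q) := by
  rw [← LinearMap.ker_eq_bot, LinearMap.ker_eq_bot']
  intro x hx
  obtain ⟨⟨v, hv⟩, rfl⟩ := Submodule.Quotient.mk_surjective _ x
  have h1 : Hc.mk D v (LinearMap.mem_ker.1 hv.2) = 0 := hx
  obtain ⟨u, hu⟩ := Hc.mk_eq_zero.1 h1
  rw [Submodule.Quotient.mk_eq_zero, Submodule.submoduleOf, Submodule.mem_comap]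
  refine ⟨p (q - 3) u, (h.mem _ _).2 (h.idem _ _), ?_⟩
  rw [← h.comm' q u, hu]
  exact (h.mem q v).1 hv.1

lemma GrData.range_inc (h : GrData D p G) (q : ℤ) :
    LinearMap.range (h.inc q) = LinearMap.range (h.P q) := by
  apply le_antisymm
  · rintro _ ⟨x, rfl⟩
    obtain ⟨⟨v, hv⟩, rfl⟩ := Submodule.Quotient.mk_surjective _ x
    refine ⟨Hc.mk D v (LinearMap.mem_ker.1 hv.2), ?_⟩
    rw [h.P_mk]
    exact Hc.mk_congr ((h.mem q v).1 hv.1)
  · rintro _ ⟨x, rfl⟩
    obtain ⟨v, hv, rfl⟩ := Hc.exists_rep x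
    refine ⟨Submodule.Quotient.mk ⟨p q v, (h.mem _ _).2 (h.idem _ _), h.ker q hv⟩, ?_⟩
    rfl

theorem GrData.finite (h : GrData D p G) [Module.Finite k (Hc D)] (q : ℤ) :
    Module.Finite k (GrH D G q) :=
  Module.Finite.of_injective (h.inc q) (h.inc_injective q)

theorem GrData.finrank (h : GrData D p G) (q : ℤ) :
    Module.finrank k (GrH D G q) = Module.finrank k (LinearMap.range (h.P q)) := by
  rw [← h.range_inc q]
  exact (LinearEquiv.ofInjective (h.inc q) (h.inc_injective q)).finrank_eq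

theorem GrData.trace_P (h : GrData D p G) [Module.Finite k (Hc D)] (q : ℤ) :
    LinearMap.trace k (Hc D) (h.P q) = (Module.finrank k (GrH D G q) : k) := by
  rw [h.finrank q]
  have hp : LinearMap.IsProj (LinearMap.range (h.P q)) (h.P q) := by
    refine ⟨fun x => ⟨x, rfl⟩, ?_⟩
    rintro _ ⟨x, rfl⟩
    exact h.P_idem q x
  exact hp.trace

theorem GrData.main (h : GrData D p G) [Module.Finite k (Hc D)] :
    ∃ s : Finset ℤ, (∀ q, q ∉ s → Subsingleton (GrH D G q)) ∧
      ∀ (z : ℤ → k) (T : Hc D →ₗ[k] Hc D), (∀ q x, T (h.P q x) = z q • h.P q x) →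
        LinearMap.trace k (Hc D) T = ∑ q ∈ s, z q * (Module.finrank k (GrH D G q) : k) := by
  obtain ⟨s, hs1, hs2⟩ := h.P_fin_all
  refine ⟨s, fun q hq => ?_, fun z T hT => ?_⟩
  · have hz : ∀ x : GrH D G q, x = 0 := by
      intro x
      apply h.inc_injective q
      rw [map_zero]
      have h1 : h.inc q x ∈ LinearMap.range (h.P q) := by
        rw [← h.range_inc q]; exact ⟨x, rfl⟩
      obtain ⟨y, hy⟩ := h1
      rw [← hy, hs1 q hq, LinearMap.zero_apply]
    exact ⟨fun a b => by rw [hz a, hz b]⟩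
  · have hTs : T = ∑ q ∈ s, z q • h.P q := by
      refine LinearMap.ext fun x => ?_
      rw [LinearMap.sum_apply]
      conv_lhs => rw [hs2 x, map_sum]
      exact Finset.sum_congr rfl fun q _ => hT q x
    rw [hTs, map_sum]
    refine Finset.sum_congr rfl fun q _ => ?_
    rw [map_smul, h.trace_P q, smul_eq_mul]

end Abs

/-! ### The projections for vectors of polynomials -/

variable {k : Type} [Field k] {n : ℕ} {κ : Type} [Fintype κ] [DecidableEq κ]

/-- The part of weight `e` of a polynomial. -/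
def wc (k : Type) [Field k] (n : ℕ) (e : ℤ) : MvPolynomial (Fin n) k →ₗ[k] MvPolynomial (Fin n) k :=
  if 2 * ((e / 2).toNat : ℤ) = e then homogeneousComponent (e / 2).toNat else 0

lemma coeff_wc (e : ℤ) (m : Fin n →₀ ℕ) (f : MvPolynomial (Fin n) k) :
    coeff m (wc k n e f) = if 2 * (m.degree : ℤ) = e then coeff m f else 0 := by
  unfold wc
  by_cases h : 2 * ((e / 2).toNat : ℤ) = e
  · rw [if_pos h, coeff_homogeneousComponent]
    by_cases h1 : 2 * (m.degree : ℤ) = e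
    · rw [if_pos h1, if_pos (by omega)]
    · rw [if_neg h1, if_neg (by omega)]
  · rw [if_neg h, LinearMap.zero_apply, coeff_zero]
    by_cases h1 : 2 * (m.degree : ℤ) = e
    · exact absurd (by omega) h
    · rw [if_neg h1]

/-- The projection to the vectors of weight `q`. -/
def pq (k : Type) [Field k] (n : ℕ) (wt : κ → ℤ) (q : ℤ) :
    (κ → MvPolynomial (Fin n) k) →ₗ[k] (κ → MvPolynomial (Fin n) k) :=
  LinearMap.pi fun a => (wc k n (q - wt a)).comp (LinearMap.proj a)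

omit [Fintype κ] [DecidableEq κ] in
lemma coeff_pq (wt : κ → ℤ) (q : ℤ) (v : κ → MvPolynomial (Fin n) k) (a : κ) (m : Fin n →₀ ℕ) :
    coeff m (pq k n wt q v a) = if 2 * (m.degree : ℤ) = q - wt a then coeff m (v a) else 0 :=
  coeff_wc _ _ _

/-- The vectors of weight `q`. -/
def grP (k : Type) [Field k] (n : ℕ) (wt : κ → ℤ) (q : ℤ) :
    Submodule k (κ → MvPolynomial (Fin n) k) where
  carrier := {v | ∀ a, Hg (v a) (q - wt a)}
  zero_mem' := fun _ => Hg.zero _
  add_mem' := fun hv hw a => (hv a).add (hw a)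
  smul_mem' := fun c _ hv a => (hv a).smul c

/-- The weight `q` part of the cohomology of `D`. -/
abbrev Hq (D : Matrix κ κ (MvPolynomial (Fin n) k)) (wt : κ → ℤ) (q : ℤ) : Type :=
  (grP k n wt q ⊓ LinearMap.ker (opM D) : Submodule k (κ → MvPolynomial (Fin n) k)) ⧸
    (((grP k n wt (q - 3)).map (opM D)).submoduleOf
      (grP k n wt q ⊓ LinearMap.ker (opM D)))

omit [Fintype κ] [DecidableEq κ] in
lemma mem_grP_iff (wt : κ → ℤ) (q : ℤ) (v : κ → MvPolynomial (Fin n) k) :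
    v ∈ grP k n wt q ↔ pq k n wt q v = v := by
  constructor
  · intro hv
    funext a
    ext m
    rw [coeff_pq]
    split_ifs with h
    · rfl
    · by_contra hne
      exact h (hv a m (mem_support_iff.2 (Ne.symm hne)))
  · intro hv a m hm
    have h1 := coeff_pq wt q v a m
    rw [hv] at h1
    by_contra hne
    rw [if_neg hne] at h1
    exact mem_support_iff.1 hm h1

omit [Fintype κ] [DecidableEq κ] in
lemma pq_idem (wt : κ → ℤ) (q : ℤ) (v : κ → MvPolynomial (Fin n) k) :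
    pq k n wt q (pq k n wt q v) = pq k n wt q v := by
  funext a
  ext m
  rw [coeff_pq, coeff_pq]
  split_ifs <;> rfl

omit [Fintype κ] [DecidableEq κ] in
lemma pq_orth (wt : κ → ℤ) (r q : ℤ) (v : κ → MvPolynomial (Fin n) k) (h : r ≠ q) :
    pq k n wt r (pq k n wt q v) = 0 := by
  funext a
  ext m
  rw [coeff_pq, coeff_pq, Pi.zero_apply, coeff_zero]
  split_ifs with h1 h2
  · exact absurd (by omega) h
  · rfl
  · rfl

omit [DecidableEq κ] in
lemma pq_fin (wt : κ → ℤ) (v : κ → MvPolynomial (Fin n) k) :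
    ∃ s : Finset ℤ, (∀ q ∉ s, pq k n wt q v = 0) ∧ v = ∑ q ∈ s, pq k n wt q v := by
  classical
  set s : Finset ℤ := Finset.univ.biUnion fun a =>
    (v a).support.image fun m => 2 * (m.degree : ℤ) + wt a with hs
  have hmem : ∀ a m, coeff m (v a) ≠ 0 → 2 * (m.degree : ℤ) + wt a ∈ s := by
    intro a m hm
    exact Finset.mem_biUnion.2 ⟨a, Finset.mem_univ a,
      Finset.mem_image.2 ⟨m, mem_support_iff.2 hm, rfl⟩⟩
  refine ⟨s, fun q hq => ?_, ?_⟩
  · funext a
    ext m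
    rw [coeff_pq, Pi.zero_apply, coeff_zero]
    split_ifs with h1
    · by_contra hne
      apply hq
      have := hmem a m hne
      rwa [show 2 * (m.degree : ℤ) + wt a = q by omega] at this
    · rfl
  · funext a
    ext m
    rw [Finset.sum_apply, coeff_sum]
    simp only [coeff_pq]
    by_cases h0 : coeff m (v a) = 0
    · rw [h0]
      simp
    · rw [Finset.sum_eq_single_of_mem _ (hmem a m h0)]
      · rw [if_pos (by ring)]
      · intro q _ hq
        rw [if_neg (by omega)]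

lemma opM_grP {D : Matrix κ κ (MvPolynomial (Fin n) k)} {wt : κ → ℤ}
    (hw : ∀ a b, Hg (D a b) (wt b - wt a + 3)) {q : ℤ} {v : κ → MvPolynomial (Fin n) k}
    (hv : v ∈ grP k n wt q) : opM D v ∈ grP k n wt (q + 3) := by
  intro a
  rw [opM_apply, Matrix.mulVec, dotProduct]
  refine Hg.sum _ fun b _ => ((hw a b).mul (hv b)).of_eq ?_
  ring

lemma pq_comm {D : Matrix κ κ (MvPolynomial (Fin n) k)} {wt : κ → ℤ}
    (hw : ∀ a b, Hg (D a b) (wt b - wt a + 3)) (q : ℤ) (v : κ → MvPolynomial (Fin n) k) :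
    opM D (pq k n wt q v) = pq k n wt (q + 3) (opM D v) := by
  obtain ⟨s, hs1, hs2⟩ := pq_fin wt v
  have h1 : ∀ r, opM D (pq k n wt r v) ∈ grP k n wt (r + 3) := fun r =>
    opM_grP hw ((mem_grP_iff wt r _).2 (pq_idem wt r v))
  have h2 : ∀ r, r ≠ q → pq k n wt (q + 3) (opM D (pq k n wt r v)) = 0 := by
    intro r hr
    rw [← (mem_grP_iff wt _ _).1 (h1 r)]
    exact pq_orth wt _ _ _ (by omega)
  conv_rhs => rw [hs2, map_sum, map_sum]
  by_cases hq : q ∈ s
  · rw [Finset.sum_eq_single_of_mem q hq fun r _ hr => h2 r hr]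
    exact ((mem_grP_iff wt _ _).1 (h1 q)).symm
  · rw [hs1 q hq, map_zero, Finset.sum_eq_zero]
    intro r hr
    exact h2 r fun e => hq (e ▸ hr)

lemma grData {D : Matrix κ κ (MvPolynomial (Fin n) k)} {wt : κ → ℤ}
    (hw : ∀ a b, Hg (D a b) (wt b - wt a + 3)) :
    GrData (opM D) (pq k n wt) (grP k n wt) :=
  ⟨mem_grP_iff wt, pq_idem wt, fun r q v h => pq_orth wt r q v h, pq_fin wt, pq_comm hw⟩

lemma wtOp_pq {ζ : k} (hζ : ζ ≠ 0) (wt : κ → ℤ) (q : ℤ) (v : κ → MvPolynomial (Fin n) k) :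
    wtOp n ζ wt (pq k n wt q v) = ζ ^ q • pq k n wt q v := by
  funext a
  have h1 : Hg (pq k n wt q v a) (q - wt a) := ((mem_grP_iff wt q _).2 (pq_idem wt q v)) a
  rw [wtOp_apply, aeval_scale_of_Hg hζ h1, Pi.smul_apply, C_mul', smul_smul, ← zpow_add₀ hζ]
  congr 2
  ring

theorem gr_trace (D : Matrix κ κ (MvPolynomial (Fin n) k)) (wt : κ → ℤ)
    (hD : D * D = 0) (hw : ∀ a b, Hg (D a b) (wt b - wt a + 3))
    [Module.Finite k (Hc (opM D))] :
    (∀ q, Module.Finite k (Hq D wt q)) ∧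
    ∃ s : Finset ℤ, (∀ q, q ∉ s → Subsingleton (Hq D wt q)) ∧
      ∀ (ζ : k) (hζ : ζ ^ 3 = -1),
        LinearMap.trace k (Hc (opM D))
          (Hc.map (wtOp n ζ wt) (-1) neg_one_ne (wtOp_anti hw hζ)) =
        ∑ q ∈ s, ζ ^ q * (Module.finrank k (Hq D wt q) : k) := by
  have h := grData hw
  refine ⟨fun q => h.finite q, ?_⟩
  obtain ⟨s, hs1, hs2⟩ := h.main
  refine ⟨s, hs1, fun ζ hζ => hs2 (fun q => ζ ^ q) _ ?_⟩
  have hζ0 : ζ ≠ 0 := by
    rintro rfl
    rw [zero_pow (by norm_num)] at hζ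
    exact neg_one_ne hζ.symm
  intro q x
  obtain ⟨v, hv, rfl⟩ := Hc.exists_rep x
  rw [h.P_mk, Hc.map_mk, Hc.mk_smul]
  exact Hc.mk_congr (wtOp_pq hζ0 wt q v)

end KuMF
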