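import Pool.Agent.H91.MF.KBase

/-!
# Lemmas on homotopy equivalences of matrix factorizations

STATEMENTS TO PROVE (job MF-HEQ). `trans`: `mul_mem_Z`, `mul_mem_B_left`, `mul_mem_B_right`:
`(U' V') (V U) - 1 = U' (V' V - 1) U + (U' U - 1)`.
`of_equiv`: the permutation matrix `U = (1 : Matrix).submatrix ..`, `U a i = if a = e i then 1 else 0`
and its transpose; `U' U = 1`, `U U' = 1`, `E'.Q U = U E.Q` entrywise.
`of_matrix`: a strict isomorphism.
`star`: for `U ∈ Z E E' 0` take `fromBlocks U 0 0 U` (closed of weight `0` because `a`, `b` are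
scalars), for a homotopy `h ∈ Hom E E (-3)`, `U' U - 1 = Q h + h Q`, take `fromBlocks h 0 0 (-h)`:
`Q⋆ (h ⊕ -h) + (h ⊕ -h) Q⋆ = (Q h + h Q) ⊕ (Q h + h Q)`.
`cone_iso`: `Q = Q_0 + x_i Δ`, `Q_0 = Q.map (zr i)`, `Δ = Q.map (dq i)` (`zr_add_dq`), `Δ` of weight
`1`. `U = fromBlocks 1 0 Δ 1` satisfies `U Q' = Q'' U` for
`Q' = fromBlocks Q x 0 (-Q)`, `Q'' = fromBlocks Q_0 x g (-Q_0)`, `g = dq i f`, because
`x_i g = f - zr i f = Q Q - Q_0 Q_0 = x_i (Δ Q + Q_0 Δ)`, so `Δ Q + Q_0 Δ = g` (cancel `x_i`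
entrywise); inverse `fromBlocks 1 0 (-Δ) 1`.
`retract_cone`: `E` is a strict retract of `E.cone (X i ^ 3)` if `Q Λ + Λ Q = X_i^3`:
`i = (1, 0)ᵗ`, `p = (1, Λ)`.
-/

open MvPolynomial

noncomputable section

namespace KuMF

namespace MF

variable {k : Type} [Field k] {n : ℕ} {f : MvPolynomial (Fin n) k}

/-- Apply a weight preserving algebra endomorphism to all entries. -/
def mapHom (φ : MvPolynomial (Fin n) k →ₐ[k] MvPolynomial (Fin n) k)
    (hφ : ∀ (p : MvPolynomial (Fin n) k) (e : ℤ), Hg p e → Hg (φ p) e) (E : MF f) : MF (φ f) where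
  ι := E.ι
  w := E.w
  Q := E.Q.map φ
  hQ i j := hφ _ _ (E.hQ i j)
  sq := by
    have h := congrArg (fun M => M.map φ) E.sq
    rw [Matrix.map_mul] at h
    rw [h]
    ext1 i j
    simp only [Matrix.map_apply, Matrix.smul_apply, smul_eq_mul, map_mul]
    rcases eq_or_ne i j with rfl | hij
    · simp
    · simp [Matrix.one_apply_ne hij]

theorem HEq.refl (E : MF f) : HEq E E := by
  refine ⟨1, one_mem_Z E, 1, one_mem_Z E, ?_, ?_⟩ <;>
  · rw [Matrix.one_mul, sub_self]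
    exact Submodule.zero_mem _

theorem HEq.symm {E E' : MF f} (h : HEq E E') : HEq E' E := by
  obtain ⟨U, hU, U', hU', h1, h2⟩ := h
  exact ⟨U', hU', U, hU, h2, h1⟩

theorem comp_sub_one_mem_B {E E' E'' : MF f} {U : Matrix E'.ι E.ι (MvPolynomial (Fin n) k)}
    {U' : Matrix E.ι E'.ι (MvPolynomial (Fin n) k)}
    {V : Matrix E''.ι E'.ι (MvPolynomial (Fin n) k)}
    {V' : Matrix E'.ι E''.ι (MvPolynomial (Fin n) k)} (hU : U ∈ Z E E' 0) (hU' : U' ∈ Z E' E 0)
    (h1 : U' * U - 1 ∈ B E E 0) (h2 : V' * V - 1 ∈ B E' E' 0) :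
    (U' * V') * (V * U) - 1 ∈ B E E 0 := by
  have h3 : U' * (V' * V - 1) * U ∈ B E E 0 := by
    have a := mul_mem_B_right (mul_mem_B_left hU' h2) hU
    simpa using a
  have h4 : (U' * V') * (V * U) - 1 = U' * (V' * V - 1) * U + (U' * U - 1) := by
    rw [Matrix.mul_sub, Matrix.sub_mul, Matrix.mul_one]
    simp only [Matrix.mul_assoc]
    abel
  rw [h4]
  exact Submodule.add_mem _ h3 h1

theorem HEq.trans {E E' E'' : MF f} (h : HEq E E') (h' : HEq E' E'') : HEq E E'' := by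
  obtain ⟨U, hU, U', hU', h1, h2⟩ := h
  obtain ⟨V, hV, V', hV', h3, h4⟩ := h'
  refine ⟨V * U, by simpa using mul_mem_Z hV hU, U' * V', by simpa using mul_mem_Z hU' hV',
    comp_sub_one_mem_B hU hU' h1 h3, comp_sub_one_mem_B hV' hV h4 h2⟩

theorem mem_Z_zero {E E' : MF f} {U : Matrix E'.ι E.ι (MvPolynomial (Fin n) k)} :
    U ∈ Z E E' 0 ↔ U ∈ Hom E E' 0 ∧ U * E.Q = E'.Q * U := by
  have h0 : dm E E' 0 U = E'.Q * U - U * E.Q := by
    rw [dm_apply]
    simp
  constructor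
  · rintro ⟨h1, h2⟩
    refine ⟨h1, ?_⟩
    have h3 : dm E E' 0 U = 0 := LinearMap.mem_ker.1 h2
    rw [h0] at h3
    exact (sub_eq_zero.1 h3).symm
  · rintro ⟨h1, h2⟩
    refine ⟨h1, ?_⟩
    change dm E E' 0 U = 0
    rw [h0, h2, sub_self]

theorem mem_B_zero {E E' : MF f} {M : Matrix E'.ι E.ι (MvPolynomial (Fin n) k)} :
    M ∈ B E E' 0 ↔ ∃ h ∈ Hom E E' (0 - 3), E'.Q * h + h * E.Q = M := by
  have h0 : ∀ h : Matrix E'.ι E.ι (MvPolynomial (Fin n) k),
      dm E E' (0 - 3) h = E'.Q * h + h * E.Q := by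
    intro h
    rw [dm_apply]
    have : (((0 - 3 : ℤ)).negOnePow : ℤ) = -1 := by
      have := negOnePow_add_three (0 - 3)
      rw [show (0 - 3 + 3 : ℤ) = 0 by norm_num] at this
      simp only [Int.negOnePow_zero, Units.val_one] at this
      linarith
    rw [this, neg_smul, one_smul, sub_neg_eq_add]
  constructor
  · rintro ⟨h, hh, rfl⟩
    exact ⟨h, hh, (h0 h).symm⟩
  · rintro ⟨h, hh, rfl⟩
    exact ⟨h, hh, h0 h⟩

theorem HEq.of_matrix {E E' : MF f} (U : Matrix E'.ι E.ι (MvPolynomial (Fin n) k))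
    (U' : Matrix E.ι E'.ι (MvPolynomial (Fin n) k)) (hU : U ∈ Hom E E' 0)
    (hU' : U' ∈ Hom E' E 0) (h : U * E.Q = E'.Q * U) (h1 : U' * U = 1) (h2 : U * U' = 1) :
    HEq E E' := by
  have h3 : U' * E'.Q = E.Q * U' := by
    calc U' * E'.Q = U' * (E'.Q * (U * U')) := by rw [h2, Matrix.mul_one]
      _ = U' * (E'.Q * U) * U' := by simp only [Matrix.mul_assoc]
      _ = U' * (U * E.Q) * U' := by rw [h]
      _ = (U' * U) * E.Q * U' := by simp only [Matrix.mul_assoc]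
      _ = E.Q * U' := by rw [h1, Matrix.one_mul]
  refine ⟨U, mem_Z_zero.2 ⟨hU, h⟩, U', mem_Z_zero.2 ⟨hU', h3⟩, ?_, ?_⟩
  · rw [h1, sub_self]; exact Submodule.zero_mem _
  · rw [h2, sub_self]; exact Submodule.zero_mem _

theorem HEq.of_equiv {E E' : MF f} (e : E.ι ≃ E'.ι) (hw : ∀ i, E'.w (e i) = E.w i)
    (hQ : ∀ i j, E'.Q (e i) (e j) = E.Q i j) : HEq E E' := by
  refine HEq.of_matrix (Matrix.of fun a i => if a = e i then 1 else 0)
    (Matrix.of fun i a => if a = e i then 1 else 0) ?_ ?_ ?_ ?_ ?_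
  · intro a i
    rw [Matrix.of_apply]
    split_ifs with h
    · exact Hg.one.of_eq (by rw [h, hw]; ring)
    · exact Hg.zero _
  · intro i a
    rw [Matrix.of_apply]
    split_ifs with h
    · exact Hg.one.of_eq (by rw [h, hw]; ring)
    · exact Hg.zero _
  · ext1 a j
    obtain ⟨i, rfl⟩ := e.surjective a
    rw [Matrix.mul_apply, Matrix.mul_apply]
    simp only [Matrix.of_apply, e.injective.eq_iff, ite_mul, one_mul, zero_mul, mul_ite, mul_one,
      mul_zero, Finset.sum_ite_eq, Finset.sum_ite_eq', Finset.mem_univ, if_true]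
    exact (hQ i j).symm
  · ext1 i j
    rw [Matrix.mul_apply]
    simp only [Matrix.of_apply, ite_mul, one_mul, zero_mul,
      Finset.sum_ite_eq', Finset.mem_univ, if_true, e.injective.eq_iff]
    rw [Matrix.one_apply]
  · ext1 a b
    obtain ⟨i, rfl⟩ := e.surjective a
    obtain ⟨j, rfl⟩ := e.surjective b
    rw [Matrix.mul_apply]
    simp only [Matrix.of_apply, ite_mul, one_mul, zero_mul, e.injective.eq_iff,
      Finset.sum_ite_eq, Finset.mem_univ, if_true]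
    rw [Matrix.one_apply]
    simp only [e.injective.eq_iff, eq_comm]

theorem dbl_mem_Z {E E' : MF f} {U : Matrix E'.ι E.ι (MvPolynomial (Fin n) k)}
    (hU : U ∈ Z E E' 0) (a b : MvPolynomial (Fin n) k) (e : ℤ)
    (ha : Hg a (e + 3)) (hb : Hg b (3 - e)) :
    Matrix.fromBlocks U 0 0 U ∈ Z (E.star a b e ha hb) (E'.star a b e ha hb) 0 := by
  obtain ⟨h1, h2⟩ := mem_Z_zero.1 hU
  refine mem_Z_zero.2 ⟨?_, ?_⟩
  · rintro (i | i) (j | j)
    · exact h1 i j
    · exact Hg.zero _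
    · exact Hg.zero _
    · exact (h1 i j).of_eq (by simp only [MF.star, Sum.elim_inr]; ring)
  · have key : Matrix.fromBlocks U 0 0 U * Matrix.fromBlocks E.Q (a • 1) (b • 1) (-E.Q) =
      Matrix.fromBlocks E'.Q (a • 1) (b • 1) (-E'.Q) * Matrix.fromBlocks U 0 0 U := by
      rw [Matrix.fromBlocks_multiply, Matrix.fromBlocks_multiply]
      simp only [Matrix.zero_mul, Matrix.mul_zero, add_zero, zero_add, Matrix.mul_neg,
        Matrix.neg_mul, Matrix.smul_mul, Matrix.mul_smul, Matrix.one_mul, Matrix.mul_one, h2,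
        smul_zero, neg_zero]
    exact key

theorem dbl_mem_B {E : MF f} {M : Matrix E.ι E.ι (MvPolynomial (Fin n) k)}
    (hM : M ∈ B E E 0) (a b : MvPolynomial (Fin n) k) (e : ℤ)
    (ha : Hg a (e + 3)) (hb : Hg b (3 - e)) :
    Matrix.fromBlocks M 0 0 M ∈ B (E.star a b e ha hb) (E.star a b e ha hb) 0 := by
  obtain ⟨h, hh, rfl⟩ := mem_B_zero.1 hM
  refine mem_B_zero.2 ⟨Matrix.fromBlocks h 0 0 (-h), ?_, ?_⟩
  · rintro (i | i) (j | j)
    · exact hh i j
    · exact Hg.zero _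
    · exact Hg.zero _
    · exact (hh i j).neg.of_eq (by simp only [MF.star, Sum.elim_inr]; ring)
  · have key : Matrix.fromBlocks E.Q (a • 1) (b • 1) (-E.Q) * Matrix.fromBlocks h 0 0 (-h) +
      Matrix.fromBlocks h 0 0 (-h) * Matrix.fromBlocks E.Q (a • 1) (b • 1) (-E.Q) =
      Matrix.fromBlocks (E.Q * h + h * E.Q) 0 0 (E.Q * h + h * E.Q) := by
      rw [Matrix.fromBlocks_multiply, Matrix.fromBlocks_multiply, Matrix.fromBlocks_add]
      simp only [Matrix.zero_mul, Matrix.mul_zero, add_zero, zero_add, Matrix.mul_neg,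
        Matrix.neg_mul, Matrix.smul_mul, Matrix.mul_smul, Matrix.one_mul, Matrix.mul_one, neg_neg,
        smul_zero, neg_zero, smul_neg, neg_add_cancel, add_neg_cancel]
    exact key

theorem dbl_sub_one {E : MF f} (M N : Matrix E.ι E.ι (MvPolynomial (Fin n) k)) (h : M - 1 = N) :
    Matrix.fromBlocks M 0 0 M - 1 = Matrix.fromBlocks N 0 0 N := by
  subst h
  rw [← Matrix.fromBlocks_one, sub_eq_add_neg, Matrix.fromBlocks_neg, Matrix.fromBlocks_add]
  simp [sub_eq_add_neg]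

theorem HEq.star {E E' : MF f} (h : HEq E E') (a b : MvPolynomial (Fin n) k) (e : ℤ)
    (ha : Hg a (e + 3)) (hb : Hg b (3 - e)) : HEq (E.star a b e ha hb) (E'.star a b e ha hb) := by
  obtain ⟨U, hU, U', hU', h1, h2⟩ := h
  refine ⟨Matrix.fromBlocks U 0 0 U, dbl_mem_Z hU a b e ha hb, Matrix.fromBlocks U' 0 0 U',
    dbl_mem_Z hU' a b e ha hb, ?_, ?_⟩
  · have e1 : Matrix.fromBlocks U' 0 0 U' * Matrix.fromBlocks U 0 0 U - 1 =
        Matrix.fromBlocks (U' * U - 1) 0 0 (U' * U - 1) := by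
      rw [← dbl_sub_one (E := E) (U' * U) _ rfl, Matrix.fromBlocks_multiply]
      simp
    have e3 := dbl_mem_B h1 a b e ha hb
    rw [← e1] at e3
    exact e3
  · have e1 : Matrix.fromBlocks U 0 0 U * Matrix.fromBlocks U' 0 0 U' - 1 =
        Matrix.fromBlocks (U * U' - 1) 0 0 (U * U' - 1) := by
      rw [← dbl_sub_one (E := E') (U * U') _ rfl, Matrix.fromBlocks_multiply]
      simp
    have e3 := dbl_mem_B h2 a b e ha hb
    rw [← e1] at e3
    exact e3

theorem HEq.congr {f' : MvPolynomial (Fin n) k} {E E' : MF f} (h : HEq E E') (hf : f = f') :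
    HEq (E.congr hf) (E'.congr hf) := by
  subst hf
  exact h

theorem HEq.cone {E E' : MF f} (h : HEq E E') (a : MvPolynomial (Fin n) k) (e : ℤ)
    (ha : Hg a (e + 3)) : HEq (E.cone a e ha) (E'.cone a e ha) := by
  exact (h.star a 0 e ha (Hg.zero _)).congr _

theorem HEq.sh {E E' : MF f} (h : HEq E E') (c : ℤ) : HEq (E.sh c) (E'.sh c) := by
  have key : ∀ (F F' : MF f) (q : ℤ) (M : Matrix F'.ι F.ι (MvPolynomial (Fin n) k)),
      M ∈ Hom F F' q → M ∈ Hom (F.sh c) (F'.sh c) q := by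
    intro F F' q M hM i j
    exact (hM i j).of_eq (by simp only [MF.sh]; ring)
  obtain ⟨U, hU, U', hU', h1, h2⟩ := h
  refine ⟨U, mem_Z_zero.2 ⟨key _ _ _ _ (mem_Z_zero.1 hU).1, (mem_Z_zero.1 hU).2⟩,
    U', mem_Z_zero.2 ⟨key _ _ _ _ (mem_Z_zero.1 hU').1, (mem_Z_zero.1 hU').2⟩, ?_, ?_⟩
  · obtain ⟨g, hg, he⟩ := mem_B_zero.1 h1
    exact mem_B_zero.2 ⟨g, key _ _ _ _ hg, he⟩
  · obtain ⟨g, hg, he⟩ := mem_B_zero.1 h2
    exact mem_B_zero.2 ⟨g, key _ _ _ _ hg, he⟩

theorem unip_key {ι R : Type} [Fintype ι] [DecidableEq ι] [CommRing R] (A B : Matrix ι ι R)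
    (h : A + B = 0) :
    Matrix.fromBlocks (1 : Matrix ι ι R) (0 : Matrix ι ι R) A (1 : Matrix ι ι R) *
      Matrix.fromBlocks (1 : Matrix ι ι R) (0 : Matrix ι ι R) B (1 : Matrix ι ι R) = 1 := by
  rw [Matrix.fromBlocks_multiply]
  simp [h]

/-- Killing the variable `x_i`. -/
theorem cone_iso (E : MF f) (i : Fin n) (hx : Hg (X i : MvPolynomial (Fin n) k) (-1 + 3))
    (hg : Hg (dq i f) (3 - -1)) :
    HEq (E.cone (X i) (-1) hx)
      (((E.mapHom (zr i) (fun _ _ h => Hg_zr i h)).star (X i) (dq i f) (-1) hx hg).congr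
        (zr_add_dq i f)) := by
  set Δ : Matrix E.ι E.ι (MvPolynomial (Fin n) k) := E.Q.map (dq i) with hΔ
  set Q0 : Matrix E.ι E.ι (MvPolynomial (Fin n) k) := E.Q.map (zr i) with hQ0
  have hQ : Q0 + (X i : MvPolynomial (Fin n) k) • Δ = E.Q := by
    ext1 a b
    exact zr_add_dq i (E.Q a b)
  have hQ00 : Q0 * Q0 = (zr i f) • (1 : Matrix E.ι E.ι (MvPolynomial (Fin n) k)) :=
    (E.mapHom (zr i) (fun _ _ h => Hg_zr i h)).sq
  have hcomm : Δ * E.Q + Q0 * Δ = dq i f • (1 : Matrix E.ι E.ι (MvPolynomial (Fin n) k)) := by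
    have h1 : (X i : MvPolynomial (Fin n) k) • (Δ * E.Q + Q0 * Δ) =
        (X i : MvPolynomial (Fin n) k) • (dq i f • (1 : Matrix E.ι E.ι (MvPolynomial (Fin n) k))) := by
      have h2 : (X i : MvPolynomial (Fin n) k) • Δ = E.Q - Q0 := by rw [← hQ]; abel
      rw [smul_add, ← Matrix.smul_mul, ← Matrix.mul_smul, h2, Matrix.sub_mul, Matrix.mul_sub,
        E.sq, hQ00, smul_smul]
      have h3 : (X i : MvPolynomial (Fin n) k) * dq i f = f - zr i f := by
        have := zr_add_dq i f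
        linear_combination this
      rw [h3, sub_smul]
      abel
    ext1 a b
    have h4 := congrFun (congrFun h1 a) b
    simp only [Matrix.smul_apply, smul_eq_mul] at h4
    have h5 := mul_left_cancel₀ (MvPolynomial.X_ne_zero i) h4
    rw [h5]
    rfl
  refine HEq.of_matrix (E := E.cone (X i) (-1) hx)
      (E' := ((E.mapHom (zr i) (fun _ _ h => Hg_zr i h)).star (X i) (dq i f) (-1) hx hg).congr
        (zr_add_dq i f))
      (Matrix.fromBlocks (1 : Matrix E.ι E.ι (MvPolynomial (Fin n) k)) 0 Δ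
        (1 : Matrix E.ι E.ι (MvPolynomial (Fin n) k)))
      (Matrix.fromBlocks (1 : Matrix E.ι E.ι (MvPolynomial (Fin n) k)) 0 (-Δ)
        (1 : Matrix E.ι E.ι (MvPolynomial (Fin n) k))) ?_ ?_ ?_ ?_ ?_
  · rintro (a | a) (b | b)
    · exact one_mem E a b
    · exact Hg.zero _
    · refine (Hg_dq i (E.hQ a b) (e' := E.w b - E.w a + 1) (by ring)).of_eq ?_
      change E.w b - E.w a + 1 = E.w b - (E.w a + -1) + 0
      ring
    · refine (one_mem E a b).of_eq ?_
      change E.w b - E.w a + 0 = (E.w b + -1) - (E.w a + -1) + 0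
      ring
  · rintro (a | a) (b | b)
    · exact one_mem E a b
    · exact Hg.zero _
    · refine (Hg_dq i (E.hQ a b) (e' := E.w b - E.w a + 1) (by ring)).neg.of_eq ?_
      change E.w b - E.w a + 1 = E.w b - (E.w a + -1) + 0
      ring
    · refine (one_mem E a b).of_eq ?_
      change E.w b - E.w a + 0 = (E.w b + -1) - (E.w a + -1) + 0
      ring
  · have key : Matrix.fromBlocks (1 : Matrix E.ι E.ι (MvPolynomial (Fin n) k)) 0 Δ 1 *
        Matrix.fromBlocks E.Q ((X i : MvPolynomial (Fin n) k) • 1)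
        ((0 : MvPolynomial (Fin n) k) • 1) (-E.Q) =
      Matrix.fromBlocks Q0 ((X i : MvPolynomial (Fin n) k) • 1) (dq i f • 1) (-Q0) *
        Matrix.fromBlocks (1 : Matrix E.ι E.ι (MvPolynomial (Fin n) k)) 0 Δ 1 := by
      rw [Matrix.fromBlocks_multiply, Matrix.fromBlocks_multiply]
      simp only [Matrix.zero_mul, Matrix.mul_zero, add_zero, zero_add,
        Matrix.neg_mul, Matrix.smul_mul, Matrix.mul_smul, Matrix.one_mul, Matrix.mul_one, zero_smul]
      congr 1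
      · exact hQ.symm
      · rw [← hcomm]; abel
      · rw [← hQ]; abel
    exact key
  · exact unip_key (-Δ) Δ (neg_add_cancel Δ)
  · exact unip_key Δ (-Δ) (add_neg_cancel Δ)

section keys

variable {ι R : Type} [Fintype ι] [DecidableEq ι] [CommRing R]

theorem rows_key (Q : Matrix ι ι R) (a : R) :
    Matrix.fromRows (1 : Matrix ι ι R) (0 : Matrix ι ι R) * Q =
      Matrix.fromBlocks Q (a • (1 : Matrix ι ι R)) ((0 : R) • (1 : Matrix ι ι R)) (-Q) *
        Matrix.fromRows (1 : Matrix ι ι R) (0 : Matrix ι ι R) := by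
  rw [Matrix.fromRows_mul, Matrix.fromBlocks_mul_fromRows]
  simp

theorem cols_key (Q Λ : Matrix ι ι R) (a : R) (h : Q * Λ + Λ * Q = a • (1 : Matrix ι ι R)) :
    Matrix.fromCols (1 : Matrix ι ι R) Λ *
      Matrix.fromBlocks Q (a • (1 : Matrix ι ι R)) ((0 : R) • (1 : Matrix ι ι R)) (-Q) =
      Q * Matrix.fromCols (1 : Matrix ι ι R) Λ := by
  rw [Matrix.mul_fromCols, Matrix.fromCols_mul_fromBlocks]
  congr 1
  · simp
  · rw [Matrix.mul_neg, Matrix.one_mul, ← h]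
    abel

theorem cols_rows_key (Λ : Matrix ι ι R) :
    Matrix.fromCols (1 : Matrix ι ι R) Λ *
      Matrix.fromRows (1 : Matrix ι ι R) (0 : Matrix ι ι R) = 1 := by
  rw [Matrix.fromCols_mul_fromRows]
  simp

end keys

/-- `E` is a strict retract of the cone of `a` if `a` is null-homotopic. -/
theorem retract_cone (E : MF f) (a : MvPolynomial (Fin n) k) (e : ℤ) (ha : Hg a (e + 3))
    {Λ : Matrix E.ι E.ι (MvPolynomial (Fin n) k)} (hΛ : Λ ∈ Hom E E e)
    (h : E.Q * Λ + Λ * E.Q = a • (1 : Matrix E.ι E.ι (MvPolynomial (Fin n) k))) :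
    ∃ i ∈ Z E (E.cone a e ha) 0, ∃ p ∈ Z (E.cone a e ha) E 0, p * i = 1 := by
  refine ⟨Matrix.fromRows (1 : Matrix E.ι E.ι (MvPolynomial (Fin n) k))
      (0 : Matrix E.ι E.ι (MvPolynomial (Fin n) k)), mem_Z_zero.2 ⟨?_, rows_key E.Q a⟩,
    Matrix.fromCols (1 : Matrix E.ι E.ι (MvPolynomial (Fin n) k)) Λ,
    mem_Z_zero.2 ⟨?_, cols_key E.Q Λ a h⟩, cols_rows_key Λ⟩
  · rintro (i | i) j
    · exact one_mem E i j
    · exact Hg.zero _
  · rintro i (j | j)
    · exact one_mem E i j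
    · refine (hΛ i j).of_eq ?_
      change E.w j - E.w i + e = (E.w j + e) - E.w i + 0
      ring

end MF

end KuMF
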