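import Mathlib

/-!
# Cohomology of an endomorphism `D`, induced maps

`Hc D = ker D / (range D ∩ ker D)`. `Hc.map f s` is induced by a linear map `f` with
`D' ∘ f = s • f ∘ D`, `s ≠ 0` (for example `s = -1`).
-/

noncomputable section

namespace KuMF

variable {k : Type*} [Field k] {V W U : Type*} [AddCommGroup V] [Module k V] [AddCommGroup W]
  [Module k W] [AddCommGroup U] [Module k U]

/-- The cohomology of an endomorphism. -/
abbrev Hc (D : V →ₗ[k] V) : Type _ :=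
  (LinearMap.ker D) ⧸ ((LinearMap.range D).submoduleOf (LinearMap.ker D))

/-- The class of a cocycle. -/
def Hc.mk (D : V →ₗ[k] V) (v : V) (hv : D v = 0) : Hc D :=
  Submodule.Quotient.mk ⟨v, hv⟩

lemma Hc.exists_rep {D : V →ₗ[k] V} (x : Hc D) : ∃ v, ∃ hv : D v = 0, x = Hc.mk D v hv := by
  obtain ⟨⟨v, hv⟩, rfl⟩ := Submodule.Quotient.mk_surjective _ x
  exact ⟨v, hv, rfl⟩

lemma Hc.mk_eq_zero {D : V →ₗ[k] V} {v : V} {hv : D v = 0} :
    Hc.mk D v hv = 0 ↔ ∃ u, D u = v := by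
  rw [Hc.mk, Submodule.Quotient.mk_eq_zero, Submodule.submoduleOf, Submodule.mem_comap]
  rfl

lemma Hc.mk_add {D : V →ₗ[k] V} {v v' : V} {hv : D v = 0} {hv' : D v' = 0} :
    Hc.mk D v hv + Hc.mk D v' hv' = Hc.mk D (v + v') (by rw [map_add, hv, hv', add_zero]) := rfl

lemma Hc.mk_sub {D : V →ₗ[k] V} {v v' : V} {hv : D v = 0} {hv' : D v' = 0} :
    Hc.mk D v hv - Hc.mk D v' hv' = Hc.mk D (v - v') (by rw [map_sub, hv, hv', sub_zero]) := rfl

lemma Hc.mk_smul {D : V →ₗ[k] V} {v : V} {hv : D v = 0} (c : k) :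
    c • Hc.mk D v hv = Hc.mk D (c • v) (by rw [map_smul, hv, smul_zero]) := rfl

lemma Hc.mk_eq_mk {D : V →ₗ[k] V} {v v' : V} {hv : D v = 0} {hv' : D v' = 0} :
    Hc.mk D v hv = Hc.mk D v' hv' ↔ ∃ u, D u = v - v' := by
  rw [← sub_eq_zero, Hc.mk_sub, Hc.mk_eq_zero]

/-- The map on cohomology induced by `f` with `D' ∘ f = s • f ∘ D`. -/
def Hc.map {D : V →ₗ[k] V} {D' : W →ₗ[k] W} (f : V →ₗ[k] W) (s : k) (hs : s ≠ 0)
    (h : ∀ v, D' (f v) = s • f (D v)) : Hc D →ₗ[k] Hc D' :=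
  Submodule.mapQ _ _
    (f.restrict (p := LinearMap.ker D) (q := LinearMap.ker D') (fun v hv => by
      rw [LinearMap.mem_ker] at hv ⊢
      rw [h, hv, map_zero, smul_zero]))
    (by
      rintro ⟨v, hv⟩ ⟨u, hu⟩
      rw [Submodule.mem_comap]
      change f v ∈ LinearMap.range D'
      refine ⟨s⁻¹ • f u, ?_⟩
      rw [map_smul, h, smul_smul, inv_mul_cancel₀ hs, one_smul]
      exact congrArg f hu)

@[simp] lemma Hc.map_mk {D : V →ₗ[k] V} {D' : W →ₗ[k] W} (f : V →ₗ[k] W) (s : k) (hs : s ≠ 0)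
    (h : ∀ v, D' (f v) = s • f (D v)) (v : V) (hv : D v = 0) :
    Hc.map f s hs h (Hc.mk D v hv) = Hc.mk D' (f v) (by rw [h, hv, map_zero, smul_zero]) := rfl

lemma neg_one_ne : (-1 : k) ≠ 0 := neg_ne_zero.2 one_ne_zero

end KuMF
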