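import Pool.Agent.H91.MF.Basic
import Pool.Agent.H91.MF.GrTr

/-!
# The Hom complex as one matrix

`hD E F` is the matrix on `F.ι × E.ι` of the operator `φ ↦ Q_F φ - Σ_F φ Σ_E Q_E`,
`Σ = diag((-1)^w)`. On `Hom E F q` it is `dm E F q`, because there `Σ_F φ Σ_E = (-1)^q φ`.

STATEMENTS TO PROVE (job MF-HOM). Write `N = E.Qᵀ`. `sg_anti`: `Σ Q = - Q Σ` because `Q i j ≠ 0`
has even weight `w j - w i + 3`, so `(-1)^(w i) = - (-1)^(w j)` (a nonzero `p` with `Hg p e` has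
`e` even). `hD_sq`: `(Q_F ⊗ 1 - Σ_F ⊗ N Σ_E)² = Q_F² ⊗ 1 - (Q_F Σ_F + Σ_F Q_F) ⊗ N Σ_E +
Σ_F² ⊗ N Σ_E N Σ_E = f - 0 - f` (`Σ_E N = - N Σ_E`, `N² = (Q_E²)ᵀ = f`, `Σ² = 1`;
`Matrix.mul_kronecker_mul`). `hD_wt`: entries. `hD_homotopy`: the same computation
(`Σ_F Λ = - Λ Σ_F`). `opM_hD`: with `vec φ (i, j) = φ i j`,
`((A ⊗ B) vec φ) (i,j) = ∑ A i i' B j j' φ i' j' = (A φ Bᵀ) i j`. `HH_equiv`: the linear equivalence
`Matrix F.ι E.ι S ≃ (F.ι × E.ι → S)` maps `Hom E F q` to `grP q`, and `dm E F q` to `opM hD` on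
`Hom E F q`; `Submodule.Quotient.equiv`.
`sgH_ne`: the sign `σ (i,j) = (-1)^(w i - w j)` anticommutes with `hD`.
-/

open MvPolynomial
open scoped Kronecker

noncomputable section

namespace KuMF

namespace MF

variable {k : Type} [Field k] {n : ℕ} {f : MvPolynomial (Fin n) k}

/-- The sign `(-1)^w` in the field. -/
def sn (k : Type) [Field k] (w : ℤ) : k := ((w.negOnePow : ℤ) : k)

/-- The grading operator `Σ = diag((-1)^w)`. -/
def sg (E : MF f) : Matrix E.ι E.ι (MvPolynomial (Fin n) k) :=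
  Matrix.diagonal fun i => C (sn k (E.w i))

lemma sn_sq (w : ℤ) : sn k w * sn k w = 1 := by
  rw [sn, ← Int.cast_mul, negOnePow_sq, Int.cast_one]

lemma sg_sq (E : MF f) : sg E * sg E = 1 := by
  rw [sg, Matrix.diagonal_mul_diagonal, ← Matrix.diagonal_one]
  congr 1
  funext i
  rw [← C_mul, sn_sq, C_1]

lemma sn_add (a b : ℤ) : sn k (a + b) = sn k a * sn k b := by
  rw [sn, sn, sn, Int.negOnePow_add, Units.val_mul, Int.cast_mul]

lemma sn_two_mul (d : ℤ) : sn k (2 * d) = 1 := by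
  rw [sn, Int.negOnePow_two_mul, Units.val_one, Int.cast_one]

lemma sn_three : sn k 3 = -1 := by
  rw [sn, show (3 : ℤ) = 2 * 1 + 1 by norm_num, Int.negOnePow_succ, Int.negOnePow_two_mul]
  simp

lemma Hg_even {p : MvPolynomial (Fin n) k} {e : ℤ} (hp : Hg p e) (h0 : p ≠ 0) :
    ∃ d : ℤ, e = 2 * d := by
  obtain ⟨m, hm⟩ := MvPolynomial.support_nonempty.2 h0
  exact ⟨(m.degree : ℤ), (hp m hm).symm⟩

/-- if a nonzero polynomial has weight `a - b + q` then the signs of `b` and `a + q` agree -/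
lemma sn_of_Hg {p : MvPolynomial (Fin n) k} {a b q : ℤ} (hp : Hg p (a - b + q)) (h0 : p ≠ 0) :
    sn k b = sn k a * sn k q := by
  obtain ⟨d, hd⟩ := Hg_even hp h0
  have h1 : a + q = b + 2 * d := by linarith
  rw [← sn_add, h1, sn_add, sn_two_mul, mul_one]

/-- `Σ φ = (-1)^q φ Σ` for `φ` of weight `q`. -/
theorem sg_mul {E F : MF f} {q : ℤ} {φ : Matrix F.ι E.ι (MvPolynomial (Fin n) k)}
    (hφ : φ ∈ Hom E F q) : sg F * φ = (q.negOnePow : ℤ) • (φ * sg E) := by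
  ext1 i j
  rw [sg, sg, Matrix.smul_apply, Matrix.diagonal_mul, Matrix.mul_diagonal]
  by_cases h : φ i j = 0
  · rw [h, mul_zero, zero_mul, smul_zero]
  · rw [sn_of_Hg (hφ i j) h, zsmul_eq_mul, map_mul]
    have h2 : (((q.negOnePow : ℤ) : MvPolynomial (Fin n) k)) = C (sn k q) := by
      rw [sn, map_intCast]
    rw [h2]
    ring

lemma neg_one_pow_three : ((Int.negOnePow 3 : ℤˣ) : ℤ) = -1 := by
  rw [show (3 : ℤ) = 2 * 1 + 1 by norm_num, Int.negOnePow_succ, Int.negOnePow_two_mul]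
  simp

/-- `Σ Λ = - Λ Σ` for `Λ` of weight `3`. -/
lemma sg_mul_three {E : MF f} {L : Matrix E.ι E.ι (MvPolynomial (Fin n) k)}
    (hL : L ∈ Hom E E 3) : sg E * L = -(L * sg E) := by
  rw [sg_mul hL, neg_one_pow_three, neg_one_smul]

lemma sg_transpose (E : MF f) : (sg E).transpose = sg E := by
  rw [sg, Matrix.diagonal_transpose]

lemma Qt_sq (E : MF f) : E.Q.transpose * E.Q.transpose =
    f • (1 : Matrix E.ι E.ι (MvPolynomial (Fin n) k)) := by
  rw [← Matrix.transpose_mul, E.sq, Matrix.transpose_smul, Matrix.transpose_one]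

lemma Qt_sg (E : MF f) : E.Q.transpose * sg E = -(sg E * E.Q.transpose) := by
  have h := congrArg Matrix.transpose (sg_mul_three (Q_mem E))
  rw [Matrix.transpose_neg, Matrix.transpose_mul, Matrix.transpose_mul, sg_transpose] at h
  exact h

lemma Qt_sg_sq (E : MF f) : (E.Q.transpose * sg E) * (E.Q.transpose * sg E) =
    -(f • (1 : Matrix E.ι E.ι (MvPolynomial (Fin n) k))) := by
  have h : (E.Q.transpose * sg E) * (E.Q.transpose * sg E) =
      -((sg E * sg E) * (E.Q.transpose * E.Q.transpose)) := by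
    calc (E.Q.transpose * sg E) * (E.Q.transpose * sg E)
        = E.Q.transpose * sg E * (-(sg E * E.Q.transpose)) := by rw [← Qt_sg]
      _ = -(E.Q.transpose * (sg E * sg E) * E.Q.transpose) := by
          rw [Matrix.mul_neg]
          simp only [Matrix.mul_assoc]
      _ = -((sg E * sg E) * (E.Q.transpose * E.Q.transpose)) := by
          rw [sg_sq, Matrix.mul_one, Matrix.one_mul]
  rw [h, sg_sq, Matrix.one_mul, Qt_sq]

/-- The matrix of the differential of the Hom complex. -/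
def hD (E F : MF f) : Matrix (F.ι × E.ι) (F.ι × E.ι) (MvPolynomial (Fin n) k) :=
  F.Q ⊗ₖ (1 : Matrix E.ι E.ι (MvPolynomial (Fin n) k)) - sg F ⊗ₖ (E.Q.transpose * sg E)

/-- The weights of the Hom complex. -/
def hwt (E F : MF f) (x : F.ι × E.ι) : ℤ := F.w x.1 - E.w x.2

/-- The sign of the Hom complex. -/
def hsg (E F : MF f) (x : F.ι × E.ι) : k := sn k (hwt E F x)

theorem hD_sq (E F : MF f) : hD E F * hD E F = 0 := by
  have hA : sg F * F.Q = -(F.Q * sg F) := sg_mul_three (Q_mem F)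
  unfold hD
  rw [Matrix.sub_mul, Matrix.mul_sub, Matrix.mul_sub, ← Matrix.mul_kronecker_mul,
    ← Matrix.mul_kronecker_mul, ← Matrix.mul_kronecker_mul, ← Matrix.mul_kronecker_mul, hA,
    Qt_sg_sq, F.sq, sg_sq, Matrix.one_mul, Matrix.mul_one, Matrix.one_mul]
  ext1 a b
  simp only [Matrix.sub_apply, Matrix.kroneckerMap_apply, Matrix.neg_apply, Matrix.smul_apply,
    Matrix.zero_apply, smul_eq_mul]
  ring

lemma hD_apply (E F : MF f) (a b : F.ι × E.ι) : hD E F a b =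
    F.Q a.1 b.1 * (1 : Matrix E.ι E.ι (MvPolynomial (Fin n) k)) a.2 b.2 -
      (sg F) a.1 b.1 * (E.Q b.2 a.2 * C (sn k (E.w b.2))) := by
  rw [hD, Matrix.sub_apply, Matrix.kroneckerMap_apply, Matrix.kroneckerMap_apply]
  congr 2
  rw [sg, Matrix.mul_diagonal, Matrix.transpose_apply]

theorem hD_wt (E F : MF f) (a b : F.ι × E.ι) :
    Hg (hD E F a b) (hwt E F b - hwt E F a + 3) := by
  rw [hD_apply]
  refine Hg.sub ?_ ?_
  · rcases eq_or_ne a.2 b.2 with h | h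
    · rw [h, Matrix.one_apply_eq, mul_one]
      exact (F.hQ a.1 b.1).of_eq (by simp only [hwt]; rw [h]; ring)
    · rw [Matrix.one_apply_ne h, mul_zero]
      exact Hg.zero _
  · rcases eq_or_ne a.1 b.1 with h | h
    · rw [h, sg, Matrix.diagonal_apply_eq]
      refine ((Hg.C _).mul ((E.hQ b.2 a.2).mul (Hg.C _))).of_eq ?_
      simp only [hwt]
      rw [h]
      ring
    · rw [sg, Matrix.diagonal_apply_ne _ h, zero_mul]
      exact Hg.zero _

theorem hsg_anti (E F : MF f) (a b : F.ι × E.ι) (h : hD E F a b ≠ 0) :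
    hsg E F a = -hsg E F b := by
  have h1 := sn_of_Hg (hD_wt E F a b) h
  rw [hsg, hsg, h1, sn_three]
  ring

theorem hD_homotopy {E F : MF f} {Λ : Matrix F.ι F.ι (MvPolynomial (Fin n) k)}
    (hΛ : Λ ∈ Hom F F 3) {q : MvPolynomial (Fin n) k}
    (h : F.Q * Λ + Λ * F.Q = q • (1 : Matrix F.ι F.ι (MvPolynomial (Fin n) k))) :
    hD E F * (Λ ⊗ₖ (1 : Matrix E.ι E.ι (MvPolynomial (Fin n) k))) +
        (Λ ⊗ₖ (1 : Matrix E.ι E.ι (MvPolynomial (Fin n) k))) * hD E F =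
      q • (1 : Matrix (F.ι × E.ι) (F.ι × E.ι) (MvPolynomial (Fin n) k)) := by
  have hA : sg F * Λ = -(Λ * sg F) := sg_mul_three hΛ
  unfold hD
  rw [Matrix.sub_mul, Matrix.mul_sub, ← Matrix.mul_kronecker_mul, ← Matrix.mul_kronecker_mul,
    ← Matrix.mul_kronecker_mul, ← Matrix.mul_kronecker_mul, hA, Matrix.mul_one, Matrix.one_mul,
    Matrix.mul_one]
  have h2 : q • (1 : Matrix (F.ι × E.ι) (F.ι × E.ι) (MvPolynomial (Fin n) k)) =
      (F.Q * Λ + Λ * F.Q) ⊗ₖ (1 : Matrix E.ι E.ι (MvPolynomial (Fin n) k)) := by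
    rw [h, Matrix.smul_kronecker, Matrix.one_kronecker_one]
  rw [h2]
  ext1 a b
  simp only [Matrix.sub_apply, Matrix.add_apply, Matrix.kroneckerMap_apply, Matrix.neg_apply]
  ring

/-- Matrices as vectors. -/
def vecE (E F : MF f) : Matrix F.ι E.ι (MvPolynomial (Fin n) k) ≃ₗ[k]
    (F.ι × E.ι → MvPolynomial (Fin n) k) where
  toFun φ x := φ x.1 x.2
  invFun v i j := v (i, j)
  map_add' _ _ := rfl
  map_smul' _ _ := rfl
  left_inv _ := rfl
  right_inv _ := rfl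

lemma vecE_apply (E F : MF f) (φ : Matrix F.ι E.ι (MvPolynomial (Fin n) k)) (x : F.ι × E.ι) :
    vecE E F φ x = φ x.1 x.2 := rfl

lemma kron_mulVec (E F : MF f) (A : Matrix F.ι F.ι (MvPolynomial (Fin n) k))
    (M : Matrix E.ι E.ι (MvPolynomial (Fin n) k)) (φ : Matrix F.ι E.ι (MvPolynomial (Fin n) k)) :
    (A ⊗ₖ M).mulVec (vecE E F φ) = vecE E F (A * φ * M.transpose) := by
  funext x
  rw [Matrix.mulVec, dotProduct, vecE_apply, Matrix.mul_apply, Fintype.sum_prod_type,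
    Finset.sum_comm]
  refine Finset.sum_congr rfl fun j _ => ?_
  rw [Matrix.mul_apply, Matrix.transpose_apply, Finset.sum_mul]
  refine Finset.sum_congr rfl fun i _ => ?_
  rw [Matrix.kroneckerMap_apply, vecE_apply]
  ring

lemma opM_hD {E F : MF f} {q : ℤ} {φ : Matrix F.ι E.ι (MvPolynomial (Fin n) k)}
    (hφ : φ ∈ Hom E F q) : opM (hD E F) (vecE E F φ) = vecE E F (dm E F q φ) := by
  rw [opM_apply, hD, Matrix.sub_mulVec, kron_mulVec, kron_mulVec, ← map_sub]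
  congr 1
  rw [dm_apply, Matrix.transpose_one, Matrix.mul_one, Matrix.transpose_mul,
    Matrix.transpose_transpose, sg_transpose, sg_mul hφ, Matrix.smul_mul]
  congr 2
  rw [← Matrix.mul_assoc, Matrix.mul_assoc φ, sg_sq, Matrix.mul_one]

lemma vecE_mem {E F : MF f} {q : ℤ} {φ : Matrix F.ι E.ι (MvPolynomial (Fin n) k)} :
    vecE E F φ ∈ grP k n (hwt E F) q ↔ φ ∈ Hom E F q := by
  constructor
  · intro h i j
    exact (h (i, j)).of_eq (by simp only [hwt]; ring)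
  · intro h a
    exact (h a.1 a.2).of_eq (by simp only [hwt]; ring)

lemma map_Z (E F : MF f) (q : ℤ) :
    (Z E F q).map (vecE E F : Matrix F.ι E.ι (MvPolynomial (Fin n) k) →ₗ[k]
      (F.ι × E.ι → MvPolynomial (Fin n) k)) =
      grP k n (hwt E F) q ⊓ LinearMap.ker (opM (hD E F)) := by
  ext v
  constructor
  · rintro ⟨φ, hφ, rfl⟩
    refine ⟨vecE_mem.2 hφ.1, ?_⟩
    change opM (hD E F) (vecE E F φ) = 0
    rw [opM_hD hφ.1, LinearMap.mem_ker.1 hφ.2, map_zero]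
  · rintro ⟨h1, h2⟩
    obtain ⟨φ, rfl⟩ := (vecE E F).surjective v
    refine ⟨φ, ⟨vecE_mem.1 h1, ?_⟩, rfl⟩
    have h3 : opM (hD E F) (vecE E F φ) = 0 := h2
    rw [opM_hD (vecE_mem.1 h1)] at h3
    exact (LinearEquiv.map_eq_zero_iff _).1 h3

theorem HH_equiv (E F : MF f) (q : ℤ) :
    Nonempty (HH E F q ≃ₗ[k] Hq (hD E F) (hwt E F) q) := by
  refine ⟨Submodule.Quotient.equiv _ _ (LinearEquiv.ofSubmodules (vecE E F) _ _ (map_Z E F q)) ?_⟩
  ext x
  constructor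
  · rintro ⟨⟨φ, hφ⟩, hB, rfl⟩
    obtain ⟨χ, hχ, hχ2⟩ := hB
    refine ⟨vecE E F χ, vecE_mem.2 hχ, ?_⟩
    rw [opM_hD hχ]
    exact congrArg (vecE E F) hχ2
  · rintro ⟨u, hu, hu2⟩
    obtain ⟨χ, rfl⟩ := (vecE E F).surjective u
    have hχ : χ ∈ Hom E F (q - 3) := vecE_mem.1 hu
    rw [opM_hD hχ] at hu2
    refine ⟨⟨dm E F (q - 3) χ, B_le_Z E F q ⟨χ, hχ, rfl⟩⟩, ⟨χ, hχ, rfl⟩, ?_⟩
    apply Subtype.ext
    exact hu2

end MF

end KuMF
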