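import Pool.Agent.H91.MF.Basic

/-!
# Lifting idempotents

STATEMENTS TO PROVE (job MF-IDEM1).
`exists_idem_poly`: `m ≠ 0` in `k[T]`. Write `m = T^a (T-1)^b m'` with `m'` prime to `T (T-1)`
(`Polynomial.rootMultiplicity`, `Polynomial.exists_eq_pow_rootMultiplicity_mul_and_not_dvd` twice).
Chinese remainder (`IsCoprime`: `T^(a+1)`, `(T-1)^(b+1)`, `m'` pairwise coprime): `P` with
`T^(a+1) m' ∣ P` and `(T-1)^(b+1) ∣ P - 1`. Then `m ∣ P (P - 1)`, and `T ∣ P - T`, `T - 1 ∣ P - T`, so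
`T (T-1) ∣ P - T`.
`isNilpotent_of_coeff_zero`: `y` of weight `0`, no constant terms: `y i j ≠ 0` implies
`w j - w i ≥ 1`; so `(y^N) i j ≠ 0` implies `w j - w i ≥ N`; the weights are bounded.
`exists_poly_zero`: `x_0 = x.map constantCoeff`, `c = charpoly x_0`; `y = aeval x c` has weight `0` and
constant part `aeval x_0 c = 0` (`RingHom.mapMatrix`, `Matrix.aeval_self_charpoly`,
`Polynomial.hom_eval₂`/`Polynomial.map_aeval_eq..`), so `y^N = 0`; `m = c^N`.
`lift_idem`: `e' = aeval e P`, `e'^2 - e' = 0`, `e' - e = (e * e - e) * aeval e R ∈ B`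
(`mul_mem_B_right`; `aeval e R ∈ Z E E 0` by induction on `R`).
-/

open MvPolynomial

noncomputable section

namespace KuMF

theorem exists_idem_poly {k : Type*} [Field k] (m : Polynomial k) (hm : m ≠ 0) :
    ∃ P R : Polynomial k, m ∣ P ^ 2 - P ∧
      P - Polynomial.X = (Polynomial.X ^ 2 - Polynomial.X) * R := by
  obtain ⟨q, hq1, hq2⟩ := Polynomial.exists_eq_pow_rootMultiplicity_mul_and_not_dvd m hm 1
  set b := m.rootMultiplicity 1 with hb
  set L : Polynomial k := Polynomial.X - Polynomial.C 1 with hL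
  have hL1 : L = Polynomial.X - 1 := by rw [hL, Polynomial.C_1]
  have hXL : IsCoprime Polynomial.X L := ⟨1, -1, by rw [hL1]; ring⟩
  have hqL : IsCoprime q L :=
    ((Polynomial.irreducible_X_sub_C (1 : k)).coprime_iff_not_dvd.mpr hq2).symm
  have hc : IsCoprime (Polynomial.X * q) (L ^ (b + 1)) := (hXL.mul_left hqL).pow_right
  obtain ⟨u, v, huv⟩ := hc
  have hP1 : u * (Polynomial.X * q) - 1 = -(v * L ^ (b + 1)) := by
    rw [← huv]; ring
  have hdL : L ∣ u * (Polynomial.X * q) - 1 := by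
    rw [hP1, pow_succ, ← mul_assoc]
    exact (Dvd.intro_left _ rfl).neg_right
  have hX : (Polynomial.X : Polynomial k) ∣ u * (Polynomial.X * q) - Polynomial.X :=
    ⟨u * q - 1, by ring⟩
  have hL2 : L ∣ u * (Polynomial.X * q) - Polynomial.X := by
    have h1 : u * (Polynomial.X * q) - Polynomial.X = (u * (Polynomial.X * q) - 1) - L := by
      rw [hL1]; ring
    rw [h1]
    exact dvd_sub hdL dvd_rfl
  obtain ⟨R, hR⟩ := hXL.mul_dvd hX hL2
  refine ⟨u * (Polynomial.X * q), R, ?_, ?_⟩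
  · have h1 : (u * (Polynomial.X * q)) ^ 2 - u * (Polynomial.X * q) =
        (u * (Polynomial.X * q)) * (u * (Polynomial.X * q) - 1) := by ring
    rw [h1, hP1]
    refine ⟨-(u * Polynomial.X * v * L), ?_⟩
    conv_rhs => rw [hq1]
    rw [pow_succ]
    ring
  · rw [hR, hL1]
    ring

namespace MF

variable {k : Type} [Field k] {n : ℕ} {f : MvPolynomial (Fin n) k}

theorem pow_weight {E : MF f} {y : Matrix E.ι E.ι (MvPolynomial (Fin n) k)}
    (hy : y ∈ Hom E E 0) (h0 : ∀ i j, coeff 0 (y i j) = 0) (N : ℕ) :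
    ∀ i j, (y ^ N) i j ≠ 0 → (N : ℤ) ≤ E.w j - E.w i := by
  have h1 : ∀ i j, y i j ≠ 0 → (1 : ℤ) ≤ E.w j - E.w i := by
    intro i j hij
    obtain ⟨m, hm⟩ := MvPolynomial.support_nonempty.2 hij
    have h2 := hy i j m hm
    have h3 : m ≠ 0 := by
      rintro rfl
      exact (MvPolynomial.mem_support_iff.1 hm) (h0 i j)
    have h4 : m.degree ≠ 0 := by
      intro h
      exact h3 ((Finsupp.degree_eq_zero_iff m).1 h)
    omega
  induction N with
  | zero =>
    intro i j hij
    rw [pow_zero] at hij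
    have : i = j := by
      by_contra h
      exact hij (Matrix.one_apply_ne h)
    rw [this]
    simp
  | succ N ih =>
    intro i j hij
    rw [pow_succ, Matrix.mul_apply] at hij
    obtain ⟨l, -, hl⟩ := Finset.exists_ne_zero_of_sum_ne_zero hij
    have h2 := ih i l (left_ne_zero_of_mul hl)
    have h3 := h1 l j (right_ne_zero_of_mul hl)
    push_cast
    linarith

theorem isNilpotent_of_coeff_zero {E : MF f} {y : Matrix E.ι E.ι (MvPolynomial (Fin n) k)}
    (hy : y ∈ Hom E E 0) (h0 : ∀ i j, coeff 0 (y i j) = 0) : ∃ N : ℕ, y ^ N = 0 := by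
  obtain ⟨M, hM⟩ := (Set.finite_range fun p : E.ι × E.ι => E.w p.2 - E.w p.1).bddAbove
  refine ⟨M.toNat + 1, Matrix.ext fun i j => ?_⟩
  by_contra hij
  have h1 := pow_weight hy h0 (M.toNat + 1) i j hij
  have h2 : E.w j - E.w i ≤ M := hM ⟨(i, j), rfl⟩
  push_cast at h1
  have h3 := Int.self_le_toNat M
  linarith

theorem aeval_mem {E : MF f} (S : Submodule k (Matrix E.ι E.ι (MvPolynomial (Fin n) k)))
    (h1 : 1 ∈ S) {x : Matrix E.ι E.ι (MvPolynomial (Fin n) k)}
    (hx : ∀ a ∈ S, a * x ∈ S) (p : Polynomial k) : Polynomial.aeval x p ∈ S := by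
  have h2 : ∀ i : ℕ, x ^ i ∈ S := by
    intro i
    induction i with
    | zero => rw [pow_zero]; exact h1
    | succ i ih => rw [pow_succ]; exact hx _ ih
  rw [Polynomial.aeval_eq_sum_range]
  exact Submodule.sum_mem _ fun i _ => Submodule.smul_mem _ _ (h2 i)

/-- the constant coefficient as an algebra homomorphism -/
def ccoeff : MvPolynomial (Fin n) k →ₐ[k] k :=
  { constantCoeff with commutes' := fun r => constantCoeff_C _ r }

theorem exists_poly_zero {E : MF f} {x : Matrix E.ι E.ι (MvPolynomial (Fin n) k)}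
    (hx : x ∈ Hom E E 0) : ∃ m : Polynomial k, m ≠ 0 ∧ Polynomial.aeval x m = 0 := by
  set φ : Matrix E.ι E.ι (MvPolynomial (Fin n) k) →ₐ[k] Matrix E.ι E.ι k :=
    (ccoeff (k := k) (n := n)).mapMatrix with hφ
  set c := (φ x).charpoly with hc
  have h1 : φ (Polynomial.aeval x c) = 0 := by
    rw [← Polynomial.aeval_algHom_apply, hc]
    exact Matrix.aeval_self_charpoly _
  have h2 : ∀ i j, coeff 0 ((Polynomial.aeval x c) i j) = 0 := fun i j =>
    congrFun (congrFun h1 i) j
  have h3 : Polynomial.aeval x c ∈ Hom E E 0 := by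
    refine aeval_mem _ (one_mem E) (fun a ha => ?_) c
    have := mul_mem ha hx
    rwa [add_zero] at this
  obtain ⟨N, hN⟩ := isNilpotent_of_coeff_zero h3 h2
  refine ⟨c ^ N, pow_ne_zero _ (Matrix.charpoly_monic _).ne_zero, ?_⟩
  rw [map_pow, hN]

theorem lift_idem {E : MF f} {e : Matrix E.ι E.ι (MvPolynomial (Fin n) k)}
    (he : e ∈ Z E E 0) (h : e * e - e ∈ B E E 0) :
    ∃ e' ∈ Z E E 0, e' * e' = e' ∧ e' - e ∈ B E E 0 := by
  obtain ⟨m, hm0, hm⟩ := exists_poly_zero he.1
  obtain ⟨P, R, ⟨Q, hQ⟩, hR⟩ := exists_idem_poly m hm0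
  have hZ : ∀ p : Polynomial k, Polynomial.aeval e p ∈ Z E E 0 := by
    refine aeval_mem _ (one_mem_Z E) fun a ha => ?_
    have := mul_mem_Z ha he
    rwa [add_zero] at this
  refine ⟨Polynomial.aeval e P, hZ P, ?_, ?_⟩
  · have h1 := congrArg (Polynomial.aeval e) hQ
    rw [map_sub, map_pow, map_mul, hm, zero_mul, sub_eq_zero, pow_two] at h1
    exact h1
  · have h1 := congrArg (Polynomial.aeval e) hR
    rw [map_sub, map_mul, map_sub, map_pow, Polynomial.aeval_X, pow_two] at h1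
    rw [h1]
    have := mul_mem_B_right h (hZ R)
    rwa [add_zero] at this

end MF

end KuMF
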