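import Pool.Agent.H91.MF.Basic

/-!
# Cones, homotopy equivalence, restriction to coordinate subspaces, the object `kst`

* `MF.congr` : transport along `f = f'` (same data);
* `MF.cone E a e` : `star` with `b = 0`, a factorization of `f`;
* `MF.HEq E E'` : homotopy equivalence;
* `MF.mapHom φ E` : apply a weight preserving algebra endomorphism to all entries;
* `zr i` : the substitution `x_i = 0`; `tru m` : the substitution `x_i = 0` for all `i ≥ m`;
* `dq i p = (p - zr i p) / x_i`;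
* `MF.pt : MF 0`, `MF.KM x g m = pt ⋆ (x_0, g_0) ⋆ ⋯ ⋆ (x_{m-1}, g_{m-1})`,
  a factorization of `psum x g m = ∑_{i<m} x_i g_i`;
* `MF.kst f` for `n = 6`: `KM` for `x_i` the variables, `g_i = dq i (tru (i+1) f)`.
-/

open MvPolynomial

noncomputable section

namespace KuMF

variable {k : Type} [Field k] {n : ℕ}

/-- The substitution `x_i = 0`. -/
def zr (i : Fin n) : MvPolynomial (Fin n) k →ₐ[k] MvPolynomial (Fin n) k :=
  aeval fun j => if j = i then 0 else X j

/-- The substitution `x_i = 0` for all `i ≥ m`. -/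
def tru (m : ℕ) : MvPolynomial (Fin n) k →ₐ[k] MvPolynomial (Fin n) k :=
  aeval fun j => if (j : ℕ) < m then X j else 0

/-- `(p - zr i p) / x_i` -/
def dq (i : Fin n) (p : MvPolynomial (Fin n) k) : MvPolynomial (Fin n) k :=
  p.divMonomial (Finsupp.single i 1)

/-- The partial sums `∑_{i<m} x_i g_i`. -/
def psum (x g : ℕ → MvPolynomial (Fin n) k) : ℕ → MvPolynomial (Fin n) k
  | 0 => 0
  | m + 1 => psum x g m + x m * g m

/-- The variables, extended by zero. -/
def xN (k : Type) [Field k] (n : ℕ) (m : ℕ) : MvPolynomial (Fin n) k :=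
  if h : m < n then X ⟨m, h⟩ else 0

/-- `dq m (tru (m+1) f)`, extended by zero. -/
def gN (f : MvPolynomial (Fin n) k) (m : ℕ) : MvPolynomial (Fin n) k :=
  if h : m < n then dq ⟨m, h⟩ (tru (m + 1) f) else 0

lemma xN_Hg (m : ℕ) : Hg (xN k n m) (-1 + 3) := by
  unfold xN
  split_ifs with h
  · exact (Hg.X _).of_eq (by norm_num)
  · exact Hg.zero _

namespace MF

/-- Transport along an equality of potentials. -/
def congr {f f' : MvPolynomial (Fin n) k} (h : f = f') (E : MF f) : MF f' where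
  ι := E.ι
  fin := E.fin
  dec := E.dec
  w := E.w
  Q := E.Q
  hQ := E.hQ
  sq := h ▸ E.sq

variable {f : MvPolynomial (Fin n) k}

/-- The cone of `a : E → E`, `a` of weight `e + 3`. -/
def cone (E : MF f) (a : MvPolynomial (Fin n) k) (e : ℤ) (ha : Hg a (e + 3)) : MF f :=
  (E.star a 0 e ha (Hg.zero _)).congr (by rw [mul_zero, add_zero])

/-- Homotopy equivalence. -/
def HEq (E E' : MF f) : Prop :=
  ∃ U ∈ Z E E' 0, ∃ U' ∈ Z E' E 0, U' * U - 1 ∈ B E E 0 ∧ U * U' - 1 ∈ B E' E' 0

/-- The rank one factorization of `0`. -/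
def pt : MF (0 : MvPolynomial (Fin n) k) where
  ι := Unit
  w := 0
  Q := 0
  hQ := fun _ _ => Hg.zero _
  sq := by rw [zero_smul, Matrix.zero_mul]

/-- `pt ⋆ (x_0, g_0) ⋆ ⋯ ⋆ (x_{m-1}, g_{m-1})` -/
def KM (x g : ℕ → MvPolynomial (Fin n) k) (hx : ∀ m, Hg (x m) (-1 + 3))
    (hg : ∀ m, Hg (g m) (3 - -1)) : (m : ℕ) → MF (psum x g m)
  | 0 => pt
  | m + 1 => (KM x g hx hg m).star (x m) (g m) (-1) (hx m) (hg m)

/-- All entries without constant term. -/
def Reduced (E : MF f) : Prop := ∀ i j, coeff 0 (E.Q i j) = 0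

end MF

end KuMF
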