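import Pool.Agent.H91.MF.HomC

/-!
# The trace functional attached to homotopies of the `x_j^3`

`kapL E Λ φ = coeff_{x_1^2⋯x_n^2} tr (Σ φ Λ_1 ⋯ Λ_n)`.

STATEMENTS TO PROVE (job MF-KAPL). `J3 j` is the ideal generated by the `X_i^3`, `i ≠ j`. For an
ideal `J`, `CM J E F q φ` means: `φ` has weight `q` and `dm E F q φ` has all entries in `J`.
`CM.mul`: Leibniz rule `dm_mul`. `CM_ofFn`: the products of `CM` endomorphisms of weight `3`.
`coeff_of_mul_mem`: if `X_j^3 t ∈ J3 j` then `coeff (topM n) t = 0`: the coefficient of `X_j^3 t` at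
`topM n + 3 e_j` is `coeff (topM n) t`, and elements of `J3 j` have coefficient `0` there
(`Submodule.span_induction`; `X_i^3` with `i ≠ j` does not divide that monomial).
`key`: `Y : E → E` with `Q Y - Y Q ∈ J3 j`. Then `coeff (topM n) (tr (Σ Y)) = 0`:
`X_j^3 tr(Σ Y) = tr(Σ (Q Λ_j + Λ_j Q) Y) ≡ tr (Σ Q Λ_j Y) + tr (Σ Λ_j Y Q) (mod J3 j)
= tr (Σ Q Λ_j Y) + tr (Q Σ Λ_j Y) = 0` since `Σ Q = - Q Σ` (`sg_mul`).
`kapL_dm` (`n = 6`): `ψ` of weight `3`, `P = Λ_0 ⋯ Λ_5`, `CM I E E 18 P` with `I` generated by all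
`X_i^3`: `tr (Σ (Q ψ + ψ Q) P) ≡ tr (Σ Q ψ P) + tr (Σ ψ P Q) = tr ((Σ Q + Q Σ) ψ P) = 0 (mod I)`, and
`coeff (topM n)` vanishes on `I`.
`kapL_swap` (`n = 6`): `φ ∈ Z E F a`, `ψ ∈ Z F E b`, `a + b = 6`. Let
`T_j = coeff (topM) tr (Σ_E ψ (Λ'_0 ⋯ Λ'_{j-1}) φ (Λ_j ⋯ Λ_5))`, `Λ'` for `F`, `Λ` for `E`. CLAIM
`T_j = (-1)^a T_{j+1}`: `μ = φ Λ_j - (-1)^a Λ'_j φ` is closed of weight `a + 3`
(`dm μ = (-1)^a φ x_j^3 - (-1)^a x_j^3 φ = 0`), so `Y = ψ (Λ'_0 ⋯ Λ'_{j-1}) μ (Λ_{j+1} ⋯ Λ_5)` is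
`CM (J3 j) E E 24`, apply `key`. So `kapL E Λ (ψ φ) = T_0 = (-1)^(6a) T_6`, and
`T_6 = tr (Σ_E ψ P' φ) = tr (φ Σ_E ψ P') = (-1)^a tr (Σ_F φ ψ P') = (-1)^a kapL F Λ' (φ ψ)`
(`P' = Λ'_0 ⋯ Λ'_5`). Hint: first prove the one step lemma for arbitrary `P`, `R` with
`CM (J3 j) F E p P`, `CM (J3 j) E E r R`, `p + a + 3 + r` even:
`coeff (topM n) (tr (Σ_E (P φ Λ_j R))) = (-1)^a coeff (topM n) (tr (Σ_E (P Λ'_j φ R)))`,
then apply it six times (`List.ofFn` for `Fin 6` is an explicit product: `List.ofFn_succ`, `simp`).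
-/

open MvPolynomial

noncomputable section

namespace KuMF

namespace MF

variable {k : Type} [Field k] {n : ℕ} {f : MvPolynomial (Fin n) k}

/-- `coeff_{x_1^2⋯x_n^2} tr (Σ φ Λ_1 ⋯ Λ_n)` -/
def kapL (E : MF f) (Λ : Fin n → Matrix E.ι E.ι (MvPolynomial (Fin n) k)) :
    Matrix E.ι E.ι (MvPolynomial (Fin n) k) →ₗ[k] k where
  toFun φ := coeff (topM n) (sg E * (φ * (List.ofFn Λ).prod)).trace
  map_add' φ ψ := by simp only [Matrix.add_mul, Matrix.mul_add, Matrix.trace_add, coeff_add]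
  map_smul' c φ := by
    simp only [Matrix.smul_mul, Matrix.mul_smul, Matrix.trace_smul, coeff_smul, RingHom.id_apply]

/-- `Λ` is a family of homotopies of the `X_j^3`. -/
def IsHtpy (E : MF f) (Λ : Fin n → Matrix E.ι E.ι (MvPolynomial (Fin n) k)) : Prop :=
  (∀ j, Λ j ∈ Hom E E 3) ∧ ∀ j, E.Q * Λ j + Λ j * E.Q =
    (X j ^ 3 : MvPolynomial (Fin n) k) • (1 : Matrix E.ι E.ι (MvPolynomial (Fin n) k))

/-- The ideal generated by the `X_i^3`, `i ≠ j`. -/
def J3 (k : Type) [Field k] {n : ℕ} (j : Fin n) : Ideal (MvPolynomial (Fin n) k) :=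
  Ideal.span {p | ∃ i, i ≠ j ∧ p = X i ^ 3}

/-- closed modulo an ideal -/
def CM (J : Ideal (MvPolynomial (Fin n) k)) (E F : MF f) (q : ℤ)
    (φ : Matrix F.ι E.ι (MvPolynomial (Fin n) k)) : Prop :=
  φ ∈ Hom E F q ∧ ∀ a b, dm E F q φ a b ∈ J

theorem CM.mul {J : Ideal (MvPolynomial (Fin n) k)} {E F G : MF f} {p q : ℤ}
    {ψ : Matrix G.ι F.ι (MvPolynomial (Fin n) k)} {φ : Matrix F.ι E.ι (MvPolynomial (Fin n) k)}
    (hψ : CM J F G p ψ) (hφ : CM J E F q φ) : CM J E G (p + q) (ψ * φ) := by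
  refine ⟨mul_mem hψ.1 hφ.1, fun a b => ?_⟩
  rw [dm_mul, Matrix.add_apply, Matrix.smul_apply, Matrix.mul_apply, Matrix.mul_apply]
  refine J.add_mem (J.sum_mem fun c _ => J.mul_mem_right _ (hψ.2 a c)) ?_
  exact zsmul_mem (J.sum_mem fun c _ => J.mul_mem_left _ (hφ.2 c b)) _

/-- The ideal generated by the `X_i^3`, `i ∈ S`. -/
def KS (k : Type) [Field k] {n : ℕ} (S : Set (Fin n)) : Ideal (MvPolynomial (Fin n) k) :=
  Ideal.span {p | ∃ i, i ∈ S ∧ p = X i ^ 3}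

theorem KS_mono {S S' : Set (Fin n)} (h : S ⊆ S') : KS k S ≤ KS k S' := by
  refine Ideal.span_mono ?_
  rintro p ⟨i, hi, rfl⟩
  exact ⟨i, h hi, rfl⟩

theorem KS_le_J3 {S : Set (Fin n)} {j : Fin n} (h : j ∉ S) : KS k S ≤ J3 k j := by
  refine Ideal.span_mono ?_
  rintro p ⟨i, hi, rfl⟩
  exact ⟨i, fun e => h (e ▸ hi), rfl⟩

/-- the coefficients of the elements of the ideal -/
theorem coeff_KS {S : Set (Fin n)} {p : MvPolynomial (Fin n) k} (hp : p ∈ KS k S)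
    (m : Fin n →₀ ℕ) (hm : ∀ i ∈ S, m i ≤ 2) : coeff m p = 0 := by
  classical
  revert m
  refine Submodule.span_induction ?_ ?_ ?_ ?_ hp
  · rintro p ⟨i, hi, rfl⟩ m hm
    rw [coeff_X_pow]
    refine if_neg fun h => ?_
    have h1 := hm i hi
    rw [← h, Finsupp.single_eq_same] at h1
    omega
  · intro m _
    exact coeff_zero m
  · intro p q _ _ hp hq m hm
    rw [coeff_add, hp m hm, hq m hm, add_zero]
  · intro a p _ hp m hm
    rw [smul_eq_mul, coeff_mul]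
    refine Finset.sum_eq_zero fun x hx => ?_
    rw [Finset.HasAntidiagonal.mem_antidiagonal] at hx
    rw [hp x.2 fun i hi => ?_, mul_zero]
    refine le_trans ?_ (hm i hi)
    rw [← hx, Finsupp.add_apply]
    exact Nat.le_add_left _ _

theorem coeff_of_mul_mem {j : Fin n} {t : MvPolynomial (Fin n) k}
    (h : X j ^ 3 * t ∈ J3 k j) : coeff (topM n) t = 0 := by
  have h1 : J3 k j = KS k {i | i ≠ j} := rfl
  rw [h1] at h
  have h2 := coeff_KS h (Finsupp.single j 3 + topM n) ?_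
  · have h3 : (X j ^ 3 : MvPolynomial (Fin n) k) = monomial (Finsupp.single j 3) 1 := by
      rw [X_pow_eq_monomial]
    rw [h3, coeff_monomial_mul, one_mul] at h2
    exact h2
  · intro i hi
    rw [Finsupp.add_apply, Finsupp.single_eq_of_ne (by exact hi), zero_add]
    simp [topM]

/-- the trace of the product with `Q Y - Y Q` -/
theorem trace_mem {J : Ideal (MvPolynomial (Fin n) k)} {κ : Type} [Fintype κ]
    (A M : Matrix κ κ (MvPolynomial (Fin n) k)) (h : ∀ a b, M a b ∈ J) : (A * M).trace ∈ J := by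
  rw [Matrix.trace]
  refine J.sum_mem fun a _ => ?_
  rw [Matrix.diag_apply, Matrix.mul_apply]
  exact J.sum_mem fun c _ => J.mul_mem_left _ (h c a)

theorem key {E : MF f} {Λ : Fin n → Matrix E.ι E.ι (MvPolynomial (Fin n) k)}
    (hΛ : IsHtpy E Λ) (j : Fin n) (Y : Matrix E.ι E.ι (MvPolynomial (Fin n) k))
    (hY : ∀ a b, (E.Q * Y - Y * E.Q) a b ∈ J3 k j) :
    coeff (topM n) (sg E * Y).trace = 0 := by
  refine coeff_of_mul_mem (j := j) ?_
  have h1 : X j ^ 3 * (sg E * Y).trace = (sg E * Λ j * (E.Q * Y - Y * E.Q)).trace := by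
    have h2 : (X j ^ 3 : MvPolynomial (Fin n) k) * (sg E * Y).trace =
        (sg E * ((E.Q * Λ j + Λ j * E.Q) * Y)).trace := by
      rw [hΛ.2 j, Matrix.smul_mul, Matrix.one_mul, Matrix.mul_smul, Matrix.trace_smul, smul_eq_mul]
    have h3 : (sg E * Λ j * (Y * E.Q)).trace = -(sg E * E.Q * (Λ j * Y)).trace := by
      have h4 : sg E * E.Q = -(E.Q * sg E) := sg_mul_three (Q_mem E)
      rw [h4, Matrix.neg_mul, Matrix.trace_neg, neg_neg, ← Matrix.mul_assoc, Matrix.trace_mul_comm]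
      simp only [Matrix.mul_assoc]
    rw [h2, Matrix.mul_sub, Matrix.trace_sub, h3, Matrix.add_mul, Matrix.mul_add, Matrix.trace_add]
    simp only [Matrix.mul_assoc]
    ring
  rw [h1]
  exact trace_mem _ _ hY

theorem IsHtpy.dm {E : MF f} {Λ : Fin n → Matrix E.ι E.ι (MvPolynomial (Fin n) k)}
    (hΛ : IsHtpy E Λ) (j : Fin n) : MF.dm E E 3 (Λ j) =
      (X j ^ 3 : MvPolynomial (Fin n) k) • (1 : Matrix E.ι E.ι (MvPolynomial (Fin n) k)) := by
  rw [dm_apply, neg_one_pow_three, neg_one_smul, sub_neg_eq_add, hΛ.2 j]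

theorem IsHtpy.CM {E : MF f} {Λ : Fin n → Matrix E.ι E.ι (MvPolynomial (Fin n) k)}
    (hΛ : IsHtpy E Λ) {S : Set (Fin n)} {j : Fin n} (hj : j ∈ S) : MF.CM (KS k S) E E 3 (Λ j) := by
  refine ⟨hΛ.1 j, fun a b => ?_⟩
  rw [hΛ.dm j, Matrix.smul_apply, smul_eq_mul]
  exact Ideal.mul_mem_right _ _ (Ideal.subset_span ⟨j, hj, rfl⟩)

theorem CM.one (J : Ideal (MvPolynomial (Fin n) k)) (E : MF f) : MF.CM J E E 0 1 := by
  refine ⟨one_mem E, fun a b => ?_⟩
  have := LinearMap.mem_ker.1 (one_mem_Z E).2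
  rw [this]
  exact J.zero_mem

theorem CM.mono {J J' : Ideal (MvPolynomial (Fin n) k)} (h : J ≤ J') {E F : MF f} {q : ℤ}
    {φ : Matrix F.ι E.ι (MvPolynomial (Fin n) k)} (hφ : CM J E F q φ) : CM J' E F q φ :=
  ⟨hφ.1, fun a b => h (hφ.2 a b)⟩

theorem CM.of_Z (J : Ideal (MvPolynomial (Fin n) k)) {E F : MF f} {q : ℤ}
    {φ : Matrix F.ι E.ι (MvPolynomial (Fin n) k)} (hφ : φ ∈ Z E F q) : CM J E F q φ := by
  refine ⟨hφ.1, fun a b => ?_⟩
  rw [LinearMap.mem_ker.1 hφ.2]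
  exact J.zero_mem

theorem CM.cast {J : Ideal (MvPolynomial (Fin n) k)} {E F : MF f} {q q' : ℤ}
    {φ : Matrix F.ι E.ι (MvPolynomial (Fin n) k)} (hφ : CM J E F q φ) (h : q = q') :
    CM J E F q' φ := h ▸ hφ

/-- the product of a list of homotopies -/
theorem IsHtpy.CM_prod {E : MF f} {Λ : Fin n → Matrix E.ι E.ι (MvPolynomial (Fin n) k)}
    (hΛ : IsHtpy E Λ) {S : Set (Fin n)} (l : List (Fin n)) (hl : ∀ j ∈ l, j ∈ S) :
    MF.CM (KS k S) E E (3 * l.length) (l.map Λ).prod := by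
  induction l with
  | nil => simpa using CM.one (KS k S) E
  | cons j l ih =>
    rw [List.map_cons, List.prod_cons]
    refine ((hΛ.CM (hl j (List.mem_cons_self ..))).mul
      (ih fun i hi => hl i (List.mem_cons_of_mem _ hi))).cast ?_
    rw [List.length_cons]
    push_cast
    ring

/-- one step -/
theorem step {E F : MF f} {Λ : Fin n → Matrix E.ι E.ι (MvPolynomial (Fin n) k)}
    (hΛ : IsHtpy E Λ) {Λ' : Fin n → Matrix F.ι F.ι (MvPolynomial (Fin n) k)} (hΛ' : IsHtpy F Λ')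
    {a p r : ℤ} {φ : Matrix F.ι E.ι (MvPolynomial (Fin n) k)} (hφ : φ ∈ Z E F a) (j : Fin n)
    {P : Matrix E.ι F.ι (MvPolynomial (Fin n) k)} (hP : CM (J3 k j) F E p P)
    {R : Matrix E.ι E.ι (MvPolynomial (Fin n) k)} (hR : CM (J3 k j) E E r R)
    (hpar : Even (p + (a + 3) + r)) :
    coeff (topM n) (sg E * (P * φ * (Λ j * R))).trace =
      (a.negOnePow : ℤ) • coeff (topM n) (sg E * (P * Λ' j * φ * R)).trace := by
  set μ : Matrix F.ι E.ι (MvPolynomial (Fin n) k) := φ * Λ j - (a.negOnePow : ℤ) • (Λ' j * φ)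
    with hμ
  have hμZ : μ ∈ Z E F (a + 3) := by
    refine ⟨?_, ?_⟩
    · refine Submodule.sub_mem _ (mul_mem hφ.1 (hΛ.1 j)) (zsmul_mem ?_ _)
      have := mul_mem (hΛ'.1 j) hφ.1
      rwa [add_comm] at this
    · have e1 : MF.dm E F (a + 3) (φ * Λ j) = (a.negOnePow : ℤ) • ((X j ^ 3 : MvPolynomial (Fin n) k) • φ) := by
        rw [dm_mul, LinearMap.mem_ker.1 hφ.2, hΛ.dm j, Matrix.zero_mul, zero_add, Matrix.mul_smul,
          Matrix.mul_one]
      have e2 : MF.dm E F (a + 3) (Λ' j * φ) = (X j ^ 3 : MvPolynomial (Fin n) k) • φ := by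
        rw [add_comm a 3, dm_mul, LinearMap.mem_ker.1 hφ.2, hΛ'.dm j, Matrix.mul_zero, smul_zero,
          add_zero, Matrix.smul_mul, Matrix.one_mul]
      change MF.dm E F (a + 3) μ = 0
      rw [hμ, map_sub, map_zsmul, e1, e2, sub_self]
  have hY := (hP.mul ((CM.of_Z (J3 k j) hμZ).mul hR)).2
  have hk := key hΛ j (P * (μ * R)) (fun a' b' => by
    have h1 := hY a' b'
    rw [dm_apply] at h1
    have h2 : ((p + (a + 3 + r)).negOnePow : ℤ) = 1 := by
      rw [Int.negOnePow_even _ (by rwa [← add_assoc])]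
      rfl
    rw [h2, one_smul] at h1
    exact h1)
  have h3 : sg E * (P * (μ * R)) = sg E * (P * φ * (Λ j * R)) -
      (a.negOnePow : ℤ) • (sg E * (P * Λ' j * φ * R)) := by
    rw [hμ, Matrix.sub_mul, Matrix.mul_sub, Matrix.mul_sub, Matrix.smul_mul, Matrix.mul_smul,
      Matrix.mul_smul]
    simp only [Matrix.mul_assoc]
  rw [h3, Matrix.trace_sub, Matrix.trace_smul, coeff_sub, coeff_smul] at hk
  exact sub_eq_zero.1 hk

/-- all steps -/
theorem steps {E F : MF f} {Λ : Fin n → Matrix E.ι E.ι (MvPolynomial (Fin n) k)}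
    (hΛ : IsHtpy E Λ) {Λ' : Fin n → Matrix F.ι F.ι (MvPolynomial (Fin n) k)} (hΛ' : IsHtpy F Λ')
    {a : ℤ} {φ : Matrix F.ι E.ι (MvPolynomial (Fin n) k)} (hφ : φ ∈ Z E F a) (l : List (Fin n)) :
    ∀ (S : Set (Fin n)) (p : ℤ) (P : Matrix E.ι F.ι (MvPolynomial (Fin n) k)),
    l.Nodup → (∀ j ∈ l, j ∉ S) → CM (KS k S) F E p P → Even (p + a + 3 * l.length) →
    coeff (topM n) (sg E * (P * φ * (l.map Λ).prod)).trace =
      ((a * l.length).negOnePow : ℤ) •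
        coeff (topM n) (sg E * (P * (l.map Λ').prod * φ)).trace := by
  induction l with
  | nil =>
    intro S p P _ _ _ _
    simp
  | cons j l ih =>
    intro S p P hnd hS hP hpar
    rw [List.nodup_cons] at hnd
    have hjS : j ∉ S := hS j (List.mem_cons_self ..)
    rw [List.map_cons, List.prod_cons, List.map_cons, List.prod_cons]
    have hR : CM (J3 k j) E E (3 * l.length) (l.map Λ).prod := by
      refine (hΛ.CM_prod (S := {i | i ∈ l}) l fun i hi => hi).mono (KS_le_J3 ?_)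
      exact hnd.1
    have h1 := step hΛ hΛ' hφ j (hP.mono (KS_le_J3 hjS)) hR (by
      rw [List.length_cons] at hpar
      push_cast at hpar
      have h2 : p + (a + 3) + 3 * (l.length : ℤ) = p + a + 3 * ((l.length : ℤ) + 1) := by ring
      rw [h2]
      exact hpar)
    rw [h1]
    have h3 := ih (insert j S) (p + 3) (P * Λ' j) hnd.2 (by
      intro i hi h4
      rcases h4 with h4 | h4
      · exact hnd.1 (h4 ▸ hi)
      · exact hS i (List.mem_cons_of_mem _ hi) h4)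
      ((hP.mono (KS_mono (Set.subset_insert j S))).mul (hΛ'.CM (Set.mem_insert j S))) (by
      rw [List.length_cons] at hpar
      push_cast at hpar
      have h2 : p + 3 + a + 3 * (l.length : ℤ) = p + a + 3 * ((l.length : ℤ) + 1) := by ring
      rw [h2]
      exact hpar)
    have h5 : ((a * ((j :: l).length : ℤ)).negOnePow : ℤ) =
        (a.negOnePow : ℤ) * ((a * (l.length : ℤ)).negOnePow : ℤ) := by
      rw [← Units.val_mul, ← Int.negOnePow_add, List.length_cons]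
      congr 2
      push_cast
      ring
    have h6 : P * (Λ' j * (l.map Λ').prod) * φ = P * Λ' j * (l.map Λ').prod * φ := by
      simp only [Matrix.mul_assoc]
    rw [h3, smul_smul, h5, h6]

theorem kapL_dm {f : MvPolynomial (Fin 6) k} {E : MF f}
    {Λ : Fin 6 → Matrix E.ι E.ι (MvPolynomial (Fin 6) k)} (hΛ : IsHtpy E Λ)
    {ψ : Matrix E.ι E.ι (MvPolynomial (Fin 6) k)} (hψ : ψ ∈ Hom E E 3) :
    kapL E Λ (dm E E 3 ψ) = 0 := by
  have hP := hΛ.CM_prod (S := Set.univ) (List.finRange 6) fun _ _ => Set.mem_univ _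
  rw [← List.ofFn_eq_map] at hP
  set P := (List.ofFn Λ).prod with hPdef
  have h1 : kapL E Λ (dm E E 3 ψ) = coeff (topM 6) (sg E * (dm E E 3 ψ * P)).trace := rfl
  have h2 : ∀ a b, (E.Q * P - P * E.Q) a b ∈ KS k (Set.univ : Set (Fin 6)) := by
    intro a b
    have h3 := hP.2 a b
    rw [dm_apply, List.length_finRange] at h3
    have h4 : ((3 * ((6 : ℕ) : ℤ)).negOnePow : ℤ) = 1 := by
      rw [Int.negOnePow_even _ ⟨9, by norm_num⟩]
      rfl
    rw [h4, one_smul] at h3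
    exact h3
  have h5 : (sg E * (dm E E 3 ψ * P)).trace = (sg E * ψ * (E.Q * P - P * E.Q)).trace := by
    have h6 : (sg E * ψ * (P * E.Q)).trace = -(sg E * E.Q * (ψ * P)).trace := by
      have h4 : sg E * E.Q = -(E.Q * sg E) := sg_mul_three (Q_mem E)
      rw [h4, Matrix.neg_mul, Matrix.trace_neg, neg_neg, ← Matrix.mul_assoc, Matrix.trace_mul_comm]
      simp only [Matrix.mul_assoc]
    rw [dm_apply, neg_one_pow_three, neg_one_smul, sub_neg_eq_add, Matrix.mul_sub,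
      Matrix.trace_sub, h6, Matrix.add_mul, Matrix.mul_add, Matrix.trace_add]
    simp only [Matrix.mul_assoc]
    ring
  rw [h1, h5]
  refine coeff_KS (trace_mem _ _ h2) _ fun i _ => ?_
  simp [topM]

theorem kapL_swap {f : MvPolynomial (Fin 6) k} {E F : MF f}
    {Λ : Fin 6 → Matrix E.ι E.ι (MvPolynomial (Fin 6) k)} (hΛ : IsHtpy E Λ)
    {Λ' : Fin 6 → Matrix F.ι F.ι (MvPolynomial (Fin 6) k)} (hΛ' : IsHtpy F Λ') {a b : ℤ}
    {φ : Matrix F.ι E.ι (MvPolynomial (Fin 6) k)} {ψ : Matrix E.ι F.ι (MvPolynomial (Fin 6) k)}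
    (hφ : φ ∈ Z E F a) (hψ : ψ ∈ Z F E b) (hab : a + b = 6) :
    kapL E Λ (ψ * φ) = (a.negOnePow : ℤ) • kapL F Λ' (φ * ψ) := by
  have h1 : kapL E Λ (ψ * φ) = coeff (topM 6) (sg E * (ψ * φ * (List.ofFn Λ).prod)).trace := rfl
  have h2 : kapL F Λ' (φ * ψ) = coeff (topM 6) (sg F * (φ * ψ * (List.ofFn Λ').prod)).trace := rfl
  have h3 := steps hΛ hΛ' hφ (List.finRange 6) ∅ b ψ (List.nodup_finRange 6)
    (fun j _ h => h) (CM.of_Z _ hψ) (by
      rw [List.length_finRange, show b + a + 3 * ((6 : ℕ) : ℤ) = 24 by push_cast; linarith]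
      exact ⟨12, by norm_num⟩)
  rw [← List.ofFn_eq_map, ← List.ofFn_eq_map, List.length_finRange] at h3
  have h4 : ((a * ((6 : ℕ) : ℤ)).negOnePow : ℤ) = 1 := by
    rw [Int.negOnePow_even _ ⟨3 * a, by push_cast; ring⟩]
    rfl
  rw [h4, one_smul] at h3
  rw [h1, h2, h3]
  have h5 : (sg E * (ψ * (List.ofFn Λ').prod * φ)).trace =
      (φ * sg E * (ψ * (List.ofFn Λ').prod)).trace := by
    rw [← Matrix.mul_assoc, Matrix.trace_mul_comm]
    simp only [Matrix.mul_assoc]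
  have h6 : φ * sg E = (a.negOnePow : ℤ) • (sg F * φ) := by
    rw [sg_mul hφ.1, smul_smul, negOnePow_sq, one_smul]
  rw [h5, h6, Matrix.smul_mul, Matrix.trace_smul, coeff_smul]
  simp only [Matrix.mul_assoc]

end MF

end KuMF
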