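import Pool.Agent.H91.MF.GL

/-!
# No linear syzygies, Koszul exactness in one spot

From the statement `transfer`. `p_j = ∂_j f`, `VG f`.

`kos2`: `transfer` with `ρ = Unit`, `C = Fin 6`, `s () x j = if x = j then 1 else 0`, `e = 1`,
`rows = univ`, `zc = ∅`. Fermat: `∑_j 3 x_j^2 c_j = 0`; the coefficient at `x_j^2 x_i` (also for
`i = j`) only involves `c_j`, so `coeff e_i c_j = 0` (`coeff_monomial_mul'`).

`ks A j = (-1)^#{i ∈ A, i < j}`.
`kos4`: `c_A` (`|A| = 4`) quadrics with `∑_{j ∈ B} ks B j p_j c_{B∖j} = 0` for `|B| = 5`; then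
`c_A = ∑_{j ∈ A} ks A j η_{A∖j} p_j` with constants `η_T`, `|T| = 3`. PROOF. For `|T| = 3` let
`j(T)` be the smallest element of the complement of `T`.
(0) for `c = δη` the equations hold: `ks B j * ks (B∖j) i = - ks B i * ks (B∖i) j` for `i ≠ j`.
(1) CLAIM: if the `c_A` are quadrics, satisfy the equations, and `coeff (2 e_j) c_A = 0` whenever
`j ∈ A`, `j = j(A∖j)`, then `c = 0`. By `transfer` with `C = ρ = Finset (Fin 6)`, `e = 2`,
`s B A j = if j ∈ B ∧ B.erase j = A then ks B j else 0`, `rows = {(B, m) | |B| = 5}`,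
`zc = {(A, m) | |A| ≠ 4} ∪ {(A, 2 e_j) | |A| = 4, j ∈ A, j = j(A∖j)}` it is enough to prove it for
the Fermat cubic, `p_j = 3 x_j^2`: let `|A| = 4`, `m` of degree `2`.
 `m = e_a + e_b`, `a ≠ b`: take `j ∉ A`, `B = A ∪ j`, coefficient at `x_j^2 x_a x_b` of the equation
 `B`: only the term `i = j` contributes (`x_i^2` divides `x_j^2 x_a x_b` only for `i = j`), so
 `coeff m c_A = 0`.
 `m = 2 e_i`, `i ∉ A`: `B = A ∪ i`, coefficient at `x_i^4`: only the term `i`.
 `m = 2 e_i`, `i ∈ A`, `T = A∖i`, `i' = j(T)`: if `i = i'` it is an assumption. Otherwise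
 `B = A ∪ i'`, coefficient at `x_i^2 x_{i'}^2`: the term `i` is `coeff (2 e_{i'}) c_{T ∪ i'} = 0`, the
 term `i'` is `3 ks B i' coeff (2 e_i) c_A`, the others do not contribute.
(2) CLAIM: if `η_T` are constants with `coeff (2 e_j) (∑_{i ∈ A} ks A i η_{A∖i} p_i) = 0` for all
`A = T ∪ j`, `|T| = 3`, `j = j(T)`, then `η_T = 0` for all `|T| = 3`: `transfer` with `e = 0`,
`C = ρ = Finset (Fin 6)`, `s A T j = if j ∈ A ∧ A.erase j = T then ks A j else 0`,
`rows = {(A, 2 e_j) | |A| = 4, j ∈ A, j = j(A∖j)}`, `zc = {(T, m) | |T| ≠ 3}`; for Fermat the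
coefficient is `3 ks A j η_T`.
(3) the linear map `η ↦ (coeff (2 e_{j(T)}) (δη)_{T ∪ j(T)})_T` on functions on
`{T // T.card = 3}` is injective by (2), so surjective. Choose `η` with the same values as `c`; then
`c - δη` satisfies the hypotheses of (1).
-/

open MvPolynomial

noncomputable section

namespace KuMF

/-! ### The Fermat cubic -/

lemma pderiv_fermat (j : Fin 6) : pderiv j fermat = monomial (Finsupp.single j 2) 3 := by
  unfold fermat
  rw [map_sum, Finset.sum_eq_single j]
  · rw [pderiv_pow, pderiv_X_self, mul_one]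
    have h : (monomial (Finsupp.single j 2)) (3 : ℚ) = C 3 * X j ^ 2 := by
      rw [X_pow_eq_monomial, C_mul_monomial, mul_one]
    rw [h]
    have h3 : (C 3 : MvPolynomial (Fin 6) ℚ) = 3 := map_ofNat C 3
    rw [h3]
    norm_num
  · intro i _ hij
    rw [pderiv_pow, pderiv_X_of_ne hij, mul_zero]
  · intro h
    exact absurd (Finset.mem_univ j) h

lemma coeff_fermat_term (s : ℤ) (j : Fin 6) (c : MvPolynomial (Fin 6) ℚ) (m : Fin 6 →₀ ℕ) :
    coeff m (s • (pderiv j fermat * c)) =
      if 2 ≤ m j then (s : ℚ) * (3 * coeff (m - Finsupp.single j 2) c) else 0 := by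
  rw [pderiv_fermat, ← Int.cast_smul_eq_zsmul ℚ s, coeff_smul, coeff_monomial_mul', smul_eq_mul]
  by_cases h : 2 ≤ m j
  · rw [if_pos h, if_pos (Finsupp.single_le_iff.mpr h)]
  · rw [if_neg h, if_neg (fun h' => h (Finsupp.single_le_iff.mp h')), mul_zero]

lemma le_degree (m : Fin 6 →₀ ℕ) (i : Fin 6) : m i ≤ m.degree := by
  rw [Finsupp.degree_eq_sum]
  exact Finset.single_le_sum (f := fun i => m i) (fun _ _ => Nat.zero_le _) (Finset.mem_univ i)

/-- a monomial of degree two with an exponent at least two is a square -/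
lemma eq_single_two {m : Fin 6 →₀ ℕ} (hm : m.degree = 2) {i : Fin 6} (hi : 2 ≤ m i) :
    m = Finsupp.single i 2 := by
  have h1 : m i = 2 := le_antisymm (hm ▸ le_degree m i) hi
  have h2 : m i + ∑ k ∈ Finset.univ.erase i, m k = 2 := by
    rw [Finset.add_sum_erase _ _ (Finset.mem_univ i), ← Finsupp.degree_eq_sum, hm]
  have h3 : ∑ k ∈ Finset.univ.erase i, m k = 0 := by omega
  ext k
  by_cases hk : k = i
  · subst hk
    rw [h1, Finsupp.single_eq_same]
  · rw [Finsupp.single_eq_of_ne hk]
    exact (Finset.sum_eq_zero_iff.mp h3) k (Finset.mem_erase.mpr ⟨hk, Finset.mem_univ k⟩)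

lemma eq_zero_of_coeff {R : Type*} [CommSemiring R] {p : MvPolynomial (Fin 6) R} {e : ℕ}
    (hp : p.IsHomogeneous e) (h : ∀ m : Fin 6 →₀ ℕ, m.degree = e → coeff m p = 0) : p = 0 := by
  ext m
  rw [coeff_zero]
  by_cases hm : m.degree = e
  · exact h m hm
  · exact hp.coeff_eq_zero hm

theorem kos2 {f : MvPolynomial (Fin 6) ℂ} (hf : VG f) (hf3 : f.IsHomogeneous 3)
    (c : Fin 6 → MvPolynomial (Fin 6) ℂ) (hc : ∀ j, (c j).IsHomogeneous 1)
    (h : ∑ j, pderiv j f * c j = 0) : c = 0 := by
  have hsum : ∀ {R : Type} [CommRing R] (g : Fin 6 → MvPolynomial (Fin 6) R)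
      (c : Fin 6 → MvPolynomial (Fin 6) R),
      ∑ x, ∑ j, (if x = j then (1 : ℤ) else 0) • (g j * c x) = ∑ j, g j * c j := by
    intro R _ g c
    refine Finset.sum_congr rfl fun x _ => ?_
    rw [Finset.sum_eq_single x]
    · rw [if_pos rfl, one_smul]
    · intro j _ hj
      rw [if_neg (Ne.symm hj), zero_smul]
    · intro hx
      exact absurd (Finset.mem_univ x) hx
  refine transfer (ρ := Unit) (C := Fin 6) (fun _ x j => if x = j then 1 else 0) 1 Set.univ ∅
    ?_ hf hf3 c hc ?_ ?_
  · intro c hc hr _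
    funext x
    refine eq_zero_of_coeff (hc x) fun m hm => ?_
    have h1 := hr () (Finsupp.single x 2 + m) (Set.mem_univ _)
    rw [hsum (fun j => pderiv j fermat) c, coeff_sum] at h1
    rw [Finset.sum_eq_single x] at h1
    · have h2 := coeff_fermat_term 1 x (c x) (Finsupp.single x 2 + m)
      rw [one_smul] at h2
      rw [h2, if_pos (by simp), add_tsub_cancel_left] at h1
      simpa using h1
    · intro j _ hj
      have h2 := coeff_fermat_term 1 j (c j) (Finsupp.single x 2 + m)
      rw [one_smul] at h2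
      rw [h2, if_neg]
      rw [Finsupp.add_apply, Finsupp.single_eq_of_ne hj]
      have := le_degree m j
      omega
    · intro hx
      exact absurd (Finset.mem_univ x) hx
  · intro r m _
    rw [hsum (fun j => pderiv j f) c, h, coeff_zero]
  · intro x m hx
    exact absurd hx (Set.notMem_empty _)

/-- `(-1)^#{i ∈ A, i < j}` -/
def ks {n : ℕ} (A : Finset (Fin n)) (j : Fin n) : ℤ := (-1) ^ (A.filter (· < j)).card

lemma ks_ne_zero {n : ℕ} (A : Finset (Fin n)) (j : Fin n) : ks A j ≠ 0 :=
  pow_ne_zero _ (by norm_num)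

lemma ks_erase_of_lt {n : ℕ} (B : Finset (Fin n)) {i j : Fin n} (hij : i < j) :
    ks (B.erase j) i = ks B i := by
  unfold ks
  rw [Finset.filter_erase, Finset.erase_eq_of_notMem]
  intro h
  exact lt_asymm hij (Finset.mem_filter.mp h).2

lemma ks_erase_of_gt {n : ℕ} {B : Finset (Fin n)} {i j : Fin n} (hi : i ∈ B) (hij : i < j) :
    ks (B.erase i) j = - ks B j := by
  unfold ks
  have h1 : i ∈ B.filter (· < j) := Finset.mem_filter.mpr ⟨hi, hij⟩
  rw [Finset.filter_erase, ← Finset.card_erase_add_one h1, pow_succ]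
  ring

lemma ks_anti {n : ℕ} {B : Finset (Fin n)} {i j : Fin n} (hi : i ∈ B) (hj : j ∈ B) (hij : i ≠ j) :
    ks B j * ks (B.erase j) i = -(ks B i * ks (B.erase i) j) := by
  rcases lt_or_gt_of_ne hij with h | h
  · rw [ks_erase_of_lt B h, ks_erase_of_gt hi h]
    ring
  · rw [ks_erase_of_lt B h, ks_erase_of_gt hj h]
    ring

/-- the structure constants -/
def kss (B A : Finset (Fin 6)) (j : Fin 6) : ℤ := if j ∈ B ∧ B.erase j = A then ks B j else 0

lemma sum_kss {R : Type} [CommRing R] (g : Fin 6 → MvPolynomial (Fin 6) R)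
    (c : Finset (Fin 6) → MvPolynomial (Fin 6) R) (B : Finset (Fin 6)) :
    ∑ A, ∑ j, kss B A j • (g j * c A) = ∑ j ∈ B, ks B j • (g j * c (B.erase j)) := by
  rw [Finset.sum_comm]
  have h1 : ∀ j : Fin 6, ∑ A, kss B A j • (g j * c A) =
      if j ∈ B then ks B j • (g j * c (B.erase j)) else 0 := by
    intro j
    unfold kss
    split_ifs with hj
    · rw [Finset.sum_eq_single (B.erase j)]
      · rw [if_pos ⟨hj, rfl⟩]
      · intro A _ hA
        rw [if_neg (fun h => hA h.2.symm), zero_smul]
      · intro h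
        exact absurd (Finset.mem_univ _) h
    · refine Finset.sum_eq_zero fun A _ => ?_
      rw [if_neg (fun h => hj h.1), zero_smul]
  rw [Finset.sum_congr rfl fun j _ => h1 j, Finset.sum_ite_mem, Finset.univ_inter]

open Classical in
/-- an element outside `T` -/
def jT (T : Finset (Fin 6)) : Fin 6 := if h : ∃ j, j ∉ T then Classical.choose h else 0

lemma exists_notMem {T : Finset (Fin 6)} (hT : T.card < 6) : ∃ j, j ∉ T := by
  by_contra hcon
  push Not at hcon
  have h1 : T = Finset.univ := Finset.eq_univ_iff_forall.mpr hcon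
  rw [h1] at hT
  simp at hT

lemma jT_notMem {T : Finset (Fin 6)} (hT : T.card < 6) : jT T ∉ T := by
  unfold jT
  rw [dif_pos (exists_notMem hT)]
  exact Classical.choose_spec (exists_notMem hT)

/-- the coefficients of the Fermat equations -/
lemma coeff_fermat_sum (c : Finset (Fin 6) → MvPolynomial (Fin 6) ℚ) (B : Finset (Fin 6))
    (m : Fin 6 →₀ ℕ) :
    coeff m (∑ A, ∑ j, kss B A j • (pderiv j fermat * c A)) =
      ∑ j ∈ B, if 2 ≤ m j then
        (ks B j : ℚ) * (3 * coeff (m - Finsupp.single j 2) (c (B.erase j))) else 0 := by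
  rw [sum_kss (fun j => pderiv j fermat) c B, coeff_sum]
  exact Finset.sum_congr rfl fun j _ => coeff_fermat_term _ _ _ _

/-- claim (1) for the Fermat cubic -/
lemma fermat_one (c : Finset (Fin 6) → MvPolynomial (Fin 6) ℚ) (hc : ∀ A, (c A).IsHomogeneous 2)
    (hr : ∀ (B : Finset (Fin 6)) (m : Fin 6 →₀ ℕ), B.card = 5 →
      coeff m (∑ A, ∑ j, kss B A j • (pderiv j fermat * c A)) = 0)
    (hz1 : ∀ A : Finset (Fin 6), A.card ≠ 4 → ∀ m, coeff m (c A) = 0)
    (hz2 : ∀ A : Finset (Fin 6), A.card = 4 → ∀ j ∈ A, j = jT (A.erase j) →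
      coeff (Finsupp.single j 2) (c A) = 0) : c = 0 := by
  funext A
  by_cases hA : A.card = 4
  swap
  · ext m
    rw [hz1 A hA m]
    simp
  refine eq_zero_of_coeff (hc A) fun m hm => ?_
  by_cases hcase : ∃ i ∈ A, 2 ≤ m i
  · obtain ⟨i, hiA, hi⟩ := hcase
    have hmi := eq_single_two hm hi
    subst hmi
    have hT : (A.erase i).card = 3 := by rw [Finset.card_erase_of_mem hiA, hA]
    set i' := jT (A.erase i) with hi'
    have hi'T : i' ∉ A.erase i := jT_notMem (by omega)
    by_cases hii : i = i'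
    · exact hz2 A hA i hiA hii
    have hi'A : i' ∉ A := fun h => hi'T (Finset.mem_erase.mpr ⟨fun h' => hii h'.symm, h⟩)
    have hB : (insert i' A).card = 5 := by rw [Finset.card_insert_of_notMem hi'A, hA]
    have h1 := hr (insert i' A) (Finsupp.single i 2 + Finsupp.single i' 2) hB
    rw [coeff_fermat_sum, Finset.sum_insert hi'A, Finset.erase_insert hi'A] at h1
    have h2 : (Finsupp.single i 2 + Finsupp.single i' 2 : Fin 6 →₀ ℕ) i' = 2 := by
      rw [Finsupp.add_apply, Finsupp.single_eq_same, Finsupp.single_eq_of_ne (Ne.symm hii), zero_add]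
    rw [if_pos (by rw [h2]), add_tsub_cancel_right] at h1
    have h3 : ∑ j ∈ A, (if 2 ≤ (Finsupp.single i 2 + Finsupp.single i' 2 : Fin 6 →₀ ℕ) j then
        (ks (insert i' A) j : ℚ) * (3 * coeff (Finsupp.single i 2 + Finsupp.single i' 2 -
          Finsupp.single j 2) (c ((insert i' A).erase j))) else 0) = 0 := by
      refine Finset.sum_eq_zero fun j hj => ?_
      by_cases hji : j = i
      · subst hji
        split_ifs with h4
        · rw [add_tsub_cancel_left]
          have h5 : (insert i' A).erase j = insert i' (A.erase j) :=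
            Finset.erase_insert_of_ne (Ne.symm hii)
          have h6 : (insert i' (A.erase j)).card = 4 := by
            rw [Finset.card_insert_of_notMem hi'T, hT]
          have h7 : coeff (Finsupp.single i' 2) (c (insert i' (A.erase j))) = 0 := by
            refine hz2 _ h6 i' (Finset.mem_insert_self _ _) ?_
            rw [Finset.erase_insert hi'T]
          rw [h5, h7]
          ring
        · rfl
      · rw [if_neg]
        have hji' : j ≠ i' := fun h => hi'A (h ▸ hj)
        rw [Finsupp.add_apply, Finsupp.single_eq_of_ne hji, Finsupp.single_eq_of_ne hji']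
        norm_num
    rw [h3, add_zero] at h1
    have h8 : (ks (insert i' A) i' : ℚ) ≠ 0 := by exact_mod_cast ks_ne_zero _ _
    rcases mul_eq_zero.mp h1 with h9 | h9
    · exact absurd h9 h8
    · rcases mul_eq_zero.mp h9 with h10 | h10
      · norm_num at h10
      · exact h10
  · push Not at hcase
    obtain ⟨j, hj⟩ := exists_notMem (T := A) (by omega)
    have hB : (insert j A).card = 5 := by rw [Finset.card_insert_of_notMem hj, hA]
    have h1 := hr (insert j A) (Finsupp.single j 2 + m) hB
    rw [coeff_fermat_sum, Finset.sum_insert hj, Finset.erase_insert hj] at h1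
    rw [if_pos (by simp), add_tsub_cancel_left] at h1
    have h3 : ∑ i ∈ A, (if 2 ≤ (Finsupp.single j 2 + m : Fin 6 →₀ ℕ) i then
        (ks (insert j A) i : ℚ) * (3 * coeff (Finsupp.single j 2 + m -
          Finsupp.single i 2) (c ((insert j A).erase i))) else 0) = 0 := by
      refine Finset.sum_eq_zero fun i hi => ?_
      rw [if_neg]
      have hij : i ≠ j := fun h => hj (h ▸ hi)
      rw [Finsupp.add_apply, Finsupp.single_eq_of_ne hij, zero_add]
      exact not_le.mpr (hcase i hi)
    rw [h3, add_zero] at h1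
    have h8 : (ks (insert j A) j : ℚ) ≠ 0 := by exact_mod_cast ks_ne_zero _ _
    rcases mul_eq_zero.mp h1 with h9 | h9
    · exact absurd h9 h8
    · rcases mul_eq_zero.mp h9 with h10 | h10
      · norm_num at h10
      · exact h10

/-- claim (2) for the Fermat cubic -/
lemma fermat_two (c : Finset (Fin 6) → MvPolynomial (Fin 6) ℚ) (hc : ∀ A, (c A).IsHomogeneous 0)
    (hr : ∀ A : Finset (Fin 6), A.card = 4 → ∀ j ∈ A, j = jT (A.erase j) →
      coeff (Finsupp.single j 2) (∑ T, ∑ i, kss A T i • (pderiv i fermat * c T)) = 0)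
    (hz : ∀ T : Finset (Fin 6), T.card ≠ 3 → ∀ m, coeff m (c T) = 0) : c = 0 := by
  funext T
  by_cases hT : T.card = 3
  swap
  · ext m
    rw [hz T hT m]
    simp
  refine eq_zero_of_coeff (hc T) fun m hm => ?_
  have hm0 : m = 0 := by
    ext i
    have := le_degree m i
    simp only [Finsupp.coe_zero, Pi.zero_apply]
    omega
  subst hm0
  set j := jT T with hj
  have hjT : j ∉ T := jT_notMem (by omega)
  have hA : (insert j T).card = 4 := by rw [Finset.card_insert_of_notMem hjT, hT]
  have h1 := hr (insert j T) hA j (Finset.mem_insert_self _ _) (by rw [Finset.erase_insert hjT])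
  rw [coeff_fermat_sum, Finset.sum_insert hjT, Finset.erase_insert hjT] at h1
  rw [if_pos (by simp), tsub_self] at h1
  have h3 : ∑ i ∈ T, (if 2 ≤ (Finsupp.single j 2 : Fin 6 →₀ ℕ) i then
      (ks (insert j T) i : ℚ) * (3 * coeff (Finsupp.single j 2 -
        Finsupp.single i 2) (c ((insert j T).erase i))) else 0) = 0 := by
    refine Finset.sum_eq_zero fun i hi => ?_
    rw [if_neg]
    have hij : i ≠ j := fun h => hjT (h ▸ hi)
    rw [Finsupp.single_eq_of_ne hij]
    norm_num
  rw [h3, add_zero] at h1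
  have h8 : (ks (insert j T) j : ℚ) ≠ 0 := by exact_mod_cast ks_ne_zero _ _
  rcases mul_eq_zero.mp h1 with h9 | h9
  · exact absurd h9 h8
  · rcases mul_eq_zero.mp h9 with h10 | h10
    · norm_num at h10
    · exact h10

/-- the Koszul differential of constants -/
def dEta (f : MvPolynomial (Fin 6) ℂ) (η : Finset (Fin 6) → ℂ) (A : Finset (Fin 6)) :
    MvPolynomial (Fin 6) ℂ := ∑ j ∈ A, ks A j • (C (η (A.erase j)) * pderiv j f)

lemma dEta_homog {f : MvPolynomial (Fin 6) ℂ} (hf3 : f.IsHomogeneous 3) (η : Finset (Fin 6) → ℂ)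
    (A : Finset (Fin 6)) : (dEta f η A).IsHomogeneous 2 := by
  unfold dEta
  refine IsHomogeneous.sum _ _ _ fun j _ => ?_
  have h1 : (C (η (A.erase j)) * pderiv j f).IsHomogeneous 2 := by
    have := (isHomogeneous_C (Fin 6) (η (A.erase j))).mul (hf3.pderiv (i := j))
    simpa using this
  rw [← Int.cast_smul_eq_zsmul ℂ, smul_eq_C_mul]
  have := (isHomogeneous_C (Fin 6) (((ks A j : ℤ) : ℂ))).mul h1
  simpa using this

lemma dEta_closed (f : MvPolynomial (Fin 6) ℂ) (η : Finset (Fin 6) → ℂ) (B : Finset (Fin 6)) :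
    ∑ j ∈ B, ks B j • (pderiv j f * dEta f η (B.erase j)) = 0 := by
  set G : Fin 6 → Fin 6 → MvPolynomial (Fin 6) ℂ := fun j i =>
    if i ≠ j then (ks B j * ks (B.erase j) i) •
      (pderiv j f * (C (η ((B.erase j).erase i)) * pderiv i f)) else 0 with hG
  have h1 : ∑ j ∈ B, ks B j • (pderiv j f * dEta f η (B.erase j)) = ∑ j ∈ B, ∑ i ∈ B, G j i := by
    refine Finset.sum_congr rfl fun j hj => ?_
    unfold dEta
    rw [Finset.mul_sum, Finset.smul_sum, ← Finset.add_sum_erase B _ hj]
    have h2 : G j j = 0 := by simp [hG]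
    rw [h2, zero_add]
    refine Finset.sum_congr rfl fun i hi => ?_
    simp only [hG]
    rw [if_pos (Finset.ne_of_mem_erase hi), mul_smul_comm, smul_smul]
  have h2 : ∀ j ∈ B, ∀ i ∈ B, G j i = - G i j := by
    intro j hj i hi
    simp only [hG]
    by_cases hij : i = j
    · subst hij
      simp
    · have e1 : (B.erase j).erase i = (B.erase i).erase j := Finset.erase_right_comm
      have e2 : ∀ x : MvPolynomial (Fin 6) ℂ, pderiv j f * (x * pderiv i f) =
          pderiv i f * (x * pderiv j f) := fun x => by ring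
      rw [if_pos hij, if_pos (Ne.symm hij), ks_anti hi hj hij, e1, e2, neg_smul]
  have h3 : ∑ j ∈ B, ∑ i ∈ B, G j i = - ∑ j ∈ B, ∑ i ∈ B, G j i := by
    conv_lhs => rw [Finset.sum_comm]
    rw [← Finset.sum_neg_distrib]
    refine Finset.sum_congr rfl fun i hi => ?_
    rw [← Finset.sum_neg_distrib]
    exact Finset.sum_congr rfl fun j hj => h2 j hj i hi
  rw [h1]
  have h4 : (2 : MvPolynomial (Fin 6) ℂ) * ∑ j ∈ B, ∑ i ∈ B, G j i = 0 := by
    linear_combination h3
  rcases mul_eq_zero.mp h4 with h5 | h5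
  · exact absurd h5 two_ne_zero
  · exact h5

/-- extension by zero -/
def etaExt (η : {T : Finset (Fin 6) // T.card = 3} → ℂ) (T : Finset (Fin 6)) : ℂ :=
  if h : T.card = 3 then η ⟨T, h⟩ else 0

/-- the linear map of step (3) -/
def etaMap (f : MvPolynomial (Fin 6) ℂ) : ({T : Finset (Fin 6) // T.card = 3} → ℂ) →ₗ[ℂ]
    ({T : Finset (Fin 6) // T.card = 3} → ℂ) where
  toFun η T := coeff (Finsupp.single (jT T.1) 2) (dEta f (etaExt η) (insert (jT T.1) T.1))
  map_add' η η' := by
    funext T
    have h1 : ∀ A, dEta f (etaExt (η + η')) A = dEta f (etaExt η) A + dEta f (etaExt η') A := by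
      intro A
      unfold dEta
      rw [← Finset.sum_add_distrib]
      refine Finset.sum_congr rfl fun j _ => ?_
      have h2 : etaExt (η + η') (A.erase j) = etaExt η (A.erase j) + etaExt η' (A.erase j) := by
        unfold etaExt
        split_ifs <;> simp
      rw [h2, C_add, add_mul, smul_add]
    simp only [Pi.add_apply]
    rw [h1, coeff_add]
  map_smul' r η := by
    funext T
    have h1 : ∀ A, dEta f (etaExt (r • η)) A = C r * dEta f (etaExt η) A := by
      intro A
      unfold dEta
      rw [Finset.mul_sum]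
      refine Finset.sum_congr rfl fun j _ => ?_
      have h2 : etaExt (r • η) (A.erase j) = r * etaExt η (A.erase j) := by
        unfold etaExt
        split_ifs <;> simp
      rw [h2, C_mul, mul_smul_comm, mul_assoc]
    simp only [Pi.smul_apply, RingHom.id_apply, smul_eq_mul]
    rw [h1, coeff_C_mul]

lemma etaMap_injective {f : MvPolynomial (Fin 6) ℂ} (hf : VG f) (hf3 : f.IsHomogeneous 3) :
    Function.Injective (etaMap f) := by
  rw [injective_iff_map_eq_zero]
  intro η hη
  have key : (fun T => C (etaExt η T) : Finset (Fin 6) → MvPolynomial (Fin 6) ℂ) = 0 := by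
    refine transfer (ρ := Finset (Fin 6)) (C := Finset (Fin 6)) kss 0
      {x | x.1.card = 4 ∧ ∃ j ∈ x.1, j = jT (x.1.erase j) ∧ x.2 = Finsupp.single j 2}
      {x | x.1.card ≠ 3} ?_ hf hf3 _ ?_ ?_ ?_
    · intro c hc hr hz
      refine fermat_two c hc (fun A hA j hj hjT => ?_) (fun T hT m => ?_)
      · exact hr A (Finsupp.single j 2) ⟨hA, j, hj, hjT, rfl⟩
      · exact hz T m hT
    · intro T
      exact isHomogeneous_C _ _
    · rintro A m ⟨hA, j, hj, hjT, hm⟩
      have hA' : A.card = 4 := hA
      have hj' : j ∈ A := hj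
      have hm' : m = Finsupp.single j 2 := hm
      rw [sum_kss (fun j => pderiv j f) (fun T => C (etaExt η T)) A, hm']
      have hT : (A.erase j).card = 3 := by rw [Finset.card_erase_of_mem hj']; omega
      have h1 := congrFun hη ⟨A.erase j, hT⟩
      have h2 : etaMap f η ⟨A.erase j, hT⟩ =
          coeff (Finsupp.single (jT (A.erase j)) 2) (dEta f (etaExt η) (insert (jT (A.erase j)) (A.erase j))) := rfl
      rw [h2, ← hjT, Finset.insert_erase hj] at h1
      unfold dEta at h1
      rw [Pi.zero_apply] at h1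
      rw [← h1]
      congr 1
      refine Finset.sum_congr rfl fun i _ => ?_
      rw [mul_comm]
    · intro T m hT
      have h1 : etaExt η T = 0 := by
        unfold etaExt
        exact dif_neg hT
      change coeff m (C (etaExt η T)) = 0
      rw [h1, C_0, coeff_zero]
  funext T
  have h1 := congrFun key T.1
  simp only [Pi.zero_apply] at h1
  have h2 : etaExt η T.1 = 0 := by
    rwa [← C_0, C_inj] at h1
  have h3 : etaExt η T.1 = η T := by
    unfold etaExt
    rw [dif_pos T.2]
  rw [← h3, h2]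
  rfl

theorem kos4 {f : MvPolynomial (Fin 6) ℂ} (hf : VG f) (hf3 : f.IsHomogeneous 3)
    (c : Finset (Fin 6) → MvPolynomial (Fin 6) ℂ)
    (hc : ∀ A, A.card = 4 → (c A).IsHomogeneous 2)
    (h : ∀ B : Finset (Fin 6), B.card = 5 →
      ∑ j ∈ B, ks B j • (pderiv j f * c (B.erase j)) = 0) :
    ∃ η : Finset (Fin 6) → ℂ, ∀ A, A.card = 4 →
      c A = ∑ j ∈ A, ks A j • (C (η (A.erase j)) * pderiv j f) := by
  obtain ⟨η, hη⟩ := (LinearMap.injective_iff_surjective.mp (etaMap_injective hf hf3))
    (fun T => coeff (Finsupp.single (jT T.1) 2) (c (insert (jT T.1) T.1)))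
  set c' : Finset (Fin 6) → MvPolynomial (Fin 6) ℂ := fun A =>
    if A.card = 4 then c A - dEta f (etaExt η) A else 0 with hc'
  have key : c' = 0 := by
    refine transfer (ρ := Finset (Fin 6)) (C := Finset (Fin 6)) kss 2
      {x | x.1.card = 5}
      {x | x.1.card ≠ 4 ∨ ∃ j ∈ x.1, j = jT (x.1.erase j) ∧ x.2 = Finsupp.single j 2}
      ?_ hf hf3 c' ?_ ?_ ?_
    · intro c hc hr hz
      refine fermat_one c hc (fun B m hB => hr B m hB) (fun A hA m => hz A m (Or.inl hA))
        (fun A _ j hj hjT => hz A _ (Or.inr ⟨j, hj, hjT, rfl⟩))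
    · intro A
      simp only [hc']
      split_ifs with hA
      · exact (hc A hA).sub (dEta_homog hf3 _ A)
      · exact isHomogeneous_zero _ _ _
    · intro B m hB
      have hB' : B.card = 5 := hB
      rw [sum_kss (fun j => pderiv j f) c' B]
      have h1 : ∑ j ∈ B, ks B j • (pderiv j f * c' (B.erase j)) =
          ∑ j ∈ B, ks B j • (pderiv j f * c (B.erase j)) -
            ∑ j ∈ B, ks B j • (pderiv j f * dEta f (etaExt η) (B.erase j)) := by
        rw [← Finset.sum_sub_distrib]
        refine Finset.sum_congr rfl fun j hj => ?_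
        have h2 : (B.erase j).card = 4 := by rw [Finset.card_erase_of_mem hj]; omega
        simp only [hc']
        rw [if_pos h2, mul_sub, smul_sub]
      rw [h1, h B hB', dEta_closed, sub_zero, coeff_zero]
    · intro A m hA
      simp only [hc']
      by_cases hA4 : A.card = 4
      · rw [if_pos hA4]
        rcases hA with hA | ⟨j, hj, hjT, hm⟩
        · exact absurd hA4 hA
        · simp only at hj hjT hm
          rw [hm]
          have hT : (A.erase j).card = 3 := by rw [Finset.card_erase_of_mem hj]; omega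
          have h1 := congrFun hη ⟨A.erase j, hT⟩
          have h2 : etaMap f η ⟨A.erase j, hT⟩ =
            coeff (Finsupp.single (jT (A.erase j)) 2)
              (dEta f (etaExt η) (insert (jT (A.erase j)) (A.erase j))) := rfl
          rw [h2] at h1
          simp only at h1
          rw [← hjT, Finset.insert_erase hj] at h1
          rw [coeff_sub, h1, sub_self]
      · rw [if_neg hA4, coeff_zero]
  refine ⟨etaExt η, fun A hA => ?_⟩
  have h1 := congrFun key A
  simp only [hc', Pi.zero_apply] at h1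
  rw [if_pos hA] at h1
  exact sub_eq_zero.mp h1

end KuMF
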