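import Pool.Agent.H91.MF.KosStep

/-!
# Iterated step: killing all variables

STATEMENT TO PROVE (job MF-KITER). Induction on `n` from `kos_step` and `Hc.trace_map_eq`:
`n = 0`: `ker π = ⊥`, `π` is an isomorphism, `Hc.trace_map_eq`.
Step: `V' = V ⧸ range (y 0)`, operators descend, `kos_step` for `y 0` gives that `Hc DV'` is finite
dimensional with trace `(1 - c) tr (A on Hc DV)`; induction hypothesis for `V'` with the `y i.succ`
and `π' : V' → W` (`Submodule.liftQ`).
-/

noncomputable section

namespace KuMF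

universe u w

variable {k : Type*} [Field k]

/-- splitting off the first term -/
lemma ki_iSup_succ {α : Type*} [CompleteLattice α] {n : ℕ} (f : Fin (n + 1) → α) (i : Fin n) :
    f 0 ⊔ ⨆ (j : Fin n) (_ : j < i), f j.succ = ⨆ (j : Fin (n + 1)) (_ : j < i.succ), f j := by
  apply le_antisymm
  · refine sup_le ?_ (iSup₂_le fun j hj => ?_)
    · exact le_iSup₂_of_le (f := fun (j : Fin (n + 1)) (_ : j < i.succ) => f j) 0
        (Fin.succ_pos i) le_rfl
    · exact le_iSup₂_of_le (f := fun (j : Fin (n + 1)) (_ : j < i.succ) => f j) j.succ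
        (Fin.succ_lt_succ_iff.2 hj) le_rfl
  · refine iSup₂_le fun j hj => ?_
    rcases Fin.eq_zero_or_eq_succ j with h | ⟨j, rfl⟩
    · rw [h]; exact le_sup_left
    · refine le_trans ?_ le_sup_right
      exact le_iSup₂_of_le (f := fun (j : Fin n) (_ : j < i) => f j.succ) j
        (Fin.succ_lt_succ_iff.1 hj) le_rfl

theorem kos_iter (c : k) (n : ℕ) : ∀ {V : Type u} {W : Type w} [AddCommGroup V] [Module k V]
    [AddCommGroup W] [Module k W] [Module.Finite k W]
    (DV A : V →ₗ[k] V) (y : Fin n → V →ₗ[k] V) (DW AW : W →ₗ[k] W) (π : V →ₗ[k] W)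
    (_ : ∀ v, DV (DV v) = 0) (_ : Function.Surjective π)
    (_ : LinearMap.ker π = ⨆ i, LinearMap.range (y i))
    (_ : ∀ i j v, y i (y j v) = y j (y i v))
    (_ : ∀ i v, DV (y i v) = y i (DV v))
    (_ : ∀ i v, y i v ∈ ⨆ (j : Fin n) (_ : j < i), LinearMap.range (y j) →
      v ∈ ⨆ (j : Fin n) (_ : j < i), LinearMap.range (y j))
    (hA : ∀ v, DV (A v) = (-1 : k) • A (DV v)) (_ : ∀ i v, A (y i v) = c • y i (A v))
    (_ : ∀ v, DW (π v) = π (DV v)) (_ : ∀ v, AW (π v) = π (A v))
    [Module.Finite k (Hc DV)],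
    LinearMap.trace k W AW =
      (1 - c) ^ n * LinearMap.trace k (Hc DV) (Hc.map A (-1) neg_one_ne hA) := by
  induction n with
  | zero =>
    intro V W _ _ _ _ _ DV A y DW AW π hD hπ hker _ _ _ hA _ _ hAW _
    have hinj : Function.Injective π := by
      rw [← LinearMap.ker_eq_bot, hker]
      exact iSup_of_empty _
    have e : V ≃ₗ[k] W := LinearEquiv.ofBijective π ⟨hinj, hπ⟩
    have hfin : Module.Finite k V := Module.Finite.equiv e.symm
    have h1 := trace_eq_smul_of_equiv (LinearEquiv.ofBijective π ⟨hinj, hπ⟩) A AW 1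
      (fun v => by rw [one_smul]; exact (hAW v).symm)
    rw [Hc.trace_map_eq DV A hD hA, h1]
    ring
  | succ n ih =>
    intro V W _ _ _ _ _ DV A y DW AW π hD hπ hker hcomm hDy hreg hA hAy hDW hAW _
    -- the quotient
    set P : Submodule k V := LinearMap.range (y 0) with hP
    have memP : ∀ v, y 0 v ∈ P := fun v => ⟨v, rfl⟩
    have hDP : P ≤ P.comap DV := by
      rintro _ ⟨v, rfl⟩
      rw [Submodule.mem_comap, hDy]
      exact memP _
    have hAP : P ≤ P.comap A := by
      rintro _ ⟨v, rfl⟩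
      rw [Submodule.mem_comap, hAy]
      exact P.smul_mem _ (memP _)
    have hyP : ∀ i, P ≤ P.comap (y i) := by
      rintro i _ ⟨v, rfl⟩
      rw [Submodule.mem_comap, hcomm]
      exact memP _
    have hPπ : P ≤ LinearMap.ker π := by
      rw [hker]
      exact le_iSup (fun i => LinearMap.range (y i)) 0
    let D' : (V ⧸ P) →ₗ[k] (V ⧸ P) := P.mapQ P DV hDP
    let A' : (V ⧸ P) →ₗ[k] (V ⧸ P) := P.mapQ P A hAP
    let y' : Fin n → (V ⧸ P) →ₗ[k] (V ⧸ P) := fun i => P.mapQ P (y i.succ) (hyP i.succ)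
    let π' : (V ⧸ P) →ₗ[k] W := P.liftQ π hPπ
    have eD : ∀ v, D' (P.mkQ v) = P.mkQ (DV v) := fun v => rfl
    have eA : ∀ v, A' (P.mkQ v) = P.mkQ (A v) := fun v => rfl
    have ey : ∀ i v, y' i (P.mkQ v) = P.mkQ (y i.succ v) := fun i v => rfl
    have eπ : ∀ v, π' (P.mkQ v) = π v := fun v => rfl
    have hq : Function.Surjective P.mkQ := P.mkQ_surjective
    have hy0 : Function.Injective (y 0) := by
      rw [← LinearMap.ker_eq_bot, LinearMap.ker_eq_bot']
      intro v hv
      have h1 := hreg 0 v (by rw [hv]; exact Submodule.zero_mem _)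
      have h2 : (⨆ (j : Fin (n + 1)) (_ : j < 0), LinearMap.range (y j)) = ⊥ := by
        rw [iSup_eq_bot]
        intro j
        rw [iSup_eq_bot]
        intro hj
        exact absurd hj (Fin.not_lt_zero j)
      rw [h2] at h1
      exact (Submodule.mem_bot k).1 h1
    obtain ⟨h', hfin', htr⟩ := kos_step DV A (y 0) D' A' P.mkQ c hD hq (P.ker_mkQ) hy0
      (fun v => hDy 0 v) (fun v => hAy 0 v) hA eD eA
    -- ranges of the descended operators
    have hr : ∀ i, LinearMap.range (y' i) = (LinearMap.range (y i.succ)).map P.mkQ := by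
      intro i
      ext x
      constructor
      · rintro ⟨v, rfl⟩
        obtain ⟨v, rfl⟩ := hq v
        exact ⟨y i.succ v, ⟨v, rfl⟩, rfl⟩
      · rintro ⟨_, ⟨v, rfl⟩, rfl⟩
        exact ⟨P.mkQ v, rfl⟩
    have hS : ∀ i : Fin n, (⨆ (j : Fin n) (_ : j < i), LinearMap.range (y' j)).comap P.mkQ =
        ⨆ (j : Fin (n + 1)) (_ : j < i.succ), LinearMap.range (y j) := by
      intro i
      have h1 : (⨆ (j : Fin n) (_ : j < i), LinearMap.range (y' j)) =
          (⨆ (j : Fin n) (_ : j < i), LinearMap.range (y j.succ)).map P.mkQ := by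
        rw [Submodule.map_iSup]
        refine iSup_congr fun j => ?_
        rw [Submodule.map_iSup]
        exact iSup_congr fun _ => hr j
      rw [h1, Submodule.comap_map_mkQ]
      exact ki_iSup_succ (fun j => LinearMap.range (y j)) i
    have hker' : LinearMap.ker π' = ⨆ i, LinearMap.range (y' i) := by
      have h1 : LinearMap.ker π' = (LinearMap.ker π).map P.mkQ := by
        ext x
        constructor
        · intro hx
          obtain ⟨v, rfl⟩ := hq x
          exact ⟨v, hx, rfl⟩
        · rintro ⟨v, hv, rfl⟩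
          exact hv
      rw [h1, hker, Submodule.map_iSup]
      apply le_antisymm
      · refine iSup_le fun j => ?_
        rcases Fin.eq_zero_or_eq_succ j with rfl | ⟨j, rfl⟩
        · rintro _ ⟨v, hv, rfl⟩
          have : P.mkQ v = 0 := by
            rw [Submodule.mkQ_apply, Submodule.Quotient.mk_eq_zero]
            exact hv
          rw [this]
          exact Submodule.zero_mem _
        · rw [← hr j]
          exact le_iSup (fun i => LinearMap.range (y' i)) j
      · refine iSup_le fun j => ?_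
        rw [hr j]
        exact le_iSup (fun i => (LinearMap.range (y i)).map P.mkQ) j.succ
    have key := ih (V := V ⧸ P) (W := W) D' A' y' DW AW π' ?_ ?_ hker' ?_ ?_ ?_ h' ?_ ?_ ?_
    · rw [key, htr]
      ring
    · intro x
      obtain ⟨v, rfl⟩ := hq x
      rw [eD, eD, hD, map_zero]
    · intro w
      obtain ⟨v, rfl⟩ := hπ w
      exact ⟨P.mkQ v, rfl⟩
    · intro i j x
      obtain ⟨v, rfl⟩ := hq x
      rw [ey, ey, ey, ey, hcomm]
    · intro i x
      obtain ⟨v, rfl⟩ := hq x
      rw [ey, eD, eD, ey, hDy]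
    · intro i x hx
      obtain ⟨v, rfl⟩ := hq x
      rw [ey, ← Submodule.mem_comap, hS] at hx
      have h1 := hreg i.succ v hx
      rw [← hS] at h1
      exact h1
    · intro i x
      obtain ⟨v, rfl⟩ := hq x
      rw [ey, eA, eA, ey, hAy, map_smul]
    · intro x
      obtain ⟨v, rfl⟩ := hq x
      rw [eD, eπ, eπ, hDW]
    · intro x
      obtain ⟨v, rfl⟩ := hq x
      rw [eA, eπ, eπ, hAW]

end KuMF
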