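import Pool.Agent.H91.MF.TrAdd

/-!
# One step: killing a variable

STATEMENT TO PROVE (job MF-KSTEP). `π : V → W` surjective with kernel `y V`, `y` injective
commuting with `DV`, `A y = c y A`, `DV A = - A DV`. If `Hc DV` is finite dimensional, so is
`Hc DW`, and `tr (AW on Hc DW) = (1 - c) tr (A on Hc DV)`.

PROOF. `H = Hc DV`, `H' = Hc DW`, `Y = Hc.map y 1 : H → H`, `ι = Hc.map π 1 : H → H'`.
(1) `ker ι = range Y`: if `π x = DW (π v)` then `x - DV v = y u`, `DV u = 0` (y injective), so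
    `[x] = Y [u]`. Conversely `ι Y = 0`.
(2) `δ : H' → H`, `[π v] ↦ [u]` with `DV v = y u`: well defined and linear (`u` is unique for `v`;
    another lift `v + y t` changes `u` to `u + DV t`; `π v = DW (π t)` means `v = DV t + y s`, then
    `DV v = y (DV s)`). `ker δ = range ι`, `range δ = ker Y`.
    (`u = DV t` iff `DV (v - y t) = 0`; `Y [u] = 0` iff `y u = DV v`.)
(3) traces: `c A` preserves `ker Y` (also if `c = 0`), `A` preserves `range Y`; `AW` preserves
    `N = range ι`. `δ (AW [π v]) = - c A [u]`: `DV (A v) = -A (DV v) = -A (y u) = y (- c A u)`.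
    `tr (AW | H') = tr (AW | N) + tr (AW | H'/N)` (`trace_add_quot`),
    `H'/N ≅ ker Y` : `tr = - tr (c A | ker Y)`,
    `N ≅ H/range Y`: `tr (AW | N) = tr (A | H / range Y) = tr A - tr (A | range Y)`,
    `range Y ≅ H / ker Y`, `A Y = c Y A`: `tr (A | range Y) = c tr A - tr (c A | ker Y)`.
    Sum: `tr A - c tr A + tr (c A|ker Y) - tr (c A|ker Y) = (1 - c) tr A`.
    Finiteness of `H'`: `N` and `H'/N` are finite.
-/

noncomputable section

namespace KuMF

variable {k : Type*} [Field k] {V W : Type*} [AddCommGroup V] [Module k V] [AddCommGroup W]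
  [Module k W]

/-- trace on `M / ker φ` through the isomorphism with `range φ = q`. -/
theorem kosStep_trace_quot_ker {M M' : Type*} [AddCommGroup M] [Module k M] [AddCommGroup M']
    [Module k M'] (φ : M →ₗ[k] M') (q : Submodule k M') (hq : LinearMap.range φ = q)
    (f : M →ₗ[k] M) (g : M' →ₗ[k] M') (s : k)
    (hf : ∀ x ∈ LinearMap.ker φ, f x ∈ LinearMap.ker φ) (hg : ∀ x ∈ q, g x ∈ q)
    (h : ∀ x, φ (f x) = s • g (φ x)) :
    LinearMap.trace k (M ⧸ LinearMap.ker φ)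
        ((LinearMap.ker φ).mapQ (LinearMap.ker φ) f (fun x hx => hf x hx)) =
      s * LinearMap.trace k q (g.restrict hg) := by
  subst hq
  refine trace_eq_smul_of_equiv φ.quotKerEquivRange _ _ s ?_
  intro v
  obtain ⟨x, rfl⟩ := Submodule.Quotient.mk_surjective _ v
  apply Subtype.ext
  change φ (f x) = s • g (φ x)
  exact h x

section Delta

variable (DV y : V →ₗ[k] V) (DW : W →ₗ[k] W) (π : V →ₗ[k] W)

/-- The connecting map exists. -/
theorem kosStep_delta (hD : ∀ v, DV (DV v) = 0) (hπ : Function.Surjective π)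
    (hker : LinearMap.ker π = LinearMap.range y) (hy : Function.Injective y)
    (hDy : ∀ v, DV (y v) = y (DV v)) (hDW : ∀ v, DW (π v) = π (DV v)) :
    ∃ δ : Hc DW →ₗ[k] Hc DV, ∀ (v u : V) (hv : DW (π v) = 0) (hu : DV u = 0),
      DV v = y u → δ (Hc.mk DW (π v) hv) = Hc.mk DV u hu := by
  obtain ⟨r, hr⟩ := LinearMap.exists_leftInverse_of_injective y (LinearMap.ker_eq_bot.2 hy)
  obtain ⟨s, hs⟩ := LinearMap.exists_rightInverse_of_surjective π (LinearMap.range_eq_top.2 hπ)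
  have hr' : ∀ v, r (y v) = v := fun v => by
    have := LinearMap.congr_fun hr v
    simpa using this
  have hs' : ∀ w, π (s w) = w := fun w => by
    have := LinearMap.congr_fun hs w
    simpa using this
  have key : ∀ x, π x = 0 → ∃ u, y u = x := fun x hx => by
    have : x ∈ LinearMap.ker π := hx
    rw [hker] at this
    exact this
  -- lift of `w = π v`
  have lift : ∀ v, ∃ t, s (π v) = v + y t := fun v => by
    obtain ⟨t, ht⟩ := key (s (π v) - v) (by rw [map_sub, hs', sub_self])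
    exact ⟨t, by rw [ht]; abel⟩
  have hmem : ∀ w ∈ LinearMap.ker DW, (r ∘ₗ DV ∘ₗ s) w ∈ LinearMap.ker DV := by
    intro w hw
    obtain ⟨u, hu⟩ := key (DV (s w)) (by rw [← hDW, hs']; exact hw)
    have h1 : (r ∘ₗ DV ∘ₗ s) w = u := by
      change r (DV (s w)) = u
      rw [← hu, hr']
    rw [h1]
    apply hy
    rw [map_zero, ← hDy, hu, hD]
  let δ1 : LinearMap.ker DW →ₗ[k] LinearMap.ker DV := (r ∘ₗ DV ∘ₗ s).restrict hmem
  refine ⟨Submodule.mapQ _ _ δ1 ?_, ?_⟩
  · rintro ⟨w, hw⟩ ⟨w', hw'⟩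
    rw [Submodule.mem_comap]
    change (r (DV (s w))) ∈ LinearMap.range DV
    obtain ⟨v, rfl⟩ := hπ w'
    have hw2 : w = π (DV v) := by
      rw [← hDW]
      exact hw'.symm
    obtain ⟨t, ht⟩ := lift (DV v)
    refine ⟨t, ?_⟩
    rw [hw2, ht, map_add, hD, zero_add, hDy, hr']
  · intro v u hv hu hvu
    change Hc.mk DV (r (DV (s (π v)))) _ = Hc.mk DV u hu
    obtain ⟨t, ht⟩ := lift v
    rw [Hc.mk_eq_mk]
    refine ⟨t, ?_⟩
    rw [ht, map_add, hvu, hDy, ← map_add, hr']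
    abel

end Delta

theorem kos_step (DV A y : V →ₗ[k] V) (DW AW : W →ₗ[k] W) (π : V →ₗ[k] W) (c : k)
    (hD : ∀ v, DV (DV v) = 0) (hπ : Function.Surjective π)
    (hker : LinearMap.ker π = LinearMap.range y) (hy : Function.Injective y)
    (hDy : ∀ v, DV (y v) = y (DV v)) (hAy : ∀ v, A (y v) = c • y (A v))
    (hA : ∀ v, DV (A v) = (-1 : k) • A (DV v))
    (hDW : ∀ v, DW (π v) = π (DV v)) (hAW : ∀ v, AW (π v) = π (A v))
    [Module.Finite k (Hc DV)] :
    ∃ h' : ∀ w, DW (AW w) = (-1 : k) • AW (DW w),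
      Module.Finite k (Hc DW) ∧
      LinearMap.trace k (Hc DW) (Hc.map AW (-1) neg_one_ne h') =
        (1 - c) * LinearMap.trace k (Hc DV) (Hc.map A (-1) neg_one_ne hA) := by
  have h' : ∀ w, DW (AW w) = (-1 : k) • AW (DW w) := by
    intro w
    obtain ⟨v, rfl⟩ := hπ w
    rw [hAW, hDW, hDW, hAW, hA, map_smul]
  refine ⟨h', ?_⟩
  obtain ⟨δ, hδ⟩ := kosStep_delta DV y DW π hD hπ hker hy hDy hDW
  have key : ∀ x, π x = 0 → ∃ u, y u = x := fun x hx => by
    have : x ∈ LinearMap.ker π := hx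
    rw [hker] at this
    exact this
  have hπy : ∀ v, π (y v) = 0 := fun v => by
    have : y v ∈ LinearMap.ker π := by rw [hker]; exact ⟨v, rfl⟩
    exact this
  have hu0 : ∀ v u, DV v = y u → DV u = 0 := fun v u h => by
    apply hy
    rw [map_zero, ← hDy, ← h, hD]
  set Y : Hc DV →ₗ[k] Hc DV := Hc.map y 1 one_ne_zero (fun v => by rw [one_smul, hDy]) with hY
  set ι : Hc DV →ₗ[k] Hc DW := Hc.map π 1 one_ne_zero (fun v => by rw [one_smul, hDW]) with hι
  set a : Hc DV →ₗ[k] Hc DV := Hc.map A (-1) neg_one_ne hA with ha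
  set aW : Hc DW →ₗ[k] Hc DW := Hc.map AW (-1) neg_one_ne h' with haW
  -- every class of `W` has a lift with `DV v = y u`
  have rep : ∀ x : Hc DW, ∃ v u, ∃ hv : DW (π v) = 0, DV v = y u ∧ DV u = 0 ∧
      x = Hc.mk DW (π v) hv := by
    intro x
    obtain ⟨w, hw, rfl⟩ := Hc.exists_rep x
    obtain ⟨v, rfl⟩ := hπ w
    obtain ⟨u, hu⟩ := key (DV v) (by rw [← hDW]; exact hw)
    exact ⟨v, u, hw, hu.symm, hu0 v u hu.symm, rfl⟩
  -- (1)
  have h1 : LinearMap.range Y = LinearMap.ker ι := by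
    apply le_antisymm
    · rintro _ ⟨x, rfl⟩
      obtain ⟨v, hv, rfl⟩ := Hc.exists_rep x
      rw [LinearMap.mem_ker, hY, hι, Hc.map_mk, Hc.map_mk, Hc.mk_eq_zero]
      exact ⟨0, by rw [map_zero, hπy]⟩
    · intro x hx
      obtain ⟨v, hv, rfl⟩ := Hc.exists_rep x
      rw [LinearMap.mem_ker, hι, Hc.map_mk, Hc.mk_eq_zero] at hx
      obtain ⟨w, hw⟩ := hx
      obtain ⟨t, rfl⟩ := hπ w
      obtain ⟨u, hu⟩ := key (v - DV t) (by rw [map_sub, ← hDW, hw, sub_self])
      have hDu : DV u = 0 := by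
        apply hy
        rw [map_zero, ← hDy, hu, map_sub, hv, hD, sub_zero]
      refine ⟨Hc.mk DV u hDu, ?_⟩
      rw [hY, Hc.map_mk, Hc.mk_eq_mk]
      refine ⟨-t, ?_⟩
      rw [map_neg, hu]
      abel
  -- (2a)
  have h2 : LinearMap.range ι = LinearMap.ker δ := by
    apply le_antisymm
    · rintro _ ⟨x, rfl⟩
      obtain ⟨v, hv, rfl⟩ := Hc.exists_rep x
      rw [LinearMap.mem_ker, hι, Hc.map_mk, hδ v 0 _ (map_zero _) (by rw [hv, map_zero]),
        Hc.mk_eq_zero]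
      exact ⟨0, map_zero _⟩
    · intro x hx
      obtain ⟨v, u, hv, hvu, hu, rfl⟩ := rep x
      rw [LinearMap.mem_ker, hδ v u hv hu hvu, Hc.mk_eq_zero] at hx
      obtain ⟨t, ht⟩ := hx
      have hvt : DV (v - y t) = 0 := by rw [map_sub, hvu, hDy, ht, sub_self]
      refine ⟨Hc.mk DV (v - y t) hvt, ?_⟩
      rw [hι, Hc.map_mk, Hc.mk_eq_mk]
      refine ⟨0, ?_⟩
      rw [map_zero, map_sub, hπy]
      abel
  -- (2b)
  have h3 : LinearMap.range δ = LinearMap.ker Y := by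
    apply le_antisymm
    · rintro _ ⟨x, rfl⟩
      obtain ⟨v, u, hv, hvu, hu, rfl⟩ := rep x
      rw [LinearMap.mem_ker, hδ v u hv hu hvu, hY, Hc.map_mk, Hc.mk_eq_zero]
      exact ⟨v, hvu⟩
    · intro x hx
      obtain ⟨u, hu, rfl⟩ := Hc.exists_rep x
      rw [LinearMap.mem_ker, hY, Hc.map_mk, Hc.mk_eq_zero] at hx
      obtain ⟨v, hv⟩ := hx
      have hv' : DW (π v) = 0 := by rw [hDW, hv, hπy]
      exact ⟨Hc.mk DW (π v) hv', hδ v u hv' hu hv⟩
  -- commutation relations on cohomology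
  have cY : ∀ x, a (Y x) = Y ((c • a) x) := by
    intro x
    obtain ⟨v, hv, rfl⟩ := Hc.exists_rep x
    rw [LinearMap.smul_apply, map_smul, ha, hY, Hc.map_mk, Hc.map_mk, Hc.map_mk, Hc.map_mk,
      Hc.mk_smul, Hc.mk_eq_mk]
    exact ⟨0, by rw [map_zero, hAy, sub_self]⟩
  have cι : ∀ x, aW (ι x) = ι (a x) := by
    intro x
    obtain ⟨v, hv, rfl⟩ := Hc.exists_rep x
    rw [ha, haW, hι, Hc.map_mk, Hc.map_mk, Hc.map_mk, Hc.map_mk, Hc.mk_eq_mk]
    exact ⟨0, by rw [map_zero, hAW, sub_self]⟩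
  have cδ : ∀ x, δ (aW x) = (-1 : k) • (c • a) (δ x) := by
    intro x
    obtain ⟨v, u, hv, hvu, hu, rfl⟩ := rep x
    have e1 : DV (A v) = y ((-1 : k) • c • A u) := by
      rw [hA, hvu, hAy, map_smul, map_smul]
    have e2 : DW (π (A v)) = 0 := by rw [hDW, e1, hπy]
    have e3 : DV ((-1 : k) • c • A u) = 0 := hu0 _ _ e1
    have e4 : aW (Hc.mk DW (π v) hv) = Hc.mk DW (π (A v)) e2 := by
      rw [haW, Hc.map_mk, Hc.mk_eq_mk]
      exact ⟨0, by rw [map_zero, hAW, sub_self]⟩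
    rw [e4, hδ v u hv hu hvu, hδ (A v) _ e2 e3 e1, LinearMap.smul_apply, ha, Hc.map_mk,
      Hc.mk_smul, Hc.mk_smul]
  -- invariance
  have i1 : ∀ x ∈ LinearMap.ker ι, a x ∈ LinearMap.ker ι := by
    intro x hx
    rw [LinearMap.mem_ker] at hx ⊢
    rw [← cι, hx, map_zero]
  have i2 : ∀ x ∈ LinearMap.ker δ, aW x ∈ LinearMap.ker δ := by
    intro x hx
    rw [LinearMap.mem_ker] at hx ⊢
    rw [cδ, hx, map_zero, smul_zero]
  have i3 : ∀ x ∈ LinearMap.ker Y, (c • a) x ∈ LinearMap.ker Y := by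
    intro x hx
    rw [LinearMap.mem_ker] at hx ⊢
    rw [← cY, hx, map_zero]
  -- finiteness
  have fin1 : Module.Finite k (LinearMap.ker δ) := by
    rw [← h2]; infer_instance
  have fin2 : Module.Finite k (Hc DW ⧸ LinearMap.ker δ) :=
    Module.Finite.equiv δ.quotKerEquivRange.symm
  have fin : Module.Finite k (Hc DW) := Module.Finite.of_submodule_quotient (LinearMap.ker δ)
  refine ⟨fin, ?_⟩
  -- traces
  have t1 := trace_add_quot (LinearMap.ker δ) aW i2
  have t2 := kosStep_trace_quot_ker δ (LinearMap.ker Y) h3 aW (c • a) (-1) i2 i3 cδ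
  have t3 := kosStep_trace_quot_ker ι (LinearMap.ker δ) h2 a aW 1 i1 i2
    (fun x => by rw [one_smul, cι])
  have t4 := trace_add_quot (LinearMap.ker ι) a i1
  have t5 := kosStep_trace_quot_ker Y (LinearMap.ker ι) h1 (c • a) a 1 i3 i1
    (fun x => by rw [one_smul, cY])
  have t6 := trace_add_quot (LinearMap.ker Y) (c • a) i3
  rw [map_smul, smul_eq_mul] at t6
  rw [t1, t2]
  rw [t3] at t4
  rw [t5] at t6
  linear_combination (-1 : k) * t4 + t6

end KuMF
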