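import Pool.Agent.H91.MF.Ops

/-!
# Monomial submodules of `κ → S`

STATEMENTS TO PROVE (job MF-MON). `yOp e i` is the multiplication by `X_i^e` on `κ → S`.

`mem_iSup_yOp`: `v ∈ ⨆_{j ∈ J} range (yOp e j)` iff every monomial of every `v a` is divisible by
`X_j^e` for some `j ∈ J`. PROOF. (→) the right hand side is a submodule `N` containing
every `range (yOp e j)`: `support_add`, `support_smul`, support of `X_j^e * p`
(`MvPolynomial.support_X_mul`/`coeff_X_pow_mul'`/`coeff_monomial_mul'`); `iSup_le`.
(←) `v = ∑_a ∑_{m ∈ support} Pi.single a (monomial m c)`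
(`MvPolynomial.support_sum_monomial_coeff`), and
`Pi.single a (monomial m c) = yOp e j (Pi.single a (monomial (m - single j e) c))`;
`Submodule.sum_mem`, `Submodule.mem_iSup_of_mem`.
`yOp_regular`: immediate from `mem_iSup_yOp`: the monomials of `X_i^e v` are `m + e e_i`,
which at `j < i` takes the value `m j`.
`coef3`, `coef0`: coefficient maps; surjectivity by the sections `sec3`, `sec0`; kernels by
`mem_iSup_yOp` (`J = univ`): `m` with `m i < 3` for all `i` is `mon3 α`, `α i = m i`.
`trace_pi` : the trace of an operator on `κ → β → k` is the sum of its diagonal entries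
(`LinearMap.trace_eq_matrix_trace` with the basis `(Pi.basis fun _ => Pi.basisFun k β)`).
-/

open MvPolynomial

noncomputable section

namespace KuMF

variable {k : Type} [Field k] {n : ℕ} {κ : Type} [Fintype κ] [DecidableEq κ]

/-- Multiplication by `X_i^e` on `κ → S`. -/
def yOp (κ : Type) (k : Type) [Field k] (e : ℕ) (i : Fin n) :
    (κ → MvPolynomial (Fin n) k) →ₗ[k] (κ → MvPolynomial (Fin n) k) where
  toFun v a := X i ^ e * v a
  map_add' v w := by ext1 a; simp [mul_add]
  map_smul' c v := by ext1 a; simp

omit [Fintype κ] [DecidableEq κ] in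
lemma yOp_apply (e : ℕ) (i : Fin n) (v : κ → MvPolynomial (Fin n) k) (a : κ) :
    yOp κ k e i v a = X i ^ e * v a := rfl

/-- The vectors all of whose monomials are divisible by some `X_j^e`, `j ∈ J`. -/
def monN (κ : Type) (k : Type) [Field k] (e : ℕ) (J : Fin n → Prop) :
    Submodule k (κ → MvPolynomial (Fin n) k) where
  carrier := {v | ∀ a, ∀ m ∈ (v a).support, ∃ j, J j ∧ e ≤ m j}
  zero_mem' := by intro a m hm; simp at hm
  add_mem' := by
    classical
    intro v w hv hw a m hm
    rcases Finset.mem_union.1 (MvPolynomial.support_add hm) with h | h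
    · exact hv a m h
    · exact hw a m h
  smul_mem' := fun c v hv a m hm => hv a m (MvPolynomial.support_smul hm)

theorem mem_iSup_yOp (e : ℕ) (J : Fin n → Prop) (v : κ → MvPolynomial (Fin n) k) :
    v ∈ ⨆ (j : Fin n) (_ : J j), LinearMap.range (yOp κ k e j) ↔
      ∀ a, ∀ m ∈ (v a).support, ∃ j, J j ∧ e ≤ m j := by
  classical
  constructor
  · intro hv
    have hle : (⨆ (j : Fin n) (_ : J j), LinearMap.range (yOp κ k e j)) ≤ monN κ k e J := by
      refine iSup_le fun j => iSup_le fun hj => ?_
      rintro _ ⟨w, rfl⟩ a m hm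
      rw [yOp_apply, MvPolynomial.mem_support_iff, MvPolynomial.X_pow_eq_monomial,
        MvPolynomial.coeff_monomial_mul'] at hm
      refine ⟨j, hj, ?_⟩
      by_contra hlt
      apply hm
      rw [if_neg]
      intro hle
      have := hle j
      rw [Finsupp.single_eq_same] at this
      exact hlt this
    exact hle hv
  · intro h
    have e1 : v = ∑ a, ∑ m ∈ (v a).support,
        Pi.single a (monomial m (coeff m (v a)) : MvPolynomial (Fin n) k) := by
      funext b
      rw [Finset.sum_apply, Finset.sum_eq_single b]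
      · rw [Finset.sum_apply]
        simp only [Pi.single_eq_same]
        exact (MvPolynomial.support_sum_monomial_coeff (v b)).symm
      · intro a _ hab
        rw [Finset.sum_apply]
        exact Finset.sum_eq_zero fun m _ => Pi.single_eq_of_ne (Ne.symm hab) _
      · intro hb; exact absurd (Finset.mem_univ b) hb
    rw [e1]
    refine Submodule.sum_mem _ fun a _ => Submodule.sum_mem _ fun m hm => ?_
    obtain ⟨j, hj, hle⟩ := h a m hm
    refine Submodule.mem_iSup_of_mem j (Submodule.mem_iSup_of_mem hj ?_)
    refine ⟨Pi.single a (monomial (m - Finsupp.single j e) (coeff m (v a))), ?_⟩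
    funext b
    rw [yOp_apply]
    rcases eq_or_ne b a with rfl | hb
    · rw [Pi.single_eq_same, Pi.single_eq_same, MvPolynomial.X_pow_eq_monomial,
        MvPolynomial.monomial_mul, one_mul]
      have hm1 : Finsupp.single j e + (m - Finsupp.single j e) = m := by
        refine add_tsub_cancel_of_le ?_
        rw [Finsupp.single_le_iff]
        exact hle
      rw [hm1]
    · rw [Pi.single_eq_of_ne hb, Pi.single_eq_of_ne hb, mul_zero]

theorem mem_iSup_yOp' (e : ℕ) (v : κ → MvPolynomial (Fin n) k) :
    v ∈ ⨆ (j : Fin n), LinearMap.range (yOp κ k e j) ↔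
      ∀ a, ∀ m ∈ (v a).support, ∃ j, e ≤ m j := by
  have h := mem_iSup_yOp e (fun _ : Fin n => True) v
  simp only [iSup_pos, true_and] at h
  exact h

theorem yOp_regular (e : ℕ) (i : Fin n) (v : κ → MvPolynomial (Fin n) k)
    (h : yOp κ k e i v ∈ ⨆ (j : Fin n) (_ : j < i), LinearMap.range (yOp κ k e j)) :
    v ∈ ⨆ (j : Fin n) (_ : j < i), LinearMap.range (yOp κ k e j) := by
  rw [mem_iSup_yOp] at h ⊢
  intro a m hm
  have hm' : Finsupp.single i e + m ∈ (yOp κ k e i v a).support := by
    rw [yOp_apply, MvPolynomial.mem_support_iff, MvPolynomial.X_pow_eq_monomial,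
      MvPolynomial.coeff_monomial_mul, one_mul]
    exact MvPolynomial.mem_support_iff.1 hm
  obtain ⟨j, hj, hle⟩ := h a _ hm'
  refine ⟨j, hj, ?_⟩
  rwa [Finsupp.add_apply, Finsupp.single_eq_of_ne (ne_of_lt hj), zero_add] at hle

/-- The monomial with exponents `α`. -/
def mon3 (α : Fin n → Fin 3) : Fin n →₀ ℕ := Finsupp.equivFunOnFinite.symm fun i => (α i : ℕ)

/-- The coefficients at the monomials with exponents `≤ 2`. -/
def coef3 (κ : Type) (k : Type) [Field k] (n : ℕ) :
    (κ → MvPolynomial (Fin n) k) →ₗ[k] (κ → (Fin n → Fin 3) → k) where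
  toFun v a α := coeff (mon3 α) (v a)
  map_add' v w := by funext a α; simp
  map_smul' c v := by funext a α; simp

/-- The section of `coef3`. -/
def sec3 (κ : Type) (k : Type) [Field k] (n : ℕ) :
    (κ → (Fin n → Fin 3) → k) →ₗ[k] (κ → MvPolynomial (Fin n) k) where
  toFun w a := ∑ α, monomial (mon3 α) (w a α)
  map_add' v w := by funext a; simp [Finset.sum_add_distrib]
  map_smul' c v := by
    funext a
    simp only [RingHom.id_apply, Pi.smul_apply, Finset.smul_sum, smul_monomial, smul_eq_mul]

omit [Fintype κ] [DecidableEq κ] in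
theorem mon3_inj {α β : Fin n → Fin 3} (h : mon3 α = mon3 β) : α = β := by
  funext i
  have := DFunLike.congr_fun h i
  simpa [mon3, Fin.ext_iff] using this

omit [Fintype κ] [DecidableEq κ] in
theorem coef3_sec3 (w : κ → (Fin n → Fin 3) → k) : coef3 κ k n (sec3 κ k n w) = w := by
  classical
  funext a α
  show coeff (mon3 α) (∑ β, monomial (mon3 β) (w a β)) = w a α
  rw [MvPolynomial.coeff_sum, Finset.sum_eq_single α]
  · rw [MvPolynomial.coeff_monomial, if_pos rfl]
  · intro β _ hβ
    rw [MvPolynomial.coeff_monomial, if_neg]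
    exact fun h => hβ (mon3_inj h)
  · intro h; exact absurd (Finset.mem_univ α) h

theorem ker_coef3 :
    LinearMap.ker (coef3 κ k n) = ⨆ i, LinearMap.range (yOp κ k 3 (i : Fin n)) := by
  ext v
  rw [mem_iSup_yOp', LinearMap.mem_ker]
  constructor
  · intro h a m hm
    by_contra hcon
    push Not at hcon
    have h1 : m = mon3 (fun i => ⟨m i, hcon i⟩) := by
      ext i; simp [mon3]
    have h2 := congrFun (congrFun h a) (fun i => ⟨m i, hcon i⟩)
    rw [MvPolynomial.mem_support_iff] at hm
    apply hm
    rw [h1]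
    exact h2
  · intro h
    funext a α
    show coeff (mon3 α) (v a) = 0
    by_contra hne
    obtain ⟨j, hj⟩ := h a _ (MvPolynomial.mem_support_iff.2 hne)
    have : (mon3 α) j = (α j : ℕ) := by simp [mon3]
    rw [this] at hj
    have := (α j).2
    omega

/-- The constant coefficients. -/
def coef0 (κ : Type) (k : Type) [Field k] (n : ℕ) :
    (κ → MvPolynomial (Fin n) k) →ₗ[k] (κ → k) where
  toFun v a := coeff 0 (v a)
  map_add' v w := by funext a; simp
  map_smul' c v := by funext a; simp

/-- The section of `coef0`. -/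
def sec0 (κ : Type) (k : Type) [Field k] (n : ℕ) :
    (κ → k) →ₗ[k] (κ → MvPolynomial (Fin n) k) where
  toFun w a := C (w a)
  map_add' v w := by funext a; simp
  map_smul' c v := by funext a; simp [C_mul', smul_eq_mul]

omit [Fintype κ] [DecidableEq κ] in
theorem coef0_sec0 (w : κ → k) : coef0 κ k n (sec0 κ k n w) = w := by
  classical
  funext a
  show coeff 0 (C (w a)) = w a
  rw [MvPolynomial.coeff_C, if_pos rfl]

theorem ker_coef0 :
    LinearMap.ker (coef0 κ k n) = ⨆ i, LinearMap.range (yOp κ k 1 (i : Fin n)) := by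
  ext v
  rw [mem_iSup_yOp', LinearMap.mem_ker]
  constructor
  · intro h a m hm
    by_contra hcon
    push Not at hcon
    have h1 : m = 0 := by
      ext i
      have := hcon i
      simp only [Finsupp.coe_zero, Pi.zero_apply]
      omega
    rw [MvPolynomial.mem_support_iff] at hm
    apply hm
    rw [h1]
    exact congrFun h a
  · intro h
    funext a
    show coeff 0 (v a) = 0
    by_contra hne
    obtain ⟨j, hj⟩ := h a _ (MvPolynomial.mem_support_iff.2 hne)
    simp at hj

theorem trace_pi {β : Type} [Fintype β] [DecidableEq β]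
    (T : (κ → β → k) →ₗ[k] (κ → β → k)) :
    LinearMap.trace k (κ → β → k) T = ∑ a, ∑ b, T (Pi.single a (Pi.single b 1)) a b := by
  rw [LinearMap.trace_eq_matrix_trace k (Pi.basis fun _ : κ => Pi.basisFun k β), Matrix.trace,
    Fintype.sum_sigma]
  refine Finset.sum_congr rfl fun a _ => Finset.sum_congr rfl fun b _ => ?_
  rw [Matrix.diag_apply, LinearMap.toMatrix_apply, Pi.basis_apply, Pi.basis_repr]
  simp

theorem trace_pi' (T : (κ → k) →ₗ[k] (κ → k)) :
    LinearMap.trace k (κ → k) T = ∑ a, T (Pi.single a 1) a := by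
  rw [LinearMap.trace_eq_matrix_trace k (Pi.basisFun k κ), Matrix.trace]
  refine Finset.sum_congr rfl fun a _ => ?_
  rw [Matrix.diag_apply, LinearMap.toMatrix_apply]
  simp

end KuMF
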