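import Pool.Agent.H91.MF.Hc
import Pool.Agent.H91.MF.Defs

/-!
# Operators on `κ → S`, `S = k[x_1, …, x_n]`
-/

open MvPolynomial

noncomputable section

namespace KuMF

variable {k : Type} [Field k] {n : ℕ} {κ : Type} [Fintype κ] [DecidableEq κ]

/-- A matrix over polynomials as a `k`-linear operator. -/
def opM (D : Matrix κ κ (MvPolynomial (Fin n) k)) :
    (κ → MvPolynomial (Fin n) k) →ₗ[k] (κ → MvPolynomial (Fin n) k) :=
  (Matrix.mulVecLin D).restrictScalars k

lemma opM_apply (D : Matrix κ κ (MvPolynomial (Fin n) k)) (v : κ → MvPolynomial (Fin n) k) :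
    opM D v = D.mulVec v := rfl

/-- A diagonal operator with scalar entries. -/
def diagOp (n : ℕ) (σ : κ → k) :
    (κ → MvPolynomial (Fin n) k) →ₗ[k] (κ → MvPolynomial (Fin n) k) where
  toFun v a := σ a • v a
  map_add' v w := by ext1 a; simp [smul_add]
  map_smul' c v := by
    funext a
    simp only [RingHom.id_apply, Pi.smul_apply]
    exact smul_comm _ _ _

lemma diagOp_apply (σ : κ → k) (v : κ → MvPolynomial (Fin n) k) (a : κ) :
    diagOp n σ v a = σ a • v a := rfl

/-- The operator `x^m e_a ↦ ζ^(2 |m| + wt a) x^m e_a`, `ζ ≠ 0`. -/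
def wtOp (n : ℕ) (ζ : k) (wt : κ → ℤ) :
    (κ → MvPolynomial (Fin n) k) →ₗ[k] (κ → MvPolynomial (Fin n) k) where
  toFun v a := ζ ^ wt a • aeval (fun i => C (ζ ^ 2) * X i) (v a)
  map_add' v w := by ext1 a; simp [smul_add]
  map_smul' c v := by
    funext a
    simp only [RingHom.id_apply, Pi.smul_apply, map_smul]
    exact smul_comm _ _ _

lemma wtOp_apply (ζ : k) (wt : κ → ℤ) (v : κ → MvPolynomial (Fin n) k) (a : κ) :
    wtOp n ζ wt v a = ζ ^ wt a • aeval (fun i => C (ζ ^ 2) * X i) (v a) := rfl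

/-- `x_1^2 ⋯ x_n^2` -/
def topM (n : ℕ) : Fin n →₀ ℕ := Finsupp.equivFunOnFinite.symm fun _ => 2

lemma topM_apply (i : Fin n) : topM n i = 2 := rfl

lemma opM_sq {D : Matrix κ κ (MvPolynomial (Fin n) k)} (hD : D * D = 0)
    (v : κ → MvPolynomial (Fin n) k) : opM D (opM D v) = 0 := by
  rw [opM_apply, opM_apply, Matrix.mulVec_mulVec, hD, Matrix.zero_mulVec]

lemma diagOp_anti {D : Matrix κ κ (MvPolynomial (Fin n) k)} {σ : κ → k}
    (hσ : ∀ a b, D a b ≠ 0 → σ a = -σ b) (v : κ → MvPolynomial (Fin n) k) :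
    opM D (diagOp n σ v) = (-1 : k) • diagOp n σ (opM D v) := by
  funext a
  rw [opM_apply, opM_apply, Pi.smul_apply, diagOp_apply, Matrix.mulVec, Matrix.mulVec,
    dotProduct, dotProduct, Finset.smul_sum, Finset.smul_sum]
  refine Finset.sum_congr rfl fun b _ => ?_
  rw [diagOp_apply]
  by_cases h : D a b = 0
  · simp [h]
  · rw [hσ a b h, smul_smul, mul_smul_comm]
    congr 1
    ring

end KuMF
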