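import Pool.Agent.H91.MF.Hc

/-!
# One step: killing a null-homotopic nonzerodivisor

STATEMENT TO PROVE (job MF-STEP). `V`, `W` with differentials, `π : V → W` surjective with kernel
`y V`, `y` injective commuting with `DV`, `DV l + l DV = y`, `nb y - y nb = 1`,
`DV A = - A DV`, and operators `AW`, `aW`, `lW` on `W` induced by `A`, `nb DV - DV nb`, `l`.
If `Hc DW` is finite dimensional, so is `Hc DV`, and
`tr (A on Hc DV) = tr (AW aW lW on Hc DW)`.

PROOF. Write `ι = Hc.map π 1`. All identities on `W` are checked on `π v`.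
(0) `DW (aW w) = - aW (DW w)` : `DV (nb DV v - DV nb v) = DV nb DV v`,
    `nb DV DV v - DV nb DV v = - DV nb DV v`. `DW (lW w) = - lW (DW w)`: `DV l v + l DV v = y v` and
    `π (y v) = 0`. `DW (AW w) = - AW (DW w)`. Hence `h'` (three signs).
(1) `ι` is injective: if `DV c = 0` and `π c = DW (π v)` (π surjective), then `π (c - DV v) = 0`,
    so `c - DV v = y u`; `y (DV u) = DV (y u) = DV c - DV DV v = 0` so `DV u = 0`;
    `y u = DV (l u) + l (DV u) = DV (l u)`; so `c = DV (v + l u)`. Hence `Hc DV` is finite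
    dimensional (`Module.Finite.of_injective`).
(2) KEY: if `DV v = y u` then `DV u = 0` (y injective) and
    `aW (π v) = π u + DW (π (-nb v))`: `nb DV v - DV nb v = nb (y u) - DV nb v = u + y nb u - DV nb v`.
(3) the operator `a = Hc.map aW (-1)` has range in `range ι`: a cocycle `w = π v` has
    `π (DV v) = 0`, so `DV v = y u`, apply (2).
(4) `a (λ (ι c)) = ι c` for `λ = Hc.map lW (-1)`: `v = l c` has `DV v = y c - l (DV c) = y c`,
    apply (2) with `u = c`.
(5) So `T = AW aW lW` on `Hc DW` maps into `N = range ι` (because `AW ι x = ι A x`), and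
    `T (ι x) = AW (ι x) = ι (A x)`. By `LinearMap.trace_restrict_eq_of_forall_mem`
    `tr T = tr (T | N)`, and `LinearEquiv.ofInjective ι` conjugates `A` to `T | N`
    (`LinearMap.trace_conj'`).
-/

noncomputable section

namespace KuMF

variable {k : Type*} [Field k] {V W : Type*} [AddCommGroup V] [Module k V] [AddCommGroup W]
  [Module k W]

theorem one_step (DV A y l nb : V →ₗ[k] V) (DW AW lW aW : W →ₗ[k] W) (π : V →ₗ[k] W)
    (hD : ∀ v, DV (DV v) = 0) (hπ : Function.Surjective π)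
    (hker : LinearMap.ker π = LinearMap.range y) (hy : Function.Injective y)
    (hDy : ∀ v, DV (y v) = y (DV v)) (hl : ∀ v, DV (l v) + l (DV v) = y v)
    (hnb : ∀ v, nb (y v) - y (nb v) = v)
    (hA : ∀ v, DV (A v) = (-1 : k) • A (DV v))
    (hDW : ∀ v, DW (π v) = π (DV v)) (hAW : ∀ v, AW (π v) = π (A v))
    (hlW : ∀ v, lW (π v) = π (l v)) (haW : ∀ v, aW (π v) = π (nb (DV v) - DV (nb v)))
    [Module.Finite k (Hc DW)] :
    ∃ h' : ∀ w, DW ((AW ∘ₗ aW ∘ₗ lW) w) = (-1 : k) • (AW ∘ₗ aW ∘ₗ lW) (DW w),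
      Module.Finite k (Hc DV) ∧
      LinearMap.trace k (Hc DV) (Hc.map A (-1) neg_one_ne hA) =
        LinearMap.trace k (Hc DW) (Hc.map (AW ∘ₗ aW ∘ₗ lW) (-1) neg_one_ne h') := by
  have ha : ∀ w, DW (aW w) = (-1 : k) • aW (DW w) := by
    intro w
    obtain ⟨v, rfl⟩ := hπ w
    rw [haW, hDW, hDW, haW, hD, map_zero, zero_sub, map_sub, hD, sub_zero, map_neg, smul_neg,
      neg_one_smul, neg_neg]
  have hπy : ∀ v, π (y v) = 0 := by
    intro v
    have h2 : y v ∈ LinearMap.ker π := by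
      rw [hker]
      exact ⟨v, rfl⟩
    exact h2
  have hl' : ∀ w, DW (lW w) = (-1 : k) • lW (DW w) := by
    intro w
    obtain ⟨v, rfl⟩ := hπ w
    rw [hlW, hDW, hDW, hlW, neg_one_smul, eq_neg_iff_add_eq_zero, ← map_add, hl, hπy]
  have hA' : ∀ w, DW (AW w) = (-1 : k) • AW (DW w) := by
    intro w
    obtain ⟨v, rfl⟩ := hπ w
    rw [hAW, hDW, hDW, hAW, hA, map_smul]
  have h' : ∀ w, DW ((AW ∘ₗ aW ∘ₗ lW) w) = (-1 : k) • (AW ∘ₗ aW ∘ₗ lW) (DW w) := by
    intro w
    simp only [LinearMap.comp_apply]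
    rw [hA', ha, hl', map_smul, map_smul, map_smul, smul_smul, smul_smul]
    norm_num
  refine ⟨h', ?_⟩
  have hι0 : ∀ v, DW (π v) = (1 : k) • π (DV v) := fun v => by rw [one_smul, hDW]
  -- key identity
  have key : ∀ v u, DV v = y u → DV u = 0 ∧ aW (π v) = π u + DW (π (-nb v)) := by
    intro v u h1
    constructor
    · apply hy
      rw [map_zero, ← hDy, ← h1, hD]
    · have h3 : nb (y u) = u + y (nb u) := by
        rw [← sub_eq_iff_eq_add, hnb]
      rw [haW, hDW, h1, h3, map_sub, map_add, hπy, add_zero, map_neg, map_neg, sub_eq_add_neg]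
  have inj : Function.Injective (Hc.map π (1 : k) one_ne_zero hι0) := by
    rw [injective_iff_map_eq_zero]
    intro x hx
    obtain ⟨c, hc, rfl⟩ := Hc.exists_rep x
    rw [Hc.map_mk, Hc.mk_eq_zero] at hx
    obtain ⟨w, hw⟩ := hx
    obtain ⟨v, rfl⟩ := hπ w
    rw [hDW] at hw
    have h1 : c - DV v ∈ LinearMap.ker π := by
      rw [LinearMap.mem_ker, map_sub, hw, sub_self]
    rw [hker] at h1
    obtain ⟨u, hu⟩ := h1
    have h2 : DV u = 0 := by
      apply hy
      rw [map_zero, ← hDy, hu, map_sub, hc, hD, sub_zero]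
    have h3 : y u = DV (l u) := by
      rw [← hl, h2, map_zero, add_zero]
    rw [Hc.mk_eq_zero]
    refine ⟨v + l u, ?_⟩
    rw [map_add, ← h3, hu]
    abel
  have hfin : Module.Finite k (Hc DV) := Module.Finite.of_injective _ inj
  refine ⟨hfin, ?_⟩
  -- `T` maps into the range of `ι`
  have hT : ∀ x, Hc.map (AW ∘ₗ aW ∘ₗ lW) (-1 : k) neg_one_ne h' x ∈
      LinearMap.range (Hc.map π (1 : k) one_ne_zero hι0) := by
    intro x
    obtain ⟨w, hw, rfl⟩ := Hc.exists_rep x
    obtain ⟨v, hv⟩ := hπ (lW w)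
    have h1 : π (DV v) = 0 := by
      rw [← hDW, hv, hl', hw, map_zero, smul_zero]
    have h2 : DV v ∈ LinearMap.ker π := h1
    rw [hker] at h2
    obtain ⟨u, hu⟩ := h2
    obtain ⟨h3, h4⟩ := key v u hu.symm
    refine ⟨Hc.mk DV (A u) (by rw [hA, h3, map_zero, smul_zero]), ?_⟩
    rw [Hc.map_mk, Hc.map_mk, Hc.mk_eq_mk]
    refine ⟨AW (π (-nb v)), ?_⟩
    simp only [LinearMap.comp_apply]
    have h5 := hA' (π (-nb v))
    have h6 := hAW u
    rw [neg_one_smul] at h5
    rw [← hv, h4, map_add, h5, h6]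
    abel
  -- `T (ι x) = ι (A x)`
  have hTι : ∀ x, Hc.map (AW ∘ₗ aW ∘ₗ lW) (-1 : k) neg_one_ne h'
      (Hc.map π (1 : k) one_ne_zero hι0 x) =
      Hc.map π (1 : k) one_ne_zero hι0 (Hc.map A (-1 : k) neg_one_ne hA x) := by
    intro x
    obtain ⟨c, hc, rfl⟩ := Hc.exists_rep x
    have h1 : DV (l c) = y c := by
      rw [← hl, hc, map_zero, add_zero]
    obtain ⟨_, h4⟩ := key (l c) c h1
    rw [Hc.map_mk, Hc.map_mk, Hc.map_mk, Hc.map_mk, Hc.mk_eq_mk]
    refine ⟨-AW (π (-nb (l c))), ?_⟩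
    simp only [LinearMap.comp_apply]
    have h5 := hA' (π (-nb (l c)))
    have h6 := hAW c
    rw [neg_one_smul] at h5
    rw [hlW, h4, map_add, h6, map_neg, h5]
    abel
  rw [← LinearMap.trace_restrict_eq_of_forall_mem _ _ hT,
    ← LinearMap.trace_conj' (Hc.map A (-1 : k) neg_one_ne hA) (LinearEquiv.ofInjective _ inj)]
  congr 1
  apply LinearMap.ext
  rintro ⟨x, hx⟩
  obtain ⟨x0, rfl⟩ := hx
  apply Subtype.ext
  rw [LinearEquiv.conj_apply]
  simp only [LinearMap.comp_apply, LinearEquiv.coe_coe]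
  have h5 : (LinearEquiv.ofInjective _ inj).symm
      ⟨Hc.map π (1 : k) one_ne_zero hι0 x0, ⟨x0, rfl⟩⟩ = x0 := by
    rw [LinearEquiv.symm_apply_eq]
    rfl
  rw [h5]
  exact (hTι x0).symm

end KuMF
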