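import Pool.Agent.H91.MF.HomC
import Pool.Agent.H91.MF.Kos
import Pool.Agent.H91.MF.CommProd
import Pool.Agent.H91.MF.NcProd

/-!
# Expansion of the trace for the Hom complex, and the closedness relations

Notation: `Q = F.Q`, `N = E.Qᵀ`, `s = sg F`, `t = sg E`, `Λ_j` odd with `Q Λ_j + Λ_j Q = x_j^3`,
`p_j = ∂_j f`, `vF j = -(s Λ_j)`, `uF j = (∂_j Q) Λ_j`, `rE j = (∂_j N) t`,
`PF A = ∏_j (if j ∈ A then vF j else uF j)`, `PE A = ∏_j (if j ∈ A then rE j else 1)`
(lists in the order `0..n-1`), `gF A = tr (s PF A)`, `cE A = tr (t PE A)`.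

STATEMENTS TO PROVE (job MF-VAN1).
`van_expand`: `(∂_j hD)(Λ_j ⊗ 1) = uF j ⊗ 1 + vF j ⊗ rE j` (`∂_j` kills the constant matrices
`s`, `t`, `1`), `list_prod_add`, `(List.ofFn fun j => a j ⊗ₖ b j).prod = (∏ a) ⊗ₖ (∏ b)`
(`Matrix.mul_kronecker_mul`), `∑_a C (hsg a) M a a = tr ((s ⊗ₖ t) M)`
(`hsg (i,j) = (-1)^(w i) (-1)^(w j)`), `Matrix.trace_kronecker`.
`cE_rel`: `N² = f`, so `∂_j N * N + N * ∂_j N = p_j` (apply `pderiv j` entrywise to `N * N = f • 1`),
`N t = - t N` (from `sg_mul`/parity), hence `N (rE j) - (rE j) N = p_j • t`, `(rE j) t = - t (rE j)`.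
`comm_ofFn` with `Q := N`, `s := t`, `a j = if j ∈ B then rE j else 1`, `b j = 1`,
`ε j = if j ∈ B then -1 else 1`, `c j = if j ∈ B then p_j else 0`; take traces
(`Matrix.trace_mul_comm`: the left side has trace zero); `Function.update a j 1` is the family of
`B.erase j`; `∏_{i<j} ε_i = ks B j`.
`gF_rel`: modulo the ideal `I = (x_i^3)` (map all matrices to `Matrix _ _ (S ⧸ I)`):
`[Q, vF j] = s (Q Λ_j + Λ_j Q) = x_j^3 s = 0`,
`[Q, uF j] = (p_j - ∂_j Q Q) Λ_j - ∂_j Q (x_j^3 - Q Λ_j) = p_j Λ_j = - p_j s (vF j)`,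
`(vF j) s = - s (vF j)`, `(uF j) s = s (uF j)`. `comm_ofFn` with
`a j = if j ∈ B then vF j else uF j`, `b j = vF j`, `ε j = if j ∈ B then -1 else 1`,
`c j = if j ∈ B then 0 else - p_j`; traces; for `j ∉ B` `Function.update a j (vF j)` is the family of
`insert j B`.
`cE_wt`: `rE j` has entries `i i'` of weight `w i - w i' + 1` (`∂_j` lowers the weight by `2`), so
`cE A` has weight `|A|`. `gF_univ`: if `Q M + M Q = q`, `M` odd, then `q gF univ ∈ I`: mod `I`,
with `P = ∏ vF j`, `[Q, P] = 0` (`comm_ofFn` with `c = 0`),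
`q tr(s P) = tr (s (Q M + M Q) P) = tr (s Q M P) + tr (s M P Q) = tr ((s Q + Q s) M P) = 0`.
-/

open MvPolynomial
open scoped Kronecker

noncomputable section

namespace KuMF

namespace MF

variable {k : Type} [Field k] {n : ℕ} {f : MvPolynomial (Fin n) k}

/-- `(∂_j Q) Λ_j` -/
def uF (F : MF f) (Λ : Fin n → Matrix F.ι F.ι (MvPolynomial (Fin n) k)) (j : Fin n) :
    Matrix F.ι F.ι (MvPolynomial (Fin n) k) := F.Q.map (pderiv j) * Λ j

/-- `-(Σ Λ_j)` -/
def vF (F : MF f) (Λ : Fin n → Matrix F.ι F.ι (MvPolynomial (Fin n) k)) (j : Fin n) :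
    Matrix F.ι F.ι (MvPolynomial (Fin n) k) := -(sg F * Λ j)

/-- `(∂_j Qᵀ) Σ` -/
def rE (E : MF f) (j : Fin n) : Matrix E.ι E.ι (MvPolynomial (Fin n) k) :=
  E.Q.transpose.map (pderiv j) * sg E

/-- `tr (Σ ∏ (vF or uF))` -/
def gF (F : MF f) (Λ : Fin n → Matrix F.ι F.ι (MvPolynomial (Fin n) k)) (A : Finset (Fin n)) :
    MvPolynomial (Fin n) k :=
  (sg F * (List.ofFn fun j => if j ∈ A then vF F Λ j else uF F Λ j).prod).trace

/-- `tr (Σ ∏_{j ∈ A} rE j)` -/
def cE (E : MF f) (A : Finset (Fin n)) : MvPolynomial (Fin n) k :=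
  (sg E * (List.ofFn fun j => if j ∈ A then rE E j else 1).prod).trace

/-- The ideal `(x_i^3)`. -/
def I3 (k : Type) [Field k] (n : ℕ) : Ideal (MvPolynomial (Fin n) k) :=
  Ideal.span (Set.range fun i => X i ^ 3)

/-! ### helper lemmas -/

lemma v1_map_mul {α β γ : Type*} [Fintype β] (j : Fin n) (A : Matrix α β (MvPolynomial (Fin n) k))
    (B : Matrix β γ (MvPolynomial (Fin n) k)) :
    (A * B).map (pderiv j) = A.map (pderiv j) * B + A * B.map (pderiv j) := by
  ext1 a c
  simp only [Matrix.map_apply, Matrix.mul_apply, Matrix.add_apply, map_sum, Derivation.leibniz,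
    smul_eq_mul]
  rw [← Finset.sum_add_distrib]
  refine Finset.sum_congr rfl fun b _ => ?_
  ring

lemma v1_map_neg {α β : Type*} (j : Fin n) (A : Matrix α β (MvPolynomial (Fin n) k)) :
    (-A).map (pderiv j) = -(A.map (pderiv j)) := by
  ext1 a c
  simp only [Matrix.map_apply, Matrix.neg_apply, map_neg]

lemma v1_map_sg (E : MF f) (j : Fin n) : (sg E).map (pderiv j) = 0 := by
  ext1 a c
  rw [Matrix.map_apply, sg, Matrix.zero_apply]
  rcases eq_or_ne a c with h | h
  · rw [h, Matrix.diagonal_apply_eq, pderiv_C]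
  · rw [Matrix.diagonal_apply_ne _ h, map_zero]

lemma v1_map_smul_one {α : Type*} [DecidableEq α] (j : Fin n) (p : MvPolynomial (Fin n) k) :
    (p • (1 : Matrix α α (MvPolynomial (Fin n) k))).map (pderiv j) =
      (pderiv j p) • (1 : Matrix α α (MvPolynomial (Fin n) k)) := by
  ext1 a c
  rw [Matrix.map_apply, Matrix.smul_apply, Matrix.smul_apply]
  rcases eq_or_ne a c with h | h
  · rw [h, Matrix.one_apply_eq, smul_eq_mul, smul_eq_mul, mul_one, mul_one]
  · rw [Matrix.one_apply_ne h, smul_zero, smul_zero, map_zero]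

lemma v1_list_kron {α β : Type*} [Fintype α] [Fintype β] [DecidableEq α] [DecidableEq β] (m : ℕ) :
    ∀ (a : Fin m → Matrix α α (MvPolynomial (Fin n) k))
      (b : Fin m → Matrix β β (MvPolynomial (Fin n) k)),
    (List.ofFn fun i => a i ⊗ₖ b i).prod = (List.ofFn a).prod ⊗ₖ (List.ofFn b).prod := by
  induction m with
  | zero => intro a b; simp
  | succ m ih =>
    intro a b
    rw [List.ofFn_succ, List.ofFn_succ, List.ofFn_succ, List.prod_cons, List.prod_cons,
      List.prod_cons, ih (fun i => a i.succ) (fun i => b i.succ), Matrix.mul_kronecker_mul]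

lemma v1_sn_neg (w : ℤ) : sn k (-w) = sn k w := by
  rw [sn, sn, Int.negOnePow_neg]

lemma v1_trace_sg (E : MF f) (M : Matrix E.ι E.ι (MvPolynomial (Fin n) k)) :
    (sg E * M).trace = ∑ i, C (sn k (E.w i)) * M i i := by
  rw [Matrix.trace]
  refine Finset.sum_congr rfl fun i _ => ?_
  rw [Matrix.diag_apply, sg, Matrix.diagonal_mul]

lemma v1_trace_kron (E F : MF f) (M : Matrix F.ι F.ι (MvPolynomial (Fin n) k))
    (N : Matrix E.ι E.ι (MvPolynomial (Fin n) k)) :
    ∑ a, C (hsg E F a) * (M ⊗ₖ N) a a = (sg F * M).trace * (sg E * N).trace := by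
  rw [v1_trace_sg, v1_trace_sg, Finset.sum_mul_sum, ← Finset.univ_product_univ,
    Finset.sum_product]
  refine Finset.sum_congr rfl fun i _ => Finset.sum_congr rfl fun j _ => ?_
  rw [hsg, hwt, sub_eq_add_neg, sn_add, v1_sn_neg, C_mul, Matrix.kroneckerMap_apply]
  ring

lemma v1_hD_map (E F : MF f) (i : Fin n) :
    (hD E F).map (pderiv i) =
      (F.Q.map (pderiv i)) ⊗ₖ (1 : Matrix E.ι E.ι (MvPolynomial (Fin n) k)) -
        sg F ⊗ₖ (rE E i) := by
  have h1 : (E.Q.transpose * sg E).map (pderiv i) = rE E i := by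
    rw [v1_map_mul, v1_map_sg, Matrix.mul_zero, add_zero, rE]
  ext1 a b
  rw [Matrix.map_apply, hD, Matrix.sub_apply, map_sub, Matrix.sub_apply,
    Matrix.kroneckerMap_apply, Matrix.kroneckerMap_apply, Matrix.kroneckerMap_apply,
    Matrix.kroneckerMap_apply, Derivation.leibniz, Derivation.leibniz, ← h1]
  have h2 : pderiv i ((1 : Matrix E.ι E.ι (MvPolynomial (Fin n) k)) a.2 b.2) = 0 := by
    rcases eq_or_ne a.2 b.2 with h | h
    · rw [h, Matrix.one_apply_eq, ← C_1, pderiv_C]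
    · rw [Matrix.one_apply_ne h, map_zero]
  have h3 : pderiv i (sg F a.1 b.1) = 0 := by
    have := congrFun (congrFun (v1_map_sg F i) a.1) b.1
    rwa [Matrix.map_apply] at this
  rw [h2, h3, Matrix.map_apply, Matrix.map_apply]
  simp only [smul_eq_mul]
  ring

theorem van_expand (E F : MF f) (Λ : Fin n → Matrix F.ι F.ι (MvPolynomial (Fin n) k)) :
    ∑ a, C (hsg E F a) * (List.ofFn fun i => (hD E F).map (pderiv i) *
        (Λ i ⊗ₖ (1 : Matrix E.ι E.ι (MvPolynomial (Fin n) k)))).prod a a =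
      ∑ A : Finset (Fin n), gF F Λ A * cE E A := by
  have h1 : ∀ i, (hD E F).map (pderiv i) *
      (Λ i ⊗ₖ (1 : Matrix E.ι E.ι (MvPolynomial (Fin n) k))) =
      uF F Λ i ⊗ₖ (1 : Matrix E.ι E.ι (MvPolynomial (Fin n) k)) + vF F Λ i ⊗ₖ rE E i := by
    intro i
    rw [v1_hD_map, Matrix.sub_mul, ← Matrix.mul_kronecker_mul, ← Matrix.mul_kronecker_mul,
      Matrix.mul_one, Matrix.mul_one, uF, vF]
    ext1 a b
    simp only [Matrix.sub_apply, Matrix.add_apply, Matrix.kroneckerMap_apply, Matrix.neg_apply]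
    ring
  have h2 : (List.ofFn fun i => (hD E F).map (pderiv i) *
      (Λ i ⊗ₖ (1 : Matrix E.ι E.ι (MvPolynomial (Fin n) k)))).prod =
      ∑ A : Finset (Fin n), (List.ofFn fun j => if j ∈ A then vF F Λ j else uF F Λ j).prod ⊗ₖ
        (List.ofFn fun j => if j ∈ A then rE E j else 1).prod := by
    simp only [h1]
    rw [list_prod_add]
    refine Finset.sum_congr rfl fun A _ => ?_
    rw [← v1_list_kron]
    congr 2
    funext i
    split_ifs <;> rfl
  rw [h2]
  have h3 : ∀ a, (∑ A : Finset (Fin n),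
      (List.ofFn fun j => if j ∈ A then vF F Λ j else uF F Λ j).prod ⊗ₖ
        (List.ofFn fun j => if j ∈ A then rE E j else 1).prod) a a =
      ∑ A : Finset (Fin n), ((List.ofFn fun j => if j ∈ A then vF F Λ j else uF F Λ j).prod ⊗ₖ
        (List.ofFn fun j => if j ∈ A then rE E j else 1).prod) a a := by
    intro a
    rw [Matrix.sum_apply]
  simp only [h3, Finset.mul_sum]
  rw [Finset.sum_comm]
  refine Finset.sum_congr rfl fun A _ => ?_
  rw [v1_trace_kron, gF, cE]

lemma v1_ks_prod (B : Finset (Fin n)) (j : Fin n) :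
    ∏ i ∈ Finset.univ.filter (· < j), (if i ∈ B then (-1 : ℤ) else 1) = ks B j := by
  rw [← Finset.prod_filter, Finset.prod_const, ks, Finset.filter_filter]
  congr 2
  ext i
  simp only [Finset.mem_filter, Finset.mem_univ, true_and]
  exact and_comm

lemma v1_dN (E : MF f) (j : Fin n) :
    E.Q.transpose.map (pderiv j) * E.Q.transpose + E.Q.transpose * E.Q.transpose.map (pderiv j) =
      (pderiv j f) • (1 : Matrix E.ι E.ι (MvPolynomial (Fin n) k)) := by
  rw [← v1_map_mul, Qt_sq, v1_map_smul_one]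

lemma v1_dN_sg (E : MF f) (j : Fin n) :
    E.Q.transpose.map (pderiv j) * sg E = -(sg E * E.Q.transpose.map (pderiv j)) := by
  have h := congrArg (fun M : Matrix E.ι E.ι (MvPolynomial (Fin n) k) => M.map (pderiv j))
    (Qt_sg E)
  simp only [v1_map_neg, v1_map_mul, v1_map_sg, Matrix.mul_zero, add_zero, Matrix.zero_mul,
    zero_add] at h
  exact h

theorem cE_rel (E : MF f) (B : Finset (Fin n)) :
    ∑ j ∈ B, ks B j • (pderiv j f * cE E (B.erase j)) = 0 := by
  classical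
  have hs1 : ∀ j, rE E j * sg E = -(sg E * rE E j) := by
    intro j
    rw [rE, Matrix.mul_assoc, sg_sq, Matrix.mul_one, ← Matrix.mul_assoc, ← neg_eq_iff_eq_neg.2
      (v1_dN_sg E j), neg_mul, Matrix.mul_assoc, sg_sq, Matrix.mul_one, neg_neg]
  have hs2 : ∀ j, E.Q.transpose * rE E j - rE E j * E.Q.transpose = (pderiv j f) • sg E := by
    intro j
    have h1 : rE E j * E.Q.transpose = -(E.Q.transpose.map (pderiv j) * E.Q.transpose * sg E) := by
      rw [rE, Matrix.mul_assoc, Matrix.mul_assoc, Qt_sg, Matrix.mul_neg, neg_neg]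
    rw [h1, sub_neg_eq_add, rE, ← Matrix.mul_assoc, ← Matrix.add_mul, add_comm, v1_dN,
      Matrix.smul_mul, Matrix.one_mul]
  have key := comm_ofFn (S := MvPolynomial (Fin n) k) n E.Q.transpose (sg E)
    (fun j => if j ∈ B then rE E j else 1) (fun _ => 1) (fun j => if j ∈ B then (-1 : ℤ) else 1)
    (fun j => if j ∈ B then pderiv j f else 0)
    (by
      intro i
      split_ifs
      · rw [hs1, neg_one_smul]
      · rw [one_smul, Matrix.one_mul, Matrix.mul_one])
    (by
      intro i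
      split_ifs
      · rw [hs2, Matrix.mul_one]
      · rw [zero_smul, Matrix.one_mul, Matrix.mul_one, sub_self])
  have h0 := congrArg Matrix.trace key
  rw [Matrix.trace_sub, Matrix.trace_mul_comm, sub_self, Matrix.trace_sum] at h0
  rw [h0, ← Finset.sum_filter_add_sum_filter_not Finset.univ (fun j => j ∈ B)]
  have h1 : ∀ j ∈ Finset.univ.filter (fun j => ¬ j ∈ B),
      ((∏ i ∈ Finset.univ.filter (· < j), (if i ∈ B then (-1 : ℤ) else 1)) •
        (if j ∈ B then pderiv j f else 0) • (sg E * (List.ofFn (Function.update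
          (fun j => if j ∈ B then rE E j else 1) j 1)).prod)).trace = 0 := by
    intro j hj
    rw [if_neg (Finset.mem_filter.1 hj).2, zero_smul, smul_zero, Matrix.trace_zero]
  rw [Finset.sum_congr rfl h1, Finset.sum_const_zero, add_zero]
  have h2 : Finset.univ.filter (fun j => j ∈ B) = B := by ext; simp
  rw [h2]
  refine Finset.sum_congr rfl fun j hj => ?_
  rw [v1_ks_prod, if_pos hj, Matrix.trace_smul, Matrix.trace_smul, cE, smul_eq_mul]
  congr 4
  congr 1
  congr 1
  funext i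
  rcases eq_or_ne i j with rfl | h
  · simp
  · rw [Function.update_of_ne h]
    simp [h]

section quot

variable (F : MF f) (Λ : Fin n → Matrix F.ι F.ι (MvPolynomial (Fin n) k))

lemma v1_dQ (j : Fin n) :
    F.Q.map (pderiv j) * F.Q + F.Q * F.Q.map (pderiv j) =
      (pderiv j f) • (1 : Matrix F.ι F.ι (MvPolynomial (Fin n) k)) := by
  rw [← v1_map_mul, F.sq, v1_map_smul_one]

lemma v1_dQ_sg (j : Fin n) : sg F * F.Q.map (pderiv j) = -(F.Q.map (pderiv j) * sg F) := by
  have h := congrArg (fun M : Matrix F.ι F.ι (MvPolynomial (Fin n) k) => M.map (pderiv j))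
    (sg_mul_three (Q_mem F))
  simp only [v1_map_neg, v1_map_mul, v1_map_sg, Matrix.mul_zero, add_zero, Matrix.zero_mul,
    zero_add] at h
  exact h

variable {R : Type} [CommRing R] (φ : MvPolynomial (Fin n) k →+* R)

/-- reduction along a ring map (used modulo `(x_i^3)`) -/
def qm (F : MF f) : Matrix F.ι F.ι (MvPolynomial (Fin n) k) →+* Matrix F.ι F.ι R :=
  φ.mapMatrix

lemma qm_trace (M : Matrix F.ι F.ι (MvPolynomial (Fin n) k)) :
    φ M.trace = (qm φ F M).trace := by
  rw [Matrix.trace, Matrix.trace, map_sum]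
  rfl

lemma qm_smul (p : MvPolynomial (Fin n) k) (M : Matrix F.ι F.ι (MvPolynomial (Fin n) k)) :
    qm φ F (p • M) = φ p • qm φ F M := by
  ext1 a b
  change φ (p * M a b) = _
  rw [map_mul]
  rfl

lemma qm_list (m : ℕ) (a : Fin m → Matrix F.ι F.ι (MvPolynomial (Fin n) k)) :
    qm φ F (List.ofFn a).prod = (List.ofFn fun i => qm φ F (a i)).prod := by
  rw [map_list_prod, List.map_ofFn]
  rfl

lemma qm_zero (hφ : ∀ j, φ (X j ^ 3) = 0) {j : Fin n} (h : F.Q * Λ j + Λ j * F.Q =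
      (X j ^ 3 : MvPolynomial (Fin n) k) • (1 : Matrix F.ι F.ι (MvPolynomial (Fin n) k))) :
    qm φ F F.Q * qm φ F (Λ j) + qm φ F (Λ j) * qm φ F F.Q = 0 := by
  rw [← map_mul, ← map_mul, ← map_add, h, qm_smul, hφ j, zero_smul]

variable {F Λ}

lemma v1_v_s (hΛ : ∀ j, Λ j ∈ Hom F F 3) (j : Fin n) : vF F Λ j * sg F = -(sg F * vF F Λ j) := by
  have h1 := sg_mul_three (hΛ j)
  rw [vF, h1, neg_neg, Matrix.mul_assoc, sg_sq, Matrix.mul_one, ← Matrix.mul_assoc, h1,
    Matrix.neg_mul, Matrix.mul_assoc, sg_sq, Matrix.mul_one, neg_neg]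

lemma v1_u_s (hΛ : ∀ j, Λ j ∈ Hom F F 3) (j : Fin n) : uF F Λ j * sg F = sg F * uF F Λ j := by
  have h1 := sg_mul_three (hΛ j)
  rw [uF, ← Matrix.mul_assoc, v1_dQ_sg, Matrix.neg_mul, Matrix.mul_assoc _ (sg F), h1,
    Matrix.mul_neg, neg_neg, Matrix.mul_assoc]

lemma v1_Q_v (hφ : ∀ j, φ (X j ^ 3) = 0) {j : Fin n} (h : F.Q * Λ j + Λ j * F.Q =
      (X j ^ 3 : MvPolynomial (Fin n) k) • (1 : Matrix F.ι F.ι (MvPolynomial (Fin n) k))) :
    qm φ F F.Q * qm φ F (vF F Λ j) - qm φ F (vF F Λ j) * qm φ F F.Q = 0 := by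
  have h0 := qm_zero F Λ φ hφ h
  have h1 : F.Q * vF F Λ j - vF F Λ j * F.Q = sg F * (F.Q * Λ j + Λ j * F.Q) := by
    have h2 := sg_mul_three (Q_mem F)
    have h3 : F.Q * sg F = -(sg F * F.Q) := by rw [h2, neg_neg]
    rw [vF, Matrix.mul_neg, ← Matrix.mul_assoc, h3]
    simp only [Matrix.neg_mul, neg_neg, sub_neg_eq_add, Matrix.mul_add, Matrix.mul_assoc]
  rw [← map_mul, ← map_mul, ← map_sub, h1, map_mul, map_add, map_mul, map_mul, h0, mul_zero]

lemma v1_Q_u (hφ : ∀ j, φ (X j ^ 3) = 0) {j : Fin n} (h : F.Q * Λ j + Λ j * F.Q =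
      (X j ^ 3 : MvPolynomial (Fin n) k) • (1 : Matrix F.ι F.ι (MvPolynomial (Fin n) k))) :
    qm φ F F.Q * qm φ F (uF F Λ j) - qm φ F (uF F Λ j) * qm φ F F.Q =
      φ (-(pderiv j f)) • (qm φ F (sg F) * qm φ F (vF F Λ j)) := by
  have h0 := qm_zero F Λ φ hφ h
  have h1 : F.Q * uF F Λ j - uF F Λ j * F.Q = (pderiv j f) • Λ j -
      F.Q.map (pderiv j) * (F.Q * Λ j + Λ j * F.Q) := by
    have h2 : F.Q * F.Q.map (pderiv j) =
        (pderiv j f) • (1 : Matrix F.ι F.ι (MvPolynomial (Fin n) k)) -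
          F.Q.map (pderiv j) * F.Q := by
      rw [← v1_dQ F j]; abel
    rw [uF, ← Matrix.mul_assoc, h2, Matrix.sub_mul, Matrix.smul_mul, Matrix.one_mul,
      Matrix.mul_add]
    simp only [Matrix.mul_assoc]
    abel
  have h3 : sg F * vF F Λ j = -Λ j := by
    rw [vF, Matrix.mul_neg, ← Matrix.mul_assoc, sg_sq, Matrix.one_mul]
  rw [← map_mul, ← map_mul, ← map_sub, h1, map_sub, map_mul, map_add, map_mul, map_mul, h0,
    mul_zero, sub_zero, ← map_mul, h3, qm_smul, map_neg, map_neg, smul_neg, neg_smul, neg_neg]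

end quot

lemma gF_rel_aux {R : Type} [CommRing R] (φ : MvPolynomial (Fin n) k →+* R)
    (hφ : ∀ j, φ (X j ^ 3) = 0) (F : MF f) (Λ : Fin n → Matrix F.ι F.ι (MvPolynomial (Fin n) k))
    (hΛ : ∀ j, Λ j ∈ Hom F F 3)
    (h : ∀ j, F.Q * Λ j + Λ j * F.Q =
      (X j ^ 3 : MvPolynomial (Fin n) k) • (1 : Matrix F.ι F.ι (MvPolynomial (Fin n) k)))
    (B : Finset (Fin n)) :
    φ (∑ j ∈ Bᶜ, ks B j • (pderiv j f * gF F Λ (insert j B))) = 0 := by
  classical
  have key := comm_ofFn (S := R) n (qm φ F F.Q) (qm φ F (sg F))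
    (fun j => if j ∈ B then qm φ F (vF F Λ j) else qm φ F (uF F Λ j)) (fun j => qm φ F (vF F Λ j))
    (fun j => if j ∈ B then (-1 : ℤ) else 1)
    (fun j => if j ∈ B then 0 else φ (-(pderiv j f)))
    (by
      intro i
      split_ifs
      · rw [← map_mul, v1_v_s hΛ, map_neg, map_mul, neg_one_smul]
      · rw [← map_mul, v1_u_s hΛ, map_mul, one_smul])
    (by
      intro i
      split_ifs
      · rw [v1_Q_v φ hφ (h i), zero_smul]
      · rw [v1_Q_u φ hφ (h i)])
  have h0 := congrArg Matrix.trace key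
  rw [Matrix.trace_sub, Matrix.trace_mul_comm, sub_self, Matrix.trace_sum] at h0
  rw [← neg_eq_zero, h0,
    ← Finset.sum_filter_add_sum_filter_not Finset.univ (fun j => j ∈ B)]
  have h1 : ∀ j ∈ Finset.univ.filter (fun j => j ∈ B),
      ((∏ i ∈ Finset.univ.filter (· < j), (if i ∈ B then (-1 : ℤ) else 1)) •
        (if j ∈ B then (0 : R) else
          φ (-(pderiv j f))) •
        (qm φ F (sg F) * (List.ofFn (Function.update
          (fun j => if j ∈ B then qm φ F (vF F Λ j) else qm φ F (uF F Λ j)) j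
            (qm φ F (vF F Λ j)))).prod)).trace = 0 := by
    intro j hj
    rw [if_pos (Finset.mem_filter.1 hj).2, zero_smul, smul_zero, Matrix.trace_zero]
  rw [Finset.sum_congr rfl h1, Finset.sum_const_zero, zero_add]
  have h2 : Finset.univ.filter (fun j => ¬ j ∈ B) = Bᶜ := by ext; simp
  rw [h2, map_sum, ← Finset.sum_neg_distrib]
  refine Finset.sum_congr rfl fun j hj => ?_
  have hjB : j ∉ B := Finset.mem_compl.1 hj
  rw [v1_ks_prod, if_neg hjB, Matrix.trace_smul, Matrix.trace_smul, map_zsmul, map_mul, gF,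
    qm_trace, map_mul, qm_list, smul_eq_mul, map_neg]
  have h3 : (Function.update (fun j => if j ∈ B then qm φ F (vF F Λ j) else qm φ F (uF F Λ j)) j
      (qm φ F (vF F Λ j))) = fun i => qm φ F (if i ∈ insert j B then vF F Λ i else uF F Λ i) := by
    funext i
    rcases eq_or_ne i j with rfl | h
    · simp
    · rw [Function.update_of_ne h]
      by_cases hi : i ∈ B
      · simp [hi]
      · simp [hi, h]
  rw [h3, neg_mul, smul_neg]

theorem I3_mk (j : Fin n) : Ideal.Quotient.mk (I3 k n) (X j ^ 3) = 0 :=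
  Ideal.Quotient.eq_zero_iff_mem.2 (Ideal.subset_span ⟨j, rfl⟩)

theorem gF_rel (F : MF f) (Λ : Fin n → Matrix F.ι F.ι (MvPolynomial (Fin n) k))
    (hΛ : ∀ j, Λ j ∈ Hom F F 3)
    (h : ∀ j, F.Q * Λ j + Λ j * F.Q =
      (X j ^ 3 : MvPolynomial (Fin n) k) • (1 : Matrix F.ι F.ι (MvPolynomial (Fin n) k)))
    (B : Finset (Fin n)) :
    ∑ j ∈ Bᶜ, ks B j • (pderiv j f * gF F Λ (insert j B)) ∈ I3 k n :=
  Ideal.Quotient.eq_zero_iff_mem.1
    (gF_rel_aux (Ideal.Quotient.mk (I3 k n)) I3_mk F Λ hΛ h B)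

lemma v1_pderiv_wt {p : MvPolynomial (Fin n) k} {e : ℤ} (hp : Hg p e) (j : Fin n) :
    Hg (pderiv j p) (e - 2) := by
  classical
  rw [p.as_sum, map_sum]
  refine Hg.sum _ fun m hm => ?_
  rw [pderiv_monomial]
  intro m' hm'
  have h1 := hp m hm
  by_cases hmj : m j = 0
  · simp [hmj] at hm'
  · have h2 : m' = m - Finsupp.single j 1 := by
      have := MvPolynomial.support_monomial_subset hm'
      simpa using this
    have h3 : Finsupp.single j 1 ≤ m := by
      rw [Finsupp.single_le_iff]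
      omega
    have h4 : m' + Finsupp.single j 1 = m := by
      rw [h2, tsub_add_cancel_of_le h3]
    have h5 : m'.degree + 1 = m.degree := by
      rw [← h4, map_add, Finsupp.degree_single]
    omega

theorem cE_wt (E : MF f) (A : Finset (Fin n)) : Hg (cE E A) A.card := by
  classical
  have hr : ∀ j i i', Hg (rE E j i i') (E.w i - E.w i' + 1) := by
    intro j i i'
    rw [rE, sg, Matrix.mul_diagonal, Matrix.map_apply, Matrix.transpose_apply]
    exact ((v1_pderiv_wt (E.hQ i' i) j).mul (Hg.C _)).of_eq (by ring)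
  have hl : ∀ (m : ℕ) (g : Fin m → Fin n), ∀ i i', Hg ((List.ofFn fun j : Fin m =>
      if g j ∈ A then rE E (g j) else (1 : Matrix E.ι E.ι (MvPolynomial (Fin n) k))).prod i i')
      (E.w i - E.w i' + (Finset.univ.filter fun j => g j ∈ A).card) := by
    intro m
    induction m with
    | zero =>
      intro g i i'
      rw [List.ofFn_zero, List.prod_nil]
      rcases eq_or_ne i i' with rfl | h
      · rw [Matrix.one_apply_eq]
        exact Hg.one.of_eq (by simp)
      · rw [Matrix.one_apply_ne h]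
        exact Hg.zero _
    | succ m ih =>
      intro g i i'
      rw [List.ofFn_succ, List.prod_cons, Matrix.mul_apply]
      refine Hg.sum _ fun l _ => ?_
      have h1 := ih (fun j => g j.succ) l i'
      have h2 : (Finset.univ.filter fun j : Fin (m + 1) => g j ∈ A).card =
          (if g 0 ∈ A then 1 else 0) + (Finset.univ.filter fun j : Fin m => g j.succ ∈ A).card := by
        rw [Finset.card_filter, Finset.card_filter, Fin.sum_univ_succ]
      rw [h2]
      by_cases h3 : g 0 ∈ A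
      · rw [if_pos h3, if_pos h3]
        exact ((hr (g 0) i l).mul h1).of_eq (by push_cast; ring)
      · rw [if_neg h3, if_neg h3]
        rcases eq_or_ne i l with rfl | h
        · rw [Matrix.one_apply_eq]
          exact (Hg.one.mul h1).of_eq (by push_cast; ring)
        · rw [Matrix.one_apply_ne h, zero_mul]
          exact Hg.zero _
  rw [cE, v1_trace_sg]
  refine Hg.sum _ fun i _ => ?_
  have h1 := hl n id i i
  have h2 : (Finset.univ.filter fun j : Fin n => id j ∈ A).card = A.card := by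
    congr 1
    ext; simp
  rw [h2] at h1
  exact ((Hg.C _).mul h1).of_eq (by ring)

lemma v1_comm_tr {ι S : Type*} [Fintype ι] [DecidableEq ι] [CommRing S] (s Q M P : Matrix ι ι S)
    (hc : Q * P = P * Q) :
    (s * (Q * M + M * Q) * P).trace = ((s * Q + Q * s) * (M * P)).trace := by
  have e1 : s * (Q * M + M * Q) * P = s * Q * (M * P) + s * M * P * Q := by
    rw [mul_add, add_mul]
    simp only [mul_assoc]
    rw [hc]
  have e2 : (s * M * P * Q).trace = (Q * s * (M * P)).trace := by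
    rw [Matrix.trace_mul_comm]
    simp only [mul_assoc]
  rw [e1, Matrix.trace_add, e2, add_mul, Matrix.trace_add]

lemma gF_univ_aux {R : Type} [CommRing R] (φ : MvPolynomial (Fin n) k →+* R)
    (hφ : ∀ j, φ (X j ^ 3) = 0) (F : MF f) (Λ : Fin n → Matrix F.ι F.ι (MvPolynomial (Fin n) k))
    (hΛ : ∀ j, Λ j ∈ Hom F F 3)
    (h : ∀ j, F.Q * Λ j + Λ j * F.Q =
      (X j ^ 3 : MvPolynomial (Fin n) k) • (1 : Matrix F.ι F.ι (MvPolynomial (Fin n) k)))
    {M : Matrix F.ι F.ι (MvPolynomial (Fin n) k)} (hM : M ∈ Hom F F 3)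
    {q : MvPolynomial (Fin n) k}
    (hq : F.Q * M + M * F.Q = q • (1 : Matrix F.ι F.ι (MvPolynomial (Fin n) k))) :
    φ (q * gF F Λ Finset.univ) = 0 := by
  classical
  have key := comm_ofFn (S := R) n (qm φ F F.Q) (qm φ F (sg F))
    (fun j => qm φ F (vF F Λ j)) (fun j => qm φ F (vF F Λ j)) (fun _ => (-1 : ℤ)) (fun _ => 0)
    (by
      intro i
      rw [← map_mul, v1_v_s hΛ, map_neg, map_mul, neg_one_smul])
    (by
      intro i
      rw [v1_Q_v φ hφ (h i), zero_smul])
  simp only [zero_smul, smul_zero, Finset.sum_const_zero] at key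
  set P : Matrix F.ι F.ι (R) :=
    (List.ofFn fun j => qm φ F (vF F Λ j)).prod with hP
  have hcomm : qm φ F F.Q * P = P * qm φ F F.Q := sub_eq_zero.1 key
  have hsQ : qm φ F (sg F) * qm φ F F.Q + qm φ F F.Q * qm φ F (sg F) = 0 := by
    rw [← map_mul, ← map_mul, ← map_add, sg_mul_three (Q_mem F), neg_add_cancel, map_zero]
  rw [map_mul, gF, qm_trace, map_mul, qm_list]
  have hfam : (fun i : Fin n => qm φ F (if i ∈ Finset.univ then vF F Λ i else uF F Λ i)) =
      fun j => qm φ F (vF F Λ j) := by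
    funext i
    rw [if_pos (Finset.mem_univ i)]
  rw [hfam, ← hP]
  have h1 : φ q * (qm φ F (sg F) * P).trace =
      (qm φ F (sg F) * (qm φ F F.Q * qm φ F M + qm φ F M * qm φ F F.Q) * P).trace := by
    rw [← map_mul, ← map_mul, ← map_add, hq, qm_smul, map_one, Matrix.mul_smul, Matrix.mul_one,
      Matrix.smul_mul, Matrix.trace_smul, smul_eq_mul]
  have h2 : (qm φ F (sg F) * (qm φ F F.Q * qm φ F M + qm φ F M * qm φ F F.Q) * P).trace =
      ((qm φ F (sg F) * qm φ F F.Q + qm φ F F.Q * qm φ F (sg F)) * (qm φ F M * P)).trace :=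
    v1_comm_tr _ _ _ _ hcomm
  rw [h1, h2, hsQ, zero_mul, Matrix.trace_zero]

theorem gF_univ (F : MF f) (Λ : Fin n → Matrix F.ι F.ι (MvPolynomial (Fin n) k))
    (hΛ : ∀ j, Λ j ∈ Hom F F 3)
    (h : ∀ j, F.Q * Λ j + Λ j * F.Q =
      (X j ^ 3 : MvPolynomial (Fin n) k) • (1 : Matrix F.ι F.ι (MvPolynomial (Fin n) k)))
    {M : Matrix F.ι F.ι (MvPolynomial (Fin n) k)} (hM : M ∈ Hom F F 3)
    {q : MvPolynomial (Fin n) k}
    (hq : F.Q * M + M * F.Q = q • (1 : Matrix F.ι F.ι (MvPolynomial (Fin n) k))) :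
    q * gF F Λ Finset.univ ∈ I3 k n :=
  Ideal.Quotient.eq_zero_iff_mem.1
    (gF_univ_aux (Ideal.Quotient.mk (I3 k n)) I3_mk F Λ hΛ h hM hq)

theorem coeff_topM_of_mem {p : MvPolynomial (Fin n) k} (hp : p ∈ I3 k n) :
    coeff (topM n) p = 0 := by
  classical
  obtain ⟨c, rfl⟩ := Ideal.mem_span_range_iff_exists_fun.1 hp
  rw [coeff_sum]
  refine Finset.sum_eq_zero fun i _ => ?_
  rw [X_pow_eq_monomial, coeff_mul_monomial', if_neg]
  intro h1
  have h2 := h1 i
  rw [Finsupp.single_eq_same] at h2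
  have h3 : topM n i = 2 := topM_apply i
  omega

end MF

end KuMF
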