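import Pool.Agent.H91.MF.Van1
import Pool.Agent.H91.MF.Der2

/-!
# Vanishing of the supertrace for very general cubics

STATEMENT TO PROVE (job MF-VAN2), from the statements of `Van1`, `Kos`, `Der2`. All terms of
`∑_A gF A * cE A` are treated according to `|A|`; `I = I3`, then `coeff_topM_of_mem`.
 - `A = ∅`: `cE_rel` for `B = {j}`: `p_j * cE ∅ = 0`, and `p_j ≠ 0` (`kos2` for
   `c = Pi.single j (X 0)`), so `cE ∅ = 0`.
 - `|A|` odd: `cE_wt`, `2 |m| = |A|` is impossible, so `cE A = 0`.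
 - `|A| = 2`: let `l ∉ A`, `B = insert l A`; `kos2` for
   `c j = if j ∈ B then ks B j • cE (B.erase j) else 0` (degree `1` by `cE_wt`) and `cE_rel` give
   `c l = 0`, so `cE A = 0` (`ks = ±1`).
 - `|A| = 4`: `kos4` for `c = cE E` (degree `2` by `cE_wt`, `cE_rel`) gives `η`;
   `∑_{|A|=4} gF A * ∑_{j ∈ A} ks A j η_{A∖j} p_j
     = ∑_{|T|=3} η_T ∑_{j ∉ T} ks T j p_j gF (insert j T)`
   (`Finset.sum_bij'` on pairs `(A, j) ↔ (A.erase j, j)`, `ks A j = ks (A.erase j) j`),
   which lies in `I` by `gF_rel`.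
 - `|A| = 6`, `A = univ`: `cE univ` is a cubic `q` (`cE_wt`), `exists_homotopy` gives `M`, `gF_univ`.
-/

open MvPolynomial

noncomputable section

namespace KuMF

namespace MF

lemma ks_sq {n : ℕ} (A : Finset (Fin n)) (j : Fin n) : ks A j * ks A j = 1 := by
  unfold ks
  rw [← mul_pow]
  norm_num

lemma ks_smul_eq_zero {n : ℕ} {R : Type*} [AddCommGroup R] (A : Finset (Fin n)) (j : Fin n) {p : R}
    (h : ks A j • p = 0) : p = 0 := by
  have h1 : ks A j • (ks A j • p) = 0 := by rw [h, smul_zero]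
  rwa [smul_smul, ks_sq, one_smul] at h1

lemma ks_erase {n : ℕ} (A : Finset (Fin n)) (j : Fin n) : ks (A.erase j) j = ks A j := by
  unfold ks
  congr 2
  ext i
  simp only [Finset.mem_filter, Finset.mem_erase]
  constructor
  · rintro ⟨⟨-, h⟩, h'⟩
    exact ⟨h, h'⟩
  · rintro ⟨h, h'⟩
    exact ⟨⟨ne_of_lt h', h⟩, h'⟩

lemma hom_of_Hg {n : ℕ} {k : Type} [Field k] {p : MvPolynomial (Fin n) k} {d : ℕ} {e : ℤ}
    (h : Hg p e) (he : e = 2 * d) : p.IsHomogeneous d := by
  intro m hm
  have h1 := h m (MvPolynomial.mem_support_iff.mpr hm)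
  rw [he] at h1
  have h2 : m.degree = d := by
    have : (m.degree : ℤ) = d := by linarith
    exact_mod_cast this
  rw [← h2, Finsupp.degree_eq_weight_one]
  rfl

lemma eq_zero_of_odd {n : ℕ} {k : Type} [Field k] {p : MvPolynomial (Fin n) k} {a : ℕ}
    (h : Hg p a) (ha : Odd a) : p = 0 := by
  rw [← MvPolynomial.support_eq_empty, Finset.eq_empty_iff_forall_notMem]
  intro m hm
  have h1 := h m hm
  obtain ⟨b, hb⟩ := ha
  rw [hb] at h1
  push_cast at h1
  omega

lemma pderiv_ne_zero {f : MvPolynomial (Fin 6) ℂ} (hf : VG f) (hf3 : f.IsHomogeneous 3)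
    (j : Fin 6) : pderiv j f ≠ 0 := by
  intro h0
  have h1 := kos2 hf hf3 (Pi.single j (X 0)) (by
    intro i
    rcases eq_or_ne i j with rfl | h
    · rw [Pi.single_eq_same]
      exact MvPolynomial.isHomogeneous_X _ _
    · rw [Pi.single_eq_of_ne h]
      exact MvPolynomial.isHomogeneous_zero _ _ _) (by
    rw [Finset.sum_eq_single j]
    · rw [h0, zero_mul]
    · intro i _ hi
      rw [Pi.single_eq_of_ne hi, mul_zero]
    · intro h
      exact absurd (Finset.mem_univ j) h)
  have h2 := congrFun h1 j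
  rw [Pi.single_eq_same] at h2
  exact MvPolynomial.X_ne_zero _ h2

section

variable {f : MvPolynomial (Fin 6) ℂ}

lemma cE_empty (hf : VG f) (hf3 : f.IsHomogeneous 3) (E : MF f) : cE E ∅ = 0 := by
  have h := cE_rel E {0}
  rw [Finset.sum_singleton] at h
  have h1 := ks_smul_eq_zero _ _ h
  have h2 : ({0} : Finset (Fin 6)).erase 0 = ∅ := by simp
  rw [h2] at h1
  exact (mul_eq_zero.mp h1).resolve_left (pderiv_ne_zero hf hf3 0)

lemma cE_odd (E : MF f) {A : Finset (Fin 6)} (hA : Odd A.card) : cE E A = 0 :=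
  eq_zero_of_odd (cE_wt E A) hA

lemma cE_two (hf : VG f) (hf3 : f.IsHomogeneous 3) (E : MF f) {A : Finset (Fin 6)}
    (hA : A.card = 2) : cE E A = 0 := by
  obtain ⟨l, hl⟩ : ∃ l, l ∉ A := by
    by_contra hcon
    push Not at hcon
    have : A = Finset.univ := Finset.eq_univ_of_forall hcon
    rw [this] at hA
    simp at hA
  have h1 := kos2 hf hf3
    (fun j => if j ∈ insert l A then ks (insert l A) j • cE E ((insert l A).erase j) else 0) (by
      intro j
      by_cases hj : j ∈ insert l A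
      · simp only [if_pos hj]
        have hc : ((insert l A).erase j).card = 2 := by
          rw [Finset.card_erase_of_mem hj, Finset.card_insert_of_notMem hl, hA]
        have hh : (cE E ((insert l A).erase j)).IsHomogeneous 1 :=
          hom_of_Hg (cE_wt E _) (by rw [hc]; norm_num)
        exact zsmul_mem (show cE E ((insert l A).erase j) ∈ homogeneousSubmodule (Fin 6) ℂ 1
          from hh) _
      · simp only [if_neg hj]
        exact MvPolynomial.isHomogeneous_zero _ _ _) (by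
      refine Eq.trans ?_ (cE_rel E (insert l A))
      rw [← Finset.sum_subset (Finset.subset_univ (insert l A))]
      · refine Finset.sum_congr rfl fun j hj => ?_
        rw [if_pos hj, mul_smul_comm]
      · intro j _ hj
        rw [if_neg hj, mul_zero])
  have h2 := congrFun h1 l
  simp only [Finset.mem_insert_self, if_true, Pi.zero_apply] at h2
  have h3 := ks_smul_eq_zero _ _ h2
  rwa [Finset.erase_insert hl] at h3

lemma sum_four (hf : VG f) (hf3 : f.IsHomogeneous 3) (E F : MF f)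
    (Λ : Fin 6 → Matrix F.ι F.ι (MvPolynomial (Fin 6) ℂ))
    (hΛ : ∀ j, Λ j ∈ Hom F F 3)
    (h : ∀ j, F.Q * Λ j + Λ j * F.Q =
      (X j ^ 3 : MvPolynomial (Fin 6) ℂ) • (1 : Matrix F.ι F.ι (MvPolynomial (Fin 6) ℂ))) :
    ∑ A ∈ Finset.powersetCard 4 (Finset.univ : Finset (Fin 6)), gF F Λ A * cE E A ∈ I3 ℂ 6 := by
  obtain ⟨η, hη⟩ := kos4 hf hf3 (cE E) (fun A hA => hom_of_Hg (cE_wt E A) (by rw [hA]; norm_num))
    (fun B _ => cE_rel E B)
  have h1 : ∑ A ∈ Finset.powersetCard 4 (Finset.univ : Finset (Fin 6)), gF F Λ A * cE E A =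
      ∑ T ∈ Finset.powersetCard 3 (Finset.univ : Finset (Fin 6)),
        C (η T) * ∑ j ∈ Tᶜ, ks T j • (pderiv j f * gF F Λ (insert j T)) := by
    have h2 : ∀ A ∈ Finset.powersetCard 4 (Finset.univ : Finset (Fin 6)), gF F Λ A * cE E A =
        ∑ j ∈ A, gF F Λ A * (ks A j • (C (η (A.erase j)) * pderiv j f)) := by
      intro A hA
      rw [hη A (Finset.mem_powersetCard.mp hA).2, Finset.mul_sum]
    rw [Finset.sum_congr rfl h2]
    simp_rw [Finset.mul_sum]
    rw [Finset.sum_sigma', Finset.sum_sigma']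
    refine Finset.sum_bij' (fun x _ => (⟨x.1.erase x.2, x.2⟩ : Σ _ : Finset (Fin 6), Fin 6))
      (fun x _ => (⟨insert x.2 x.1, x.2⟩ : Σ _ : Finset (Fin 6), Fin 6)) ?_ ?_ ?_ ?_ ?_
    · rintro ⟨A, j⟩ hx
      simp only [Finset.mem_sigma, Finset.mem_powersetCard, Finset.mem_compl] at hx ⊢
      obtain ⟨⟨_, hA⟩, hj⟩ := hx
      refine ⟨⟨Finset.subset_univ _, ?_⟩, Finset.notMem_erase _ _⟩
      rw [Finset.card_erase_of_mem hj, hA]
    · rintro ⟨T, j⟩ hx
      simp only [Finset.mem_sigma, Finset.mem_powersetCard, Finset.mem_compl] at hx ⊢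
      obtain ⟨⟨_, hT⟩, hj⟩ := hx
      refine ⟨⟨Finset.subset_univ _, ?_⟩, Finset.mem_insert_self _ _⟩
      rw [Finset.card_insert_of_notMem hj, hT]
    · rintro ⟨A, j⟩ hx
      simp only [Finset.mem_sigma] at hx
      simp only [Finset.insert_erase hx.2]
    · rintro ⟨T, j⟩ hx
      simp only [Finset.mem_sigma, Finset.mem_compl] at hx
      simp only [Finset.erase_insert hx.2]
    · rintro ⟨A, j⟩ hx
      simp only [Finset.mem_sigma] at hx
      simp only [Finset.insert_erase hx.2, ks_erase]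
      rw [mul_smul_comm, mul_smul_comm]
      congr 1
      ring
  rw [h1]
  refine Ideal.sum_mem _ fun T _ => Ideal.mul_mem_left _ _ ?_
  exact gF_rel F Λ hΛ h T

end

theorem vanishing {f : MvPolynomial (Fin 6) ℂ} (hf : VG f) (hf3 : f.IsHomogeneous 3)
    (E F : MF f) (Λ : Fin 6 → Matrix F.ι F.ι (MvPolynomial (Fin 6) ℂ))
    (hΛ : ∀ j, Λ j ∈ Hom F F 3)
    (h : ∀ j, F.Q * Λ j + Λ j * F.Q =
      (X j ^ 3 : MvPolynomial (Fin 6) ℂ) • (1 : Matrix F.ι F.ι (MvPolynomial (Fin 6) ℂ))) :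
    coeff (topM 6) (∑ A : Finset (Fin 6), gF F Λ A * cE E A) = 0 := by
  apply coeff_topM_of_mem
  rw [← Finset.sum_filter_add_sum_filter_not Finset.univ (fun A : Finset (Fin 6) => A.card = 4)]
  refine Ideal.add_mem _ ?_ (Ideal.sum_mem _ fun A hA => ?_)
  · have h4 : Finset.univ.filter (fun A : Finset (Fin 6) => A.card = 4) =
        Finset.powersetCard 4 (Finset.univ : Finset (Fin 6)) := by
      ext A
      simp [Finset.mem_powersetCard]
    rw [h4]
    exact sum_four hf hf3 E F Λ hΛ h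
  · have hA4 : A.card ≠ 4 := (Finset.mem_filter.mp hA).2
    have hA6 : A.card ≤ 6 := by
      have := Finset.card_le_univ A
      simpa using this
    have hcases : A.card = 0 ∨ Odd A.card ∨ A.card = 2 ∨ A.card = 6 := by
      rcases Nat.even_or_odd A.card with ⟨b, hb⟩ | ho
      · omega
      · exact Or.inr (Or.inl ho)
    rcases hcases with h0 | h0 | h0 | h0
    · rw [Finset.card_eq_zero.mp h0, cE_empty hf hf3, mul_zero]
      exact Ideal.zero_mem _
    · rw [cE_odd E h0, mul_zero]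
      exact Ideal.zero_mem _
    · rw [cE_two hf hf3 E h0, mul_zero]
      exact Ideal.zero_mem _
    · have hu : A = Finset.univ := by
        apply Finset.eq_univ_of_card
        rw [h0]
        simp
      subst hu
      obtain ⟨M, hM, hq⟩ := exists_homotopy hf hf3 F (cE E Finset.univ)
        (hom_of_Hg (cE_wt E Finset.univ) (by rw [h0]; norm_num))
      rw [mul_comm]
      exact gF_univ F Λ hΛ h hM hq

end MF

end KuMF
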