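import Pool.Agent.H91.MF.MonId
import Pool.Agent.H91.MF.KosIter

/-!
# The weight trace

STATEMENTS TO PROVE (job MF-WT). `D` of weight `3` for the weights `wt : κ → ℤ`, `ζ^3 = -1`.
`wtOp n ζ wt : x^m e_a ↦ ζ^(2|m| + wt a) x^m e_a`.
`wtOp_anti`: `wtOp` anticommutes with `D`: with the algebra endomorphism `T : X_i ↦ ζ^2 X_i`,
`T p = ζ^e p` if `p` is homogeneous of weight `e` (`Hg p e`), so
`ζ^(wt a) T (∑_b D_ab v_b) = ∑_b ζ^(wt a + wt b - wt a + 3) D_ab T v_b`, and `ζ^3 = ζ^(-3) = -1`.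
`wt_trace`: apply `kos_iter` with `c = ζ^2`, `V = κ → S`, `W = κ → k`, `y i = yOp κ k 1 i`,
`π = coef0`, `A = wtOp n ζ wt`, `AW w a = ζ^(wt a) w a`, `DW = π ∘ opM D ∘ sec0`
(`opM D` preserves `ker π = ⨆ range (y i)` and `v - sec0 (π v) ∈ ker π`), regularity
`yOp_regular`; `tr AW = ∑_a ζ^(wt a)` (`trace_pi'`).
-/

open MvPolynomial

noncomputable section

namespace KuMF

variable {k : Type} [Field k] {n : ℕ} {κ : Type} [Fintype κ] [DecidableEq κ]

theorem aeval_scale_of_Hg {ζ : k} (hζ : ζ ≠ 0) {p : MvPolynomial (Fin n) k} {e : ℤ}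
    (hp : Hg p e) : aeval (fun i => C (ζ ^ 2) * X i) p = C (ζ ^ e) * p := by
  have key : ∀ m ∈ p.support,
      aeval (fun i => (C (ζ ^ 2) * X i : MvPolynomial (Fin n) k)) (monomial m (coeff m p)) =
        C (ζ ^ e) * monomial m (coeff m p) := by
    intro m hm
    have h1 := hp m hm
    rw [aeval_monomial]
    have h2 : (m.prod fun i j => (C (ζ ^ 2) * X i : MvPolynomial (Fin n) k) ^ j) =
        C (ζ ^ e) * (m.prod fun i j => (X i : MvPolynomial (Fin n) k) ^ j) := by
      have h3 : (m.prod fun i j => (C (ζ ^ 2) * X i : MvPolynomial (Fin n) k) ^ j) =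
          (m.prod fun _ j => (C (ζ ^ 2) : MvPolynomial (Fin n) k) ^ j) *
            (m.prod fun i j => (X i : MvPolynomial (Fin n) k) ^ j) := by
        rw [← Finsupp.prod_mul]
        congr 1
        funext i j
        rw [mul_pow]
      rw [h3]
      congr 1
      rw [Finsupp.prod, Finset.prod_pow_eq_pow_sum, ← C_pow]
      congr 1
      have h4 : ∑ i ∈ m.support, m i = m.degree := rfl
      rw [h4, ← h1, ← pow_mul, ← zpow_natCast]
      congr 1
    rw [h2, monomial_eq]
    rw [MvPolynomial.algebraMap_eq]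
    ring
  conv_lhs => rw [p.as_sum, map_sum]
  rw [Finset.sum_congr rfl key, ← Finset.mul_sum, ← p.as_sum]

theorem wtOp_anti {D : Matrix κ κ (MvPolynomial (Fin n) k)} {wt : κ → ℤ} {ζ : k}
    (hw : ∀ a b, Hg (D a b) (wt b - wt a + 3)) (hζ : ζ ^ 3 = -1)
    (v : κ → MvPolynomial (Fin n) k) :
    opM D (wtOp n ζ wt v) = (-1 : k) • wtOp n ζ wt (opM D v) := by
  have hζ0 : ζ ≠ 0 := by
    rintro rfl
    have h1 : (0 : k) ^ 3 = 0 := by simp
    rw [h1] at hζ
    exact neg_one_ne hζ.symm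
  funext a
  rw [opM_apply, opM_apply, Pi.smul_apply, wtOp_apply, Matrix.mulVec, Matrix.mulVec,
    dotProduct, dotProduct, map_sum, Finset.smul_sum, Finset.smul_sum]
  refine Finset.sum_congr rfl fun b _ => ?_
  rw [wtOp_apply, map_mul, aeval_scale_of_Hg hζ0 (hw a b)]
  have h2 : ζ ^ (wt b - wt a + 3) = -(ζ ^ wt b * (ζ ^ wt a)⁻¹) := by
    rw [zpow_add₀ hζ0, zpow_sub₀ hζ0]
    have : ζ ^ (3 : ℤ) = -1 := by
      rw [show (3 : ℤ) = ((3 : ℕ) : ℤ) by norm_num, zpow_natCast, hζ]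
    rw [this]
    ring
  have hza : ζ ^ wt a ≠ 0 := zpow_ne_zero _ hζ0
  rw [h2, smul_eq_C_mul, smul_eq_C_mul, smul_eq_C_mul]
  simp only [C_neg, C_mul, C_1]
  have h3 : (C (ζ ^ wt a) : MvPolynomial (Fin n) k) * C ((ζ ^ wt a)⁻¹) = 1 := by
    rw [← C_mul, mul_inv_cancel₀ hza, C_1]
  linear_combination (-(D a b) * C (ζ ^ wt b) *
    aeval (fun i => (C (ζ ^ 2) * X i : MvPolynomial (Fin n) k)) (v b)) * h3

theorem wt_trace (D : Matrix κ κ (MvPolynomial (Fin n) k)) (wt : κ → ℤ) (ζ : k)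
    (hD : D * D = 0) (hw : ∀ a b, Hg (D a b) (wt b - wt a + 3)) (hζ : ζ ^ 3 = -1)
    [Module.Finite k (Hc (opM D))] :
    ∑ a, ζ ^ wt a = (1 - ζ ^ 2) ^ n *
      LinearMap.trace k (Hc (opM D))
        (Hc.map (wtOp n ζ wt) (-1) neg_one_ne (wtOp_anti hw hζ)) := by
  have hπD : ∀ v a, coef0 κ k n (opM D v) a =
      ∑ b, coeff 0 (D a b) * coef0 κ k n v b := by
    intro v a
    change coeff 0 (D.mulVec v a) = ∑ b, coeff 0 (D a b) * coeff 0 (v b)
    rw [Matrix.mulVec, dotProduct, coeff_sum]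
    refine Finset.sum_congr rfl fun b _ => ?_
    exact map_mul (constantCoeff (R := k) (σ := Fin n)) _ _
  have hc0 : ∀ p : MvPolynomial (Fin n) k,
      coeff 0 (aeval (fun i => (C (ζ ^ 2) * X i : MvPolynomial (Fin n) k)) p) = coeff 0 p := by
    intro p
    have h1 : (constantCoeff (R := k) (σ := Fin n)).comp
        (aeval (fun i => (C (ζ ^ 2) * X i : MvPolynomial (Fin n) k))).toRingHom =
        constantCoeff (R := k) (σ := Fin n) := by
      apply MvPolynomial.ringHom_ext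
      · intro r
        simp
      · intro i
        simp
    have h2 := congrArg (fun g => g p) h1
    exact h2
  let AW : (κ → k) →ₗ[k] (κ → k) :=
    { toFun := fun w a => ζ ^ wt a * w a
      map_add' := fun v w => by funext a; simp [mul_add]
      map_smul' := fun c v => by
        funext a
        simp only [Pi.smul_apply, smul_eq_mul, RingHom.id_apply]
        ring }
  have h := kos_iter (ζ ^ 2) n (opM D) (wtOp n ζ wt) (fun i => yOp κ k 1 i)
    ((coef0 κ k n) ∘ₗ (opM D) ∘ₗ (sec0 κ k n)) AW (coef0 κ k n)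
    (fun v => opM_sq hD v)
    (fun w => ⟨sec0 κ k n w, coef0_sec0 w⟩)
    ker_coef0
    (fun i j v => by
      funext a
      rw [yOp_apply, yOp_apply, yOp_apply, yOp_apply]
      ring)
    (fun i v => by
      funext a
      rw [yOp_apply, opM_apply, opM_apply, Matrix.mulVec, Matrix.mulVec, dotProduct, dotProduct,
        Finset.mul_sum]
      refine Finset.sum_congr rfl fun b _ => ?_
      rw [yOp_apply]
      ring)
    (fun i v hv => yOp_regular 1 i v hv)
    (wtOp_anti hw hζ)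
    (fun i v => by
      funext a
      rw [wtOp_apply, Pi.smul_apply, yOp_apply, yOp_apply, wtOp_apply, map_mul, map_pow, aeval_X,
        smul_eq_C_mul, smul_eq_C_mul, smul_eq_C_mul]
      ring)
    (fun v => by
      funext a
      change coef0 κ k n (opM D (sec0 κ k n (coef0 κ k n v))) a = _
      rw [hπD, hπD, coef0_sec0])
    (fun v => by
      funext a
      change ζ ^ wt a * coeff 0 (v a) = coeff 0 (wtOp n ζ wt v a)
      rw [wtOp_apply, coeff_smul, hc0, smul_eq_mul])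
  rw [← h, trace_pi']
  refine Finset.sum_congr rfl fun a _ => ?_
  change ζ ^ wt a = ζ ^ wt a * (Pi.single a (1 : k) : κ → k) a
  rw [Pi.single_eq_same, mul_one]

end KuMF
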